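import Pool.Agent.HStar.Asm
import Pool.Agent.HSix.Refl
import Pool.Agent.HOut.OutFin
import Pool.Agent.HHalfC.CAll

set_option autoImplicit false

namespace Pool.Agent.HStar

open MeasureTheory Set Filter Topology Complex ComplexConjugate Pool.Agent.HHalf
  Pool.Agent.ConjInterp Function Polynomial

/-- The threshold on the side of `x` (sum over the pairs). -/
noncomputable def thr (N k : ℕ) : ℝ := if k = 1 then 3 / 2 else Pool.Agent.HHalfC.cth N k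

/-- The statement of order `k` in the middle region for `N` pairs, `0 ≤ x < 1`. -/
def MidH (N k : ℕ) : Prop :=
  ∀ (L : Fin N → ℂ) (x : ℝ), (∀ a, ‖L a‖ ≤ 1) → 0 ≤ x → x < 1 →
    thr N k < ∑ a, (1 - (L a).re) → Pool.Agent.HHalfB.bal k < ∑ a, (1 + (L a).re) →
    (∃ a, (L a).re < (x - 1) / 2) → (∃ a, (1 + x) / 2 < (L a).re) → PW L k x

theorem MidH.pw {N k : ℕ} (h : MidH N k) (hk1 : 1 ≤ k) (hkN : k + 1 ≤ N) {L : Fin N → ℂ}
    (hL : ∀ a, ‖L a‖ ≤ 1) {x : ℝ} (hx0 : 0 ≤ x) (hx1 : x ≤ 1) : PW L k x := by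
  have hx : x ∈ Icc (-1:ℝ) 1 := ⟨by linarith, hx1⟩
  by_cases ho : (∀ a, (L a).re ≤ (1 + x) / 2) ∨ (∀ a, (x - 1) / 2 ≤ (L a).re)
  · intro g hg hb
    obtain ⟨e, he, hle⟩ := Pool.Agent.HOut.out_fin hL (by omega : k ≤ 2 * N) hg hb hx ho
    refine ⟨e, ?_, hle⟩
    rcases he with rfl | rfl
    · exact ⟨by norm_num, le_rfl⟩
    · exact ⟨le_rfl, by norm_num⟩
  push Not at ho
  by_cases h3 : ∑ a, (1 + (L a).re) ≤ Pool.Agent.HHalfB.bal k ∨
      ∑ a, (1 - (L a).re) ≤ Pool.Agent.HHalfB.bal k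
  · intro g hg hb
    exact Pool.Agent.HHalfB.pointwise_unbal hL hk1 (by omega) h3 hg hb hx
  push Not at h3
  have hxlt : x < 1 := by
    obtain ⟨a, ha⟩ := ho.1
    have h1 : (L a).re ≤ 1 := (Complex.re_le_norm _).trans (hL a)
    linarith
  by_cases h4 : 2 ≤ k ∧ ∑ a, (1 - (L a).re) ≤ Pool.Agent.HHalfC.cth N k
  · intro g hg hb
    exact Pool.Agent.HHalfC.pointwise_cluster hL h4.1 (by omega) hx (Or.inr ⟨hx0, h4.2⟩) hg hb
  refine h L x hL hx0 hxlt ?_ h3.1 ho.2 ho.1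
  unfold thr
  by_cases hk : k = 1
  · rw [if_pos hk]
    have h5 := h3.2
    rw [hk] at h5
    have h6 : Pool.Agent.HHalfB.bal 1 = 3 / 2 := by unfold Pool.Agent.HHalfB.bal; norm_num
    rwa [h6] at h5
  · rw [if_neg hk]
    push Not at h4
    exact h4 (by omega)

/-- FINAL ASSEMBLY: the equality of the problem from `MidH N k`, `1 ≤ k ≤ N - 1`. -/
theorem final (h : ∀ N k : ℕ, 1 ≤ k → k + 1 ≤ N → MidH N k) :
    ∀ (n k : ℕ) (z : Fin n → ℂ), 1 ≤ n → k ≤ n - 1 → (∀ i, ‖z i‖ ≤ 1) →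
      (∀ w : ℂ, Nat.card {j : Fin n // z j = w} = Nat.card {j : Fin n // z j = (starRingEnd ℂ) w}) →
      (∀ r : ℝ, Even (Nat.card {j : Fin n // z j = (r : ℂ)})) →
      sSup {t : ℝ | ∃ g : ℂ → ℂ, ∃ p : Polynomial ℂ, ∃ x : ℝ,
          Differentiable ℂ g ∧
          (∀ w : ℂ, ‖w‖ ≤ 1 → ‖iteratedDeriv n g w‖ ≤ 1) ∧
          p.degree < (n : WithBot ℕ) ∧
          (∀ i : Fin n, ∀ m : ℕ, m < Nat.card {j : Fin n // z j = z i} →
              iteratedDeriv m (fun w => g w - p.eval w) (z i) = 0) ∧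
          x ∈ Set.Icc (-1 : ℝ) 1 ∧
          t = ‖iteratedDeriv k (fun w => g w - p.eval w) (x : ℂ)‖}
        = (1 / (n.factorial : ℝ)) *
          sSup {t : ℝ | ∃ x : ℝ, x ∈ Set.Icc (-1 : ℝ) 1 ∧
            t = ‖iteratedDeriv k (fun w : ℂ => ∏ j, (w - z j)) (x : ℂ)‖} := by
  intro n k z hn hk hz hc hev
  have key : ∀ (N k : ℕ) (L : Fin N → ℂ) (x : ℝ), (∀ a, ‖L a‖ ≤ 1) → 1 ≤ k → k + 1 ≤ N →
      x ∈ Icc (-1:ℝ) 1 → PW L k x := by
    intro N k L x hL h1 h2 hx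
    rcases le_total 0 x with h0 | h0
    · exact (h N k h1 h2).pw h1 h2 hL h0 hx.2
    · apply PW_neg
      exact (h N k h1 h2).pw h1 h2 (fun a => by rw [norm_neg]; exact hL a) (by linarith)
        (by linarith [hx.1])
  exact equality_all (fun N k L x hL h1 h2 hx _ _ _ _ => key N k L x hL h1 h2 hx)
    (fun N k L x hL h1 h2 hx _ => key N k L x hL h1 h2 hx) n k z hn (by omega) hz hc hev

end Pool.Agent.HStar
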