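import Pool.Agent.HStar.Star

set_option autoImplicit false

namespace Pool.Agent.HStar

open MeasureTheory Set Filter Topology Complex ComplexConjugate Real Pool.Agent.HHalf
  Pool.Agent.ConjInterp Function Polynomial

section final

variable {n : ℕ} {z : Fin n → ℂ} {x : ℂ}

theorem QQ_one (j : ℕ) (g : ℂ → ℂ) :
    QQ z x j g 1 = (∫ X, (w0 X : ℂ) ^ j * iteratedDeriv j g (ZZ z x X) ∂mu (n + 1)) /
      (j.factorial : ℂ) := by
  unfold QQ
  rw [← integral_div]
  congr 1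
  funext X
  simp
  ring

/-- `Q_j(1 - α φ) = - α Q_j(φ)` for `j ≥ 1`. -/
theorem QQ_aff_succ (hz : ∀ i, ‖z i‖ ≤ 1) (j : ℕ) {φ : ℂ → ℂ} (hφ : Differentiable ℂ φ) (α : ℂ) :
    QQ z x (j + 1) (fun w => 1 + α * φ w) 1 = α * QQ z x (j + 1) φ 1 := by
  have h1 : iteratedDeriv (j + 1) (fun w => 1 + α * φ w) =
      fun w => α * iteratedDeriv (j + 1) φ w := by
    rw [iteratedDeriv_succ']
    have h2 : deriv (fun w => 1 + α * φ w) = fun w => α * deriv φ w := by
      funext w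
      rw [deriv_const_add, deriv_const_mul _ (hφ w)]
    rw [h2]
    funext w
    have h3 := iteratedDeriv_const_mul (n := j) (x := w) α
      (f := deriv φ) (entire_contDiffAt (entire_deriv hφ) j w)
    rw [iteratedDeriv_succ']
    exact h3
  rw [QQ_one, QQ_one, h1, ← mul_div_assoc, ← integral_const_mul]
  congr 2
  funext X
  ring

theorem QQ_aff_zero (hz : ∀ i, ‖z i‖ ≤ 1) {φ : ℂ → ℂ} (hφ : Differentiable ℂ φ) (α : ℂ) :
    QQ z x 0 (fun w => 1 + α * φ w) 1 = 1 + α * QQ z x 0 φ 1 := by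
  rw [QQ_one, QQ_one]
  simp only [pow_zero, one_mul, iteratedDeriv_zero, Nat.factorial_zero, Nat.cast_one, div_one]
  have h1 : Integrable (fun X => φ (ZZ z x X)) (mu (n + 1)) := by
    have := int_wg hz x 0 hφ.continuous
    simpa using this
  rw [integral_add (integrable_const _) (h1.const_mul α), integral_const_mul]
  simp

/-- The bound for the functional `e_0 E φ(Z) + ∑ e_j E[w_0^j φ^{(j)}(Z)/j!]`. -/
theorem star_schur (hz : ∀ i, ‖z i‖ ≤ 1) (hx : ‖x‖ ≤ 1) {k : ℕ} {e : ℕ → ℝ} {M ρ0 : ℝ} {e0 : ℝ}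
    (he0 : |e0| ≤ M) (hρ0 : ρ0 < 1)
    (hstar : ∀ ξ : ℂ, ρ0 < ‖ξ‖ → ‖ξ‖ < 1 →
      |∑ j ∈ Finset.range k, e j * (2 * (KK z x (j + 1) ξ).re)| ≤
      M * (2 * (KK z x 0 ξ).re - 1)) {φ : ℂ → ℂ} (hφ : Differentiable ℂ φ)
    (hb : ∀ w : ℂ, ‖w‖ ≤ 1 → ‖φ w‖ ≤ 1) :
    ‖(e0 : ℂ) * QQ z x 0 φ 1 + ∑ j ∈ Finset.range k, (e j : ℂ) * QQ z x (j + 1) φ 1‖ ≤ M := by
  set L : ℂ := (e0 : ℂ) * QQ z x 0 φ 1 + ∑ j ∈ Finset.range k, (e j : ℂ) * QQ z x (j + 1) φ 1
    with hL
  obtain ⟨α, hα, hαL⟩ : ∃ α : ℂ, ‖α‖ = 1 ∧ α * L = (‖L‖ : ℂ) := by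
    by_cases h0 : L = 0
    · exact ⟨1, by simp, by simp [h0]⟩
    · refine ⟨(‖L‖ : ℂ) / L, ?_, ?_⟩
      · rw [norm_div, Complex.norm_real, norm_norm]
        exact div_self (norm_ne_zero_iff.2 h0)
      · rw [div_mul_cancel₀ _ h0]
  have key : ∀ β : ℂ, ‖β‖ = 1 → |∑ j ∈ Finset.range k, e j * (β * QQ z x (j + 1) φ 1).re| ≤
      M * (1 + (β * QQ z x 0 φ 1).re) := by
    intro β hβ
    have h1 := star_re hz hx hρ0 hstar (g := fun w => 1 + β * φ w)
      ((differentiable_const _).add (hφ.const_mul β)) (by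
        intro w hw
        have h2 := hb w hw.le
        have h3 := Complex.abs_re_le_norm (β * φ w)
        rw [norm_mul, hβ, one_mul] at h3
        have h4 := (abs_le.1 h3).1
        simp only [Complex.add_re, Complex.one_re]
        linarith)
    simp only [QQ_aff_succ hz _ hφ, QQ_aff_zero hz hφ] at h1
    simpa using h1
  have hp := key α hα
  have hm := key (-α) (by rw [norm_neg]; exact hα)
  have e1 : ∑ j ∈ Finset.range k, e j * (-α * QQ z x (j + 1) φ 1).re =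
      - ∑ j ∈ Finset.range k, e j * (α * QQ z x (j + 1) φ 1).re := by
    rw [← Finset.sum_neg_distrib]
    exact Finset.sum_congr rfl fun j _ => by rw [neg_mul, Complex.neg_re]; ring
  have e2 : (-α * QQ z x 0 φ 1).re = -(α * QQ z x 0 φ 1).re := by rw [neg_mul, Complex.neg_re]
  rw [e1, abs_neg, e2] at hm
  have hM : 0 ≤ M := (abs_nonneg _).trans he0
  have h5 : ‖L‖ = e0 * (α * QQ z x 0 φ 1).re +
      ∑ j ∈ Finset.range k, e j * (α * QQ z x (j + 1) φ 1).re := by
    have h6 : (α * L).re = ‖L‖ := by rw [hαL, Complex.ofReal_re]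
    rw [← h6, hL, mul_add, Complex.add_re, Finset.mul_sum, Complex.re_sum]
    congr 1
    · rw [← Complex.re_ofReal_mul]; congr 1; ring
    · refine Finset.sum_congr rfl fun j _ => ?_
      rw [← Complex.re_ofReal_mul]; congr 1; ring
  rw [h5]
  set r := (α * QQ z x 0 φ 1).re
  set s := ∑ j ∈ Finset.range k, e j * (α * QQ z x (j + 1) φ 1).re
  have h7 := le_abs_self s
  have h8 : |s| ≤ M * (1 - |r|) := by
    rcases le_total 0 r with hr | hr
    · rw [abs_of_nonneg hr]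
      have : 1 + -r = 1 - r := by ring
      rw [this] at hm
      exact hm
    · rw [abs_of_nonpos hr]
      have : 1 - -r = 1 + r := by ring
      rw [this]
      exact hp
  have h9 : e0 * r ≤ M * |r| := by
    calc e0 * r ≤ |e0 * r| := le_abs_self _
      _ = |e0| * |r| := abs_mul _ _
      _ ≤ M * |r| := mul_le_mul_of_nonneg_right he0 (abs_nonneg _)
  nlinarith

/-- THE STAR FRAME. If `|H_k ω(x)| ≤ M`, the numbers `H_i ω(x) = e_i` are real and the star inequality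
`|∑_{j ≥ 1} e_{k-j} 2 Re K_j(ξ)| ≤ M (2 Re K_0(ξ) - 1)` holds for all `ξ` with `ρ0 < |ξ| < 1`, then
`|F^{(k)}(x)| ≤ (k!/n!) M` for all `F = ω h` with `|F^{(n)}| ≤ 1` on the disc. -/
theorem star_frame {n k : ℕ} {z : Fin n → ℂ} (hz : ∀ i, ‖z i‖ ≤ 1) {x : ℂ} (hx : ‖x‖ ≤ 1)
    {e : ℕ → ℝ} (he : ∀ i ≤ k, (hasseDeriv i (om z)).eval x = (e i : ℂ)) {M ρ0 : ℝ}
    (hM : |e k| ≤ M) (hρ0 : ρ0 < 1)
    (hstar : ∀ ξ : ℂ, ρ0 < ‖ξ‖ → ‖ξ‖ < 1 →
      |∑ j ∈ Finset.range k, e (k - (j + 1)) * (2 * (KK z x (j + 1) ξ).re)| ≤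
      M * (2 * (KK z x 0 ξ).re - 1)) {h : ℂ → ℂ} (hh : Differentiable ℂ h)
    (hb : ∀ w, ‖w‖ ≤ 1 → ‖iteratedDeriv n (fun w => (∏ i, (w - z i)) * h w) w‖ ≤ 1) :
    ‖iteratedDeriv k (fun w => (∏ i, (w - z i)) * h w) x‖ ≤
      (k.factorial : ℝ) / (n.factorial : ℝ) * M := by
  have hF : Differentiable ℂ (fun w => (∏ i, (w - z i)) * h w) := entire_prod_mul z hh
  set φ := iteratedDeriv n (fun w => (∏ i, (w - z i)) * h w) with hφd
  have hφ : Differentiable ℂ φ := entire_iteratedDeriv hF n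
  have hs := star_schur (z := z) hz hx (e := fun j => e (k - (j + 1))) hM hρ0 hstar hφ hb
  -- Leibniz
  have hom : (fun w => ∏ i, (w - z i)) = fun w => (om z).eval w := by
    funext w
    rw [om, Polynomial.eval_prod]
    simp
  have hω : Differentiable ℂ (fun w => ∏ i, (w - z i)) := by
    rw [hom]; exact poly_entire _
  have hQ : ∀ j, (n.factorial : ℂ) * iteratedDeriv j h x = (j.factorial : ℂ) * QQ z x j φ 1 := by
    intro j
    rw [iter_h hz hh j x, QQ_one]
    have : (j.factorial : ℂ) ≠ 0 := by exact_mod_cast j.factorial_ne_zero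
    field_simp
    rfl
  have hL : (n.factorial : ℂ) * iteratedDeriv k (fun w => (∏ i, (w - z i)) * h w) x =
      (k.factorial : ℂ) * ((e k : ℂ) * QQ z x 0 φ 1 +
        ∑ j ∈ Finset.range k, ((e (k - (j + 1)) : ℝ) : ℂ) * QQ z x (j + 1) φ 1) := by
    have h1 := iteratedDeriv_fun_mul (n := k) (x := x) (f := fun w => ∏ i, (w - z i)) (g := h)
      (entire_contDiffAt hω k x) (entire_contDiffAt hh k x)
    rw [h1, Finset.mul_sum]
    have h2 : ∀ i ∈ Finset.range (k + 1), (n.factorial : ℂ) * ((k.choose i : ℂ) *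
        iteratedDeriv i (fun w => ∏ i, (w - z i)) x * iteratedDeriv (k - i) h x) =
        (k.factorial : ℂ) * ((e i : ℂ) * QQ z x (k - i) φ 1) := by
      intro i hi
      have hik : i ≤ k := Nat.lt_succ_iff.1 (Finset.mem_range.1 hi)
      have h3 : iteratedDeriv i (fun w => ∏ i, (w - z i)) x = (i.factorial : ℂ) * (e i : ℂ) := by
        rw [hom, iter_hasse, he i hik]
      rw [h3]
      have h4 : ((k.choose i : ℂ)) * (i.factorial : ℂ) * ((k - i).factorial : ℂ) =
          (k.factorial : ℂ) := by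
        exact_mod_cast Nat.choose_mul_factorial_mul_factorial hik
      calc (n.factorial : ℂ) * ((k.choose i : ℂ) * ((i.factorial : ℂ) * (e i : ℂ)) *
            iteratedDeriv (k - i) h x)
          = (k.choose i : ℂ) * (i.factorial : ℂ) * (e i : ℂ) *
            ((n.factorial : ℂ) * iteratedDeriv (k - i) h x) := by ring
        _ = ((k.choose i : ℂ) * (i.factorial : ℂ) * ((k - i).factorial : ℂ)) * ((e i : ℂ) *
            QQ z x (k - i) φ 1) := by rw [hQ]; ring
        _ = _ := by rw [h4]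
    rw [Finset.sum_congr rfl h2, Finset.sum_range_succ, Nat.sub_self, ← Finset.sum_range_reflect,
      mul_add, Finset.mul_sum, add_comm]
    congr 1
    refine Finset.sum_congr rfl fun j hj => ?_
    have hjk : j < k := Finset.mem_range.1 hj
    have h5 : k - 1 - j = k - (j + 1) := by omega
    have h6 : k - (k - 1 - j) = j + 1 := by omega
    rw [h6, h5]
  have hn : (0:ℝ) < (n.factorial : ℝ) := by exact_mod_cast n.factorial_pos
  have hk0 : (0:ℝ) ≤ (k.factorial : ℝ) := by positivity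
  have h7 : (n.factorial : ℝ) * ‖iteratedDeriv k (fun w => (∏ i, (w - z i)) * h w) x‖ ≤
      (k.factorial : ℝ) * M := by
    have h8 : (n.factorial : ℝ) * ‖iteratedDeriv k (fun w => (∏ i, (w - z i)) * h w) x‖ =
        ‖(n.factorial : ℂ) * iteratedDeriv k (fun w => (∏ i, (w - z i)) * h w) x‖ := by
      rw [norm_mul, Complex.norm_natCast]
    rw [h8, hL, norm_mul, Complex.norm_natCast]
    exact mul_le_mul_of_nonneg_left hs hk0
  rw [div_mul_eq_mul_div, le_div_iff₀ hn, mul_comm]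
  exact h7

end final

end Pool.Agent.HStar
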