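import Pool.Agent.HStar.Pole
import Pool.Agent.HStar.Final

set_option autoImplicit false

namespace Pool.Agent.HStar

open MeasureTheory Set Filter Topology Pool.Agent.HHalf ComplexConjugate

namespace PF

variable {n : ℕ} {z : Fin (n + 1) → ℂ} {x ξ : ℂ}

theorem EE_nonneg {y : Fin (n + 2) → ℂ} (hy : ∀ i, ‖y i‖ ≤ 1) (h0 : ‖y 0‖ < 1) (hξ : ‖ξ‖ < 1)
    (j : ℕ) : 0 ≤ EE y ξ j := by
  apply integral_nonneg_of_ae
  filter_upwards [mu_pos (n + 2)] with X hX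
  have ho := om_nonneg hy h0 hX
  have hP := Pf_nonneg hy hξ hX
  simp only [Pi.zero_apply]
  positivity

/-- `E[P] = 2 Re K_0 - 1`. -/
theorem EE_zero (hz : ∀ i, ‖z i‖ ≤ 1) (hx : ‖x‖ ≤ 1) (hξ : ‖ξ‖ < 1) :
    EE (Fin.cons x z : Fin (n + 2) → ℂ) ξ 0 = 2 * (KK z x 0 ξ).re - 1 := by
  have hy := cons_le hz hx
  set y : Fin (n + 2) → ℂ := Fin.cons x z with hyd
  have hm : Measurable (fun X : Fin (n + 2) → ℝ => 1 / (1 - ξ * DD y X)) :=
    measurable_const.div (measurable_const.sub (measurable_const.mul (measurable_DD y)))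
  have hi : Integrable (fun X : Fin (n + 2) → ℝ => 1 / (1 - ξ * DD y X)) (mu (n + 2)) := by
    refine Integrable.mono' (integrable_const (1 / (1 - ‖ξ‖))) hm.aestronglyMeasurable ?_
    filter_upwards [mu_pos (n + 2)] with X hX
    have hc : 0 < 1 - ‖ξ‖ := by linarith
    rw [norm_div, norm_one]
    exact div_le_div_of_nonneg_left zero_le_one hc (den_ge hy ξ hX)
  have h1 : (KK z x 0 ξ).re = ∫ X, (1 / (1 - ξ * DD y X)).re ∂mu (n + 2) := by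
    have e1 : KK z x 0 ξ = ∫ X, 1 / (1 - ξ * DD y X) ∂mu (n + 2) := by
      unfold KK
      congr 1
      funext X
      simp [ZZ, hyd]
    rw [e1, ← Complex.reCLM_apply, ← ContinuousLinearMap.integral_comp_comm _ hi]
    rfl
  have h2 : ∀ X, Pf y ξ X = 2 * (1 / (1 - ξ * DD y X)).re - 1 := by
    intro X
    unfold Pf
    have e : (2:ℂ) / (1 - ξ * DD y X) = ((2:ℝ):ℂ) * (1 / (1 - ξ * DD y X)) := by
      push_cast; ring
    rw [e, Complex.sub_re, Complex.re_ofReal_mul, Complex.one_re]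
  have hire : Integrable (fun X : Fin (n + 2) → ℝ => (1 / (1 - ξ * DD y X)).re) (mu (n + 2)) :=
    hi.re
  unfold EE
  simp only [pow_zero, one_mul, h2]
  rw [integral_sub (hire.const_mul 2) (integrable_const 1), integral_const_mul, h1]
  simp

/-- Pointwise bound of the kernels. -/
theorem kern_le (hz : ∀ i, ‖z i‖ ≤ 1) (hx : ‖x‖ < 1) (hξ : ‖ξ‖ < 1) (j : ℕ)
    {X : Fin (n + 2) → ℝ} (hX : ∀ i, 0 < X i) :
    2 * ‖(w0 X : ℂ) ^ (j + 1) * (ξ ^ (j + 1) / (1 - ξ * ZZ z x X) ^ (j + 2))‖ ≤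
      2 ^ (j + 1) * (om (Fin.cons x z : Fin (n + 2) → ℂ) X ^ (j + 1) *
        Pf (Fin.cons x z : Fin (n + 2) → ℂ) ξ X) := by
  have hy := cons_le hz hx.le
  have h0 : ‖(Fin.cons x z : Fin (n + 2) → ℂ) 0‖ < 1 := by rw [Fin.cons_zero]; exact hx
  set y : Fin (n + 2) → ℂ := Fin.cons x z with hyd
  have hZ : ZZ z x X = DD y X := rfl
  rw [hZ]
  have hD := D_pos hy h0 hX
  have ho := om_nonneg hy h0 hX
  have hP := Pf_nonneg hy hξ hX
  have hw : w0 X = om y X * Df y X := (om_mul hy h0 hX).symm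
  have hH := harnack hy hξ hX
  have hne := den_ne hy hξ hX
  have hpos : 0 < ‖1 - ξ * DD y X‖ := norm_pos_iff.2 hne
  have hw0 := (w0_pos hX).le
  -- |ξ| w0 / |1 - ξZ| ≤ 2 ω
  have hρ := norm_DD_le hy hX
  have h3 : w0 X * (‖ξ‖ / ‖1 - ξ * DD y X‖) ≤ 2 * om y X := by
    have h4 : ‖ξ‖ * (1 - ‖DD y X‖) ≤ ‖1 - ξ * DD y X‖ := by
      have h5 := norm_sub_norm_le (1:ℂ) (ξ * DD y X)
      rw [norm_one, norm_mul] at h5
      nlinarith
    rw [hw, ← mul_div_assoc, div_le_iff₀ hpos]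
    have h6 : Df y X = (1 - ‖DD y X‖) * (1 + ‖DD y X‖) := by unfold Df; ring
    have h7 : 0 ≤ ‖ξ‖ * (1 - ‖DD y X‖) := mul_nonneg (norm_nonneg _) (by linarith)
    have h8 : Df y X * ‖ξ‖ ≤ 2 * ‖1 - ξ * DD y X‖ := by
      rw [h6]
      nlinarith [norm_nonneg (DD y X)]
    calc om y X * Df y X * ‖ξ‖ = om y X * (Df y X * ‖ξ‖) := by ring
      _ ≤ om y X * (2 * ‖1 - ξ * DD y X‖) := mul_le_mul_of_nonneg_left h8 ho
      _ = _ := by ring
  have h9 : 0 ≤ w0 X * (‖ξ‖ / ‖1 - ξ * DD y X‖) := by positivity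
  have e1 : 2 * ‖(w0 X : ℂ) ^ (j + 1) * (ξ ^ (j + 1) / (1 - ξ * DD y X) ^ (j + 2))‖ =
      (w0 X * ‖Fp y ξ X‖) * (w0 X * (‖ξ‖ / ‖1 - ξ * DD y X‖)) ^ j := by
    unfold Fp
    rw [norm_mul, norm_pow, norm_div, norm_pow, norm_pow, norm_div, norm_mul, norm_pow,
      Complex.norm_ofNat, Complex.norm_real, Real.norm_of_nonneg hw0, mul_pow, div_pow]
    have h10 : ‖1 - ξ * DD y X‖ ^ j ≠ 0 := pow_ne_zero _ hpos.ne'
    rw [pow_add ‖1 - ξ * DD y X‖ j 2, pow_succ ‖ξ‖ j, pow_succ (w0 X) j]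
    field_simp
  rw [e1]
  have h11 : w0 X * ‖Fp y ξ X‖ ≤ om y X * (2 * Pf y ξ X) := by
    rw [hw]
    calc om y X * Df y X * ‖Fp y ξ X‖ = om y X * (‖Fp y ξ X‖ * Df y X) := by ring
      _ ≤ _ := mul_le_mul_of_nonneg_left hH ho
  calc (w0 X * ‖Fp y ξ X‖) * (w0 X * (‖ξ‖ / ‖1 - ξ * DD y X‖)) ^ j
      ≤ (om y X * (2 * Pf y ξ X)) * (2 * om y X) ^ j := by
        apply mul_le_mul h11 (pow_le_pow_left₀ h9 h3 j) (by positivity) (by positivity)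
    _ = _ := by ring

/-- `|2 Re K_j| ≤ 2^j E[ω^j P]` for `j ≥ 1`. -/
theorem KK_le (hz : ∀ i, ‖z i‖ ≤ 1) (hx : ‖x‖ < 1) (hξ : ‖ξ‖ < 1) (j : ℕ) :
    |2 * (KK z x (j + 1) ξ).re| ≤ 2 ^ (j + 1) * EE (Fin.cons x z : Fin (n + 2) → ℂ) ξ (j + 1) := by
  have hy := cons_le hz hx.le
  have h0 : ‖(Fin.cons x z : Fin (n + 2) → ℂ) 0‖ < 1 := by rw [Fin.cons_zero]; exact hx
  have h1 : |2 * (KK z x (j + 1) ξ).re| ≤ 2 * ‖KK z x (j + 1) ξ‖ := by
    rw [abs_mul, abs_two]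
    linarith [Complex.abs_re_le_norm (KK z x (j + 1) ξ)]
  refine h1.trans ?_
  unfold KK EE
  have h2 := norm_integral_le_integral_norm (μ := mu (n + 2))
    (fun X : Fin (n + 2) → ℝ => (w0 X : ℂ) ^ (j + 1) * (ξ ^ (j + 1) /
      (1 - ξ * ZZ z x X) ^ (j + 1 + 1)))
  rw [← integral_const_mul]
  refine (mul_le_mul_of_nonneg_left h2 (by norm_num : (0:ℝ) ≤ 2)).trans ?_
  rw [← integral_const_mul]
  have iR := ((dG (ξ := ξ) hy h0 hξ (j + 1)).integrable).const_mul ((2:ℝ) ^ (j + 1))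
  refine integral_mono_of_nonneg (Eventually.of_forall fun X => by positivity) iR ?_
  filter_upwards [mu_pos (n + 2)] with X hX
  exact kern_le hz hx hξ j hX

/-- The chain. -/
theorem EE_chain {y : Fin (n + 2) → ℂ} (hy : ∀ i, ‖y i‖ ≤ 1) (h0 : ‖y 0‖ < 1) (hξ : ‖ξ‖ < 1)
    {m lam : ℕ → ℝ} {k : ℕ} (hlam : ∀ j < k, 0 ≤ lam j) (hm0 : ∀ j < k, 0 < m j)
    (hm : ∀ j < k, ∀ X : Fin (n + 2) → ℝ, (∀ i, 0 < X i) → m j ≤ H1 y j X + lam j * H2 y j X) :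
    ∀ j ≤ k, EE y ξ j ≤ (j.factorial : ℝ) / (∏ i ∈ Finset.range j, m i) * EE y ξ 0 := by
  intro j
  induction j with
  | zero => intro _; simp
  | succ j ih =>
    intro hj
    have ih' := ih (by omega)
    have h1 := pf_step hy h0 hξ j (hlam j (by omega)) (hm j (by omega))
    have hmj := hm0 j (by omega)
    have hprod : 0 < ∏ i ∈ Finset.range j, m i :=
      Finset.prod_pos fun i hi => hm0 i (by have := Finset.mem_range.1 hi; omega)
    rw [Finset.prod_range_succ, Nat.factorial_succ]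
    have h2 : EE y ξ (j + 1) ≤ (j + 1) * EE y ξ j / m j := by
      rw [le_div_iff₀ hmj, mul_comm]; exact h1
    refine h2.trans ?_
    rw [div_le_iff₀ hmj]
    have h3 : ((j:ℝ) + 1) * EE y ξ j ≤
        (j + 1) * ((j.factorial : ℝ) / (∏ i ∈ Finset.range j, m i) * EE y ξ 0) :=
      mul_le_mul_of_nonneg_left ih' (by positivity)
    refine h3.trans (le_of_eq ?_)
    push_cast
    field_simp

/-- THE POLE-FREE CERTIFICATE. `n + 1` nodes `z`, `|x| < 1`. -/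
theorem pf_cert (hz : ∀ i, ‖z i‖ ≤ 1) (hx : ‖x‖ < 1) (hξ : ‖ξ‖ < 1) {k : ℕ}
    {e : ℕ → ℝ} {M : ℝ} (hM : 0 ≤ M) {b m lam : ℕ → ℝ}
    (he : ∀ j, 1 ≤ j → j ≤ k → |e (k - j)| ≤ b j * M) (hb0 : ∀ j, 0 ≤ b j)
    (hlam : ∀ j < k, 0 ≤ lam j) (hm0 : ∀ j < k, 0 < m j)
    (hm : ∀ j < k, ∀ X : Fin (n + 2) → ℝ, (∀ i, 0 < X i) →
      m j ≤ H1 (Fin.cons x z : Fin (n + 2) → ℂ) j X +
        lam j * H2 (Fin.cons x z : Fin (n + 2) → ℂ) j X)
    (hfin : ∑ j ∈ Finset.range k, b (j + 1) * (2 ^ (j + 1) * ((j + 1).factorial : ℝ) /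
      ∏ i ∈ Finset.range (j + 1), m i) ≤ 1) :
    |∑ j ∈ Finset.range k, e (k - (j + 1)) * (2 * (KK z x (j + 1) ξ).re)| ≤
      M * (2 * (KK z x 0 ξ).re - 1) := by
  have hy := cons_le hz hx.le
  have h0 : ‖(Fin.cons x z : Fin (n + 2) → ℂ) 0‖ < 1 := by rw [Fin.cons_zero]; exact hx
  rw [← EE_zero hz hx.le hξ]
  set y : Fin (n + 2) → ℂ := Fin.cons x z with hyd
  have hE0 := EE_nonneg hy h0 hξ 0
  have hch := EE_chain hy h0 hξ hlam hm0 hm
  refine (Finset.abs_sum_le_sum_abs _ _).trans ?_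
  have h1 : ∀ j ∈ Finset.range k, |e (k - (j + 1)) * (2 * (KK z x (j + 1) ξ).re)| ≤
      M * EE y ξ 0 * (b (j + 1) * (2 ^ (j + 1) * ((j + 1).factorial : ℝ) /
      ∏ i ∈ Finset.range (j + 1), m i)) := by
    intro j hj
    have hjk : j < k := Finset.mem_range.1 hj
    have h2 := he (j + 1) (by omega) (by omega)
    have h3 := KK_le hz hx hξ j
    rw [← hyd] at h3
    have h4 := hch (j + 1) (by omega)
    rw [abs_mul]
    calc |e (k - (j + 1))| * |2 * (KK z x (j + 1) ξ).re|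
        ≤ (b (j + 1) * M) * (2 ^ (j + 1) * EE y ξ (j + 1)) :=
          mul_le_mul h2 h3 (abs_nonneg _) (mul_nonneg (hb0 _) hM)
      _ ≤ (b (j + 1) * M) * (2 ^ (j + 1) * (((j + 1).factorial : ℝ) /
          (∏ i ∈ Finset.range (j + 1), m i) * EE y ξ 0)) := by
          apply mul_le_mul_of_nonneg_left _ (mul_nonneg (hb0 _) hM)
          exact mul_le_mul_of_nonneg_left h4 (by positivity)
      _ = _ := by ring
  refine (Finset.sum_le_sum h1).trans ?_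
  rw [← Finset.mul_sum]
  calc M * EE y ξ 0 * _ ≤ M * EE y ξ 0 * 1 :=
        mul_le_mul_of_nonneg_left hfin (mul_nonneg hM hE0)
    _ = _ := mul_one _

end PF

end Pool.Agent.HStar
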