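import Pool.Agent.HStar.Final
import Pool.Agent.HStar.PCert
import Pool.Agent.HHalf.AFinalB
import Pool.Agent.HHalfB.BFinal

set_option autoImplicit false

namespace Pool.Agent.HStar

open MeasureTheory Set Filter Topology Complex ComplexConjugate Pool.Agent.HHalf
  Pool.Agent.ConjInterp Function Polynomial

/-- The real polynomial `ω` of the pairs `L a, conj (L a)`. -/
noncomputable def omR {N : ℕ} (L : Fin N → ℂ) : ℝ[X] :=
  ∏ a, ((X - Polynomial.C (L a).re) ^ 2 + Polynomial.C ((L a).im ^ 2))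

theorem omR_map {N : ℕ} (L : Fin N → ℂ) : (omR L).map (algebraMap ℝ ℂ) = om (zL L) := by
  rw [om_zL, omR, Polynomial.map_prod]
  refine Finset.prod_congr rfl fun a _ => ?_
  unfold pr
  simp only [Polynomial.map_add, Polynomial.map_pow, Polynomial.map_sub, Polynomial.map_X,
    Polynomial.map_C, Complex.coe_algebraMap]
  have h1 : Polynomial.C (L a) = Polynomial.C (((L a).re : ℝ) : ℂ) +
      Polynomial.C (((L a).im : ℝ) : ℂ) * Polynomial.C Complex.I := by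
    rw [← Polynomial.C_mul, ← Polynomial.C_add, Complex.re_add_im]
  have h2 : Polynomial.C (conj (L a)) = Polynomial.C (((L a).re : ℝ) : ℂ) -
      Polynomial.C (((L a).im : ℝ) : ℂ) * Polynomial.C Complex.I := by
    rw [← Polynomial.C_mul, ← Polynomial.C_sub]
    congr 1
    apply Complex.ext <;> simp
  have h3 : Polynomial.C (((L a).im ^ 2 : ℝ) : ℂ) = -(Polynomial.C (((L a).im : ℝ) : ℂ) *
      Polynomial.C Complex.I) ^ 2 := by
    rw [← Polynomial.C_mul, ← Polynomial.C_pow, ← Polynomial.C_neg]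
    congr 1
    rw [mul_pow, Complex.I_sq]
    push_cast
    ring
  rw [h1, h2, h3]
  ring

/-- The Hasse derivatives of `ω` are real on the real axis. -/
theorem hasse_real {N : ℕ} (L : Fin N → ℂ) (m : ℕ) (t : ℝ) :
    (hasseDeriv m (om (zL L))).eval (t : ℂ) = (((hasseDeriv m (omR L)).eval t : ℝ) : ℂ) := by
  rw [← omR_map, ← taylor_coeff, ← taylor_coeff]
  have : taylor (t : ℂ) ((omR L).map (algebraMap ℝ ℂ)) =
      (taylor t (omR L)).map (algebraMap ℝ ℂ) := by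
    simp [taylor_apply, Polynomial.map_comp]
  rw [this, coeff_map]
  rfl

/-- The pointwise bound of order `k` at `x` for the list `L, conj L`. -/
def PW {N : ℕ} (L : Fin N → ℂ) (k : ℕ) (x : ℝ) : Prop :=
  ∀ h : ℂ → ℂ, Differentiable ℂ h →
    (∀ w, ‖w‖ ≤ 1 → ‖iteratedDeriv (2 * N) (fun w => (om (zL L)).eval w * h w) w‖ ≤ 1) →
    ∃ y ∈ Icc (-1:ℝ) 1, ‖iteratedDeriv k (fun w => (om (zL L)).eval w * h w) (x:ℂ)‖ ≤
      (1 / ((2 * N).factorial : ℝ)) * ‖iteratedDeriv k (fun w => (om (zL L)).eval w) (y:ℂ)‖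

/-- `M` bounds `|H_k ω|` on `[-1, 1]`. -/
def IsM {N : ℕ} (L : Fin N → ℂ) (k : ℕ) (M : ℝ) : Prop :=
  ∀ t ∈ Icc (-1:ℝ) 1, |(hasseDeriv k (omR L)).eval t| ≤ M

/-- The star inequality at `ξ` for an enumeration `z` of the nodes. -/
def STAR {n N : ℕ} (L : Fin N → ℂ) (z : Fin n → ℂ) (k : ℕ) (x M : ℝ) (ξ : ℂ) : Prop :=
  |∑ j ∈ Finset.range k, (hasseDeriv (k - (j + 1)) (omR L)).eval x *
      (2 * (KK z (x:ℂ) (j + 1) ξ).re)| ≤ M * (2 * (KK z (x:ℂ) 0 ξ).re - 1)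

theorem exists_max {N : ℕ} (L : Fin N → ℂ) (k : ℕ) :
    ∃ y ∈ Icc (-1:ℝ) 1, IsM L k |(hasseDeriv k (omR L)).eval y| := by
  have hc : ContinuousOn (fun t : ℝ => |(hasseDeriv k (omR L)).eval t|) (Icc (-1:ℝ) 1) :=
    (continuous_abs.comp (Polynomial.continuous _)).continuousOn
  obtain ⟨y, hy, hmax⟩ := isCompact_Icc.exists_isMaxOn
    (⟨0, by norm_num, by norm_num⟩ : (Icc (-1:ℝ) 1).Nonempty) hc
  exact ⟨y, hy, fun t ht => hmax ht⟩

theorem star_norm {N : ℕ} (L : Fin N → ℂ) (k : ℕ) (y : ℝ) :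
    ‖iteratedDeriv k (fun w => (om (zL L)).eval w) (y:ℂ)‖ =
      (k.factorial : ℝ) * |(hasseDeriv k (omR L)).eval y| := by
  rw [iter_hasse, norm_mul, Complex.norm_natCast, hasse_real, Complex.norm_real, Real.norm_eq_abs]

/-- STAR for all `ρ0 < |ξ| < 1` gives the pointwise bound. -/
theorem pw_of_star {N : ℕ} {L : Fin N → ℂ} (hL : ∀ a, ‖L a‖ ≤ 1) {k : ℕ} {x : ℝ}
    (hx : x ∈ Icc (-1:ℝ) 1) (e : Fin (2 * N) ≃ Fin N × Bool) {ρ0 : ℝ} (hρ0 : ρ0 < 1)
    (hstar : ∀ M : ℝ, IsM L k M → ∀ ξ : ℂ, ρ0 < ‖ξ‖ → ‖ξ‖ < 1 →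
      STAR L (zL L ∘ e) k x M ξ) : PW L k x := by
  intro h hh hb
  obtain ⟨y, hy, hM⟩ := exists_max L k
  refine ⟨y, hy, ?_⟩
  have hz : ∀ i, ‖(zL L ∘ e) i‖ ≤ 1 := fun i => norm_zL hL (e i)
  have hprod : ∀ w : ℂ, ∏ i, (w - (zL L ∘ e) i) = (om (zL L)).eval w := by
    intro w
    rw [← om_comp e (zL L), om, Polynomial.eval_prod]
    simp
  have hfun : (fun w : ℂ => (om (zL L)).eval w * h w) =
      fun w => (∏ i, (w - (zL L ∘ e) i)) * h w := by
    funext w; rw [hprod]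
  have hx1 : ‖(x:ℂ)‖ ≤ 1 := by
    rw [Complex.norm_real, Real.norm_eq_abs]
    exact abs_le.2 ⟨hx.1, hx.2⟩
  have hfr := star_frame (z := zL L ∘ e) (k := k) hz hx1
    (e := fun i => (hasseDeriv i (omR L)).eval x) (fun i _ => by
      rw [om_comp e (zL L)]; exact hasse_real L i x)
    (M := |(hasseDeriv k (omR L)).eval y|) (hM x hx) hρ0
    (fun ξ h1 h2 => hstar _ hM ξ h1 h2) hh (by rw [← hfun]; exact hb)
  rw [hfun, star_norm]
  refine hfr.trans (le_of_eq ?_)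
  ring

/-- `2 Re K_0 - 1 ≥ 0`. -/
theorem KK0_nonneg {n : ℕ} {z : Fin n → ℂ} {x ξ : ℂ} (hz : ∀ i, ‖z i‖ ≤ 1) (hx : ‖x‖ ≤ 1)
    (hξ : ‖ξ‖ < 1) : 0 ≤ 2 * (KK z x 0 ξ).re - 1 := by
  have hm : Measurable (fun X : Fin (n + 1) → ℝ => 1 / (1 - ξ * ZZ z x X)) :=
    measurable_const.div (measurable_const.sub (measurable_const.mul (measurable_ZZ z x)))
  have hge : ∀ X : Fin (n + 1) → ℝ, (∀ i, 0 < X i) → 1 - ‖ξ‖ ≤ ‖1 - ξ * ZZ z x X‖ :=
    fun X hX => norm_one_sub_ge le_rfl (norm_ZZ_le hz hx hX)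
  have hi : Integrable (fun X : Fin (n + 1) → ℝ => 1 / (1 - ξ * ZZ z x X)) (mu (n + 1)) := by
    refine Integrable.mono' (integrable_const (1 / (1 - ‖ξ‖))) hm.aestronglyMeasurable ?_
    filter_upwards [mu_pos (n + 1)] with X hX
    have hc : 0 < 1 - ‖ξ‖ := by linarith
    rw [norm_div, norm_one]
    exact div_le_div_of_nonneg_left zero_le_one hc (hge X hX)
  have h1 : (KK z x 0 ξ).re = ∫ X, (1 / (1 - ξ * ZZ z x X)).re ∂mu (n + 1) := by
    have e1 : KK z x 0 ξ = ∫ X, 1 / (1 - ξ * ZZ z x X) ∂mu (n + 1) := by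
      unfold KK
      congr 1
      funext X
      simp
    rw [e1, ← Complex.reCLM_apply, ← ContinuousLinearMap.integral_comp_comm _ hi]
    rfl
  have h2 : (1 / 2 : ℝ) ≤ (KK z x 0 ξ).re := by
    have h3 : (1 / 2 : ℝ) = ∫ _X, (1 / 2 : ℝ) ∂mu (n + 1) := by simp
    rw [h1, h3]
    refine integral_mono_ae (integrable_const _) hi.re ?_
    filter_upwards [mu_pos (n + 1)] with X hX
    have hge' := hge X hX
    set u := ξ * ZZ z x X with hu
    have hpos : 0 < ‖1 - u‖ := by linarith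
    have hu1 : ‖u‖ ≤ 1 := by
      rw [hu, norm_mul]
      have := norm_ZZ_le hz hx hX
      nlinarith [norm_nonneg ξ, norm_nonneg (ZZ z x X)]
    have h4 : (1 / (1 - u)).re = (1 - u.re) / ‖1 - u‖ ^ 2 := by
      rw [one_div, Complex.inv_re, Complex.normSq_eq_norm_sq]
      simp
    change (1 / 2 : ℝ) ≤ (1 / (1 - u)).re
    rw [h4, le_div_iff₀ (by positivity)]
    have h5 : ‖1 - u‖ ^ 2 = 1 - 2 * u.re + ‖u‖ ^ 2 := by
      rw [← Complex.normSq_eq_norm_sq, ← Complex.normSq_eq_norm_sq, Complex.normSq_apply,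
        Complex.normSq_apply]
      simp
      ring
    rw [h5]
    have h6 : ‖u‖ ^ 2 ≤ 1 := pow_le_one₀ (norm_nonneg _) hu1
    linarith
  linarith

/-- The case `k = 0`. -/
theorem pw_zero {N : ℕ} {L : Fin N → ℂ} (hL : ∀ a, ‖L a‖ ≤ 1) {x : ℝ}
    (hx : x ∈ Icc (-1:ℝ) 1) : PW L 0 x := by
  have hcard : Fintype.card (Fin (2 * N)) = Fintype.card (Fin N × Bool) := by
    simp only [Fintype.card_fin, Fintype.card_prod, Fintype.card_bool]
    omega
  refine pw_of_star hL hx (Fintype.equivOfCardEq hcard) (ρ0 := 0) zero_lt_one ?_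
  intro M hM ξ _ hξ
  unfold STAR
  rw [Finset.range_zero, Finset.sum_empty, abs_zero]
  have hM0 : 0 ≤ M := (abs_nonneg _).trans (hM x hx)
  refine mul_nonneg hM0 ?_
  have hx1 : ‖(x:ℂ)‖ ≤ 1 := by
    rw [Complex.norm_real, Real.norm_eq_abs]
    exact abs_le.2 ⟨hx.1, hx.2⟩
  exact KK0_nonneg (fun i => norm_zL hL _) hx1 hξ

/-- ASSEMBLY. The equality of the problem for all orders `0 ≤ k ≤ n - 1` from the pointwise bounds
in the middle region (`hmid`) and in the outer region (`hout`), orders `1 ≤ k ≤ N - 1`. -/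
theorem equality_all
    (hmid : ∀ (N k : ℕ) (L : Fin N → ℂ) (x : ℝ), (∀ a, ‖L a‖ ≤ 1) → 1 ≤ k → k + 1 ≤ N →
      x ∈ Icc (-1:ℝ) 1 → Pool.Agent.HHalfB.bal k < ∑ a, (1 + (L a).re) →
      Pool.Agent.HHalfB.bal k < ∑ a, (1 - (L a).re) →
      (∃ a, (L a).re < (x - 1) / 2) → (∃ a, (1 + x) / 2 < (L a).re) → PW L k x)
    (hout : ∀ (N k : ℕ) (L : Fin N → ℂ) (x : ℝ), (∀ a, ‖L a‖ ≤ 1) → 1 ≤ k → k + 1 ≤ N →
      x ∈ Icc (-1:ℝ) 1 → ((∀ a, (x - 1) / 2 ≤ (L a).re) ∨ (∀ a, (L a).re ≤ (1 + x) / 2)) →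
      PW L k x)
    (n k : ℕ) (z : Fin n → ℂ) (hn : 1 ≤ n) (hk : k < n) (hz : ∀ i, ‖z i‖ ≤ 1)
    (hc : ∀ w : ℂ, Nat.card {j : Fin n // z j = w} = Nat.card {j : Fin n // z j = conj w})
    (hev : ∀ r : ℝ, Even (Nat.card {j : Fin n // z j = (r : ℂ)})) :
    sSup (lset n k z) = (1 / (n.factorial : ℝ)) * sSup (rset n k z) := by
  obtain ⟨L, hn2, hmem, hprod⟩ := pairs_of_fin z hc hev
  have hL : ∀ a : Fin L.length, ‖L.get a‖ ≤ 1 := by
    intro a
    obtain ⟨i, hi⟩ := hmem (L.get a) (List.get_mem L a)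
    rw [← hi]; exact hz i
  have hom : ∀ w : ℂ, ∏ j, (w - z j) = (om (zL L.get)).eval w := by
    intro w
    rw [hprod w, fL_eq, mul_one, om_zL, Polynomial.eval_prod]
    have h1 : ConjInterp.lp (L ++ L.map conj) w =
        (L.map (fun z => (w - z) * (w - conj z))).prod := by
      rw [ConjInterp.lp, List.map_append, List.prod_append, List.map_map, ← List.prod_map_mul]
      rfl
    rw [h1, ← List.prod_ofFn]
    congr 1
    have h2 : L.map (fun z => (w - z) * (w - conj z)) =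
        (List.ofFn L.get).map (fun z => (w - z) * (w - conj z)) := by
      rw [List.ofFn_get L]
    rw [h2, List.map_ofFn]
    congr 1
    funext i
    simp [pr]
  apply reduce hn z
  intro h hh hb x hx
  have hf1 : (fun w => (∏ j, (w - z j)) * h w) = fun w => (om (zL L.get)).eval w * h w := by
    funext w; rw [hom]
  have hf2 : (fun w => ∏ j, (w - z j)) = fun w => (om (zL L.get)).eval w := by
    funext w; rw [hom]
  rw [hf1, hf2]
  rw [hf1, hn2] at hb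
  have key : PW L.get k x := by
    rcases Nat.eq_zero_or_pos k with hk0 | hk0
    · rw [hk0]; exact pw_zero hL hx
    by_cases h1 : 2 * L.length ≤ 2 * k ∨ k = 2 * L.length - 1
    · intro h hh hb
      exact pointwise_mid hL (by omega) (by omega) h1 hh hb hx
    push Not at h1
    have hkN : k + 1 ≤ L.length := by omega
    by_cases h2 : (∀ a, (x - 1) / 2 ≤ (L.get a).re) ∨ (∀ a, (L.get a).re ≤ (1 + x) / 2)
    · exact hout _ k L.get x hL hk0 hkN hx h2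
    push Not at h2
    by_cases h3 : ∑ a, (1 + (L.get a).re) ≤ Pool.Agent.HHalfB.bal k ∨
        ∑ a, (1 - (L.get a).re) ≤ Pool.Agent.HHalfB.bal k
    · intro h hh hb
      exact Pool.Agent.HHalfB.pointwise_unbal hL hk0 (by omega) h3 hh hb hx
    push Not at h3
    exact hmid _ k L.get x hL hk0 hkN hx h3.1 h3.2 h2.1 h2.2
  obtain ⟨y, hy, hxy⟩ := key h hh hb
  refine ⟨y, hy, ?_⟩
  rw [← hn2] at hxy
  exact hxy

end Pool.Agent.HStar
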