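import Pool.Agent.HStar.Final

set_option autoImplicit false

namespace Pool.Agent.HStar

open MeasureTheory Set Filter Topology Complex ComplexConjugate Real Pool.Agent.HHalf
  Pool.Agent.ConjInterp Function Polynomial

section zone

variable {n : ℕ} {z : Fin n → ℂ} {x : ℂ}

/-- One-sided version for the dilated function. -/
theorem pos_dil (hz : ∀ i, ‖z i‖ ≤ 1) (hx : ‖x‖ ≤ 1) {k : ℕ} {e : ℕ → ℝ} {M ρ : ℝ} (h0 : 0 ≤ ρ)
    (hρ : ρ < 1)
    (hpos : ∀ ξ : ℂ, ‖ξ‖ = ρ → ∑ j ∈ Finset.range k, e j * (2 * (KK z x (j + 1) ξ).re) ≤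
      M * (2 * (KK z x 0 ξ).re - 1)) {g : ℂ → ℂ} (hg : Differentiable ℂ g)
    (hre : ∀ w : ℂ, ‖w‖ = 1 → 0 ≤ (g w).re) :
    ∑ j ∈ Finset.range k, e j * (QQ z x (j + 1) g ρ).re ≤ M * (QQ z x 0 g ρ).re := by
  obtain ⟨K, hK0, hK⟩ := bd_disc hg.continuous
  have hpi : 0 < 2 * π := by positivity
  set c : ℝ → ℂ := fun θ => ((2 * (g (circleMap 0 1 θ)).re : ℝ) : ℂ) with hc
  have hcg : Continuous (fun θ : ℝ => g (circleMap 0 1 θ)) :=
      hg.continuous.comp (continuous_circleMap 0 1)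
  have hcc : Continuous c :=
    Complex.continuous_ofReal.comp (continuous_const.mul (Complex.continuous_re.comp hcg))
  have hcb : ∀ θ, ‖c θ‖ ≤ 2 * K := by
    intro θ
    simp only [hc]
    rw [Complex.norm_real, Real.norm_eq_abs, abs_mul, abs_two]
    have h1 := (Complex.abs_re_le_norm (g (circleMap 0 1 θ))).trans (hK _ (by simp))
    linarith
  have hii : ∀ j, IntervalIntegrable (fun θ : ℝ => c θ * KK z x j ((ρ:ℂ) * (circleMap 0 1 θ)⁻¹))
      volume 0 (2 * π) := fun j => ii_KK hz hx j h0 hρ hcc hcb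
  -- real parts
  have hiir : ∀ j, IntervalIntegrable (fun θ : ℝ => (2 * (g (circleMap 0 1 θ)).re) *
      (KK z x j ((ρ:ℂ) * (circleMap 0 1 θ)⁻¹)).re) volume 0 (2 * π) := by
    intro j
    have h1 := hii j
    rw [intervalIntegrable_iff] at h1 ⊢
    refine h1.re.congr (Eventually.of_forall fun θ => ?_)
    simp only [hc]
    rw [RCLike.re_eq_complex_re, Complex.re_ofReal_mul]
  have hre1 : ∀ j, ∫ θ in (0:ℝ)..2 * π, (2 * (g (circleMap 0 1 θ)).re) *
      (KK z x j ((ρ:ℂ) * (circleMap 0 1 θ)⁻¹)).re =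
      2 * π * ((QQ z x j g ρ).re + if j = 0 then (g 0).re else 0) := by
    intro j
    have h1 := swap hz hx j hg h0 hρ
    have h2 : (∫ θ in (0:ℝ)..2 * π, c θ * KK z x j ((ρ:ℂ) * (circleMap 0 1 θ)⁻¹)).re =
        ∫ θ in (0:ℝ)..2 * π, (2 * (g (circleMap 0 1 θ)).re) *
      (KK z x j ((ρ:ℂ) * (circleMap 0 1 θ)⁻¹)).re := by
      rw [intervalIntegral.integral_of_le hpi.le, intervalIntegral.integral_of_le hpi.le]
      have h3 := hii j
      rw [intervalIntegrable_iff, uIoc_of_le hpi.le] at h3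
      have h4 := integral_re h3
      rw [RCLike.re_eq_complex_re] at h4
      rw [← h4]
      refine integral_congr_ae (Eventually.of_forall fun θ => ?_)
      simp only [hc]
      rw [Complex.re_ofReal_mul]
    rw [← h2, h1]
    change (2 * (π:ℂ) * (QQ z x j g ρ + _)).re = _
    have h5 : (2 * (π:ℂ)) = ((2 * π : ℝ) : ℂ) := by push_cast; ring
    rw [h5, Complex.re_ofReal_mul, Complex.add_re]
    by_cases hj : j = 0 <;> simp [hj]
  -- mean value
  have hmean : ∫ θ in (0:ℝ)..2 * π, (g (circleMap 0 1 θ)).re = 2 * π * (g 0).re := by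
    have h1 : DiffContOnCl ℂ g (Metric.ball 0 |(1:ℝ)|) := hg.diffContOnCl
    have h2 := h1.circleAverage
    rw [circleAverage_def] at h2
    have h3 : (∫ θ in (0:ℝ)..2 * π, g (circleMap 0 1 θ)) = ((2 * π : ℝ) : ℂ) * g 0 := by
      rw [← h2, Complex.real_smul]
      have h3 : ((2 * π : ℝ) : ℂ) ≠ 0 := by exact_mod_cast hpi.ne'
      push_cast at h3 ⊢
      field_simp
    have h4 : (∫ θ in (0:ℝ)..2 * π, g (circleMap 0 1 θ)).re =
        ∫ θ in (0:ℝ)..2 * π, (g (circleMap 0 1 θ)).re := by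
      rw [intervalIntegral.integral_of_le hpi.le, intervalIntegral.integral_of_le hpi.le]
      have h3 := hcg.intervalIntegrable (μ := volume) 0 (2 * π)
      rw [intervalIntegrable_iff, uIoc_of_le hpi.le] at h3
      have h4 := integral_re h3
      rw [RCLike.re_eq_complex_re] at h4
      exact h4.symm
    rw [← h4, h3, Complex.re_ofReal_mul]
  -- the combination
  set S : ℝ → ℝ := fun θ => ∑ j ∈ Finset.range k,
    e j * (2 * (KK z x (j + 1) ((ρ:ℂ) * (circleMap 0 1 θ)⁻¹)).re) with hS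
  set T : ℝ → ℝ := fun θ => M * (2 * (KK z x 0 ((ρ:ℂ) * (circleMap 0 1 θ)⁻¹)).re - 1) with hT
  have hST : ∀ θ, S θ ≤ T θ := by
    intro θ
    apply hpos
    rw [norm_mul, norm_inv, Complex.norm_real, Real.norm_of_nonneg h0]
    simp
  have hg0 : ∀ θ : ℝ, 0 ≤ (g (circleMap 0 1 θ)).re := fun θ => hre _ (by simp)
  have eS : ∀ θ, (g (circleMap 0 1 θ)).re * S θ = ∑ j ∈ Finset.range k,
      e j * ((2 * (g (circleMap 0 1 θ)).re) *
      (KK z x (j + 1) ((ρ:ℂ) * (circleMap 0 1 θ)⁻¹)).re) := by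
    intro θ
    simp only [hS]
    rw [Finset.mul_sum]
    exact Finset.sum_congr rfl fun j _ => by ring
  have eT : ∀ θ, (g (circleMap 0 1 θ)).re * T θ = M * (((2 * (g (circleMap 0 1 θ)).re) *
      (KK z x 0 ((ρ:ℂ) * (circleMap 0 1 θ)⁻¹)).re) - (g (circleMap 0 1 θ)).re) := by
    intro θ
    simp only [hT]
    ring
  have iS : IntervalIntegrable (fun θ => (g (circleMap 0 1 θ)).re * S θ) volume 0 (2 * π) := by
    simp_rw [eS]
    have h1 := IntervalIntegrable.sum (μ := volume) (a := 0) (b := 2 * π) (Finset.range k)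
      (f := fun j θ => e j * (2 * (g (circleMap 0 1 θ)).re *
        (KK z x (j + 1) ((ρ:ℂ) * (circleMap 0 1 θ)⁻¹)).re))
      fun j _ => (hiir (j + 1)).const_mul _
    refine h1.congr ?_
    intro θ _
    simp
  have iT : IntervalIntegrable (fun θ => (g (circleMap 0 1 θ)).re * T θ) volume 0 (2 * π) := by
    simp_rw [eT]
    exact ((hiir 0).sub ((Complex.continuous_re.comp hcg).intervalIntegrable _ _)).const_mul _
  have vS : ∫ θ in (0:ℝ)..2 * π, (g (circleMap 0 1 θ)).re * S θ =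
      2 * π * ∑ j ∈ Finset.range k, e j * (QQ z x (j + 1) g ρ).re := by
    simp_rw [eS]
    rw [intervalIntegral.integral_finsetSum fun j _ => (hiir (j + 1)).const_mul _, Finset.mul_sum]
    refine Finset.sum_congr rfl fun j _ => ?_
    rw [intervalIntegral.integral_const_mul, hre1]
    simp
    ring
  have vT : ∫ θ in (0:ℝ)..2 * π, (g (circleMap 0 1 θ)).re * T θ =
      2 * π * (M * (QQ z x 0 g ρ).re) := by
    simp_rw [eT]
    have hig : IntervalIntegrable (fun θ : ℝ => (g (circleMap 0 1 θ)).re) volume 0 (2 * π) :=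
      (Complex.continuous_re.comp hcg).intervalIntegrable _ _
    rw [intervalIntegral.integral_const_mul, intervalIntegral.integral_sub (hiir 0) hig, hre1,
      hmean]
    simp
    ring
  have h1 : ∫ θ in (0:ℝ)..2 * π, (g (circleMap 0 1 θ)).re * S θ ≤
      ∫ θ in (0:ℝ)..2 * π, (g (circleMap 0 1 θ)).re * T θ := by
    apply intervalIntegral.integral_mono_on hpi.le iS iT
    intro θ _
    exact mul_le_mul_of_nonneg_left (hST θ) (hg0 θ)
  rw [vS, vT] at h1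
  exact le_of_mul_le_mul_left h1 hpi

/-- One-sided version for functions with nonnegative real part. -/
theorem pos_re (hz : ∀ i, ‖z i‖ ≤ 1) (hx : ‖x‖ ≤ 1) {k : ℕ} {e : ℕ → ℝ} {M ρ0 : ℝ}
    (hρ0 : ρ0 < 1)
    (hpos : ∀ ξ : ℂ, ρ0 < ‖ξ‖ → ‖ξ‖ < 1 →
      ∑ j ∈ Finset.range k, e j * (2 * (KK z x (j + 1) ξ).re) ≤
      M * (2 * (KK z x 0 ξ).re - 1)) {g : ℂ → ℂ} (hg : Differentiable ℂ g)
    (hre : ∀ w : ℂ, ‖w‖ = 1 → 0 ≤ (g w).re) :
    ∑ j ∈ Finset.range k, e j * (QQ z x (j + 1) g 1).re ≤ M * (QQ z x 0 g 1).re := by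
  have h1 : Tendsto (fun ρ : ℝ => ∑ j ∈ Finset.range k, e j * (QQ z x (j + 1) g ρ).re)
      (𝓝[<] 1) (𝓝 (∑ j ∈ Finset.range k, e j * (QQ z x (j + 1) g 1).re)) := by
    apply tendsto_finsetSum
    intro j _
    exact ((Complex.continuous_re.tendsto _).comp (tendsto_QQ hz hx (j + 1) hg)).const_mul _
  have h2 : Tendsto (fun ρ : ℝ => M * (QQ z x 0 g ρ).re) (𝓝[<] 1) (𝓝 (M * (QQ z x 0 g 1).re)) :=
    ((Complex.continuous_re.tendsto _).comp (tendsto_QQ hz hx 0 hg)).const_mul _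
  refine le_of_tendsto_of_tendsto h1 h2 ?_
  have h3 : ∀ᶠ ρ : ℝ in 𝓝[<] 1, ρ ∈ Ioo (max ρ0 0) 1 :=
    Ioo_mem_nhdsLT (max_lt hρ0 zero_lt_one)
  filter_upwards [h3] with ρ hρ
  have h0 : 0 ≤ ρ := (le_max_right _ _).trans hρ.1.le
  exact pos_dil hz hx h0 hρ.2 (fun ξ hξ => hpos ξ (by
    rw [hξ]; exact lt_of_le_of_lt (le_max_left _ _) hρ.1) (by rw [hξ]; exact hρ.2)) hg hre

/-- A functional with a positive kernel of mass `M` is bounded by `M`. -/
theorem pos_schur (hz : ∀ i, ‖z i‖ ≤ 1) (hx : ‖x‖ ≤ 1) {k : ℕ} {e : ℕ → ℝ} {M ρ0 : ℝ}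
    (hρ0 : ρ0 < 1)
    (hpos : ∀ ξ : ℂ, ρ0 < ‖ξ‖ → ‖ξ‖ < 1 →
      ∑ j ∈ Finset.range k, e j * (2 * (KK z x (j + 1) ξ).re) ≤
      M * (2 * (KK z x 0 ξ).re - 1)) {φ : ℂ → ℂ} (hφ : Differentiable ℂ φ)
    (hb : ∀ w : ℂ, ‖w‖ ≤ 1 → ‖φ w‖ ≤ 1) :
    ‖(M : ℂ) * QQ z x 0 φ 1 - ∑ j ∈ Finset.range k, (e j : ℂ) * QQ z x (j + 1) φ 1‖ ≤ M := by
  set L : ℂ := (M : ℂ) * QQ z x 0 φ 1 - ∑ j ∈ Finset.range k, (e j : ℂ) * QQ z x (j + 1) φ 1
    with hL
  obtain ⟨α, hα, hαL⟩ : ∃ α : ℂ, ‖α‖ = 1 ∧ α * L = (‖L‖ : ℂ) := by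
    by_cases h0 : L = 0
    · exact ⟨1, by simp, by simp [h0]⟩
    · refine ⟨(‖L‖ : ℂ) / L, ?_, ?_⟩
      · rw [norm_div, Complex.norm_real, norm_norm]
        exact div_self (norm_ne_zero_iff.2 h0)
      · rw [div_mul_cancel₀ _ h0]
  have hα' : ‖-α‖ = 1 := by rw [norm_neg, hα]
  have h1 := pos_re hz hx hρ0 hpos (g := fun w => 1 + (-α) * φ w)
      ((differentiable_const _).add (hφ.const_mul (-α))) (by
        intro w hw
        have h2 := hb w hw.le
        have h3 := Complex.abs_re_le_norm ((-α) * φ w)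
        rw [norm_mul, hα', one_mul] at h3
        have h4 := (abs_le.1 h3).1
        rw [Complex.add_re, Complex.one_re]
        linarith)
  rw [QQ_aff_zero hz hφ, Finset.sum_congr rfl fun j _ => by rw [QQ_aff_succ hz j hφ]] at h1
  have h2 : (α * L).re = ‖L‖ := by rw [hαL, Complex.ofReal_re]
  have h3 : (α * L).re = M * (α * QQ z x 0 φ 1).re -
      ∑ j ∈ Finset.range k, e j * (α * QQ z x (j + 1) φ 1).re := by
    rw [hL, mul_sub, Complex.sub_re, Finset.mul_sum, Complex.re_sum]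
    congr 1
    · have : α * ((M:ℂ) * QQ z x 0 φ 1) = (M:ℂ) * (α * QQ z x 0 φ 1) := by ring
      rw [this, Complex.re_ofReal_mul]
    · refine Finset.sum_congr rfl fun j _ => ?_
      have : α * ((e j:ℂ) * QQ z x (j + 1) φ 1) = (e j:ℂ) * (α * QQ z x (j + 1) φ 1) := by ring
      rw [this, Complex.re_ofReal_mul]
  have h4 : ∀ u : ℂ, ((-α) * u).re = -(α * u).re := by
    intro u
    rw [neg_mul, Complex.neg_re]
  simp only [h4, Complex.add_re, Complex.one_re, mul_neg, Finset.sum_neg_distrib] at h1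
  rw [← h2, h3]
  linarith

/-- The Leibniz expansion of `F^{(k)}(x)`, `F = ω h`. -/
theorem frame_eq {k : ℕ} (hz : ∀ i, ‖z i‖ ≤ 1) {h : ℂ → ℂ} (hh : Differentiable ℂ h) :
    (n.factorial : ℂ) * iteratedDeriv k (fun w => (∏ i, (w - z i)) * h w) x =
      (k.factorial : ℂ) * ((hasseDeriv k (om z)).eval x *
        QQ z x 0 (iteratedDeriv n (fun w => (∏ i, (w - z i)) * h w)) 1 +
        ∑ j ∈ Finset.range k, (hasseDeriv (k - (j + 1)) (om z)).eval x *
          QQ z x (j + 1) (iteratedDeriv n (fun w => (∏ i, (w - z i)) * h w)) 1) := by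
  have hF : Differentiable ℂ (fun w => (∏ i, (w - z i)) * h w) := entire_prod_mul z hh
  set φ := iteratedDeriv n (fun w => (∏ i, (w - z i)) * h w) with hφd
  have hφ : Differentiable ℂ φ := entire_iteratedDeriv hF n
  -- Leibniz
  have hom : (fun w => ∏ i, (w - z i)) = fun w => (om z).eval w := by
    funext w
    rw [om, Polynomial.eval_prod]
    simp
  have hω : Differentiable ℂ (fun w => ∏ i, (w - z i)) := by
    rw [hom]; exact poly_entire _
  have hQ : ∀ j, (n.factorial : ℂ) * iteratedDeriv j h x = (j.factorial : ℂ) * QQ z x j φ 1 := by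
    intro j
    rw [iter_h hz hh j x, QQ_one]
    have : (j.factorial : ℂ) ≠ 0 := by exact_mod_cast j.factorial_ne_zero
    field_simp
    rfl
  have h1 := iteratedDeriv_fun_mul (n := k) (x := x) (f := fun w => ∏ i, (w - z i)) (g := h)
    (entire_contDiffAt hω k x) (entire_contDiffAt hh k x)
  rw [h1, Finset.mul_sum]
  have h2 : ∀ i ∈ Finset.range (k + 1), (n.factorial : ℂ) * ((k.choose i : ℂ) *
      iteratedDeriv i (fun w => ∏ i, (w - z i)) x * iteratedDeriv (k - i) h x) =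
      (k.factorial : ℂ) * ((hasseDeriv i (om z)).eval x * QQ z x (k - i) φ 1) := by
    intro i hi
    have hik : i ≤ k := Nat.lt_succ_iff.1 (Finset.mem_range.1 hi)
    have h3 : iteratedDeriv i (fun w => ∏ i, (w - z i)) x =
        (i.factorial : ℂ) * (hasseDeriv i (om z)).eval x := by
      rw [hom, iter_hasse]
    rw [h3]
    have h4 : ((k.choose i : ℂ)) * (i.factorial : ℂ) * ((k - i).factorial : ℂ) =
        (k.factorial : ℂ) := by
      exact_mod_cast Nat.choose_mul_factorial_mul_factorial hik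
    calc (n.factorial : ℂ) * ((k.choose i : ℂ) * ((i.factorial : ℂ) *
          (hasseDeriv i (om z)).eval x) * iteratedDeriv (k - i) h x)
        = (k.choose i : ℂ) * (i.factorial : ℂ) * (hasseDeriv i (om z)).eval x *
          ((n.factorial : ℂ) * iteratedDeriv (k - i) h x) := by ring
      _ = ((k.choose i : ℂ) * (i.factorial : ℂ) * ((k - i).factorial : ℂ)) *
          ((hasseDeriv i (om z)).eval x * QQ z x (k - i) φ 1) := by rw [hQ]; ring
      _ = _ := by rw [h4]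
  rw [Finset.sum_congr rfl h2, Finset.sum_range_succ, Nat.sub_self, ← Finset.sum_range_reflect,
    mul_add, Finset.mul_sum, add_comm]
  congr 1
  refine Finset.sum_congr rfl fun j hj => ?_
  have hjk : j < k := Finset.mem_range.1 hj
  have h5 : k - 1 - j = k - (j + 1) := by omega
  have h6 : k - (k - 1 - j) = j + 1 := by omega
  rw [h6, h5]

/-- THE ZONE FRAME FOR `k = 1`. If `ω(x) = a ≥ 0`, `ω'(x) = b`, `|b| ≤ M`, `A, B ≥ 0`, `A + B > 0`,
`A · 2 Re K_1 ≤ 2 Re K_0 - 1`, `-B · 2 Re K_1 ≤ 2 Re K_0 - 1` for `ρ0 < |ξ| < 1` and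
`2 a ≤ A (M - b) + B (M + b)`, then `|F'(x)| ≤ M / n!`. -/
theorem zone_frame (hz : ∀ i, ‖z i‖ ≤ 1) (hx : ‖x‖ ≤ 1) {a b A B M ρ0 : ℝ}
    (ha : (om z).eval x = (a : ℂ)) (hb' : (derivative (om z)).eval x = (b : ℂ))
    (ha0 : 0 ≤ a) (hbM : |b| ≤ M) (hA : 0 ≤ A) (hB : 0 ≤ B) (hAB : 0 < A + B) (hρ0 : ρ0 < 1)
    (h1 : ∀ ξ : ℂ, ρ0 < ‖ξ‖ → ‖ξ‖ < 1 → A * (2 * (KK z x 1 ξ).re) ≤ 2 * (KK z x 0 ξ).re - 1)
    (h2 : ∀ ξ : ℂ, ρ0 < ‖ξ‖ → ‖ξ‖ < 1 → -(B * (2 * (KK z x 1 ξ).re)) ≤ 2 * (KK z x 0 ξ).re - 1)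
    (hz2 : 2 * a ≤ A * (M - b) + B * (M + b)) {h : ℂ → ℂ} (hh : Differentiable ℂ h)
    (hb : ∀ w, ‖w‖ ≤ 1 → ‖iteratedDeriv n (fun w => (∏ i, (w - z i)) * h w) w‖ ≤ 1) :
    ‖iteratedDeriv 1 (fun w => (∏ i, (w - z i)) * h w) x‖ ≤ 1 / (n.factorial : ℝ) * M := by
  have hF : Differentiable ℂ (fun w => (∏ i, (w - z i)) * h w) := entire_prod_mul z hh
  have hL := frame_eq (k := 1) (x := x) hz hh
  set φ := iteratedDeriv n (fun w => (∏ i, (w - z i)) * h w) with hφd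
  have hφ : Differentiable ℂ φ := entire_iteratedDeriv hF n
  rw [Finset.sum_range_one, hasseDeriv_one, Nat.sub_self, hasseDeriv_zero, LinearMap.id_apply,
    ha, hb'] at hL
  set Q0 := QQ z x 0 φ 1 with hQ0
  set Q1 := QQ z x (0 + 1) φ 1 with hQ1
  have p1 : ‖Q0 - (A:ℂ) * Q1‖ ≤ 1 := by
    have := pos_schur (k := 1) (e := fun _ => A) (M := 1) hz hx hρ0 (fun ξ hξ hξ1 => by
      simpa using h1 ξ hξ hξ1) hφ hb
    simpa using this
  have p2 : ‖Q0 + (B:ℂ) * Q1‖ ≤ 1 := by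
    have := pos_schur (k := 1) (e := fun _ => -B) (M := 1) hz hx hρ0 (fun ξ hξ hξ1 => by
      simpa using h2 ξ hξ hξ1) hφ hb
    simpa using this
  have hABc : ((A:ℂ) + B) ≠ 0 := by exact_mod_cast hAB.ne'
  have e1 : (b:ℂ) * Q0 + (a:ℂ) * Q1 = (((B * b - a : ℝ) : ℂ) * (Q0 - (A:ℂ) * Q1) +
      ((A * b + a : ℝ) : ℂ) * (Q0 + (B:ℂ) * Q1)) / ((A:ℂ) + B) := by
    push_cast
    field_simp
    ring
  have e2 : ‖(b:ℂ) * Q0 + (a:ℂ) * Q1‖ ≤ M := by
    rw [e1, norm_div]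
    have hn : ‖(A:ℂ) + B‖ = A + B := by
      rw [← Complex.ofReal_add, Complex.norm_real, Real.norm_of_nonneg hAB.le]
    rw [hn, div_le_iff₀ hAB]
    refine (norm_add_le _ _).trans ?_
    rw [norm_mul, norm_mul, Complex.norm_real, Complex.norm_real, Real.norm_eq_abs,
      Real.norm_eq_abs]
    have h3 : |B * b - a| * ‖Q0 - (A:ℂ) * Q1‖ ≤ |B * b - a| :=
      mul_le_of_le_one_right (abs_nonneg _) p1
    have h4 : |A * b + a| * ‖Q0 + (B:ℂ) * Q1‖ ≤ |A * b + a| :=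
      mul_le_of_le_one_right (abs_nonneg _) p2
    have h5 := abs_le.1 hbM
    have h6 : |B * b - a| + |A * b + a| ≤ M * (A + B) := by
      rcases abs_cases (B * b - a) with ⟨c1, _⟩ | ⟨c1, _⟩ <;>
      rcases abs_cases (A * b + a) with ⟨c2, _⟩ | ⟨c2, _⟩ <;>
      rw [c1, c2] <;> nlinarith [mul_nonneg hA (sub_nonneg.2 h5.2), mul_nonneg hB
        (sub_nonneg.2 h5.2), mul_nonneg hA (by linarith [h5.1] : 0 ≤ M + b),
        mul_nonneg hB (by linarith [h5.1] : 0 ≤ M + b)]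
    linarith
  have hn : (0:ℝ) < (n.factorial : ℝ) := by exact_mod_cast n.factorial_pos
  have h7 : (n.factorial : ℝ) * ‖iteratedDeriv 1 (fun w => (∏ i, (w - z i)) * h w) x‖ ≤ M := by
    have h8 : (n.factorial : ℝ) * ‖iteratedDeriv 1 (fun w => (∏ i, (w - z i)) * h w) x‖ =
        ‖(n.factorial : ℂ) * iteratedDeriv 1 (fun w => (∏ i, (w - z i)) * h w) x‖ := by
      rw [norm_mul, Complex.norm_natCast]
    rw [h8, hL]
    simpa using e2
  rw [div_mul_eq_mul_div, le_div_iff₀ hn, mul_comm, one_mul]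
  exact h7

end zone

end Pool.Agent.HStar
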