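import Mathlib

set_option autoImplicit false

namespace Pool.Agent.HStar

open MeasureTheory Set Filter Topology Complex ComplexConjugate Metric Real

theorem entire_deriv' {g : ℂ → ℂ} (hg : Differentiable ℂ g) : Differentiable ℂ (deriv g) :=
  fun _ => (hg.analyticAt _).deriv.differentiableAt

/-- Cauchy's formula for the derivatives at a point of the disc. -/
theorem cauchy_deriv (j : ℕ) : ∀ (g : ℂ → ℂ), Differentiable ℂ g → ∀ u : ℂ, ‖u‖ < 1 →
    (∮ s in C(0, 1), (1 / (s - u) ^ (j + 1)) * g s) =
      2 * π * I / (j.factorial : ℂ) * iteratedDeriv j g u := by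
  induction j with
  | zero =>
    intro g hg u hu
    have h := (hg.diffContOnCl (s := ball (0:ℂ) 1)).circleIntegral_sub_inv_smul
      (w := u) (by simpa [mem_ball_zero_iff] using hu)
    simp only [smul_eq_mul] at h
    simp only [zero_add, pow_one, one_div, Nat.factorial_zero, Nat.cast_one, div_one,
      iteratedDeriv_zero]
    exact h
  | succ j ih =>
    intro g hg u hu
    have hne : ∀ s ∈ sphere (0:ℂ) 1, s - u ≠ 0 := by
      intro s hs h0
      rw [sub_eq_zero] at h0
      rw [mem_sphere_zero_iff_norm] at hs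
      rw [h0] at hs
      linarith
    have hd := circleIntegral.integral_eq_zero_of_hasDerivWithinAt (E := ℂ)
      (f := fun s => (1 / (s - u) ^ (j + 1)) * g s)
      (f' := fun s => (1 / (s - u) ^ (j + 1)) * deriv g s -
        ((j:ℂ) + 1) * ((1 / (s - u) ^ (j + 2)) * g s)) (c := 0) (R := 1) zero_le_one (by
        intro s hs
        have h0 := hne s hs
        have h1 : HasDerivAt (fun s : ℂ => (s - u) ^ (j + 1)) ((j + 1 : ℕ) * (s - u) ^ j * 1) s := by
          have := ((hasDerivAt_id' s).sub_const u).fun_pow (j + 1)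
          simpa using this
        have h2 := h1.inv (pow_ne_zero _ h0)
        have h3 := h2.mul (hg s).hasDerivAt
        have h4 : HasDerivAt (fun s => (1 / (s - u) ^ (j + 1)) * g s)
            ((1 / (s - u) ^ (j + 1)) * deriv g s -
        ((j:ℂ) + 1) * ((1 / (s - u) ^ (j + 2)) * g s)) s := by
          have e1 : (fun s => (1 / (s - u) ^ (j + 1)) * g s) =
              (fun s : ℂ => (s - u) ^ (j + 1))⁻¹ * g := by
            funext t
            simp [one_div]
          rw [e1]
          refine h3.congr_deriv ?_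
          simp only [Pi.inv_apply, Nat.cast_add, Nat.cast_one, mul_one]
          field_simp
          ring
        exact h4.hasDerivWithinAt)
    have hi1 : CircleIntegrable (fun s => (1 / (s - u) ^ (j + 1)) * deriv g s) 0 1 := by
      apply ContinuousOn.circleIntegrable zero_le_one
      refine ContinuousOn.mul ?_ (entire_deriv' hg).continuous.continuousOn
      refine ContinuousOn.div continuousOn_const
        ((continuous_id.sub continuous_const).pow _).continuousOn (fun s hs => ?_)
      exact pow_ne_zero _ (hne s hs)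
    have hi2 : CircleIntegrable (fun s => ((j:ℂ) + 1) * ((1 / (s - u) ^ (j + 2)) * g s)) 0 1 := by
      apply ContinuousOn.circleIntegrable zero_le_one
      refine continuousOn_const.mul (ContinuousOn.mul ?_ hg.continuous.continuousOn)
      refine ContinuousOn.div continuousOn_const
        ((continuous_id.sub continuous_const).pow _).continuousOn (fun s hs => ?_)
      exact pow_ne_zero _ (hne s hs)
    rw [circleIntegral.integral_sub hi1 hi2, circleIntegral.integral_const_mul,
      ih (deriv g) (entire_deriv' hg) u hu] at hd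
    have hj : ((j:ℂ) + 1) ≠ 0 := by exact_mod_cast Nat.succ_ne_zero j
    have hf : (j.factorial : ℂ) ≠ 0 := by exact_mod_cast j.factorial_ne_zero
    rw [iteratedDeriv_succ', Nat.factorial_succ]
    push_cast
    have h5 : (j:ℂ) + 1 ≠ 0 := hj
    rw [sub_eq_zero] at hd
    have h6 : (∮ s in C(0, 1), (1 / (s - u) ^ (j + 1 + 1)) * g s) =
        (2 * π * I / (j.factorial : ℂ) * iteratedDeriv j (deriv g) u) / ((j:ℂ) + 1) := by
      rw [eq_div_iff h5, mul_comm]
      exact hd.symm
    rw [h6]
    field_simp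

/-- The second half of the Poisson formula. -/
theorem conj_part (j : ℕ) {g : ℂ → ℂ} (hg : Differentiable ℂ g) {u : ℂ} (hu : ‖u‖ < 1) :
    ∫ θ in (0:ℝ)..2 * π, conj (g (circleMap 0 1 θ)) *
        (circleMap 0 1 θ / (circleMap 0 1 θ - u) ^ (j + 1)) =
      2 * π * (if j = 0 then conj (g 0) else 0) := by
  set F : ℂ → ℂ := fun s => g s * s ^ j / (1 - conj u * s) ^ (j + 1) with hF
  have hne : ∀ s : ℂ, ‖s‖ ≤ 1 → 1 - conj u * s ≠ 0 := by
    intro s hs h0
    have h1 : conj u * s = 1 := (sub_eq_zero.1 h0).symm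
    have h2 : ‖conj u * s‖ = 1 := by rw [h1, norm_one]
    rw [norm_mul, RCLike.norm_conj] at h2
    nlinarith [norm_nonneg u, norm_nonneg s]
  have hFd : DiffContOnCl ℂ F (ball 0 |(1:ℝ)|) := by
    rw [abs_one]
    apply DifferentiableOn.diffContOnCl
    rw [closure_ball _ one_ne_zero]
    intro s hs
    have hs' : ‖s‖ ≤ 1 := by simpa using hs
    have hnum : DifferentiableAt ℂ (fun s => g s * s ^ j) s :=
      (hg s).fun_mul (differentiableAt_fun_id.fun_pow j)
    have hden : DifferentiableAt ℂ (fun s => (1 - conj u * s) ^ (j + 1)) s := by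
      fun_prop
    exact (hnum.fun_div hden (pow_ne_zero _ (hne s hs'))).differentiableWithinAt
  have hav := hFd.circleAverage
  rw [circleAverage_def] at hav
  have h0 : F 0 = if j = 0 then g 0 else 0 := by
    simp only [hF]
    by_cases hj : j = 0
    · subst hj; simp
    · simp [hj]
  have h1 : ∫ θ in (0:ℝ)..2 * π, F (circleMap 0 1 θ) = 2 * π * (if j = 0 then g 0 else 0) := by
    rw [← h0, ← hav]
    have h2 : (2 * π : ℝ) ≠ 0 := by positivity
    rw [Complex.real_smul]
    have h3 : ((2 * π : ℝ) : ℂ) ≠ 0 := by exact_mod_cast h2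
    push_cast at h3 ⊢
    field_simp
  have h2 : ∀ θ : ℝ, conj (g (circleMap 0 1 θ)) *
        (circleMap 0 1 θ / (circleMap 0 1 θ - u) ^ (j + 1)) = conj (F (circleMap 0 1 θ)) := by
    intro θ
    set s := circleMap 0 1 θ with hs
    have hsn : ‖s‖ = 1 := by simp [hs]
    have hs0 : s ≠ 0 := by
      intro h; rw [h, norm_zero] at hsn; norm_num at hsn
    have hsc : conj s = s⁻¹ := by
      rw [Complex.inv_def, Complex.normSq_eq_norm_sq, hsn]
      simp
    have hsu : s - u ≠ 0 := by
      intro h
      rw [sub_eq_zero] at h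
      rw [h] at hsn; linarith
    simp only [hF, map_div₀, map_mul, map_pow, map_sub, map_one, Complex.conj_conj, hsc]
    have e : (1 - u * s⁻¹) = (s - u) / s := by
      field_simp
    rw [e, div_pow, inv_pow]
    have h5 : s ^ j ≠ 0 := pow_ne_zero _ hs0
    have h6 : (s - u) ^ (j + 1) ≠ 0 := pow_ne_zero _ hsu
    rw [pow_succ s j]
    field_simp
  simp_rw [h2]
  have h3 : ∫ θ in (0:ℝ)..2 * π, conj (F (circleMap 0 1 θ)) =
      conj (∫ θ in (0:ℝ)..2 * π, F (circleMap 0 1 θ)) := by
    rw [intervalIntegral.integral_of_le (by positivity), intervalIntegral.integral_of_le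
      (by positivity)]
    exact integral_conj
  rw [h3, h1]
  have h2c : conj (2:ℂ) = 2 := Complex.conj_ofNat 2
  by_cases hj : j = 0
  · subst hj; simp [h2c]
  · simp [hj]

/-- The Poisson formula with derivatives. -/
theorem poisson (j : ℕ) {g : ℂ → ℂ} (hg : Differentiable ℂ g) {u : ℂ} (hu : ‖u‖ < 1) :
    ∫ θ in (0:ℝ)..2 * π, ((2 * (g (circleMap 0 1 θ)).re : ℝ) : ℂ) *
        (circleMap 0 1 θ / (circleMap 0 1 θ - u) ^ (j + 1)) =
      2 * π * (iteratedDeriv j g u / (j.factorial : ℂ) + if j = 0 then conj (g 0) else 0) := by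
  have h1 := cauchy_deriv j g hg u hu
  have h2 := conj_part j hg hu
  have hne : ∀ θ : ℝ, circleMap 0 1 θ - u ≠ 0 := by
    intro θ h
    have hsn : ‖circleMap 0 1 θ‖ = 1 := by simp
    rw [sub_eq_zero] at h
    rw [h] at hsn; linarith
  have hc : Continuous (fun θ : ℝ => circleMap 0 1 θ) := continuous_circleMap 0 1
  have hk : Continuous (fun θ : ℝ => circleMap 0 1 θ / (circleMap 0 1 θ - u) ^ (j + 1)) :=
    hc.div ((hc.sub continuous_const).pow _) (fun θ => pow_ne_zero _ (hne θ))
  have hgc : Continuous (fun θ : ℝ => g (circleMap 0 1 θ)) := hg.continuous.comp hc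
  have e1 : ∀ θ : ℝ, ((2 * (g (circleMap 0 1 θ)).re : ℝ) : ℂ) *
        (circleMap 0 1 θ / (circleMap 0 1 θ - u) ^ (j + 1)) =
      g (circleMap 0 1 θ) * (circleMap 0 1 θ / (circleMap 0 1 θ - u) ^ (j + 1)) +
      conj (g (circleMap 0 1 θ)) * (circleMap 0 1 θ / (circleMap 0 1 θ - u) ^ (j + 1)) := by
    intro θ
    have : ((2 * (g (circleMap 0 1 θ)).re : ℝ) : ℂ) = g (circleMap 0 1 θ) +
        conj (g (circleMap 0 1 θ)) := by
      rw [Complex.add_conj]
    rw [this, add_mul]
  simp_rw [e1]
  have hi1 : IntervalIntegrable (fun θ : ℝ => g (circleMap 0 1 θ) *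
      (circleMap 0 1 θ / (circleMap 0 1 θ - u) ^ (j + 1))) volume 0 (2 * π) :=
    (hgc.mul hk).intervalIntegrable _ _
  have hi2 : IntervalIntegrable (fun θ : ℝ => conj (g (circleMap 0 1 θ)) *
      (circleMap 0 1 θ / (circleMap 0 1 θ - u) ^ (j + 1))) volume 0 (2 * π) :=
    ((Complex.continuous_conj.comp hgc).mul hk).intervalIntegrable _ _
  rw [intervalIntegral.integral_add hi1 hi2, h2]
  have e2 : (∮ s in C(0, 1), (1 / (s - u) ^ (j + 1)) * g s) =
      I * ∫ θ in (0:ℝ)..2 * π, g (circleMap 0 1 θ) *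
        (circleMap 0 1 θ / (circleMap 0 1 θ - u) ^ (j + 1)) := by
    rw [circleIntegral, ← intervalIntegral.integral_const_mul]
    refine intervalIntegral.integral_congr (fun θ _ => ?_)
    simp only [deriv_circleMap, smul_eq_mul]
    ring
  rw [e2] at h1
  have h3 : ∫ θ in (0:ℝ)..2 * π, g (circleMap 0 1 θ) *
        (circleMap 0 1 θ / (circleMap 0 1 θ - u) ^ (j + 1)) =
      2 * π / (j.factorial : ℂ) * iteratedDeriv j g u := by
    have h4 : I * (∫ θ in (0:ℝ)..2 * π, g (circleMap 0 1 θ) *
        (circleMap 0 1 θ / (circleMap 0 1 θ - u) ^ (j + 1))) =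
        I * (2 * π / (j.factorial : ℂ) * iteratedDeriv j g u) := by
      rw [h1]; ring
    exact mul_left_cancel₀ I_ne_zero h4
  rw [h3]
  ring

end Pool.Agent.HStar
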