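import Pool.Agent.HStar.GDeriv
import Pool.Agent.HStar.Poisson

set_option autoImplicit false

namespace Pool.Agent.HStar

open MeasureTheory Set Filter Topology Complex ComplexConjugate Real Pool.Agent.HHalf
  Pool.Agent.ConjInterp Function

/-- `K_j(ξ) = E[w_0^j ξ^j / (1 - ξ Z)^{j+1}]`. -/
noncomputable def KK {n : ℕ} (z : Fin n → ℂ) (x : ℂ) (j : ℕ) (ξ : ℂ) : ℂ :=
  ∫ X, (w0 X : ℂ) ^ j * (ξ ^ j / (1 - ξ * ZZ z x X) ^ (j + 1)) ∂mu (n + 1)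

theorem kern_eq (j : ℕ) {s u : ℂ} (ρ : ℂ) (hs : s ≠ 0) (hsu : s - ρ * u ≠ 0) :
    (ρ * s⁻¹) ^ j / (1 - ρ * s⁻¹ * u) ^ (j + 1) = ρ ^ j * (s / (s - ρ * u) ^ (j + 1)) := by
  have e : (1 - ρ * s⁻¹ * u) = (s - ρ * u) / s := by
    field_simp
  rw [e, div_pow, mul_pow, inv_pow]
  have h5 : s ^ j ≠ 0 := pow_ne_zero _ hs
  have h6 : (s - ρ * u) ^ (j + 1) ≠ 0 := pow_ne_zero _ hsu
  rw [pow_succ s j]
  field_simp

theorem norm_one_sub_ge {ξ u : ℂ} {ρ : ℝ} (hξ : ‖ξ‖ ≤ ρ) (hu : ‖u‖ ≤ 1) :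
    1 - ρ ≤ ‖1 - ξ * u‖ := by
  have h1 : ‖ξ * u‖ ≤ ρ := by
    rw [norm_mul]
    calc ‖ξ‖ * ‖u‖ ≤ ‖ξ‖ * 1 := mul_le_mul_of_nonneg_left hu (norm_nonneg _)
      _ ≤ ρ := by rw [mul_one]; exact hξ
  have h2 := norm_sub_norm_le (1:ℂ) (ξ * u)
  rw [norm_one] at h2
  linarith

theorem norm_kern_le (j : ℕ) {ξ u : ℂ} {ρ : ℝ} (hρ : ρ < 1) (hξ : ‖ξ‖ ≤ ρ)
    (hu : ‖u‖ ≤ 1) : ‖ξ ^ j / (1 - ξ * u) ^ (j + 1)‖ ≤ 1 / (1 - ρ) ^ (j + 1) := by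
  rw [norm_div, norm_pow, norm_pow]
  have h1 := norm_one_sub_ge hξ hu
  have h2 : 0 < 1 - ρ := by linarith
  apply div_le_div₀ zero_le_one (pow_le_one₀ (norm_nonneg _) (hξ.trans hρ.le)) (by positivity)
  exact pow_le_pow_left₀ h2.le h1 _

section fubini

variable {n : ℕ} {z : Fin n → ℂ} {x : ℂ}

theorem integrable_prod_kern (hz : ∀ i, ‖z i‖ ≤ 1) (hx : ‖x‖ ≤ 1) (j : ℕ) {ρ : ℝ} (h0 : 0 ≤ ρ)
    (hρ : ρ < 1) {c : ℝ → ℂ} (hc : Continuous c) {B : ℝ} (hB : ∀ θ, ‖c θ‖ ≤ B) :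
    Integrable (uncurry fun (θ : ℝ) (X : Fin (n + 1) → ℝ) => c θ * ((w0 X : ℂ) ^ j *
      (((ρ:ℂ) * (circleMap 0 1 θ)⁻¹) ^ j /
        (1 - (ρ:ℂ) * (circleMap 0 1 θ)⁻¹ * ZZ z x X) ^ (j + 1))))
      ((volume.restrict (uIoc 0 (2 * π))).prod (mu (n + 1))) := by
  have hm : Measurable (uncurry fun (θ : ℝ) (X : Fin (n + 1) → ℝ) => c θ * ((w0 X : ℂ) ^ j *
      (((ρ:ℂ) * (circleMap 0 1 θ)⁻¹) ^ j /
        (1 - (ρ:ℂ) * (circleMap 0 1 θ)⁻¹ * ZZ z x X) ^ (j + 1)))) := by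
    have hξ : Measurable (fun p : ℝ × (Fin (n + 1) → ℝ) => (ρ:ℂ) * (circleMap 0 1 p.1)⁻¹) :=
      measurable_const.mul ((measurable_circleMap 0 1).comp measurable_fst).inv
    have hw : Measurable (fun p : ℝ × (Fin (n + 1) → ℝ) => (w0 p.2 : ℂ) ^ j) :=
      ((measurable_w0c n).comp measurable_snd).pow_const j
    have hZ : Measurable (fun p : ℝ × (Fin (n + 1) → ℝ) => ZZ z x p.2) :=
      (measurable_ZZ z x).comp measurable_snd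
    exact (hc.measurable.comp measurable_fst).mul (hw.mul ((hξ.pow_const j).div
      ((measurable_const.sub (hξ.mul hZ)).pow_const (j + 1))))
  have : IsFiniteMeasure (volume.restrict (uIoc (0:ℝ) (2 * π))) := by
    unfold uIoc; infer_instance
  refine Integrable.mono' (integrable_const (B * (1 / (1 - ρ) ^ (j + 1))))
    hm.aestronglyMeasurable ?_
  have hae : ∀ᵐ p ∂((volume.restrict (uIoc 0 (2 * π))).prod (mu (n + 1))), ∀ i, 0 < p.2 i :=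
    Measure.quasiMeasurePreserving_snd.ae (mu_pos (n + 1))
  filter_upwards [hae] with p hp
  simp only [uncurry]
  have hB0 : 0 ≤ B := (norm_nonneg _).trans (hB 0)
  have hξ : ‖(ρ:ℂ) * (circleMap 0 1 p.1)⁻¹‖ ≤ ρ := by
    rw [norm_mul, norm_inv, Complex.norm_real, Real.norm_of_nonneg h0]
    simp
  rw [norm_mul, norm_mul, norm_pow]
  have h1 : ‖(w0 p.2 : ℂ)‖ ^ j ≤ 1 := pow_le_one₀ (norm_nonneg _) (norm_w0_le hp)
  have h2 := norm_kern_le j hρ hξ (norm_ZZ_le hz hx hp)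
  have h3 : ‖(w0 p.2 : ℂ)‖ ^ j * ‖((ρ:ℂ) * (circleMap 0 1 p.1)⁻¹) ^ j /
        (1 - (ρ:ℂ) * (circleMap 0 1 p.1)⁻¹ * ZZ z x p.2) ^ (j + 1)‖ ≤
      1 * (1 / (1 - ρ) ^ (j + 1)) := mul_le_mul h1 h2 (norm_nonneg _) zero_le_one
  rw [one_mul] at h3
  exact mul_le_mul (hB _) h3 (by positivity) hB0

theorem ii_KK (hz : ∀ i, ‖z i‖ ≤ 1) (hx : ‖x‖ ≤ 1) (j : ℕ) {ρ : ℝ} (h0 : 0 ≤ ρ)
    (hρ : ρ < 1) {c : ℝ → ℂ} (hc : Continuous c) {B : ℝ} (hB : ∀ θ, ‖c θ‖ ≤ B) :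
    IntervalIntegrable (fun θ : ℝ => c θ * KK z x j ((ρ:ℂ) * (circleMap 0 1 θ)⁻¹)) volume
      0 (2 * π) := by
  have h1 := (integrable_prod_kern (z := z) hz hx j h0 hρ hc hB).integral_prod_left
  rw [intervalIntegrable_iff]
  refine h1.congr (Eventually.of_forall fun θ => ?_)
  simp only [uncurry]
  rw [integral_const_mul]
  rfl

theorem swap (hz : ∀ i, ‖z i‖ ≤ 1) (hx : ‖x‖ ≤ 1) (j : ℕ) {g : ℂ → ℂ}
    (hg : Differentiable ℂ g) {ρ : ℝ} (h0 : 0 ≤ ρ) (hρ : ρ < 1) :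
    ∫ θ in (0:ℝ)..2 * π, ((2 * (g (circleMap 0 1 θ)).re : ℝ) : ℂ) *
        KK z x j ((ρ:ℂ) * (circleMap 0 1 θ)⁻¹) =
      2 * π * ((∫ X, (w0 X : ℂ) ^ j * ((ρ:ℂ) ^ j * iteratedDeriv j g (ρ * ZZ z x X) /
        (j.factorial : ℂ)) ∂mu (n + 1)) + if j = 0 then conj (g 0) else 0) := by
  obtain ⟨K, hK0, hK⟩ := bd_disc hg.continuous
  set c : ℝ → ℂ := fun θ => ((2 * (g (circleMap 0 1 θ)).re : ℝ) : ℂ) with hc
  have hcc : Continuous c := by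
    have : Continuous (fun θ : ℝ => g (circleMap 0 1 θ)) :=
      hg.continuous.comp (continuous_circleMap 0 1)
    exact Complex.continuous_ofReal.comp (continuous_const.mul (Complex.continuous_re.comp this))
  have hcb : ∀ θ, ‖c θ‖ ≤ 2 * K := by
    intro θ
    simp only [hc]
    rw [Complex.norm_real, Real.norm_eq_abs, abs_mul, abs_two]
    have h1 := (Complex.abs_re_le_norm (g (circleMap 0 1 θ))).trans (hK _ (by simp))
    linarith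
  have hint := integrable_prod_kern (z := z) hz hx j h0 hρ hcc hcb
  have h1 : ∫ θ in (0:ℝ)..2 * π, c θ * KK z x j ((ρ:ℂ) * (circleMap 0 1 θ)⁻¹) =
      ∫ θ in (0:ℝ)..2 * π, ∫ X, c θ * ((w0 X : ℂ) ^ j *
      (((ρ:ℂ) * (circleMap 0 1 θ)⁻¹) ^ j /
        (1 - (ρ:ℂ) * (circleMap 0 1 θ)⁻¹ * ZZ z x X) ^ (j + 1))) ∂mu (n + 1) := by
    refine intervalIntegral.integral_congr (fun θ _ => ?_)
    change _ = ∫ X, c θ * ((w0 X : ℂ) ^ j * (((ρ:ℂ) * (circleMap 0 1 θ)⁻¹) ^ j /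
        (1 - (ρ:ℂ) * (circleMap 0 1 θ)⁻¹ * ZZ z x X) ^ (j + 1))) ∂mu (n + 1)
    rw [integral_const_mul]
    rfl
  rw [h1, intervalIntegral_integral_swap hint]
  have h2 : ∀ᵐ X ∂mu (n + 1), (∫ θ in (0:ℝ)..2 * π, c θ * ((w0 X : ℂ) ^ j *
      (((ρ:ℂ) * (circleMap 0 1 θ)⁻¹) ^ j /
        (1 - (ρ:ℂ) * (circleMap 0 1 θ)⁻¹ * ZZ z x X) ^ (j + 1)))) =
      2 * π * ((w0 X : ℂ) ^ j * ((ρ:ℂ) ^ j * iteratedDeriv j g (ρ * ZZ z x X) /
        (j.factorial : ℂ)) + if j = 0 then conj (g 0) else 0) := by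
    filter_upwards [mu_pos (n + 1)] with X hX
    have hu : ‖(ρ:ℂ) * ZZ z x X‖ < 1 := by
      rw [norm_mul, Complex.norm_real, Real.norm_of_nonneg h0]
      have := norm_ZZ_le hz hx hX
      nlinarith [norm_nonneg (ZZ z x X)]
    have hp := poisson j hg hu
    have h3 : ∀ θ : ℝ, c θ * ((w0 X : ℂ) ^ j * (((ρ:ℂ) * (circleMap 0 1 θ)⁻¹) ^ j /
        (1 - (ρ:ℂ) * (circleMap 0 1 θ)⁻¹ * ZZ z x X) ^ (j + 1))) =
        ((w0 X : ℂ) ^ j * (ρ:ℂ) ^ j) * (c θ * (circleMap 0 1 θ /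
          (circleMap 0 1 θ - ρ * ZZ z x X) ^ (j + 1))) := by
      intro θ
      have hsn : ‖circleMap 0 1 θ‖ = 1 := by simp
      have hs0 : circleMap 0 1 θ ≠ 0 := by
        intro h; rw [h, norm_zero] at hsn; norm_num at hsn
      have hsu : circleMap 0 1 θ - ρ * ZZ z x X ≠ 0 := by
        intro h
        rw [sub_eq_zero] at h
        rw [h] at hsn; linarith
      rw [kern_eq j ρ hs0 hsu]
      ring
    simp_rw [h3]
    rw [intervalIntegral.integral_const_mul, hp]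
    by_cases hj : j = 0
    · subst hj
      simp
    · simp only [hj, if_false, add_zero]
      ring
  rw [integral_congr_ae h2, integral_const_mul]
  congr 1
  rw [integral_add _ (integrable_const _)]
  · simp
  · have h4 : (fun X : Fin (n + 1) → ℝ => (w0 X : ℂ) ^ j * ((ρ:ℂ) ^ j *
        iteratedDeriv j g (ρ * ZZ z x X) / (j.factorial : ℂ))) =
        fun X => (w0 X : ℂ) ^ j * (fun w => (ρ:ℂ) ^ j * iteratedDeriv j g (ρ * w) /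
          (j.factorial : ℂ)) (ZZ z x X) := rfl
    rw [h4]
    have h5 := (entire_iteratedDeriv hg j).continuous
    exact int_wg hz x j (g := fun w => (ρ:ℂ) ^ j * iteratedDeriv j g (ρ * w) /
          (j.factorial : ℂ)) (by fun_prop)

end fubini

end Pool.Agent.HStar
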