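import Pool.Agent.HStar.Maj
import Pool.Agent.HStar.Asm

set_option autoImplicit false

namespace Pool.Agent.HStar

open MeasureTheory Set Filter Topology Complex ComplexConjugate Pool.Agent.HHalf
  Pool.Agent.ConjInterp Function Polynomial

/-- `2E` of the by-parts bound as a function of `m`. -/
noncomputable def FE (N : ℕ) (x m : ℝ) : ℝ :=
  2 * N * (1 - m ^ 2) - (1 + m ^ 2) / 2 - |2 * x + m|

theorem FE_concave (N : ℕ) (x : ℝ) : ConcaveOn ℝ univ (FE N x) := by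
  refine ⟨convex_univ, ?_⟩
  intro a _ b _ s t hs ht hst
  unfold FE
  simp only [smul_eq_mul]
  have h1 : |2 * x + (s * a + t * b)| ≤ s * |2 * x + a| + t * |2 * x + b| := by
    have e : 2 * x + (s * a + t * b) = s * (2 * x + a) + t * (2 * x + b) := by
      have : 2 * x = (s + t) * (2 * x) := by rw [hst, one_mul]
      calc 2 * x + (s * a + t * b) = (s + t) * (2 * x) + (s * a + t * b) := by rw [← this]
        _ = _ := by ring
    rw [e]
    refine (abs_add_le _ _).trans (le_of_eq ?_)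
    rw [abs_mul, abs_mul, abs_of_nonneg hs, abs_of_nonneg ht]
  have h2 : (s * a + t * b) ^ 2 ≤ s * a ^ 2 + t * b ^ 2 := by
    have e : s * a ^ 2 + t * b ^ 2 - (s * a + t * b) ^ 2 = s * t * (a - b) ^ 2 := by
      have ht' : t = 1 - s := by linarith
      rw [ht']; ring
    have : 0 ≤ s * t * (a - b) ^ 2 := by positivity
    linarith
  have hN : (0:ℝ) ≤ N := Nat.cast_nonneg N
  have h3 := mul_le_mul_of_nonneg_left h2 hN
  have e1 : s * (2 * N * (1 - a ^ 2) - (1 + a ^ 2) / 2 - |2 * x + a|) +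
      t * (2 * N * (1 - b ^ 2) - (1 + b ^ 2) / 2 - |2 * x + b|) =
      (s + t) * (2 * N) - 2 * (N * (s * a ^ 2 + t * b ^ 2)) -
        ((s + t) + (s * a ^ 2 + t * b ^ 2)) / 2 - (s * |2 * x + a| + t * |2 * x + b|) := by ring
  rw [e1, hst]
  linarith

/-- Between the two extreme values of `m` the function `FE` is at least the minimum. -/
theorem FE_ge {N : ℕ} {x m1 m2 m c : ℝ} (h1 : m1 ≤ m) (h2 : m ≤ m2) (hc1 : c ≤ FE N x m1)
    (hc2 : c ≤ FE N x m2) : c ≤ FE N x m := by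
  have h := (FE_concave N x).min_le_of_mem_segment (mem_univ m1) (mem_univ m2)
    (by rw [segment_eq_Icc (h1.trans h2)]; exact ⟨h1, h2⟩)
  exact (le_min hc1 hc2).trans h

/-- `δ' ≥ 1 - x²`. -/
theorem delta_ge {x : ℝ} (hx0 : 0 ≤ x) (hx1 : x ≤ 1) {ξ : ℂ} (hξ : ‖ξ‖ < 1) :
    1 - x ^ 2 ≤ (1 - ξ * (x:ℂ)).re * (2 - ‖1 - ξ * (x:ℂ)‖) := by
  set u : ℂ := ξ * (x:ℂ) with hu
  set t := ‖1 - u‖ with ht
  have hun : ‖u‖ ≤ x := by
    rw [hu, norm_mul, Complex.norm_real, Real.norm_of_nonneg hx0]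
    nlinarith [norm_nonneg ξ]
  have ht2 : t ^ 2 = 1 - 2 * u.re + ‖u‖ ^ 2 := by
    rw [ht, ← Complex.normSq_eq_norm_sq, ← Complex.normSq_eq_norm_sq, Complex.normSq_apply,
      Complex.normSq_apply]
    simp
    ring
  have ht0 : 0 ≤ t := norm_nonneg _
  have h1 : |1 - t| ≤ ‖u‖ := by
    have := abs_norm_sub_norm_le (1:ℂ) (1 - u)
    rw [norm_one, sub_sub_cancel] at this
    exact this
  have h2 : (1 - t) ^ 2 ≤ ‖u‖ ^ 2 := by
    rw [← sq_abs (1 - t)]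
    exact pow_le_pow_left₀ (abs_nonneg _) h1 2
  have h3 : ‖u‖ ^ 2 ≤ x ^ 2 := pow_le_pow_left₀ (norm_nonneg _) hun 2
  have hre : (1 - u).re = (1 + t ^ 2 - ‖u‖ ^ 2) / 2 := by
    rw [Complex.sub_re, Complex.one_re]
    linarith
  rw [hre]
  have e : (1 + t ^ 2 - ‖u‖ ^ 2) / 2 * (2 - t) = (1 - ‖u‖ ^ 2) + t / 2 * (‖u‖ ^ 2 - (1 - t) ^ 2) := by
    ring
  rw [e]
  have h4 : 0 ≤ t / 2 * (‖u‖ ^ 2 - (1 - t) ^ 2) := mul_nonneg (by linarith) (by linarith)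
  linarith

/-- The norm in `D_j` is at most its tangent. -/
theorem norm_tan {x : ℝ} (hx0 : 0 ≤ x) {ξ : ℂ} (hξ : ‖ξ‖ < 1) (j : ℕ) :
    ‖2 * (j:ℂ) + 2 - j * (1 - ξ * (x:ℂ))‖ ≤
      (j + 2 + j * x) - j * (j + 2) * x * (1 - ξ.re) / (j + 2 + j * x) := by
  have hj : (0:ℝ) ≤ j := Nat.cast_nonneg j
  set R : ℝ := j + 2 + j * x with hR
  have hRpos : 0 < R := by positivity
  have e0 : (2 * (j:ℂ) + 2 - j * (1 - ξ * (x:ℂ))) = ((j + 2 : ℝ) : ℂ) + ((j * x : ℝ) : ℂ) * ξ := by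
    push_cast; ring
  rw [e0]
  have h1 : ‖((j + 2 : ℝ) : ℂ) + ((j * x : ℝ) : ℂ) * ξ‖ ^ 2 ≤
      R ^ 2 - 2 * (j * (j + 2) * x * (1 - ξ.re)) := by
    have e1 : ‖((j + 2 : ℝ) : ℂ) + ((j * x : ℝ) : ℂ) * ξ‖ ^ 2 =
        (j + 2) ^ 2 + 2 * (j * (j + 2) * x * ξ.re) + (j * x) ^ 2 * ‖ξ‖ ^ 2 := by
      rw [← Complex.normSq_eq_norm_sq, ← Complex.normSq_eq_norm_sq, Complex.normSq_apply,
        Complex.normSq_apply]
      simp
      ring
    rw [e1]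
    have h2 : ‖ξ‖ ^ 2 ≤ 1 := pow_le_one₀ (norm_nonneg _) hξ.le
    have h3 : (j * x) ^ 2 * ‖ξ‖ ^ 2 ≤ (j * x) ^ 2 := mul_le_of_le_one_right (sq_nonneg _) h2
    rw [hR]
    nlinarith
  set a : ℝ := j * (j + 2) * x * (1 - ξ.re) with ha
  have ha0 : 0 ≤ a := by
    have : ξ.re ≤ 1 := (Complex.re_le_norm ξ).trans hξ.le
    have : 0 ≤ 1 - ξ.re := by linarith
    rw [ha]; positivity
  have h4 : R ^ 2 - 2 * a ≤ (R - a / R) ^ 2 := by
    have e2 : (R - a / R) ^ 2 = R ^ 2 - 2 * a + (a / R) ^ 2 := by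
      field_simp
      ring
    rw [e2]
    have := sq_nonneg (a / R)
    linarith
  have h5 : 0 ≤ R - a / R := by
    -- a ≤ R^2
    rw [sub_nonneg, div_le_iff₀ hRpos]
    have h6 : 1 - ξ.re ≤ 2 := by
      have := (abs_le.1 (Complex.abs_re_le_norm ξ)).1
      linarith
    have h7 : a ≤ j * (j + 2) * x * 2 := by
      rw [ha]
      exact mul_le_mul_of_nonneg_left h6 (by positivity)
    rw [hR]
    nlinarith [sq_nonneg ((j:ℝ) + 2 - j * x)]
  have h8 := h1.trans h4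
  have := Real.sqrt_le_sqrt h8
  rw [Real.sqrt_sq (norm_nonneg _), Real.sqrt_sq h5] at this
  exact this

/-- `D_j^+` of the pole `1`, `tp = ∑_pairs (1 - Re L)`. -/
noncomputable def Dp (tp x : ℝ) (j : ℕ) : ℝ := 2 * tp - 1 - (2 * j + 1) * x

/-- `D_j^-` of the pole `-1`, `tm = ∑_pairs (1 + Re L)`. -/
noncomputable def Dm (tm x : ℝ) (j : ℕ) : ℝ :=
  2 * tm - 1 + x + 2 * (j * (j + 2) * x) / (j + 2 + j * x)

/-- Helper for the simple form of `Dm`. -/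
theorem Dm_ge (tm : ℝ) {x : ℝ} (hx0 : 0 ≤ x) (hx1 : x ≤ 1) (j : ℕ) :
    2 * tm - 1 + (j + 1) * x ≤ Dm tm x j := by
  have hj : (0:ℝ) ≤ j := Nat.cast_nonneg j
  have hR : (0:ℝ) < j + 2 + j * x := by positivity
  unfold Dm
  have h1 : (j:ℝ) * x ≤ 2 * (j * (j + 2) * x) / (j + 2 + j * x) := by
    rw [le_div_iff₀ hR]
    have h2 : (j:ℝ) * x ≤ j * 1 := mul_le_mul_of_nonneg_left hx1 hj
    nlinarith [mul_nonneg hj hx0]
  linarith

/-- Log-convexity of the moments. -/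
theorem VV_logconv {n : ℕ} {A : Fin (n + 2) → ℂ} {c : ℝ} (hc : 0 < c) (hA : ∀ i, c ≤ (A i).re)
    (j : ℕ) : VV A (j + 1) ^ 2 ≤ VV A j * VV A (j + 2) := by
  have i0 := int_GG (A := A) hc hA j
  have i1 := int_GG (A := A) hc hA (j + 1)
  have i2 := int_GG (A := A) hc hA (j + 2)
  have key : ∀ t : ℝ, 0 ≤ VV A j * (t * t) + (-2 * VV A (j + 1)) * t + VV A (j + 2) := by
    intro t
    have h1 : 0 ≤ ∫ X, (t * t * GG A j X - 2 * t * GG A (j + 1) X + 1 * GG A (j + 2) X)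
        ∂mu (n + 2) := by
      apply integral_nonneg_of_ae
      filter_upwards [mu_pos (n + 2)] with X hX
      have e1 := X0_GG hc hA (A := A) j hX
      have e2 := X0_GG hc hA (A := A) (j + 1) hX
      have hg := GG_nonneg (A := A) j hX
      have e3 : GG A (j + 2) X = (X 0 / ‖LL A X‖) * ((X 0 / ‖LL A X‖) * GG A j X) := by
        rw [e1]; exact e2.symm
      simp only [Pi.zero_apply]
      rw [e3, ← e1]
      have : t * t * GG A j X - 2 * t * (X 0 / ‖LL A X‖ * GG A j X) +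
          1 * (X 0 / ‖LL A X‖ * (X 0 / ‖LL A X‖ * GG A j X)) =
          (t - X 0 / ‖LL A X‖) ^ 2 * GG A j X := by ring
      rw [this]
      positivity
    have e4 : ∫ X, (t * t * GG A j X - 2 * t * GG A (j + 1) X + 1 * GG A (j + 2) X)
        ∂mu (n + 2) = t * t * VV A j - 2 * t * VV A (j + 1) + 1 * VV A (j + 2) := by
      rw [PF.int3 i0 (i1.const_mul (2 * t)) i2, integral_const_mul]
      rfl
    rw [e4] at h1
    linarith
  have h := discrim_le_zero key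
  unfold discrim at h
  nlinarith

/-- The properties of the moments which do not see the list nor the pole: `V_j ≥ 0`,
`D_j V_j + (j+1)(1-x²) V_{j+1} ≤ j V_{j-1}` (`j ≥ 2`) with `D_j` between the values at the two real
poles, `(1-x) V_{j+1} ≤ V_j`, log-convexity. -/
structure Mom (x tp tm c : ℝ) (V : ℕ → ℝ) : Prop where
  nonneg : ∀ j, 0 ≤ V j
  hc1 : -1 ≤ c
  hc2 : c ≤ 1
  recur : ∀ j, 2 ≤ j → ((1 + c) / 2 * Dp tp x j + (1 - c) / 2 * Dm tm x j) * V j +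
    (j + 1) * (1 - x ^ 2) * V (j + 1) ≤ j * V (j - 1)
  cap : ∀ j, (1 - x) * V (j + 1) ≤ V j
  logconv : ∀ j, V (j + 1) ^ 2 ≤ V j * V (j + 2)

/-- ABSTRACT FORM. Star inequality for all poles from an inequality for all moment sequences. -/
theorem star_abs {N k J : ℕ} (hN : 1 ≤ N) {L : Fin N → ℂ} (hL : ∀ a, ‖L a‖ ≤ 1)
    {x : ℝ} (hx0 : 0 ≤ x) (hx1 : x < 1) (e : Fin (2 * N) ≃ Fin N × Bool) {M : ℝ} (hM : 0 ≤ M)
    {tp tm E : ℝ} (htp : tp ≤ ∑ a, (1 - (L a).re)) (htm : tm ≤ ∑ a, (1 + (L a).re))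
    {b : ℕ → ℝ}
    (hmaj : ∀ η : ℂ, ‖∑ j ∈ Finset.range k,
      (((hasseDeriv (k - (j + 1)) (omR L)).eval x : ℝ) : ℂ) * η ^ (j + 1)‖ ≤
      M * ∑ j ∈ Finset.range J, b (j + 1) * ‖η‖ ^ (j + 1))
    (hb0 : ∀ j, 0 ≤ b j)
    (hE1 : 2 * E ≤ FE N x ((tm + x) / N - 1)) (hE2 : 2 * E ≤ FE N x (1 - (tp - x) / N))
    (hmom : ∀ (c : ℝ) (V : ℕ → ℝ), Mom x tp tm c V →
      ∑ j ∈ Finset.range J, b (j + 1) * V (j + 1) ≤ E * V 1) :
    ∀ ξ : ℂ, ‖ξ‖ < 1 → STAR L (zL L ∘ e) k x M ξ := by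
  intro ξ hξ
  obtain ⟨n, hn⟩ : ∃ n, 2 * N = n + 1 := ⟨2 * N - 1, by omega⟩
  have hNr : (0:ℝ) < N := by exact_mod_cast hN
  have hnr : (2:ℝ) * N = n + 1 := by exact_mod_cast hn
  -- sums over the nodes
  have hzs : ∑ i, (zL L ∘ e) i = ((2 * (N - ∑ a, (1 - (L a).re)) : ℝ) : ℂ) := by
    have h1 : ∑ i, (zL L ∘ e) i = ∑ i : Fin N × Bool, zL L i := e.sum_comp (zL L)
    rw [h1, Fintype.sum_prod_type]
    have h2 : ∀ a : Fin N, ∑ s : Bool, zL L (a, s) = ((2 * (L a).re : ℝ) : ℂ) := by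
      intro a
      rw [Fintype.sum_bool]
      simp only [zL, if_true]
      have : (if (false = true) then conj (L a) else L a) = L a := by simp
      rw [this, add_comm, Complex.add_conj]
    rw [Finset.sum_congr rfl fun a _ => h2 a, ← Complex.ofReal_sum, ← Finset.mul_sum,
      Finset.sum_sub_distrib]
    congr 1
    simp
  set Q := ∑ a, (1 - (L a).re) with hQ
  have hPQ : ∑ a, (1 + (L a).re) = 2 * N - Q := by
    rw [hQ, Finset.sum_add_distrib, Finset.sum_sub_distrib]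
    simp
    ring
  rw [hPQ] at htm
  clear_value Q
  -- transport to Fin (n + 1)
  have key : ∀ (z : Fin (n + 1) → ℂ), (∀ i, ‖z i‖ ≤ 1) → ∑ i, z i = ((2 * (N - Q) : ℝ) : ℂ) →
      STAR L z k x M ξ := by
    intro z hz hzs
    set m : ℝ := (x + (N - Q)) / N with hm
    have hmN : (n + 1 : ℝ) * m = 2 * x + 2 * (N - Q) := by
      rw [← hnr, hm]; field_simp
    have hc1 : ξ.re ≤ 1 := (Complex.re_le_norm ξ).trans hξ.le
    have hc2 : -1 ≤ ξ.re := by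
      have := (abs_le.1 (Complex.abs_re_le_norm ξ)).1
      linarith
    have hx1' : ‖(x:ℂ)‖ ≤ 1 := by
      rw [Complex.norm_real, Real.norm_of_nonneg hx0]; exact hx1.le
    have hSig : ∑ i, (1 - ξ * z i).re = 2 * N - ξ.re * (2 * (N - Q)) := by
      have h1 : ∑ i, (1 - ξ * z i).re = (∑ i, (1 - ξ * z i)).re := (Complex.re_sum _ _).symm
      rw [h1, Finset.sum_sub_distrib, ← Finset.mul_sum, hzs, Complex.sub_re,
        Complex.re_mul_ofReal]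
      simp
      rw [hnr]
    have hcc : 0 < 1 - ‖ξ‖ := by linarith
    have hA := AA_re (ξ := ξ) hz hx1'
    have hr : (1 - ξ * (x:ℂ)).re = 1 - ξ.re * x := by
      rw [Complex.sub_re, Complex.re_mul_ofReal, Complex.one_re]
    have hV : Mom x tp tm ξ.re (fun j => VV (AA z x ξ) j) := by
      refine ⟨fun j => VV_nonneg j, hc2, hc1, ?_, ?_, fun j => VV_logconv hcc hA j⟩
      · intro j hj
        have hj0 : (0:ℝ) ≤ j := Nat.cast_nonneg j
        have h1 := norm_tan hx0 hξ j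
        have h2 : (1 + ξ.re) / 2 * Dp tp x j + (1 - ξ.re) / 2 * Dm tm x j ≤
            (1 - ξ * (x:ℂ)).re + ∑ i, (1 - ξ * z i).re +
            j * (1 - ξ * (x:ℂ)).re - ‖2 * (j:ℂ) + 2 - j * (1 - ξ * (x:ℂ))‖ := by
          rw [hSig, hr]
          have e1 : (1 - ξ.re * x) + (2 * N - ξ.re * (2 * (N - Q))) + j * (1 - ξ.re * x) -
            ((j + 2 + j * x) - j * (j + 2) * x * (1 - ξ.re) / (j + 2 + j * x)) =
            (1 + ξ.re) / 2 * Dp Q x j + (1 - ξ.re) / 2 * Dm (2 * N - Q) x j := by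
            unfold Dp Dm
            ring
          have h3 : Dp tp x j ≤ Dp Q x j := by unfold Dp; linarith
          have h4 : Dm tm x j ≤ Dm (2 * N - Q) x j := by unfold Dm; linarith
          have h5 : 0 ≤ (1 + ξ.re) / 2 := by linarith
          have h6 : 0 ≤ (1 - ξ.re) / 2 := by linarith
          have h7 := add_le_add (mul_le_mul_of_nonneg_left h3 h5)
            (mul_le_mul_of_nonneg_left h4 h6)
          rw [← e1] at h7
          linarith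
        have h3 := VV_rec hz hx1' hξ (by omega : 1 ≤ j) h2
        have h4 := delta_ge hx0 hx1.le hξ
        have h5 := VV_nonneg (A := AA z x ξ) (j + 1)
        have h6 : ((j:ℝ) + 1) * (1 - x ^ 2) * VV (AA z x ξ) (j + 1) ≤
            (j + 1) * ((1 - ξ * (x:ℂ)).re * (2 - ‖1 - ξ * (x:ℂ)‖)) * VV (AA z x ξ) (j + 1) := by
          apply mul_le_mul_of_nonneg_right _ h5
          exact mul_le_mul_of_nonneg_left h4 (by linarith)
        linarith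
      · intro j
        have h1 := VV_cap hz hx1' hξ j
        have h2 := VV_nonneg (A := AA z x ξ) (j + 1)
        rw [hr] at h1
        have h3 : (1 - x) * VV (AA z x ξ) (j + 1) ≤ (1 - ξ.re * x) * VV (AA z x ξ) (j + 1) := by
          apply mul_le_mul_of_nonneg_right _ h2
          nlinarith
        exact h3.trans h1
    unfold STAR
    refine star_of_maj (e := fun i => (hasseDeriv i (omR L)).eval x) hz hx1' hξ hM (b := b)
      (E := E) (m := (m : ℂ)) ?_ ?_ hmaj hb0 (hmom _ _ hV)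
    · rw [hzs]
      exact_mod_cast hmN
    · have h1 := FE_ge (N := N) (x := x) (m1 := (tm + x) / N - 1) (m2 := 1 - (tp - x) / N) (m := m)
        (c := 2 * E) (by
          rw [hm, sub_le_iff_le_add, ← sub_le_iff_le_add, div_sub_one hNr.ne',
            div_le_div_iff_of_pos_right hNr]
          linarith) (by
          rw [hm, le_sub_iff_add_le, ← add_div, div_le_one hNr]
          linarith) hE1 hE2
      refine h1.trans (le_of_eq ?_)
      unfold FE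
      have h2 : ‖2 * (x:ℂ) + (m:ℂ)‖ = |2 * x + m| := by
        rw [← Real.norm_eq_abs, ← Complex.norm_real]
        congr 1
        push_cast
        ring
      rw [h2, Complex.norm_real, Real.norm_eq_abs, sq_abs, hnr]
  -- cast of the index type
  have cast : ∀ (p : ℕ) (hp : p = n + 1) (z : Fin p → ℂ), (∀ i, ‖z i‖ ≤ 1) →
      ∑ i, z i = ((2 * (N - Q) : ℝ) : ℂ) → STAR L z k x M ξ := by
    intro p hp
    subst hp
    exact key
  exact cast (2 * N) hn (zL L ∘ e) (fun i => norm_zL hL _) hzs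

/-- A majorant from bounds of the coefficients. -/
theorem maj_of_coef {k : ℕ} {h b : ℕ → ℝ} {M : ℝ} (hh : ∀ j, 1 ≤ j → j ≤ k → |h (k - j)| ≤ b j * M)
    (η : ℂ) : ‖∑ j ∈ Finset.range k, ((h (k - (j + 1)) : ℝ) : ℂ) * η ^ (j + 1)‖ ≤
      M * ∑ j ∈ Finset.range k, b (j + 1) * ‖η‖ ^ (j + 1) := by
  rw [Finset.mul_sum]
  refine (norm_sum_le _ _).trans (Finset.sum_le_sum fun j hj => ?_)
  have hjk : j < k := Finset.mem_range.1 hj
  rw [norm_mul, norm_pow, Complex.norm_real, Real.norm_eq_abs]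
  have h1 := hh (j + 1) (by omega) (by omega)
  calc |h (k - (j + 1))| * ‖η‖ ^ (j + 1) ≤ (b (j + 1) * M) * ‖η‖ ^ (j + 1) :=
        mul_le_mul_of_nonneg_right h1 (by positivity)
    _ = _ := by ring

/-- The `λ`-form of the chain. `D_j` may be replaced by any lower bounds of `Dp`, `Dm`. -/
theorem mom_lam {J : ℕ} (hJ : 1 ≤ J) {x tp tm c E : ℝ} {V : ℕ → ℝ} (hx0 : 0 ≤ x) (hx1 : x < 1)
    (hV : Mom x tp tm c V) {b lam : ℕ → ℝ} (hlam : ∀ j, 0 ≤ lam j) (hlam1 : lam 1 = 0)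
    (hb1 : b 1 + 2 * lam 2 ≤ E)
    (hbp : ∀ j, 2 ≤ j → j ≤ J → b j + (j + 1) * lam (j + 1) ≤
      lam j * Dp tp x j + j * (1 - x ^ 2) * lam (j - 1))
    (hbm : ∀ j, 2 ≤ j → j ≤ J → b j + (j + 1) * lam (j + 1) ≤
      lam j * Dm tm x j + j * (1 - x ^ 2) * lam (j - 1)) :
    ∑ j ∈ Finset.range J, b (j + 1) * V (j + 1) ≤ E * V 1 := by
  refine lp_bound' hJ (D := fun j => (1 + c) / 2 * Dp tp x j + (1 - c) / 2 * Dm tm x j)
    (δ := 1 - x ^ 2) hV.nonneg (by nlinarith) hlam hlam1 (fun j h2 _ => hV.recur j h2) hb1 ?_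
  intro j hj hjJ
  have h1 := hbp j hj hjJ
  have h2 := hbm j hj hjJ
  have h5 : 0 ≤ (1 + c) / 2 := by linarith [hV.hc1]
  have h6 : 0 ≤ (1 - c) / 2 := by linarith [hV.hc2]
  have h7 := mul_le_mul_of_nonneg_left h1 h5
  have h8 := mul_le_mul_of_nonneg_left h2 h6
  nlinarith [h7, h8]

/-- One step of the product form: `V_j ≤ ρ V_{j-1}`. -/
theorem mom_step {j : ℕ} (hj : 2 ≤ j) {x tp tm c ρ : ℝ} {V : ℕ → ℝ} (hx0 : 0 ≤ x) (hx1 : x < 1)
    (hV : Mom x tp tm c V) (hρ : 0 ≤ ρ)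
    (h : (j ≤ ρ * Dp tp x j ∧ j ≤ ρ * Dm tm x j) ∨ 1 ≤ ρ * (1 - x)) :
    V j ≤ ρ * V (j - 1) := by
  rcases h with ⟨hp, hm⟩ | h
  · have h1 := hV.recur j hj
    have h2 : 0 ≤ ((j:ℝ) + 1) * (1 - x ^ 2) * V (j + 1) := by
      have := hV.nonneg (j + 1)
      have : 0 ≤ 1 - x ^ 2 := by nlinarith
      positivity
    set D := (1 + c) / 2 * Dp tp x j + (1 - c) / 2 * Dm tm x j with hD
    have h5 : 0 ≤ (1 + c) / 2 := by linarith [hV.hc1]
    have h6 : 0 ≤ (1 - c) / 2 := by linarith [hV.hc2]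
    have h3 : (j:ℝ) ≤ ρ * D := by
      have h7 := mul_le_mul_of_nonneg_left hp h5
      have h8 := mul_le_mul_of_nonneg_left hm h6
      rw [hD]
      nlinarith [h7, h8]
    have hj0 : (0:ℝ) < j := by exact_mod_cast (by omega : 0 < j)
    have h4 : D * V j ≤ j * V (j - 1) := by linarith
    have h9 := mul_le_mul_of_nonneg_right h3 (hV.nonneg j)
    have h10 := mul_le_mul_of_nonneg_left h4 hρ
    have h11 : (j:ℝ) * V j ≤ j * (ρ * V (j - 1)) := by linarith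
    exact le_of_mul_le_mul_left h11 hj0
  · obtain ⟨i, rfl⟩ : ∃ i, j = i + 1 := ⟨j - 1, by omega⟩
    rw [Nat.add_sub_cancel]
    have h1 := hV.cap i
    have h2 := hV.nonneg (i + 1)
    have h3 := mul_le_mul_of_nonneg_right h h2
    have h4 := mul_le_mul_of_nonneg_left h1 hρ
    linarith

/-- The product form of the chain: `∑_j b_j ρ_2 ⋯ ρ_j ≤ E`. -/
theorem mom_prod {J : ℕ} {x tp tm c E : ℝ} {V : ℕ → ℝ} (hx0 : 0 ≤ x) (hx1 : x < 1)
    (hV : Mom x tp tm c V) {b ρ : ℕ → ℝ} (hb0 : ∀ j, 0 ≤ b j) (hρ : ∀ j, 0 ≤ ρ j)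
    (h : ∀ j, 2 ≤ j → j ≤ J → ((j:ℝ) ≤ ρ j * Dp tp x j ∧ (j:ℝ) ≤ ρ j * Dm tm x j) ∨
      1 ≤ ρ j * (1 - x))
    (hsum : ∑ j ∈ Finset.range J, b (j + 1) * ∏ i ∈ Finset.range j, ρ (i + 2) ≤ E) :
    ∑ j ∈ Finset.range J, b (j + 1) * V (j + 1) ≤ E * V 1 := by
  have hch : ∀ j, j + 1 ≤ J → V (j + 1) ≤ (∏ i ∈ Finset.range j, ρ (i + 2)) * V 1 := by
    intro j
    induction j with
    | zero => intro _; simp
    | succ j ih =>
      intro hj
      have ih' := ih (by omega)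
      have h1 := mom_step (j := j + 2) (by omega) hx0 hx1 hV (hρ (j + 2))
        (h (j + 2) (by omega) hj)
      have e1 : j + 2 - 1 = j + 1 := by omega
      rw [e1] at h1
      rw [Finset.prod_range_succ]
      calc V (j + 1 + 1) ≤ ρ (j + 2) * V (j + 1) := h1
        _ ≤ ρ (j + 2) * ((∏ i ∈ Finset.range j, ρ (i + 2)) * V 1) :=
            mul_le_mul_of_nonneg_left ih' (hρ _)
        _ = _ := by ring
  calc ∑ j ∈ Finset.range J, b (j + 1) * V (j + 1)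
      ≤ ∑ j ∈ Finset.range J, b (j + 1) * ((∏ i ∈ Finset.range j, ρ (i + 2)) * V 1) := by
        refine Finset.sum_le_sum fun j hj => ?_
        exact mul_le_mul_of_nonneg_left (hch j (Finset.mem_range.1 hj)) (hb0 _)
    _ = (∑ j ∈ Finset.range J, b (j + 1) * ∏ i ∈ Finset.range j, ρ (i + 2)) * V 1 := by
        rw [Finset.sum_mul]
        exact Finset.sum_congr rfl fun j _ => by ring
    _ ≤ E * V 1 := mul_le_mul_of_nonneg_right hsum (hV.nonneg 1)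

/-- `PW` from the abstract form. -/
theorem pw_abs {N k J : ℕ} (hN : 1 ≤ N) {L : Fin N → ℂ} (hL : ∀ a, ‖L a‖ ≤ 1)
    {x : ℝ} (hx0 : 0 ≤ x) (hx1 : x < 1)
    {tp tm E : ℝ} (htp : tp ≤ ∑ a, (1 - (L a).re)) (htm : tm ≤ ∑ a, (1 + (L a).re))
    {b : ℕ → ℝ}
    (hmaj : ∀ M, IsM L k M → ∀ η : ℂ, ‖∑ j ∈ Finset.range k,
      (((hasseDeriv (k - (j + 1)) (omR L)).eval x : ℝ) : ℂ) * η ^ (j + 1)‖ ≤
      M * ∑ j ∈ Finset.range J, b (j + 1) * ‖η‖ ^ (j + 1))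
    (hb0 : ∀ j, 0 ≤ b j)
    (hE1 : 2 * E ≤ FE N x ((tm + x) / N - 1)) (hE2 : 2 * E ≤ FE N x (1 - (tp - x) / N))
    (hmom : ∀ (c : ℝ) (V : ℕ → ℝ), Mom x tp tm c V →
      ∑ j ∈ Finset.range J, b (j + 1) * V (j + 1) ≤ E * V 1) : PW L k x := by
  have hcard : Fintype.card (Fin (2 * N)) = Fintype.card (Fin N × Bool) := by
    simp only [Fintype.card_fin, Fintype.card_prod, Fintype.card_bool]
    omega
  have hx : x ∈ Icc (-1:ℝ) 1 := ⟨by linarith, hx1.le⟩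
  refine pw_of_star hL hx (Fintype.equivOfCardEq hcard) (ρ0 := 0) zero_lt_one ?_
  intro M hM ξ _ hξ
  have hM0 : 0 ≤ M := (abs_nonneg _).trans (hM x hx)
  exact star_abs hN hL hx0 hx1 _ hM0 htp htm (hmaj M hM) hb0 hE1 hE2 hmom ξ hξ

/-- THE `L`-FREE CHAIN, `λ`-form, coefficientwise bounds `|H_{k-j} ω(x)| ≤ b_j M`. -/
theorem pw_lam {N k : ℕ} (hN : 1 ≤ N) (hk : 1 ≤ k) {L : Fin N → ℂ} (hL : ∀ a, ‖L a‖ ≤ 1)
    {x : ℝ} (hx0 : 0 ≤ x) (hx1 : x < 1)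
    {tp tm E : ℝ} (htp : tp ≤ ∑ a, (1 - (L a).re)) (htm : tm ≤ ∑ a, (1 + (L a).re))
    {b lam : ℕ → ℝ}
    (hb : ∀ M, IsM L k M → ∀ j, 1 ≤ j → j ≤ k →
      |(hasseDeriv (k - j) (omR L)).eval x| ≤ b j * M)
    (hb0 : ∀ j, 0 ≤ b j) (hlam : ∀ j, 0 ≤ lam j) (hlam1 : lam 1 = 0)
    (hE1 : 2 * E ≤ FE N x ((tm + x) / N - 1)) (hE2 : 2 * E ≤ FE N x (1 - (tp - x) / N))
    (hb1 : b 1 + 2 * lam 2 ≤ E)
    (hbp : ∀ j, 2 ≤ j → j ≤ k → b j + (j + 1) * lam (j + 1) ≤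
      lam j * Dp tp x j + j * (1 - x ^ 2) * lam (j - 1))
    (hbm : ∀ j, 2 ≤ j → j ≤ k → b j + (j + 1) * lam (j + 1) ≤
      lam j * Dm tm x j + j * (1 - x ^ 2) * lam (j - 1)) : PW L k x :=
  pw_abs hN hL hx0 hx1 htp htm
    (fun M hM η => maj_of_coef (h := fun i => (hasseDeriv i (omR L)).eval x) (hb M hM) η) hb0
    hE1 hE2 fun _ _ hV => mom_lam hk hx0 hx1 hV hlam hlam1 hb1 hbp hbm

/-- THE `L`-FREE CHAIN, product form, coefficientwise bounds `|H_{k-j} ω(x)| ≤ b_j M`. -/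
theorem pw_prod {N k : ℕ} (hN : 1 ≤ N) {L : Fin N → ℂ} (hL : ∀ a, ‖L a‖ ≤ 1)
    {x : ℝ} (hx0 : 0 ≤ x) (hx1 : x < 1)
    {tp tm E : ℝ} (htp : tp ≤ ∑ a, (1 - (L a).re)) (htm : tm ≤ ∑ a, (1 + (L a).re))
    {b ρ : ℕ → ℝ}
    (hb : ∀ M, IsM L k M → ∀ j, 1 ≤ j → j ≤ k →
      |(hasseDeriv (k - j) (omR L)).eval x| ≤ b j * M)
    (hb0 : ∀ j, 0 ≤ b j) (hρ : ∀ j, 0 ≤ ρ j)
    (hE1 : 2 * E ≤ FE N x ((tm + x) / N - 1)) (hE2 : 2 * E ≤ FE N x (1 - (tp - x) / N))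
    (h : ∀ j, 2 ≤ j → j ≤ k → ((j:ℝ) ≤ ρ j * Dp tp x j ∧ (j:ℝ) ≤ ρ j * Dm tm x j) ∨
      1 ≤ ρ j * (1 - x))
    (hsum : ∑ j ∈ Finset.range k, b (j + 1) * ∏ i ∈ Finset.range j, ρ (i + 2) ≤ E) : PW L k x :=
  pw_abs hN hL hx0 hx1 htp htm
    (fun M hM η => maj_of_coef (h := fun i => (hasseDeriv i (omR L)).eval x) (hb M hM) η) hb0
    hE1 hE2 fun _ _ hV => mom_prod hx0 hx1 hV hb0 hρ h hsum

end Pool.Agent.HStar
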