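import Pool.Agent.HStar.Link
import Pool.Agent.HStar.Final

set_option autoImplicit false

namespace Pool.Agent.HStar

open MeasureTheory Set Filter Topology Pool.Agent.HHalf ComplexConjugate

/-- The linear programme in real numbers: multipliers for the recurrences. -/
theorem lp_bound {k : ℕ} (hk : 1 ≤ k) {V D lam b : ℕ → ℝ} {δ Q : ℝ} (hV : ∀ j, 0 ≤ V j)
    (hδ : 0 ≤ δ) (hlam : ∀ j, 0 ≤ lam j) (h1 : D 1 * V 1 + 2 * δ * V 2 ≤ Q)
    (hrec : ∀ j, 2 ≤ j → j ≤ k → D j * V j + (j + 1) * δ * V (j + 1) ≤ j * V (j - 1))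
    (hb1 : b 1 + 2 * lam 2 ≤ lam 1 * D 1)
    (hb : ∀ j, 2 ≤ j → j ≤ k → b j + (j + 1) * lam (j + 1) ≤ lam j * D j + j * δ * lam (j - 1)) :
    ∑ j ∈ Finset.range k, b (j + 1) * V (j + 1) ≤ lam 1 * Q := by
  -- partial sums
  have key : ∀ m, 1 ≤ m → m ≤ k →
      ∑ j ∈ Finset.range m, b (j + 1) * V (j + 1) + (m + 1) * lam (m + 1) * V m +
        lam m * (m + 1) * δ * V (m + 1) ≤ lam 1 * Q := by
    intro m hm
    induction m, hm using Nat.le_induction with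
    | base =>
      intro _
      rw [Finset.sum_range_one]
      have e1 := mul_le_mul_of_nonneg_left h1 (hlam 1)
      have e2 := mul_le_mul_of_nonneg_right hb1 (hV 1)
      push_cast
      norm_num at *
      nlinarith
    | succ m hm ih =>
      intro hmk
      have ih' := ih (by omega)
      have h3 := hrec (m + 1) (by omega) hmk
      have h4 := hb (m + 1) (by omega) hmk
      rw [Nat.add_sub_cancel] at h3 h4
      have e1 := mul_le_mul_of_nonneg_left h3 (hlam (m + 1))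
      have e2 := mul_le_mul_of_nonneg_right h4 (hV (m + 1))
      rw [Finset.sum_range_succ]
      push_cast at *
      nlinarith
  have h := key k hk le_rfl
  have e3 : 0 ≤ ((k:ℝ) + 1) * lam (k + 1) * V k := by
    have := hlam (k + 1); have := hV k; positivity
  have e4 : 0 ≤ lam k * (k + 1) * δ * V (k + 1) := by
    have := hlam k; have := hV (k + 1); positivity
  linarith

section cert

variable {n : ℕ} {z : Fin (n + 1) → ℂ} {x ξ : ℂ}

/-- THE CERTIFICATE. `n + 1` nodes; `Σ = ∑ Re A_i`, `r = Re (1 - ξ x)`,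
`D_1 = Σ + r - B`, `D_j = Σ + j r - |2j + 2 - j (1 - ξ x)|` (`j ≥ 2`),
`δ = r (2 - |1 - ξ x|)`. If the multipliers `lam` satisfy the inequalities and
`lam 1 · (p + 1) ≤ p`, `p = 2 Re K_0 - 1`, the star inequality holds. -/
theorem cert (hz : ∀ i, ‖z i‖ ≤ 1) (hx : ‖x‖ ≤ 1) (hξ : ‖ξ‖ < 1) {k : ℕ} (hk : 1 ≤ k)
    {e : ℕ → ℝ} {M : ℝ} (hM : 0 ≤ M) {b lam D : ℕ → ℝ} {B : ℝ}
    (hB : ∀ u : ℂ, ‖u‖ = 1 → 0 ≤ u.re → 4 * u.re - ((1 - ξ * x) * conj u ^ 2).re ≤ B)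
    (hD1 : D 1 = (1 - ξ * x).re + ∑ i, (1 - ξ * z i).re + (1 - ξ * x).re - B)
    (hD : ∀ j, 2 ≤ j → j ≤ k → D j = (1 - ξ * x).re + ∑ i, (1 - ξ * z i).re +
      j * (1 - ξ * x).re - ‖2 * (j:ℂ) + 2 - j * (1 - ξ * x)‖)
    (he : ∀ j, 1 ≤ j → j ≤ k → |e (k - j)| ≤ b j * M)
    (hb0 : ∀ j, 0 ≤ b j)
    (hlam : ∀ j, 0 ≤ lam j)
    (hb1 : b 1 + 2 * lam 2 ≤ lam 1 * D 1)
    (hb : ∀ j, 2 ≤ j → j ≤ k → b j + (j + 1) * lam (j + 1) ≤
      lam j * D j + j * ((1 - ξ * x).re * (2 - ‖1 - ξ * x‖)) * lam (j - 1))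
    (hp : lam 1 * (2 * (KK z x 0 ξ).re) ≤ 2 * (KK z x 0 ξ).re - 1) :
    |∑ j ∈ Finset.range k, e (k - (j + 1)) * (2 * (KK z x (j + 1) ξ).re)| ≤
      M * (2 * (KK z x 0 ξ).re - 1) := by
  have hc : 0 < 1 - ‖ξ‖ := by linarith
  have hA := AA_re (ξ := ξ) hz hx
  have hA2 := AA_norm hz hx hξ.le
  set A := AA z x ξ with hAd
  have hS : ∑ i, (A i).re = (1 - ξ * x).re + ∑ i, (1 - ξ * z i).re := by
    rw [Fin.sum_univ_succ, hAd, AA_zero]
    congr 1
  have hr0 : 0 ≤ (1 - ξ * x).re := by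
    have := hA 0
    rw [hAd, AA_zero] at this
    linarith
  have hn2 : ‖1 - ξ * x‖ ≤ 2 := by
    have := hA2 0
    rwa [hAd, AA_zero] at this
  have hδ : 0 ≤ (1 - ξ * x).re * (2 - ‖1 - ξ * x‖) := mul_nonneg hr0 (by linarith)
  have r1 := rec_one hc hA hA2 (B := B) (by rw [hAd, AA_zero]; exact hB)
  have r2 := fun j => rec_succ hc hA hA2 j
  rw [hS] at r1
  have hA0 : A 0 = 1 - ξ * x := by rw [hAd, AA_zero]
  rw [hA0] at r1
  set δ := (1 - ξ * x).re * (2 - ‖1 - ξ * x‖) with hδd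
  have hlp := lp_bound hk (V := fun j => VV A j) (D := D) (lam := lam) (b := b) (δ := δ)
    (Q := (∫ X, (LL A X)⁻¹ ∂mu (n + 2)).re) (fun j => VV_nonneg j) hδ hlam
    (by rw [hD1]; linarith) (by
      intro j hj hjk
      obtain ⟨i, rfl⟩ : ∃ i, j = i + 2 := ⟨j - 2, by omega⟩
      have h3 := r2 (i + 1)
      rw [hS, hA0] at h3
      rw [hD _ hj hjk]
      have e1 : (i + 2 - 1 : ℕ) = i + 1 := by omega
      have e2 : VV A (i + 1 + 1) = VV A (i + 2) := rfl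
      have e3 : VV A (i + 1 + 2) = VV A (i + 2 + 1) := rfl
      rw [e2, e3] at h3
      rw [e1]
      push_cast at h3 ⊢
      have e4 : (2 * ((i:ℂ) + 1) + 4 - (i + 1 + 1) * (1 - ξ * x)) =
          2 * ((i:ℂ) + 2) + 2 - (i + 2) * (1 - ξ * x) := by ring
      rw [e4] at h3
      rw [← hδd] at h3
      nlinarith [h3]) hb1 hb
  have hK0 := congrArg Complex.re (KK_zero (x := x) hz hx hξ)
  rw [← hAd] at hK0
  set Q := (∫ X, (LL A X)⁻¹ ∂mu (n + 2)).re with hQ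
  have hK0' : (KK z x 0 ξ).re = (n + 1) * Q := by
    rw [hK0]
    have : ((n:ℂ) + 1) = (((n:ℝ) + 1 : ℝ) : ℂ) := by push_cast; ring
    rw [this, Complex.re_ofReal_mul]
  -- sum bound
  have h5 : |∑ j ∈ Finset.range k, e (k - (j + 1)) * (2 * (KK z x (j + 1) ξ).re)| ≤
      M * (2 * (n + 1) * ∑ j ∈ Finset.range k, b (j + 1) * VV A (j + 1)) := by
    refine (Finset.abs_sum_le_sum_abs _ _).trans ?_
    rw [Finset.mul_sum, Finset.mul_sum]
    refine Finset.sum_le_sum fun j hj => ?_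
    have hjk : j < k := Finset.mem_range.1 hj
    have h6 := he (j + 1) (by omega) (by omega)
    have h7 : |(KK z x (j + 1) ξ).re| ≤ (n + 1) * VV A (j + 1) := by
      refine (Complex.abs_re_le_norm _).trans ((norm_KK_le hz hx hξ (j + 1)).trans ?_)
      have h8 : ‖ξ‖ ^ (j + 1) ≤ 1 := pow_le_one₀ (norm_nonneg _) hξ.le
      have h9 : 0 ≤ ((n:ℝ) + 1) * VV A (j + 1) := by
        have := VV_nonneg (A := A) (j + 1); positivity
      calc _ ≤ 1 * (((n:ℝ) + 1) * VV A (j + 1)) := mul_le_mul_of_nonneg_right h8 h9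
        _ = _ := one_mul _
    rw [abs_mul, abs_mul, abs_two]
    calc |e (k - (j + 1))| * (2 * |(KK z x (j + 1) ξ).re|)
        ≤ (b (j + 1) * M) * (2 * ((n + 1) * VV A (j + 1))) := by
          apply mul_le_mul h6 (by linarith) (by positivity) (mul_nonneg (hb0 _) hM)
      _ = _ := by ring
  refine h5.trans (mul_le_mul_of_nonneg_left ?_ hM)
  have h10 : 2 * ((n:ℝ) + 1) * ∑ j ∈ Finset.range k, b (j + 1) * VV A (j + 1) ≤
      2 * (n + 1) * (lam 1 * Q) := mul_le_mul_of_nonneg_left hlp (by positivity)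
  rw [hK0'] at hp ⊢
  linarith

end cert

end Pool.Agent.HStar
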