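import Pool.Agent.HStar.BPLink
import Pool.Agent.HStar.Cert

set_option autoImplicit false

namespace Pool.Agent.HStar

open MeasureTheory Set Filter Topology Pool.Agent.HHalf ComplexConjugate

/-- The linear programme with the first moment normalised. -/
theorem lp_bound' {k : ℕ} (hk : 1 ≤ k) {V D lam b : ℕ → ℝ} {δ E : ℝ} (hV : ∀ j, 0 ≤ V j)
    (hδ : 0 ≤ δ) (hlam : ∀ j, 0 ≤ lam j) (hlam1 : lam 1 = 0)
    (hrec : ∀ j, 2 ≤ j → j ≤ k → D j * V j + (j + 1) * δ * V (j + 1) ≤ j * V (j - 1))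
    (hb1 : b 1 + 2 * lam 2 ≤ E)
    (hb : ∀ j, 2 ≤ j → j ≤ k → b j + (j + 1) * lam (j + 1) ≤ lam j * D j + j * δ * lam (j - 1)) :
    ∑ j ∈ Finset.range k, b (j + 1) * V (j + 1) ≤ E * V 1 := by
  have key : ∀ m, 1 ≤ m → m ≤ k →
      ∑ j ∈ Finset.range m, b (j + 1) * V (j + 1) + (m + 1) * lam (m + 1) * V m +
        lam m * (m + 1) * δ * V (m + 1) ≤ E * V 1 := by
    intro m hm
    induction m, hm using Nat.le_induction with
    | base =>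
      intro _
      rw [Finset.sum_range_one, hlam1]
      have e2 := mul_le_mul_of_nonneg_right hb1 (hV 1)
      push_cast
      norm_num at *
      nlinarith
    | succ m hm ih =>
      intro hmk
      have ih' := ih (by omega)
      have h3 := hrec (m + 1) (by omega) hmk
      have h4 := hb (m + 1) (by omega) hmk
      rw [Nat.add_sub_cancel] at h3 h4
      have e1 := mul_le_mul_of_nonneg_left h3 (hlam (m + 1))
      have e2 := mul_le_mul_of_nonneg_right h4 (hV (m + 1))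
      rw [Finset.sum_range_succ]
      push_cast at *
      nlinarith
  have h := key k hk le_rfl
  have e3 : 0 ≤ ((k:ℝ) + 1) * lam (k + 1) * V k := by
    have := hlam (k + 1); have := hV k; positivity
  have e4 : 0 ≤ lam k * (k + 1) * δ * V (k + 1) := by
    have := hlam k; have := hV (k + 1); positivity
  linarith

section cert

variable {n : ℕ} {z : Fin (n + 1) → ℂ} {x ξ : ℂ}

/-- `V_{j+1} ≤ V_j / Re (1 - ξ x)`. -/
theorem VV_cap (hz : ∀ i, ‖z i‖ ≤ 1) (hx : ‖x‖ ≤ 1) (hξ : ‖ξ‖ < 1) (j : ℕ) :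
    (1 - ξ * x).re * VV (AA z x ξ) (j + 1) ≤ VV (AA z x ξ) j := by
  have hc : 0 < 1 - ‖ξ‖ := by linarith
  have hA := AA_re (ξ := ξ) hz hx
  have hA0 : ∀ i, 0 ≤ (AA z x ξ i).re := fun i => hc.le.trans (hA i)
  unfold VV
  rw [← integral_const_mul]
  refine integral_mono_ae ((int_GG hc hA (j + 1)).const_mul _) (int_GG hc hA j) ?_
  filter_upwards [mu_pos (n + 2)] with X hX
  have hL : 0 < ‖LL (AA z x ξ) X‖ := norm_pos_iff.2 (LL_ne hc hA hX)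
  have h1 : (1 - ξ * x).re * X 0 ≤ ‖LL (AA z x ξ) X‖ := by
    refine le_trans ?_ (Complex.re_le_norm _)
    unfold LL
    rw [Complex.re_sum, Fin.sum_univ_succ]
    have h2 : 0 ≤ ∑ i : Fin (n + 1), ((X i.succ : ℂ) * AA z x ξ i.succ).re := by
      refine Finset.sum_nonneg fun i _ => ?_
      rw [Complex.re_ofReal_mul]
      exact mul_nonneg (hX _).le (hA0 _)
    rw [Complex.re_ofReal_mul, AA_zero]
    linarith
  have hg := GG_nonneg (A := AA z x ξ) j hX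
  show (1 - ξ * x).re * GG (AA z x ξ) (j + 1) X ≤ GG (AA z x ξ) j X
  rw [← X0_GG hc hA j hX]
  have h3 : (1 - ξ * x).re * (X 0 / ‖LL (AA z x ξ) X‖) ≤ 1 := by
    rw [← mul_div_assoc, div_le_one hL]
    exact h1
  calc (1 - ξ * x).re * (X 0 / ‖LL (AA z x ξ) X‖ * GG (AA z x ξ) j X)
      = ((1 - ξ * x).re * (X 0 / ‖LL (AA z x ξ) X‖)) * GG (AA z x ξ) j X := by ring
    _ ≤ 1 * GG (AA z x ξ) j X := mul_le_mul_of_nonneg_right h3 hg
    _ = _ := one_mul _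

/-- The star from a bound of the sum of the moments. -/
theorem star_of_moments (hz : ∀ i, ‖z i‖ ≤ 1) (hx : ‖x‖ ≤ 1) (hξ : ‖ξ‖ < 1) {k : ℕ}
    {e : ℕ → ℝ} {M : ℝ} (hM : 0 ≤ M) {b : ℕ → ℝ} {E : ℝ} {m : ℂ}
    (hm : (n + 1) * m = 2 * x + ∑ i, z i)
    (hE : 2 * E ≤ (n + 1) * (1 - ‖m‖ ^ 2) - (1 + ‖m‖ ^ 2) / 2 - ‖2 * x + m‖)
    (he : ∀ j, 1 ≤ j → j ≤ k → |e (k - j)| ≤ b j * M)
    (hb0 : ∀ j, 0 ≤ b j)
    (hmom : ∑ j ∈ Finset.range k, b (j + 1) * VV (AA z x ξ) (j + 1) ≤ E * VV (AA z x ξ) 1) :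
    |∑ j ∈ Finset.range k, e (k - (j + 1)) * (2 * (KK z x (j + 1) ξ).re)| ≤
      M * (2 * (KK z x 0 ξ).re - 1) := by
  have hbp := bp_V1 hz hx hξ hm
  have hV1 := VV_nonneg (A := AA z x ξ) 1
  have h5 : |∑ j ∈ Finset.range k, e (k - (j + 1)) * (2 * (KK z x (j + 1) ξ).re)| ≤
      M * (2 * (n + 1) * ∑ j ∈ Finset.range k, b (j + 1) * VV (AA z x ξ) (j + 1)) := by
    refine (Finset.abs_sum_le_sum_abs _ _).trans ?_
    rw [Finset.mul_sum, Finset.mul_sum]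
    refine Finset.sum_le_sum fun j hj => ?_
    have hjk : j < k := Finset.mem_range.1 hj
    have h6 := he (j + 1) (by omega) (by omega)
    have h7 : |(KK z x (j + 1) ξ).re| ≤ (n + 1) * VV (AA z x ξ) (j + 1) := by
      refine (Complex.abs_re_le_norm _).trans ((norm_KK_le hz hx hξ (j + 1)).trans ?_)
      have h8 : ‖ξ‖ ^ (j + 1) ≤ 1 := pow_le_one₀ (norm_nonneg _) hξ.le
      have h9 : 0 ≤ ((n:ℝ) + 1) * VV (AA z x ξ) (j + 1) := by
        have := VV_nonneg (A := AA z x ξ) (j + 1); positivity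
      calc _ ≤ 1 * (((n:ℝ) + 1) * VV (AA z x ξ) (j + 1)) := mul_le_mul_of_nonneg_right h8 h9
        _ = _ := one_mul _
    rw [abs_mul, abs_mul, abs_two]
    calc |e (k - (j + 1))| * (2 * |(KK z x (j + 1) ξ).re|)
        ≤ (b (j + 1) * M) * (2 * ((n + 1) * VV (AA z x ξ) (j + 1))) := by
          apply mul_le_mul h6 (by linarith) (by positivity) (mul_nonneg (hb0 _) hM)
      _ = _ := by ring
  refine h5.trans (mul_le_mul_of_nonneg_left ?_ hM)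
  calc 2 * ((n:ℝ) + 1) * ∑ j ∈ Finset.range k, b (j + 1) * VV (AA z x ξ) (j + 1)
      ≤ 2 * (n + 1) * (E * VV (AA z x ξ) 1) := mul_le_mul_of_nonneg_left hmom (by positivity)
    _ = (2 * E) * ((n + 1) * VV (AA z x ξ) 1) := by ring
    _ ≤ ((n + 1) * (1 - ‖m‖ ^ 2) - (1 + ‖m‖ ^ 2) / 2 - ‖2 * x + m‖) *
        ((n + 1) * VV (AA z x ξ) 1) := mul_le_mul_of_nonneg_right hE (by positivity)
    _ ≤ _ := hbp

/-- THE CERTIFICATE with the by-parts bound for the first moment. `n + 1` nodes,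
`D_j = Σ + j r - |2j + 2 - j (1 - ξ x)|` (`j ≥ 2`), `Σ = ∑_{all} Re A_i`, `r = Re (1 - ξ x)`,
`δ = r (2 - |1 - ξ x|)`. -/
theorem certBP (hz : ∀ i, ‖z i‖ ≤ 1) (hx : ‖x‖ ≤ 1) (hξ : ‖ξ‖ < 1) {k : ℕ} (hk : 1 ≤ k)
    {e : ℕ → ℝ} {M : ℝ} (hM : 0 ≤ M) {b lam D : ℕ → ℝ} {E : ℝ} {m : ℂ}
    (hm : (n + 1) * m = 2 * x + ∑ i, z i)
    (hE : 2 * E ≤ (n + 1) * (1 - ‖m‖ ^ 2) - (1 + ‖m‖ ^ 2) / 2 - ‖2 * x + m‖)
    (hD : ∀ j, 2 ≤ j → j ≤ k → D j ≤ (1 - ξ * x).re + ∑ i, (1 - ξ * z i).re +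
      j * (1 - ξ * x).re - ‖2 * (j:ℂ) + 2 - j * (1 - ξ * x)‖)
    (he : ∀ j, 1 ≤ j → j ≤ k → |e (k - j)| ≤ b j * M)
    (hb0 : ∀ j, 0 ≤ b j)
    (hlam : ∀ j, 0 ≤ lam j) (hlam1 : lam 1 = 0)
    (hb1 : b 1 + 2 * lam 2 ≤ E)
    (hb : ∀ j, 2 ≤ j → j ≤ k → b j + (j + 1) * lam (j + 1) ≤
      lam j * D j + j * ((1 - ξ * x).re * (2 - ‖1 - ξ * x‖)) * lam (j - 1)) :
    |∑ j ∈ Finset.range k, e (k - (j + 1)) * (2 * (KK z x (j + 1) ξ).re)| ≤
      M * (2 * (KK z x 0 ξ).re - 1) := by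
  have hc : 0 < 1 - ‖ξ‖ := by linarith
  have hA := AA_re (ξ := ξ) hz hx
  have hA2 := AA_norm hz hx hξ.le
  have hS : ∑ i, (AA z x ξ i).re = (1 - ξ * x).re + ∑ i, (1 - ξ * z i).re := by
    rw [Fin.sum_univ_succ, AA_zero]
    congr 1
  have hr0 : 0 ≤ (1 - ξ * x).re := by
    have := hA 0
    rw [AA_zero] at this
    linarith
  have hn2 : ‖1 - ξ * x‖ ≤ 2 := by
    have := hA2 0
    rwa [AA_zero] at this
  have hδ : 0 ≤ (1 - ξ * x).re * (2 - ‖1 - ξ * x‖) := mul_nonneg hr0 (by linarith)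
  have r2 := fun j => rec_succ hc hA hA2 j
  have hA0 : AA z x ξ 0 = 1 - ξ * x := by rw [AA_zero]
  refine star_of_moments hz hx hξ hM hm hE he hb0 ?_
  refine lp_bound' hk (V := fun j => VV (AA z x ξ) j) (D := D) (lam := lam) (b := b)
    (δ := (1 - ξ * x).re * (2 - ‖1 - ξ * x‖)) (fun j => VV_nonneg j) hδ hlam hlam1 ?_ hb1 hb
  intro j hj hjk
  obtain ⟨i, rfl⟩ : ∃ i, j = i + 2 := ⟨j - 2, by omega⟩
  have h3 := r2 (i + 1)
  rw [hS, hA0] at h3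
  have hDj := mul_le_mul_of_nonneg_right (hD _ hj hjk) (VV_nonneg (A := AA z x ξ) (i + 2))
  have e1 : (i + 2 - 1 : ℕ) = i + 1 := by omega
  have e2 : VV (AA z x ξ) (i + 1 + 1) = VV (AA z x ξ) (i + 2) := rfl
  have e3 : VV (AA z x ξ) (i + 1 + 2) = VV (AA z x ξ) (i + 2 + 1) := rfl
  rw [e2, e3] at h3
  rw [e1]
  push_cast at h3 hDj ⊢
  have e4 : (2 * ((i:ℂ) + 1) + 4 - (i + 1 + 1) * (1 - ξ * x)) =
      2 * ((i:ℂ) + 2) + 2 - (i + 2) * (1 - ξ * x) := by ring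
  rw [e4] at h3
  nlinarith [h3, hDj]

end cert

end Pool.Agent.HStar
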