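import Pool.Agent.HStar.BPMain

set_option autoImplicit false

namespace Pool.Agent.HStar

open MeasureTheory Set Filter Topology Pool.Agent.HHalf ComplexConjugate

section bplink

variable {n : ℕ} {z : Fin (n + 1) → ℂ} {x ξ : ℂ}

/-- `2 Re K_0 - 1 ≥ E[(T² - |S|²)/|L|²]`. -/
theorem KK_zero_ge (hz : ∀ i, ‖z i‖ ≤ 1) (hx : ‖x‖ ≤ 1) (hξ : ‖ξ‖ < 1) :
    ∫ X, (TT X ^ 2 - ‖SS (Fin.cons x z : Fin (n + 2) → ℂ) X‖ ^ 2) * g2 (AA z x ξ) X
      ∂mu (n + 2) ≤ 2 * (KK z x 0 ξ).re - 1 := by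
  have hc : 0 < 1 - ‖ξ‖ := by linarith
  have hA := AA_re (ξ := ξ) hz hx
  have hA2 := AA_norm hz hx hξ.le
  set y : Fin (n + 2) → ℂ := Fin.cons x z with hyd
  have hy : ∀ i, ‖y i‖ ≤ 1 := cons_le hz hx
  have hAy : AA z x ξ = fun i => 1 - ξ * y i := rfl
  -- the kernel
  have hm : Measurable (fun X : Fin (n + 2) → ℝ => (1 - ξ * ZZ z x X)⁻¹) :=
    (measurable_const.sub (measurable_const.mul (measurable_ZZ z x))).inv
  have hbd : ∀ X : Fin (n + 2) → ℝ, (∀ i, 0 < X i) → ‖(1 - ξ * ZZ z x X)⁻¹‖ ≤ 1 / (1 - ‖ξ‖) := by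
    intro X hX
    rw [norm_inv, one_div]
    exact inv_anti₀ hc (norm_one_sub_ge le_rfl (norm_ZZ_le hz hx hX))
  have hi : Integrable (fun X : Fin (n + 2) → ℝ => (1 - ξ * ZZ z x X)⁻¹) (mu (n + 2)) :=
    integrable_bdd hm.aestronglyMeasurable hbd
  have e0 : KK z x 0 ξ = ∫ X, (1 - ξ * ZZ z x X)⁻¹ ∂mu (n + 2) := by
    unfold KK
    congr 1
    funext X
    simp
  have e1 : 2 * (KK z x 0 ξ).re - 1 =
      ∫ X, (2 * ((1 - ξ * ZZ z x X)⁻¹).re - 1) ∂mu (n + 2) := by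
    have h1 : (KK z x 0 ξ).re = ∫ X, ((1 - ξ * ZZ z x X)⁻¹).re ∂mu (n + 2) := by
      rw [e0, ← Complex.reCLM_apply, ← ContinuousLinearMap.integral_comp_comm _ hi]
      rfl
    have hir : Integrable (fun X : Fin (n + 2) → ℝ => ((1 - ξ * ZZ z x X)⁻¹).re) (mu (n + 2)) :=
      hi.re
    rw [integral_sub (hir.const_mul 2) (integrable_const 1), integral_const_mul, h1]
    simp
  rw [e1]
  have hir : Integrable (fun X : Fin (n + 2) → ℝ => ((1 - ξ * ZZ z x X)⁻¹).re) (mu (n + 2)) :=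
      hi.re
  refine integral_mono_ae ?_ ((hir.const_mul 2).sub (integrable_const 1)) ?_
  · -- integrability of the left side
    have e2 : (fun X : Fin (n + 2) → ℝ => (TT X ^ 2 - ‖SS y X‖ ^ 2) * g2 (AA z x ξ) X) =
        fun X => ∑ i, X i * (lin (cc y 0 i) X * g2 (AA z x ξ) X) := by
      funext X
      rw [← sum_X_lin (σ := 0), Finset.sum_mul]
      exact Finset.sum_congr rfl fun i _ => by ring
    rw [e2]
    exact integrable_finsetSum _ fun i _ => int_Xlin hc hA i _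
  · filter_upwards [mu_pos (n + 2)] with X hX
    have hT : 0 < TT X := TT_pos hX
    have hTc : (TT X : ℂ) ≠ 0 := Complex.ofReal_ne_zero.2 hT.ne'
    have hL := LL_AA (z := z) (x := x) (ξ := ξ) hT.ne'
    have hL0 := LL_ne hc hA hX
    have hS : SS y X = TT X * ZZ z x X := by
      unfold SS ZZ DD
      rw [← hyd]
      field_simp
    set Z := ZZ z x X with hZ
    have h0 : 1 - ξ * Z ≠ 0 := by
      intro h
      rw [h, mul_zero] at hL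
      exact hL0 hL
    have hn : 0 < ‖1 - ξ * Z‖ := norm_pos_iff.2 h0
    have hl : (TT X ^ 2 - ‖SS y X‖ ^ 2) * g2 (AA z x ξ) X =
        (1 - ‖Z‖ ^ 2) / ‖1 - ξ * Z‖ ^ 2 := by
      unfold g2
      rw [hL, hS, norm_mul, norm_mul, Complex.norm_real, Real.norm_of_nonneg hT.le]
      field_simp
    have e3 : ‖1 - ξ * Z‖ ^ 2 = 1 - 2 * (ξ * Z).re + ‖ξ‖ ^ 2 * ‖Z‖ ^ 2 := by
      rw [← mul_pow, ← norm_mul, ← Complex.normSq_eq_norm_sq, ← Complex.normSq_eq_norm_sq,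
        Complex.normSq_apply, Complex.normSq_apply]
      simp only [Complex.sub_re, Complex.sub_im, Complex.one_re, Complex.one_im]
      ring
    show _ ≤ 2 * ((1 - ξ * Z)⁻¹).re - 1
    rw [hl, Complex.inv_re, Complex.normSq_eq_norm_sq, Complex.sub_re, Complex.one_re]
    have hq : 0 < ‖1 - ξ * Z‖ ^ 2 := by positivity
    rw [div_le_iff₀ hq]
    have : (2 * ((1 - (ξ * Z).re) / ‖1 - ξ * Z‖ ^ 2) - 1) * ‖1 - ξ * Z‖ ^ 2 =
        2 * (1 - (ξ * Z).re) - ‖1 - ξ * Z‖ ^ 2 := by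
      field_simp
    rw [this, e3]
    have h1 : ‖ξ‖ ^ 2 ≤ 1 := pow_le_one₀ (norm_nonneg _) hξ.le
    nlinarith [sq_nonneg ‖Z‖]

/-- THE BY-PARTS BOUND. All nodes of the closed disc, `|x| ≤ 1`, `|ξ| < 1`,
`N = n + 1` nodes, `N m = 2 x + ∑ z_i`:
`p ≥ (N (1 - |m|²) - (1 + |m|²)/2 - |2 x + m|) N V_1 + (1 - |x|²) E[X_0²/|L|²]`,
`p = 2 Re K_0(ξ) - 1`. -/
theorem bp (hz : ∀ i, ‖z i‖ ≤ 1) (hx : ‖x‖ ≤ 1) (hξ : ‖ξ‖ < 1) {m : ℂ}
    (hm : (n + 1) * m = 2 * x + ∑ i, z i) :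
    ((n + 1) * (1 - ‖m‖ ^ 2) - (1 + ‖m‖ ^ 2) / 2 - ‖2 * x + m‖) *
      ((n + 1) * VV (AA z x ξ) 1) +
      (1 - ‖x‖ ^ 2) * ∫ X, X 0 * GG (AA z x ξ) 1 X ∂mu (n + 2) ≤
    2 * (KK z x 0 ξ).re - 1 := by
  have hy : ∀ i, ‖(Fin.cons x z : Fin (n + 2) → ℂ) i‖ ≤ 1 := cons_le hz hx
  have h := bp_hom (y := (Fin.cons x z : Fin (n + 2) → ℂ)) (σ := conj m) hy hξ (by
    rw [Fin.sum_univ_succ]
    simp only [Fin.cons_zero, Fin.cons_succ]
    have h1 : x + ∑ i, z i + x = (n + 1) * m := by rw [hm]; ring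
    rw [h1, map_mul, map_add, Complex.conj_natCast, map_one])
  rw [Fin.cons_zero, RCLike.norm_conj, Complex.conj_conj] at h
  have e1 : 2 * ‖x + m / 2‖ = ‖2 * x + m‖ := by
    have : 2 * x + m = 2 * (x + m / 2) := by ring
    rw [this, norm_mul]
    simp
  rw [e1] at h
  exact h.trans (KK_zero_ge hz hx hξ)

/-- The form used in the certificate. -/
theorem bp_V1 (hz : ∀ i, ‖z i‖ ≤ 1) (hx : ‖x‖ ≤ 1) (hξ : ‖ξ‖ < 1) {m : ℂ}
    (hm : (n + 1) * m = 2 * x + ∑ i, z i) :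
    ((n + 1) * (1 - ‖m‖ ^ 2) - (1 + ‖m‖ ^ 2) / 2 - ‖2 * x + m‖) *
      ((n + 1) * VV (AA z x ξ) 1) ≤ 2 * (KK z x 0 ξ).re - 1 := by
  have hc : 0 < 1 - ‖ξ‖ := by linarith
  have h := bp hz hx hξ hm
  have h1 : 0 ≤ ∫ X, X 0 * GG (AA z x ξ) 1 X ∂mu (n + 2) := by
    apply integral_nonneg_of_ae
    filter_upwards [mu_pos (n + 2)] with X hX
    exact mul_nonneg (hX 0).le (GG_nonneg 1 hX)
  have h2 : 0 ≤ 1 - ‖x‖ ^ 2 := by
    have := pow_le_one₀ (n := 2) (norm_nonneg x) hx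
    linarith
  have := mul_nonneg h2 h1
  linarith

end bplink

end Pool.Agent.HStar
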