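import Mathlib

set_option autoImplicit false

namespace Pool.Agent.HStar

open ComplexConjugate

/-! Pointwise part of the by-parts bound. -/

/-- `β = ξ / (1 - ξ Z)`: `Re (β Z) ≥ -1/2 + D |β|² / 2`, `D = 1 - |Z|²`. -/
theorem bp_key {ξ Z β : ℂ} (hξ : ‖ξ‖ ≤ 1) (h0 : 1 - ξ * Z ≠ 0)
    (hβ : β = ξ / (1 - ξ * Z)) :
    -(1/2) + (1 - ‖Z‖ ^ 2) * ‖β‖ ^ 2 / 2 ≤ (β * Z).re := by
  have hn : 0 < ‖1 - ξ * Z‖ := norm_pos_iff.2 h0
  have e1 : β * Z = 1 / (1 - ξ * Z) - 1 := by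
    rw [hβ]
    field_simp
    ring
  have e2 : (1 / (1 - ξ * Z)).re = (1 - ξ * Z).re / ‖1 - ξ * Z‖ ^ 2 := by
    rw [one_div, Complex.inv_re, Complex.normSq_eq_norm_sq]
  have e3 : ‖1 - ξ * Z‖ ^ 2 = 1 - 2 * (ξ * Z).re + ‖ξ‖ ^ 2 * ‖Z‖ ^ 2 := by
    rw [← mul_pow, ← norm_mul, ← Complex.normSq_eq_norm_sq, ← Complex.normSq_eq_norm_sq,
      Complex.normSq_apply, Complex.normSq_apply]
    simp only [Complex.sub_re, Complex.sub_im, Complex.one_re, Complex.one_im]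
    ring
  have e4 : ‖β‖ ^ 2 = ‖ξ‖ ^ 2 / ‖1 - ξ * Z‖ ^ 2 := by
    rw [hβ, norm_div, div_pow]
  rw [e1, Complex.sub_re, e2, e4, Complex.one_re]
  set q := ‖1 - ξ * Z‖ ^ 2 with hq
  have hq0 : 0 < q := by positivity
  have e5 : (1 - ξ * Z).re = (q + 1 - ‖ξ‖ ^ 2 * ‖Z‖ ^ 2) / 2 := by
    rw [e3, Complex.sub_re, Complex.one_re]
    ring
  rw [e5]
  have h1 : ‖ξ‖ ^ 2 ≤ 1 := pow_le_one₀ (norm_nonneg _) hξ
  have h2 : (1 - ‖Z‖ ^ 2) * (‖ξ‖ ^ 2 / q) / 2 ≤ (1 - ‖ξ‖ ^ 2 * ‖Z‖ ^ 2) / 2 / q := by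
    rw [le_div_iff₀ hq0]
    have : (1 - ‖Z‖ ^ 2) * (‖ξ‖ ^ 2 / q) / 2 * q = (1 - ‖Z‖ ^ 2) * ‖ξ‖ ^ 2 / 2 := by
      field_simp
    rw [this]
    nlinarith [sq_nonneg ‖Z‖, sq_nonneg ‖ξ‖]
  have h3 : (q + 1 - ‖ξ‖ ^ 2 * ‖Z‖ ^ 2) / 2 / q - 1 =
      -(1/2) + (1 - ‖ξ‖ ^ 2 * ‖Z‖ ^ 2) / 2 / q := by
    field_simp
    ring
  rw [h3]
  linarith

/-- `D Re (β c) ≤ |c| + Re (conj c Z)`. -/
theorem bp_lin {Z β : ℂ} (hZ : ‖Z‖ ≤ 1)
    (hk : -(1/2) + (1 - ‖Z‖ ^ 2) * ‖β‖ ^ 2 / 2 ≤ (β * Z).re) (c : ℂ) :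
    (1 - ‖Z‖ ^ 2) * (β * c).re ≤ ‖c‖ + (conj c * Z).re := by
  set D := 1 - ‖Z‖ ^ 2 with hD
  have hD0 : 0 ≤ D := by
    have := pow_le_one₀ (n := 2) (norm_nonneg Z) hZ
    linarith
  by_cases hc : c = 0
  · subst hc; simp
  have hc0 : 0 < ‖c‖ := norm_pos_iff.2 hc
  -- unit vector
  set e : ℂ := c / (‖c‖ : ℂ) with he
  have hcc : (‖c‖ : ℂ) ≠ 0 := Complex.ofReal_ne_zero.2 hc0.ne'
  have hce : c = (‖c‖ : ℂ) * e := by rw [he]; field_simp
  have hen : ‖e‖ = 1 := by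
    rw [he, norm_div, Complex.norm_real, norm_norm, div_self hc0.ne']
  have key : D * (β * e).re ≤ 1 + (conj e * Z).re := by
    have h1 : ‖e + Z‖ ^ 2 = 1 + 2 * (conj e * Z).re + ‖Z‖ ^ 2 := by
      have h2 : ‖e‖ ^ 2 = 1 := by rw [hen]; norm_num
      rw [← Complex.normSq_eq_norm_sq, Complex.normSq_apply] at h2 ⊢
      rw [← Complex.normSq_eq_norm_sq, Complex.normSq_apply]
      simp only [Complex.add_re, Complex.add_im, Complex.mul_re, Complex.conj_re, Complex.conj_im]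
      nlinarith [h2]
    have h3 : (β * (e + Z)).re ≤ ‖β‖ * ‖e + Z‖ := by
      rw [← norm_mul]; exact Complex.re_le_norm _
    have h4 : (β * (e + Z)).re = (β * e).re + (β * Z).re := by
      rw [mul_add, Complex.add_re]
    have h5 := sq_nonneg (‖e + Z‖ - D * ‖β‖)
    have h6 := mul_le_mul_of_nonneg_left h3 hD0
    have h7 := mul_le_mul_of_nonneg_left hk hD0
    rw [h4] at h6
    nlinarith
  have e1 : (β * c).re = ‖c‖ * (β * e).re := by
    have : β * c = (‖c‖ : ℂ) * (β * e) := by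
      calc β * c = β * ((‖c‖ : ℂ) * e) := by rw [← hce]
        _ = _ := by ring
    rw [this, Complex.re_ofReal_mul]
  have e2 : (conj c * Z).re = ‖c‖ * (conj e * Z).re := by
    have : conj c * Z = (‖c‖ : ℂ) * (conj e * Z) := by
      calc conj c * Z = conj ((‖c‖ : ℂ) * e) * Z := by rw [← hce]
        _ = _ := by rw [map_mul, Complex.conj_ofReal]; ring
    rw [this, Complex.re_ofReal_mul]
  rw [e1, e2]
  have := mul_le_mul_of_nonneg_left key hc0.le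
  nlinarith

/-- The quadratic inequality. -/
theorem bp_quad {Z β : ℂ} (hZ : ‖Z‖ ≤ 1)
    (hk : -(1/2) + (1 - ‖Z‖ ^ 2) * ‖β‖ ^ 2 / 2 ≤ (β * Z).re) (σ x : ℂ) :
    (1 - ‖Z‖ ^ 2) * ((β * (x - Z)).re +
      (‖σ + conj Z‖ * ‖β‖ + ((σ + conj Z) * conj β).re) / 2) ≤
    (1 + ‖σ‖ ^ 2) / 4 + ‖x + conj σ / 2‖ + ((conj x + σ) * Z).re := by
  have hl := bp_lin hZ hk (x + conj σ / 2)
  set D := 1 - ‖Z‖ ^ 2 with hD
  have hD0 : 0 ≤ D := by
    have := pow_le_one₀ (n := 2) (norm_nonneg Z) hZ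
    linarith
  set G := ‖σ + conj Z‖ with hG
  have h1 : G ^ 2 = ‖σ‖ ^ 2 + 2 * (σ * Z).re + ‖Z‖ ^ 2 := by
    rw [hG, ← Complex.normSq_eq_norm_sq, ← Complex.normSq_eq_norm_sq, ← Complex.normSq_eq_norm_sq,
      Complex.normSq_apply, Complex.normSq_apply, Complex.normSq_apply]
    simp only [Complex.add_re, Complex.add_im, Complex.mul_re, Complex.conj_re, Complex.conj_im]
    ring
  have e1 : (β * (x - Z)).re + ((σ + conj Z) * conj β).re / 2 =
      (β * (x + conj σ / 2)).re - (β * Z).re / 2 := by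
    have h2 : conj σ / 2 = ((1/2 : ℝ) : ℂ) * conj σ := by push_cast; ring
    rw [h2]
    simp only [Complex.mul_re, Complex.sub_re, Complex.sub_im, Complex.add_re, Complex.add_im,
      Complex.conj_re, Complex.conj_im, Complex.mul_im, Complex.ofReal_re, Complex.ofReal_im]
    ring
  have e2 : (conj (x + conj σ / 2) * Z).re = ((conj x + σ) * Z).re - (σ * Z).re / 2 := by
    have h2 : conj σ / 2 = ((1/2 : ℝ) : ℂ) * conj σ := by push_cast; ring
    rw [h2]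
    simp only [map_add, map_mul, Complex.conj_ofReal, Complex.conj_conj, Complex.mul_re,
      Complex.add_re, Complex.add_im,
      Complex.conj_re, Complex.conj_im, Complex.mul_im, Complex.ofReal_re, Complex.ofReal_im]
    ring
  rw [e2] at hl
  have h5 := sq_nonneg (G - D * ‖β‖)
  have h7 := mul_le_mul_of_nonneg_left hk hD0
  have e3 : D * ((β * (x - Z)).re + (G * ‖β‖ + ((σ + conj Z) * conj β).re) / 2) =
      D * (β * (x + conj σ / 2)).re - D * (β * Z).re / 2 + D * (G * ‖β‖) / 2 := by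
    have : (β * (x - Z)).re + (G * ‖β‖ + ((σ + conj Z) * conj β).re) / 2 =
      (β * (x + conj σ / 2)).re - (β * Z).re / 2 + G * ‖β‖ / 2 := by linarith [e1]
    rw [this]
    ring
  rw [e3]
  nlinarith

/-- The covariance inequality. -/
theorem bp_cov {ι : Type*} [Fintype ι] {w : ι → ℝ} {y : ι → ℂ} (hw : ∀ i, 0 ≤ w i)
    (hw1 : ∑ i, w i = 1) (hy : ∀ i, ‖y i‖ ≤ 1) {Z : ℂ} (hZ : Z = ∑ i, (w i : ℂ) * y i)
    (γ β x : ℂ) :
    ∑ i, w i * ((1 - ‖Z‖ ^ 2 - (γ * (y i - Z)).re) * (β * (x - y i)).re) ≤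
      (1 - ‖Z‖ ^ 2) * ((β * (x - Z)).re + (‖γ‖ * ‖β‖ + (γ * conj β).re) / 2) := by
  set D := 1 - ‖Z‖ ^ 2 with hD
  -- Σ w u = 0
  have hu : ∑ i, (w i : ℂ) * (y i - Z) = 0 := by
    simp_rw [mul_sub]
    rw [Finset.sum_sub_distrib, ← hZ, ← Finset.sum_mul]
    have : ∑ i, (w i : ℂ) = 1 := by exact_mod_cast hw1
    rw [this]; ring
  have hlin : ∀ c : ℂ, ∑ i, w i * (c * (y i - Z)).re = 0 := by
    intro c
    have h1 : (c * ∑ i, (w i : ℂ) * (y i - Z)).re = 0 := by rw [hu, mul_zero, Complex.zero_re]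
    rw [Finset.mul_sum, Complex.re_sum] at h1
    rw [← h1]
    refine Finset.sum_congr rfl fun i _ => ?_
    have : c * ((w i : ℂ) * (y i - Z)) = (w i : ℂ) * (c * (y i - Z)) := by ring
    rw [this, Complex.re_ofReal_mul]
  -- Σ w |u|² ≤ D
  have hq : ∑ i, w i * ‖y i - Z‖ ^ 2 ≤ D := by
    have h1 : ∀ i, w i * ‖y i - Z‖ ^ 2 = w i * (‖y i‖ ^ 2 - ‖Z‖ ^ 2) -
        2 * (w i * (conj Z * (y i - Z)).re) := by
      intro i
      rw [← Complex.normSq_eq_norm_sq, ← Complex.normSq_eq_norm_sq, ← Complex.normSq_eq_norm_sq,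
        Complex.normSq_apply, Complex.normSq_apply, Complex.normSq_apply]
      simp only [Complex.sub_re, Complex.sub_im, Complex.mul_re, Complex.conj_re, Complex.conj_im]
      ring
    rw [Finset.sum_congr rfl fun i _ => h1 i, Finset.sum_sub_distrib, ← Finset.mul_sum, hlin,
      mul_zero, sub_zero]
    have h2 : ∀ i, w i * (‖y i‖ ^ 2 - ‖Z‖ ^ 2) ≤ w i * D := by
      intro i
      apply mul_le_mul_of_nonneg_left _ (hw i)
      have := pow_le_one₀ (n := 2) (norm_nonneg (y i)) (hy i)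
      rw [hD]; linarith
    refine (Finset.sum_le_sum fun i _ => h2 i).trans (le_of_eq ?_)
    rw [← Finset.sum_mul, hw1, one_mul]
  set κ := (‖γ‖ * ‖β‖ + (γ * conj β).re) / 2 with hκ
  have hκ0 : 0 ≤ κ := by
    have h1 := Complex.abs_re_le_norm (γ * conj β)
    rw [norm_mul, RCLike.norm_conj] at h1
    have := (abs_le.1 h1).1
    rw [hκ]; linarith
  have hprod : ∀ u : ℂ, (γ * u).re * (β * u).re ≤ ‖u‖ ^ 2 * κ := by
    intro u
    have h1 : 2 * ((γ * u).re * (β * u).re) = ((γ * u) * (β * u)).re + ((γ * u) * conj (β * u)).re := by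
      simp only [Complex.mul_re, Complex.mul_im, Complex.conj_re, Complex.conj_im]
      ring
    have h2 : ((γ * u) * (β * u)).re ≤ ‖u‖ ^ 2 * (‖γ‖ * ‖β‖) := by
      refine (Complex.re_le_norm _).trans (le_of_eq ?_)
      rw [norm_mul, norm_mul, norm_mul]
      ring
    have h3 : ((γ * u) * conj (β * u)).re = ‖u‖ ^ 2 * (γ * conj β).re := by
      have : (γ * u) * conj (β * u) = ((‖u‖ ^ 2 : ℝ) : ℂ) * (γ * conj β) := by
        rw [map_mul, ← Complex.normSq_eq_norm_sq, ← Complex.mul_conj]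
        ring
      rw [this, Complex.re_ofReal_mul]
    rw [hκ]
    linarith
  have e1 : ∀ i, w i * ((D - (γ * (y i - Z)).re) * (β * (x - y i)).re) =
      w i * (D * (β * (x - Z)).re) - D * (w i * (β * (y i - Z)).re) -
      (β * (x - Z)).re * (w i * (γ * (y i - Z)).re) +
      w i * ((γ * (y i - Z)).re * (β * (y i - Z)).re) := by
    intro i
    have : β * (x - y i) = β * (x - Z) - β * (y i - Z) := by ring
    rw [this, Complex.sub_re]
    ring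
  rw [Finset.sum_congr rfl fun i _ => e1 i, Finset.sum_add_distrib, Finset.sum_sub_distrib,
    Finset.sum_sub_distrib, ← Finset.mul_sum, ← Finset.mul_sum, hlin, hlin, ← Finset.sum_mul, hw1]
  have h4 : ∑ i, w i * ((γ * (y i - Z)).re * (β * (y i - Z)).re) ≤ D * κ := by
    calc _ ≤ ∑ i, w i * (‖y i - Z‖ ^ 2 * κ) :=
          Finset.sum_le_sum fun i _ => mul_le_mul_of_nonneg_left (hprod _) (hw i)
      _ = (∑ i, w i * ‖y i - Z‖ ^ 2) * κ := by
          rw [Finset.sum_mul]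
          exact Finset.sum_congr rfl fun i _ => by ring
      _ ≤ D * κ := mul_le_mul_of_nonneg_right hq hκ0
  nlinarith

end Pool.Agent.HStar
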