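import Pool.Agent.HStar.Moments
import Pool.Agent.HStar.Frame

set_option autoImplicit false

namespace Pool.Agent.HStar

open MeasureTheory Set Filter Topology Pool.Agent.HHalf ComplexConjugate

section stein_inv

variable {n : ℕ} {A : Fin (n + 2) → ℂ} {c a : ℝ}

theorem norm_inv_LL_le (hc : 0 < c) (hA : ∀ i, c ≤ (A i).re) {X : Fin (n + 2) → ℝ}
    (hX : ∀ i, 0 < X i) : ‖(LL A X)⁻¹‖ ≤ c⁻¹ * (TT X)⁻¹ := by
  have hT : 0 < TT X := TT_pos hX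
  have h1 := norm_LL_ge hA hX
  rw [norm_inv, ← mul_inv]
  exact inv_anti₀ (by positivity) h1

theorem meas_inv_LL : Measurable (fun X : Fin (n + 2) → ℝ => (LL A X)⁻¹) := (measurable_LL A).inv

theorem int_inv_LL (hc : 0 < c) (hA : ∀ i, c ≤ (A i).re) :
    Integrable (fun X : Fin (n + 2) → ℝ => (LL A X)⁻¹) (mu (n + 2)) :=
  integrable_of_inv meas_inv_LL.aestronglyMeasurable fun _ hX => norm_inv_LL_le hc hA hX

theorem meas_fracc (i : Fin (n + 2)) :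
    Measurable (fun X : Fin (n + 2) → ℝ => (X i : ℂ) * A i / LL A X) :=
  ((Complex.measurable_ofReal.comp (measurable_pi_apply i)).mul_const _).div (measurable_LL A)

theorem int_frac_inv (hc : 0 < c) (hA : ∀ i, c ≤ (A i).re) (ha : ∀ i, ‖A i‖ ≤ a)
    (i : Fin (n + 2)) :
    Integrable (fun X : Fin (n + 2) → ℝ => (X i : ℂ) * A i / LL A X * (LL A X)⁻¹) (mu (n + 2)) := by
  refine integrable_of_inv (C := a / c * c⁻¹) ((meas_fracc i).mul meas_inv_LL).aestronglyMeasurable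
    fun X hX => ?_
  rw [norm_mul]
  calc ‖(X i : ℂ) * A i / LL A X‖ * ‖(LL A X)⁻¹‖ ≤ a / c * (c⁻¹ * (TT X)⁻¹) := by
        refine mul_le_mul (frac_le hc hA ha hX i) (norm_inv_LL_le hc hA hX) (norm_nonneg _) ?_
        exact div_nonneg ((norm_nonneg _).trans (ha i)) hc.le
    _ = _ := by ring

/-- Stein's identity for `1/L`. -/
theorem stein_inv (hc : 0 < c) (hA : ∀ i, c ≤ (A i).re) (ha : ∀ i, ‖A i‖ ≤ a)
    (i : Fin (n + 2)) :
    ∫ X, (X i : ℂ) * (LL A X)⁻¹ ∂mu (n + 2) = ∫ X, (LL A X)⁻¹ ∂mu (n + 2) -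
      ∫ X, (X i : ℂ) * A i / LL A X * (LL A X)⁻¹ ∂mu (n + 2) := by
  have hst := stein i (G := fun X => (LL A X)⁻¹) (G' := fun X => -(A i / LL A X) * (LL A X)⁻¹)
    (C := c⁻¹) (C' := a / c * c⁻¹) (by positivity) meas_inv_LL.aestronglyMeasurable
    (((measurable_const.div (measurable_LL A)).neg).mul meas_inv_LL).aestronglyMeasurable
    (fun X hX => norm_inv_LL_le hc hA hX) (by
      intro X hX
      have e : (X i : ℂ) * (-(A i / LL A X) * (LL A X)⁻¹) =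
          -((X i : ℂ) * A i / LL A X * (LL A X)⁻¹) := by ring
      rw [e, norm_neg, norm_mul]
      calc ‖(X i : ℂ) * A i / LL A X‖ * ‖(LL A X)⁻¹‖ ≤ a / c * (c⁻¹ * (TT X)⁻¹) := by
            refine mul_le_mul (frac_le hc hA ha hX i) (norm_inv_LL_le hc hA hX) (norm_nonneg _) ?_
            exact div_nonneg ((norm_nonneg _).trans (ha i)) hc.le
        _ = _ := by ring) (by
      intro y hy x hx
      have hp := ins_pos i hx hy
      have hL := LL_ne hc hA hp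
      have h1 := (hasDerivAt_LL A i y x).fun_inv hL
      refine h1.congr_deriv ?_
      field_simp)
  rw [hst]
  have e : ∫ X, (X i : ℂ) * (-(A i / LL A X) * (LL A X)⁻¹) ∂mu (n + 2) =
      -∫ X, (X i : ℂ) * A i / LL A X * (LL A X)⁻¹ ∂mu (n + 2) := by
    rw [← integral_neg]
    congr 1
    funext X
    ring
  rw [e]
  ring

theorem int_X_inv (hc : 0 < c) (hA : ∀ i, c ≤ (A i).re) (i : Fin (n + 2)) :
    Integrable (fun X : Fin (n + 2) → ℝ => (X i : ℂ) * (LL A X)⁻¹) (mu (n + 2)) := by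
  refine Integrable.mono' (integrable_const c⁻¹)
    ((Complex.measurable_ofReal.comp (measurable_pi_apply i)).mul meas_inv_LL).aestronglyMeasurable ?_
  filter_upwards [mu_pos (n + 2)] with X hX
  have hT : 0 < TT X := TT_pos hX
  rw [norm_mul, Complex.norm_real, Real.norm_of_nonneg (hX i).le]
  calc X i * ‖(LL A X)⁻¹‖ ≤ TT X * (c⁻¹ * (TT X)⁻¹) :=
        mul_le_mul (coord_le_TT hX i) (norm_inv_LL_le hc hA hX) (norm_nonneg _) hT.le
    _ = c⁻¹ := by field_simp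

/-- `E[T/L] = (n+1) E[1/L]`. -/
theorem int_T_inv (hc : 0 < c) (hA : ∀ i, c ≤ (A i).re) (ha : ∀ i, ‖A i‖ ≤ a) :
    ∫ X, (TT X : ℂ) * (LL A X)⁻¹ ∂mu (n + 2) = (n + 1) * ∫ X, (LL A X)⁻¹ ∂mu (n + 2) := by
  have e1 : ∀ X : Fin (n + 2) → ℝ, (TT X : ℂ) * (LL A X)⁻¹ = ∑ i, (X i : ℂ) * (LL A X)⁻¹ := by
    intro X
    unfold TT
    rw [← Finset.sum_mul]
    push_cast
    rfl
  simp_rw [e1]
  rw [integral_finsetSum _ fun i _ => int_X_inv hc hA i,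
    Finset.sum_congr rfl fun i _ => stein_inv hc hA ha i, Finset.sum_sub_distrib,
    ← integral_finsetSum _ fun i _ => int_frac_inv hc hA ha i]
  have e2 : ∫ X, ∑ i, (X i : ℂ) * A i / LL A X * (LL A X)⁻¹ ∂mu (n + 2) =
      ∫ X, (LL A X)⁻¹ ∂mu (n + 2) := by
    refine integral_congr_ae ?_
    filter_upwards [mu_pos (n + 2)] with X hX
    have hL := LL_ne hc hA hX
    rw [← Finset.sum_mul, ← Finset.sum_div]
    have : ∑ i, (X i : ℂ) * A i = LL A X := rfl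
    rw [this, div_self hL, one_mul]
  rw [e2]
  simp
  ring

/-- RECURRENCE (R'1). -/
theorem rec_one (hc : 0 < c) (hA : ∀ i, c ≤ (A i).re) (h2 : ∀ i, ‖A i‖ ≤ 2) {B : ℝ}
    (hB : ∀ u : ℂ, ‖u‖ = 1 → 0 ≤ u.re → 4 * u.re - (A 0 * conj u ^ 2).re ≤ B) :
    (∑ i, (A i).re + (A 0).re - B) * VV A 1 + 2 * ((A 0).re * (2 - ‖A 0‖)) * VV A 2 ≤
      (∫ X, (LL A X)⁻¹ ∂mu (n + 2)).re := by
  have h := rec_first hc hA h2 1
  have hs := stein_inv hc hA h2 0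
  have i1 := int_reu (A := A) hc hA 1
  have if0 := int_frac_inv hc hA h2 0
  -- Re L G_1 = Re (X_0 / L)
  have e1 : ∫ X, (LL A X).re * GG A 1 X ∂mu (n + 2) =
      (∫ X, (X 0 : ℂ) * (LL A X)⁻¹ ∂mu (n + 2)).re := by
    rw [← Complex.reCLM_apply, ← ContinuousLinearMap.integral_comp_comm _ (int_X_inv hc hA 0)]
    refine integral_congr_ae ?_
    filter_upwards [mu_pos (n + 2)] with X hX
    have hL : ‖LL A X‖ ≠ 0 := norm_ne_zero_iff.2 (LL_ne hc hA hX)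
    rw [Complex.reCLM_apply, Complex.re_ofReal_mul, Complex.inv_re, Complex.normSq_eq_norm_sq]
    unfold GG
    field_simp
  have e2 : (∫ X, (X 0 : ℂ) * A 0 / LL A X * (LL A X)⁻¹ ∂mu (n + 2)).re =
      ∫ X, (A 0 * conj (LL A X / (‖LL A X‖ : ℂ)) ^ 2).re * GG A 1 X ∂mu (n + 2) := by
    rw [← Complex.reCLM_apply, ← ContinuousLinearMap.integral_comp_comm _ if0]
    refine integral_congr_ae ?_
    filter_upwards [mu_pos (n + 2)] with X hX
    have hL0 := LL_ne hc hA hX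
    have hL : ‖LL A X‖ ≠ 0 := norm_ne_zero_iff.2 hL0
    rw [Complex.reCLM_apply]
    have e3 : (X 0 : ℂ) * A 0 / LL A X * (LL A X)⁻¹ =
        ((X 0 / ‖LL A X‖ ^ 2 : ℝ) : ℂ) * (A 0 * conj (LL A X / (‖LL A X‖ : ℂ)) ^ 2) := by
      have hinv : (LL A X)⁻¹ = conj (LL A X) / ((‖LL A X‖ : ℂ)) ^ 2 := by
        rw [Complex.inv_def, Complex.normSq_eq_norm_sq]
        push_cast
        rw [div_eq_mul_inv]
      rw [div_eq_mul_inv, hinv, map_div₀, Complex.conj_ofReal]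
      push_cast
      field_simp
    rw [e3, Complex.re_ofReal_mul]
    unfold GG
    ring
  have hre := congrArg Complex.re hs
  rw [Complex.sub_re, ← e1, e2] at hre
  have iU : Integrable (fun X => (A 0 * conj (LL A X / (‖LL A X‖ : ℂ)) ^ 2).re * GG A 1 X)
      (mu (n + 2)) := by
    refine int_GG_mul hc hA 1 (Complex.measurable_re.comp (measurable_const.mul
      ((Complex.continuous_conj.measurable.comp meas_u).pow_const 2))) (B := 2) fun X hX => ?_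
    refine (Complex.abs_re_le_norm _).trans ?_
    rw [norm_mul, norm_pow, RCLike.norm_conj, norm_u hc hA hX, one_pow, mul_one]
    exact h2 0
  have h4 : 4 * ∫ X, ((LL A X).re / ‖LL A X‖) * GG A 1 X ∂mu (n + 2) -
      ∫ X, (A 0 * conj (LL A X / (‖LL A X‖ : ℂ)) ^ 2).re * GG A 1 X ∂mu (n + 2) ≤ B * VV A 1 := by
    have e5 : 4 * ∫ X, ((LL A X).re / ‖LL A X‖) * GG A 1 X ∂mu (n + 2) -
      ∫ X, (A 0 * conj (LL A X / (‖LL A X‖ : ℂ)) ^ 2).re * GG A 1 X ∂mu (n + 2) =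
      ∫ X, (4 * (((LL A X).re / ‖LL A X‖) * GG A 1 X) -
        (A 0 * conj (LL A X / (‖LL A X‖ : ℂ)) ^ 2).re * GG A 1 X) ∂mu (n + 2) := by
      rw [integral_sub (i1.const_mul _) iU, integral_const_mul]
    have e6 : B * VV A 1 = ∫ X, B * GG A 1 X ∂mu (n + 2) := by
      rw [integral_const_mul]; rfl
    rw [e5, e6]
    refine integral_mono_ae ((i1.const_mul _).sub iU) ((int_GG hc hA 1).const_mul _) ?_
    filter_upwards [mu_pos (n + 2)] with X hX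
    have hg := GG_nonneg (A := A) 1 hX
    set u : ℂ := LL A X / (‖LL A X‖ : ℂ) with hu
    have hu1 : ‖u‖ = 1 := norm_u hc hA hX
    have e7 : (LL A X).re / ‖LL A X‖ = u.re := by
      rw [hu, Complex.div_ofReal_re]
    have hT : 0 < TT X := TT_pos hX
    have hre0 : 0 ≤ u.re := by
      rw [← e7]
      exact div_nonneg ((mul_nonneg hc.le hT.le).trans (LL_re_ge hA hX)) (norm_nonneg _)
    have h9 := hB u hu1 hre0
    calc 4 * ((LL A X).re / ‖LL A X‖ * GG A 1 X) - (A 0 * conj u ^ 2).re * GG A 1 X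
        = (4 * u.re - (A 0 * conj u ^ 2).re) * GG A 1 X := by rw [e7]; ring
      _ ≤ _ := mul_le_mul_of_nonneg_right h9 hg
  have e8 : VV A (1 + 1) = VV A 2 := rfl
  push_cast at h
  rw [e8] at h
  nlinarith [h, h4, hre]

end stein_inv

section link

variable {n : ℕ} {z : Fin (n + 1) → ℂ} {x ξ : ℂ}

/-- The coefficients `1 - ξ y_i`, `y = (x, z)`. -/
def AA (z : Fin (n + 1) → ℂ) (x ξ : ℂ) : Fin (n + 2) → ℂ :=
  fun i => 1 - ξ * (Fin.cons x z : Fin (n + 2) → ℂ) i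

theorem AA_zero : AA z x ξ 0 = 1 - ξ * x := by
  unfold AA; rw [Fin.cons_zero]

theorem AA_succ (i : Fin (n + 1)) : AA z x ξ i.succ = 1 - ξ * z i := by
  unfold AA; rw [Fin.cons_succ]

theorem norm_mul_le_one (hz : ∀ i, ‖z i‖ ≤ 1) (hx : ‖x‖ ≤ 1) (i : Fin (n + 2)) :
    ‖ξ * (Fin.cons x z : Fin (n + 2) → ℂ) i‖ ≤ ‖ξ‖ := by
  rw [norm_mul]
  calc ‖ξ‖ * ‖(Fin.cons x z : Fin (n + 2) → ℂ) i‖ ≤ ‖ξ‖ * 1 :=
        mul_le_mul_of_nonneg_left (cons_le hz hx i) (norm_nonneg _)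
    _ = ‖ξ‖ := mul_one _

theorem AA_re (hz : ∀ i, ‖z i‖ ≤ 1) (hx : ‖x‖ ≤ 1) (i : Fin (n + 2)) :
    1 - ‖ξ‖ ≤ (AA z x ξ i).re := by
  unfold AA
  have h1 := norm_mul_le_one (ξ := ξ) hz hx i
  have h2 := Complex.re_le_norm (ξ * (Fin.cons x z : Fin (n + 2) → ℂ) i)
  rw [Complex.sub_re, Complex.one_re]
  linarith

theorem AA_norm (hz : ∀ i, ‖z i‖ ≤ 1) (hx : ‖x‖ ≤ 1) (hξ : ‖ξ‖ ≤ 1) (i : Fin (n + 2)) :
    ‖AA z x ξ i‖ ≤ 2 := by
  unfold AA
  have h1 := norm_mul_le_one (ξ := ξ) hz hx i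
  have h2 := norm_sub_le (1:ℂ) (ξ * (Fin.cons x z : Fin (n + 2) → ℂ) i)
  rw [norm_one] at h2
  linarith

theorem LL_AA {X : Fin (n + 2) → ℝ} (hT : TT X ≠ 0) :
    LL (AA z x ξ) X = (TT X : ℂ) * (1 - ξ * ZZ z x X) := by
  have hT' : (TT X : ℂ) ≠ 0 := Complex.ofReal_ne_zero.2 hT
  unfold LL AA ZZ DD
  have e1 : ∀ i, (X i : ℂ) * (1 - ξ * (Fin.cons x z : Fin (n + 2) → ℂ) i) =
      (X i : ℂ) - ξ * ((X i : ℂ) * (Fin.cons x z : Fin (n + 2) → ℂ) i) := fun i => by ring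
  rw [Finset.sum_congr rfl fun i _ => e1 i, Finset.sum_sub_distrib, ← Finset.mul_sum]
  have e2 : ∑ i, (X i : ℂ) = (TT X : ℂ) := by
    unfold TT; push_cast; rfl
  rw [e2]
  field_simp

/-- The kernel in homogeneous form. -/
theorem kern_hom (j : ℕ) {X : Fin (n + 2) → ℝ} (hT : TT X ≠ 0) :
    (w0 X : ℂ) ^ j * (ξ ^ j / (1 - ξ * ZZ z x X) ^ (j + 1)) =
      ξ ^ j * ((TT X : ℂ) * ((X 0 : ℂ) ^ j / (LL (AA z x ξ) X) ^ (j + 1))) := by
  have hT' : (TT X : ℂ) ≠ 0 := Complex.ofReal_ne_zero.2 hT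
  rw [LL_AA hT]
  unfold w0
  push_cast
  rw [div_pow, mul_pow, pow_succ (TT X : ℂ) j]
  by_cases h : (1 - ξ * ZZ z x X) = 0
  · rw [h]; simp
  · have h' : (1 - ξ * ZZ z x X) ^ (j + 1) ≠ 0 := pow_ne_zero _ h
    have h3 : (TT X : ℂ) ^ j ≠ 0 := pow_ne_zero _ hT'
    field_simp

theorem norm_kern (j : ℕ) {X : Fin (n + 2) → ℝ} (hX : ∀ i, 0 < X i) :
    ‖(w0 X : ℂ) ^ j * (ξ ^ j / (1 - ξ * ZZ z x X) ^ (j + 1))‖ =
      ‖ξ‖ ^ j * (TT X * GG (AA z x ξ) j X) := by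
  have hT : 0 < TT X := TT_pos hX
  rw [kern_hom j hT.ne', norm_mul, norm_mul, norm_div, norm_pow, norm_pow, norm_pow,
    Complex.norm_real, Complex.norm_real, Real.norm_of_nonneg hT.le,
    Real.norm_of_nonneg (hX 0).le]
  unfold GG
  rw [div_eq_mul_inv]

/-- `|K_j(ξ)| ≤ |ξ|^j (n+1) V_j` (`n + 1` nodes). -/
theorem norm_KK_le (hz : ∀ i, ‖z i‖ ≤ 1) (hx : ‖x‖ ≤ 1) (hξ : ‖ξ‖ < 1) (j : ℕ) :
    ‖KK z x j ξ‖ ≤ ‖ξ‖ ^ j * ((n + 1) * VV (AA z x ξ) j) := by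
  have hc : 0 < 1 - ‖ξ‖ := by linarith
  have h1 := int_T_GG hc (AA_re (ξ := ξ) hz hx) (AA_norm hz hx hξ.le) j
  rw [← h1, ← integral_const_mul]
  unfold KK
  refine (norm_integral_le_integral_norm _).trans (le_of_eq ?_)
  refine integral_congr_ae ?_
  filter_upwards [mu_pos (n + 2)] with X hX
  exact norm_kern j hX

/-- `K_0(ξ) = (n+1) E[1/L]` (`n + 1` nodes). -/
theorem KK_zero (hz : ∀ i, ‖z i‖ ≤ 1) (hx : ‖x‖ ≤ 1) (hξ : ‖ξ‖ < 1) :
    KK z x 0 ξ = (n + 1) * ∫ X, (LL (AA z x ξ) X)⁻¹ ∂mu (n + 2) := by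
  have hc : 0 < 1 - ‖ξ‖ := by linarith
  have h1 := int_T_inv hc (AA_re (ξ := ξ) hz hx) (AA_norm hz hx hξ.le)
  rw [← h1]
  unfold KK
  refine integral_congr_ae ?_
  filter_upwards [mu_pos (n + 2)] with X hX
  have hT : 0 < TT X := TT_pos hX
  rw [kern_hom 0 hT.ne']
  simp

end link

end Pool.Agent.HStar
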