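import Pool.Agent.HStar.BPStein
import Pool.Agent.HStar.BPPoint
import Pool.Agent.HStar.Link

set_option autoImplicit false

namespace Pool.Agent.HStar

open MeasureTheory Set Filter Topology Pool.Agent.HHalf ComplexConjugate

/-- `c_{ik} = Re (1 - y_i conj y_k - σ (y_i - y_k))`. -/
noncomputable def cc {n : ℕ} (y : Fin n → ℂ) (σ : ℂ) (i k : Fin n) : ℝ :=
  (1 - y i * conj (y k) - σ * (y i - y k)).re

section point

variable {n : ℕ} {y : Fin (n + 2) → ℂ} {σ ξ : ℂ} {X : Fin (n + 2) → ℝ}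

/-- `S = ∑ X_k y_k`. -/
noncomputable def SS {n : ℕ} (y : Fin n → ℂ) (X : Fin n → ℝ) : ℂ := ∑ k, (X k : ℂ) * y k

theorem sumX : ∑ k, (X k : ℂ) = (TT X : ℂ) := by
  unfold TT; push_cast; rfl

theorem lin_cc (i : Fin (n + 2)) :
    lin (cc y σ i) X = ((TT X : ℂ) - y i * conj (SS y X) - σ * (y i * TT X - SS y X)).re := by
  have e : ((TT X : ℂ) - y i * conj (SS y X) - σ * (y i * TT X - SS y X)) =
      ∑ k, (X k : ℂ) * (1 - y i * conj (y k) - σ * (y i - y k)) := by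
    unfold SS
    rw [← sumX, map_sum]
    simp only [map_mul, Complex.conj_ofReal, mul_sub, Finset.sum_sub_distrib, mul_one,
      Finset.mul_sum]
    congr 1
    · congr 1
      exact Finset.sum_congr rfl fun k _ => by ring
    · congr 1
      · exact Finset.sum_congr rfl fun k _ => by ring
      · exact Finset.sum_congr rfl fun k _ => by ring
  rw [e, Complex.re_sum]
  unfold lin cc
  refine Finset.sum_congr rfl fun k _ => ?_
  rw [Complex.re_ofReal_mul, mul_comm]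

/-- `∑ X_i h_i = T² - |S|²`. -/
theorem sum_X_lin : ∑ i, X i * lin (cc y σ i) X = TT X ^ 2 - ‖SS y X‖ ^ 2 := by
  have e1 : ∑ i, X i * lin (cc y σ i) X =
      (∑ i, (X i : ℂ) * ((TT X : ℂ) - y i * conj (SS y X) - σ * (y i * TT X - SS y X))).re := by
    rw [Complex.re_sum]
    refine Finset.sum_congr rfl fun i _ => ?_
    rw [Complex.re_ofReal_mul, lin_cc]
  have e2 : ∑ i, (X i : ℂ) * ((TT X : ℂ) - y i * conj (SS y X) - σ * (y i * TT X - SS y X)) =
      (TT X : ℂ) * TT X - SS y X * conj (SS y X) := by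
    simp only [mul_sub, Finset.sum_sub_distrib]
    have a1 : ∑ i, (X i : ℂ) * (TT X : ℂ) = TT X * TT X := by
      rw [← Finset.sum_mul, sumX]
    have a2 : ∑ i, (X i : ℂ) * (y i * conj (SS y X)) = SS y X * conj (SS y X) := by
      have : SS y X = ∑ k, (X k : ℂ) * y k := rfl
      conv_rhs => rw [this, Finset.sum_mul]
      exact Finset.sum_congr rfl fun i _ => by rw [← this]; ring
    have a3 : ∑ i, (X i : ℂ) * (σ * (y i * TT X)) = σ * SS y X * TT X := by
      unfold SS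
      rw [Finset.mul_sum, Finset.sum_mul]
      exact Finset.sum_congr rfl fun i _ => by ring
    have a4 : ∑ i, (X i : ℂ) * (σ * SS y X) = σ * SS y X * TT X := by
      rw [← Finset.sum_mul, sumX]; ring
    rw [a1, a2, a3, a4]
    ring
  rw [e1, e2, Complex.mul_conj, Complex.normSq_eq_norm_sq, Complex.sub_re, ← Complex.ofReal_mul,
    Complex.ofReal_re, Complex.ofReal_re]
  ring

/-- `∑ h_i`. -/
theorem sum_lin : ∑ i, lin (cc y σ i) X =
    (n + 2) * TT X - ((∑ i, y i) * conj (SS y X)).re - (σ * ∑ i, y i).re * TT X +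
      (n + 2) * (σ * SS y X).re := by
  have e1 : ∑ i, lin (cc y σ i) X =
      (∑ i, ((TT X : ℂ) - y i * conj (SS y X) - σ * (y i * TT X - SS y X))).re := by
    rw [Complex.re_sum]
    exact Finset.sum_congr rfl fun i _ => lin_cc i
  have e2 : ∑ i, ((TT X : ℂ) - y i * conj (SS y X) - σ * (y i * TT X - SS y X)) =
      (((n + 2 : ℝ) * TT X : ℝ) : ℂ) - (∑ i, y i) * conj (SS y X) -
      (TT X : ℂ) * (σ * ∑ i, y i) + ((n + 2 : ℝ) : ℂ) * (σ * SS y X) := by
    simp only [mul_sub, Finset.sum_sub_distrib]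
    rw [← Finset.sum_mul]
    have a3 : ∑ i, σ * (y i * TT X) = (TT X : ℂ) * (σ * ∑ i, y i) := by
      rw [Finset.mul_sum, Finset.mul_sum]
      exact Finset.sum_congr rfl fun i _ => by ring
    rw [a3]
    simp
    ring
  rw [e1, e2]
  simp only [Complex.add_re, Complex.sub_re, Complex.ofReal_re]
  rw [Complex.re_ofReal_mul, Complex.re_ofReal_mul]
  ring

/-- `∑ X_i (c_ii - c_i0)`. -/
theorem sum_diag (hy : ∀ i, ‖y i‖ ≤ 1) (hX : ∀ i, 0 < X i) :
    -TT X + ((conj (y 0) + σ) * SS y X).re - (σ * y 0).re * TT X + (1 - ‖y 0‖ ^ 2) * X 0 ≤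
    ∑ i, X i * (cc y σ i i - cc y σ i 0) := by
  have e1 : ∀ i, X i * (cc y σ i i - cc y σ i 0) =
      X i * (-‖y i‖ ^ 2) + ((conj (y 0) + σ) * ((X i : ℂ) * y i)).re - (σ * y 0).re * X i := by
    intro i
    have e2 : cc y σ i i - cc y σ i 0 =
        -‖y i‖ ^ 2 + ((conj (y 0) + σ) * y i).re - (σ * y 0).re := by
      unfold cc
      rw [← Complex.sub_re]
      have : (1 - y i * conj (y i) - σ * (y i - y i)) - (1 - y i * conj (y 0) - σ * (y i - y 0)) =
          -((‖y i‖ ^ 2 : ℝ) : ℂ) + (conj (y 0) + σ) * y i - σ * y 0 := by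
        rw [← Complex.normSq_eq_norm_sq, ← Complex.mul_conj]
        ring
      rw [this, Complex.sub_re, Complex.add_re, Complex.neg_re, Complex.ofReal_re]
    have e3 : (conj (y 0) + σ) * ((X i : ℂ) * y i) = (X i : ℂ) * ((conj (y 0) + σ) * y i) := by
      ring
    rw [e2, e3, Complex.re_ofReal_mul]
    ring
  rw [Finset.sum_congr rfl fun i _ => e1 i, Finset.sum_sub_distrib, Finset.sum_add_distrib,
    ← Complex.re_sum, ← Finset.mul_sum, ← Finset.mul_sum]
  have h1 : -TT X + (1 - ‖y 0‖ ^ 2) * X 0 ≤ ∑ i, X i * (-‖y i‖ ^ 2) := by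
    unfold TT
    rw [Fin.sum_univ_succ, Fin.sum_univ_succ (f := fun i => X i * (-‖y i‖ ^ 2))]
    have h2 : -∑ i : Fin (n + 1), X i.succ ≤ ∑ i : Fin (n + 1), X i.succ * (-‖y i.succ‖ ^ 2) := by
      rw [← Finset.sum_neg_distrib]
      refine Finset.sum_le_sum fun i _ => ?_
      have h3 := pow_le_one₀ (n := 2) (norm_nonneg (y i.succ)) (hy i.succ)
      have h4 := (hX i.succ).le
      nlinarith
    nlinarith
  have h5 : (σ * y 0).re * ∑ i, X i = (σ * y 0).re * TT X := rfl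
  have h6 : ((conj (y 0) + σ) * ∑ i, (X i : ℂ) * y i).re = ((conj (y 0) + σ) * SS y X).re := rfl
  rw [h5, h6]
  linarith

theorem LL_SS : LL (fun i => 1 - ξ * y i) X = (TT X : ℂ) - ξ * SS y X := by
  unfold LL SS
  rw [← sumX, Finset.mul_sum, ← Finset.sum_sub_distrib]
  exact Finset.sum_congr rfl fun i _ => by ring

/-- The cross term. -/
theorem sum_cross (hy : ∀ i, ‖y i‖ ≤ 1) (hX : ∀ i, 0 < X i) (hξ : ‖ξ‖ < 1) :
    ∑ i, X i * (2 * lin (cc y σ i) X *
      (((1 - ξ * y i) - (1 - ξ * y 0)) / LL (fun i => 1 - ξ * y i) X).re) ≤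
    2 * (((1 + ‖σ‖ ^ 2) / 4 + ‖y 0 + conj σ / 2‖) * TT X + ((conj (y 0) + σ) * SS y X).re) := by
  have hT : 0 < TT X := TT_pos hX
  have hTc : (TT X : ℂ) ≠ 0 := Complex.ofReal_ne_zero.2 hT.ne'
  set w : Fin (n + 2) → ℝ := fun i => X i / TT X with hw
  set Z : ℂ := SS y X / TT X with hZd
  have hw0 : ∀ i, 0 ≤ w i := fun i => div_nonneg (hX i).le hT.le
  have hw1 : ∑ i, w i = 1 := by
    simp only [hw]
    rw [← Finset.sum_div]
    exact div_self hT.ne'
  have hZ : Z = ∑ i, (w i : ℂ) * y i := by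
    rw [hZd]
    unfold SS
    rw [Finset.sum_div]
    refine Finset.sum_congr rfl fun i _ => ?_
    simp only [hw]
    push_cast
    ring
  have hZ1 : ‖Z‖ ≤ 1 := by
    rw [hZ]
    refine (norm_sum_le _ _).trans ?_
    rw [← hw1]
    refine Finset.sum_le_sum fun i _ => ?_
    rw [norm_mul, Complex.norm_real, Real.norm_of_nonneg (hw0 i)]
    calc w i * ‖y i‖ ≤ w i * 1 := mul_le_mul_of_nonneg_left (hy i) (hw0 i)
      _ = w i := mul_one _
  have h0 : 1 - ξ * Z ≠ 0 := by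
    intro h
    have h1 : ξ * Z = 1 := (sub_eq_zero.1 h).symm
    have h2 : ‖ξ * Z‖ = 1 := by rw [h1, norm_one]
    rw [norm_mul] at h2
    nlinarith [norm_nonneg ξ, norm_nonneg Z]
  set β : ℂ := ξ / (1 - ξ * Z) with hβ
  have hk := bp_key (Z := Z) hξ.le h0 hβ
  have hq := bp_quad hZ1 hk σ (y 0)
  have hc := bp_cov hw0 hw1 hy hZ (σ + conj Z) β (y 0)
  have hfin := hc.trans hq
  have hS : SS y X = TT X * Z := by rw [hZd]; field_simp
  have hL : LL (fun i => 1 - ξ * y i) X = (TT X : ℂ) * (1 - ξ * Z) := by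
    rw [LL_SS, hS]; ring
  have e1 : ∀ i, X i * (2 * lin (cc y σ i) X *
      (((1 - ξ * y i) - (1 - ξ * y 0)) / LL (fun i => 1 - ξ * y i) X).re) =
      2 * TT X * (w i * ((1 - ‖Z‖ ^ 2 - ((σ + conj Z) * (y i - Z)).re) *
        (β * (y 0 - y i)).re)) := by
    intro i
    have a1 : lin (cc y σ i) X = TT X * (1 - ‖Z‖ ^ 2 - ((σ + conj Z) * (y i - Z)).re) := by
      rw [lin_cc, hS]
      have a2 : ((TT X : ℂ) - y i * conj ((TT X : ℂ) * Z) - σ * (y i * TT X - TT X * Z)) =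
          (TT X : ℂ) * (1 - Z * conj Z - (σ + conj Z) * (y i - Z)) := by
        rw [map_mul, Complex.conj_ofReal]
        ring
      rw [a2, Complex.re_ofReal_mul, Complex.mul_conj, Complex.normSq_eq_norm_sq, Complex.sub_re,
        Complex.sub_re, Complex.one_re, Complex.ofReal_re]
    have a3 : (((1 - ξ * y i) - (1 - ξ * y 0)) / LL (fun i => 1 - ξ * y i) X).re =
        (β * (y 0 - y i)).re / TT X := by
      have : ((1 - ξ * y i) - (1 - ξ * y 0)) / LL (fun i => 1 - ξ * y i) X =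
          (β * (y 0 - y i)) / (TT X : ℂ) := by
        rw [hL, hβ]
        field_simp
        ring
      rw [this, Complex.div_ofReal_re]
    have a4 : X i = TT X * w i := by simp only [hw]; field_simp
    rw [a1, a3]
    conv_lhs => rw [a4]
    field_simp
  rw [Finset.sum_congr rfl fun i _ => e1 i, ← Finset.mul_sum]
  have e2 : ((conj (y 0) + σ) * SS y X).re = TT X * ((conj (y 0) + σ) * Z).re := by
    have : (conj (y 0) + σ) * SS y X = (TT X : ℂ) * ((conj (y 0) + σ) * Z) := by rw [hS]; ring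
    rw [this, Complex.re_ofReal_mul]
  rw [e2]
  have := mul_le_mul_of_nonneg_left hfin (by positivity : 0 ≤ 2 * TT X)
  linarith

/-- The pointwise lower bound, `σ = conj (∑ y_i + y_0) / (n + 1)`. -/
theorem bp_point (hy : ∀ i, ‖y i‖ ≤ 1) (hX : ∀ i, 0 < X i) (hξ : ‖ξ‖ < 1)
    (hσ : (n + 1) * σ = conj (∑ i, y i + y 0)) :
    ((n + 1) * (1 - ‖σ‖ ^ 2) - (1 + ‖σ‖ ^ 2) / 2 - 2 * ‖y 0 + conj σ / 2‖) * TT X +
      (1 - ‖y 0‖ ^ 2) * X 0 ≤
    ∑ i, (lin (cc y σ i) X + X i * (cc y σ i i - cc y σ i 0 - 2 * lin (cc y σ i) X *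
      (((1 - ξ * y i) - (1 - ξ * y 0)) / LL (fun i => 1 - ξ * y i) X).re)) := by
  have h1 := sum_lin (y := y) (σ := σ) (X := X)
  have h2 := sum_diag (y := y) (σ := σ) hy hX
  have h3 := sum_cross (y := y) (σ := σ) hy hX hξ
  have e1 : ∑ i, (lin (cc y σ i) X + X i * (cc y σ i i - cc y σ i 0 - 2 * lin (cc y σ i) X *
      (((1 - ξ * y i) - (1 - ξ * y 0)) / LL (fun i => 1 - ξ * y i) X).re)) =
      ∑ i, lin (cc y σ i) X + ∑ i, X i * (cc y σ i i - cc y σ i 0) -
      ∑ i, X i * (2 * lin (cc y σ i) X *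
      (((1 - ξ * y i) - (1 - ξ * y 0)) / LL (fun i => 1 - ξ * y i) X).re) := by
    rw [← Finset.sum_add_distrib, ← Finset.sum_sub_distrib]
    exact Finset.sum_congr rfl fun i _ => by ring
  rw [e1, h1]
  -- the mean
  have e2 : (σ * ∑ i, y i).re + (σ * y 0).re = (n + 1) * ‖σ‖ ^ 2 := by
    rw [← Complex.add_re, ← mul_add]
    have : ∑ i, y i + y 0 = conj ((n + 1) * σ) := by rw [hσ, Complex.conj_conj]
    rw [this, map_mul]
    have h4 : conj ((n:ℂ) + 1) = (n:ℂ) + 1 := by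
      rw [map_add, Complex.conj_natCast, map_one]
    rw [h4]
    have h5 : σ * (((n:ℂ) + 1) * conj σ) = (((n + 1 : ℝ) * ‖σ‖ ^ 2 : ℝ) : ℂ) := by
      push_cast
      rw [← Complex.ofReal_pow, ← Complex.normSq_eq_norm_sq, ← Complex.mul_conj]
      ring
    rw [h5, Complex.ofReal_re]
  have e3 : ((∑ i, y i) * conj (SS y X)).re + (conj (y 0) * SS y X).re =
      (n + 1) * (σ * SS y X).re := by
    have a1 : ((∑ i, y i) * conj (SS y X)).re = (conj (∑ i, y i) * SS y X).re := by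
      rw [← Complex.conj_re ((∑ i, y i) * conj (SS y X)), map_mul, Complex.conj_conj]
    rw [a1, ← Complex.add_re, ← add_mul, ← map_add, ← hσ]
    have : ((n:ℂ) + 1) * σ * SS y X = ((n + 1 : ℝ) : ℂ) * (σ * SS y X) := by push_cast; ring
    rw [this, Complex.re_ofReal_mul]
  have e4 : ((conj (y 0) + σ) * SS y X).re = (conj (y 0) * SS y X).re + (σ * SS y X).re := by
    rw [add_mul, Complex.add_re]
  rw [e4] at h2 h3
  have hT : 0 < TT X := TT_pos hX
  have e5 : (σ * ∑ i, y i).re * TT X + (σ * y 0).re * TT X = (n + 1) * ‖σ‖ ^ 2 * TT X := by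
    rw [← add_mul, e2]
  nlinarith [h1, h2, h3, e3, e5]

end point

section main

variable {n : ℕ} {y : Fin (n + 2) → ℂ} {σ ξ : ℂ}

/-- THE BY-PARTS INEQUALITY in homogeneous form. -/
theorem bp_hom (hy : ∀ i, ‖y i‖ ≤ 1) (hξ : ‖ξ‖ < 1)
    (hσ : (n + 1) * σ = conj (∑ i, y i + y 0)) :
    ((n + 1) * (1 - ‖σ‖ ^ 2) - (1 + ‖σ‖ ^ 2) / 2 - 2 * ‖y 0 + conj σ / 2‖) *
      ((n + 1) * VV (fun i => 1 - ξ * y i) 1) +
      (1 - ‖y 0‖ ^ 2) * ∫ X, X 0 * GG (fun i => 1 - ξ * y i) 1 X ∂mu (n + 2) ≤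
    ∫ X, (TT X ^ 2 - ‖SS y X‖ ^ 2) * g2 (fun i => 1 - ξ * y i) X ∂mu (n + 2) := by
  set A : Fin (n + 2) → ℂ := fun i => 1 - ξ * y i with hAd
  have hc : 0 < 1 - ‖ξ‖ := by linarith
  have hξy : ∀ i, ‖ξ * y i‖ ≤ ‖ξ‖ := by
    intro i
    rw [norm_mul]
    calc ‖ξ‖ * ‖y i‖ ≤ ‖ξ‖ * 1 := mul_le_mul_of_nonneg_left (hy i) (norm_nonneg _)
      _ = ‖ξ‖ := mul_one _
  have hA : ∀ i, 1 - ‖ξ‖ ≤ (A i).re := by
    intro i
    simp only [hAd]
    have h2 := Complex.re_le_norm (ξ * y i)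
    have := hξy i
    rw [Complex.sub_re, Complex.one_re]
    linarith
  have ha : ∀ i, ‖A i‖ ≤ 2 := by
    intro i
    simp only [hAd]
    have h2 := norm_sub_le (1:ℂ) (ξ * y i)
    have := hξy i
    rw [norm_one] at h2
    linarith
  have hid := fun i => stein_diff hc hA ha i (cc y σ i)
  -- left side: sum of X_i h_i g
  have e1 : ∫ X, (TT X ^ 2 - ‖SS y X‖ ^ 2) * g2 A X ∂mu (n + 2) =
      ∑ i, ∫ X, X i * (lin (cc y σ i) X * g2 A X) ∂mu (n + 2) := by
    rw [← integral_finsetSum _ fun i _ => int_Xlin hc hA i _]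
    congr 1
    funext X
    rw [← sum_X_lin (σ := σ), Finset.sum_mul]
    exact Finset.sum_congr rfl fun i _ => by ring
  rw [e1, Finset.sum_congr rfl fun i _ => hid i, Finset.sum_add_distrib]
  -- integrability
  have j1 : ∀ i, Integrable (fun X : Fin (n + 2) → ℝ => X 0 * (lin (cc y σ i) X * g2 A X))
      (mu (n + 2)) := fun i => int_Xlin hc hA 0 _
  have hmf : ∀ i, Measurable (fun X : Fin (n + 2) → ℝ => cc y σ i i - cc y σ i 0 -
      2 * lin (cc y σ i) X * ((A i - A 0) / LL A X).re) := fun i =>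
    measurable_const.sub (((meas_lin _).const_mul 2).mul
      (Complex.measurable_re.comp (measurable_const.div (measurable_LL A))))
  have hbf : ∀ i, ∀ X : Fin (n + 2) → ℝ, (∀ i, 0 < X i) →
      |cc y σ i i - cc y σ i 0 - 2 * lin (cc y σ i) X * ((A i - A 0) / LL A X).re| ≤
      (|cc y σ i i| + 2 * (∑ k, |cc y σ i k|) * (2 / (1 - ‖ξ‖))) +
      (|cc y σ i 0| + 2 * (∑ k, |cc y σ i k|) * (2 / (1 - ‖ξ‖))) := by
    intro i X hX
    have b1 := bd_fac hc hA ha i (cc y σ i) (cc y σ i i) X hX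
    have b2 := bd_fac hc hA ha 0 (cc y σ i) (cc y σ i 0) X hX
    have : cc y σ i i - cc y σ i 0 - 2 * lin (cc y σ i) X * ((A i - A 0) / LL A X).re =
        (cc y σ i i - 2 * lin (cc y σ i) X * (A i / LL A X).re) -
        (cc y σ i 0 - 2 * lin (cc y σ i) X * (A 0 / LL A X).re) := by
      rw [sub_div, Complex.sub_re]
      ring
    rw [this]
    exact (abs_sub _ _).trans (add_le_add b1 b2)
  have j2 : ∀ i, Integrable (fun X : Fin (n + 2) → ℝ => X 0 * (X i * ((cc y σ i i - cc y σ i 0 -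
      2 * lin (cc y σ i) X * ((A i - A 0) / LL A X).re) * g2 A X))) (mu (n + 2)) := fun i =>
    int_XXb hc hA 0 i (hmf i) (hbf i)
  rw [← integral_finsetSum _ fun i _ => j1 i, ← integral_finsetSum _ fun i _ => j2 i,
    ← integral_add (integrable_finsetSum _ fun i _ => j1 i) (integrable_finsetSum _ fun i _ => j2 i)]
  -- left side
  have i1 : Integrable (fun X : Fin (n + 2) → ℝ => TT X * GG A 1 X) (mu (n + 2)) := by
    have e2 : (fun X : Fin (n + 2) → ℝ => TT X * GG A 1 X) = fun X => ∑ i, X i * GG A 1 X := by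
      funext X
      unfold TT
      rw [Finset.sum_mul]
    rw [e2]
    exact integrable_finsetSum _ fun i _ => int_XGG hc hA i 1
  have i2 := int_XGG hc hA (A := A) 0 1
  rw [← int_T_GG hc hA ha 1, ← integral_const_mul, ← integral_const_mul,
    ← integral_add (i1.const_mul _) (i2.const_mul _)]
  refine integral_mono_ae ((i1.const_mul _).add (i2.const_mul _))
    ((integrable_finsetSum _ fun i _ => j1 i).add (integrable_finsetSum _ fun i _ => j2 i)) ?_
  filter_upwards [mu_pos (n + 2)] with X hX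
  have hp := bp_point (y := y) (σ := σ) hy hX hξ hσ
  have hgg : GG A 1 X = X 0 * g2 A X := by
    unfold GG g2
    simp
  have hnn : 0 ≤ X 0 * g2 A X := mul_nonneg (hX 0).le (g2_nonneg X)
  have h5 := mul_le_mul_of_nonneg_right hp hnn
  show _ * (TT X * GG A 1 X) + _ * (X 0 * GG A 1 X) ≤
    ∑ i, X 0 * (lin (cc y σ i) X * g2 A X) + ∑ i, X 0 * (X i * ((cc y σ i i - cc y σ i 0 -
      2 * lin (cc y σ i) X * ((A i - A 0) / LL A X).re) * g2 A X))
  rw [hgg]
  refine le_trans (le_of_eq ?_) (h5.trans (le_of_eq ?_))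
  · ring
  · rw [← Finset.sum_add_distrib, Finset.sum_mul]
    refine Finset.sum_congr rfl fun i _ => ?_
    simp only [hAd]
    ring

end main

end Pool.Agent.HStar
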