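import Pool.Agent.HStar.Moments

set_option autoImplicit false

namespace Pool.Agent.HStar

open MeasureTheory Set Filter Topology Pool.Agent.HHalf ComplexConjugate

/-- Stein's identity in one coordinate for bounded functions. -/
theorem steinB {n : ℕ} (i : Fin (n + 2)) {G G' : (Fin (n + 2) → ℝ) → ℂ} {C C' : ℝ} (hC : 0 ≤ C)
    (hC' : 0 ≤ C')
    (hm : AEStronglyMeasurable G (mu (n + 2))) (hm' : AEStronglyMeasurable G' (mu (n + 2)))
    (hb : ∀ X, (∀ i, 0 < X i) → ‖G X‖ ≤ C)
    (hb' : ∀ X, (∀ i, 0 < X i) → ‖(X i : ℂ) * G' X‖ ≤ C')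
    (hd : ∀ y : Fin (n + 1) → ℝ, (∀ j, 0 < y j) → ∀ x, 0 < x →
      HasDerivAt (fun x => G (ins i x y)) (G' (ins i x y)) x) :
    ∫ X, (X i : ℂ) * G X ∂mu (n + 2) = ∫ X, G X ∂mu (n + 2) +
      ∫ X, (X i : ℂ) * G' X ∂mu (n + 2) := by
  have hXm : AEStronglyMeasurable (fun X : Fin (n + 2) → ℝ => (X i : ℂ)) (mu (n + 2)) :=
    (Complex.measurable_ofReal.comp (measurable_pi_apply i)).aestronglyMeasurable
  have i1 : Integrable G (mu (n + 2)) := integrable_of_bd (A := C) hm fun X hX => by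
    have hT : 0 < TT X := TT_pos hX
    have := hb X hX
    nlinarith [mul_nonneg hC hT.le]
  have i2 : Integrable (fun X : Fin (n + 2) → ℝ => (X i : ℂ) * G' X) (mu (n + 2)) :=
    integrable_of_bd (A := C') (hXm.mul hm') fun X hX => by
    have hT : 0 < TT X := TT_pos hX
    have := hb' X hX
    nlinarith [mul_nonneg hC' hT.le]
  have hbX : ∀ X : Fin (n + 2) → ℝ, (∀ i, 0 < X i) → ‖(X i : ℂ) * G X‖ ≤ C * (1 + TT X) := by
    intro X hX
    have hT : 0 < TT X := TT_pos hX
    rw [norm_mul, Complex.norm_real, Real.norm_of_nonneg (hX i).le]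
    have h1 := hb X hX
    have h2 := coord_le_TT hX i
    calc X i * ‖G X‖ ≤ TT X * C := mul_le_mul h2 h1 (norm_nonneg _) hT.le
      _ ≤ C * (1 + TT X) := by nlinarith
  have hmain := ibp' i (f := fun X => (X i : ℂ) * G X) (f' := fun X => G X + (X i : ℂ) * G' X)
    (f0 := fun _ => 0) hC (hXm.mul hm) (i1.add i2) hbX ?_ ?_
  · rw [hmain, integral_zero, zero_add, integral_add i1 i2]
  · intro y hy x hx
    have h1 : HasDerivAt (fun x : ℝ => ((x : ℝ) : ℂ)) 1 x := by
      simpa using (hasDerivAt_id x).ofReal_comp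
    have h2 := h1.mul (hd y hy x hx)
    have e : (fun x : ℝ => (((ins i x y) i : ℝ) : ℂ) * G (ins i x y)) =
        (fun x : ℝ => ((x : ℝ) : ℂ)) * fun x : ℝ => G (ins i x y) := by
      funext t
      simp only [Pi.mul_apply, ins_same]
    show HasDerivAt (fun x : ℝ => (((ins i x y) i : ℝ) : ℂ) * G (ins i x y)) _ x
    rw [e]
    refine h2.congr_deriv ?_
    simp only [ins_same]
    ring
  · intro y hy
    rw [tendsto_zero_iff_norm_tendsto_zero]
    have hlim : Tendsto (fun x : ℝ => x * C) (𝓝[>] 0) (𝓝 0) := by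
      have : Tendsto (fun x : ℝ => x * C) (𝓝 0) (𝓝 (0 * C)) :=
        (continuous_id.mul continuous_const).tendsto 0
      rw [zero_mul] at this
      exact this.mono_left nhdsWithin_le_nhds
    refine squeeze_zero' (Eventually.of_forall fun _ => norm_nonneg _) ?_ hlim
    filter_upwards [self_mem_nhdsWithin] with x hx
    have hx' : (0 : ℝ) < x := hx
    have hp := ins_pos i hx' hy
    have h1 := hb _ hp
    rw [norm_mul, ins_same, Complex.norm_real, Real.norm_of_nonneg hx'.le]
    exact mul_le_mul_of_nonneg_left h1 hx'.le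

/-- A real linear form. -/
noncomputable def lin {n : ℕ} (c X : Fin n → ℝ) : ℝ := ∑ k, c k * X k

theorem meas_lin {n : ℕ} (c : Fin n → ℝ) : Measurable (fun X : Fin n → ℝ => lin c X) := by
  unfold lin
  exact Finset.measurable_sum _ fun k _ => (measurable_pi_apply k).const_mul _

theorem abs_lin_le {n : ℕ} (c : Fin n → ℝ) {X : Fin n → ℝ} (hX : ∀ i, 0 < X i) :
    |lin c X| ≤ (∑ k, |c k|) * TT X := by
  unfold lin
  refine (Finset.abs_sum_le_sum_abs _ _).trans ?_
  rw [Finset.sum_mul]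
  refine Finset.sum_le_sum fun k _ => ?_
  rw [abs_mul, abs_of_pos (hX k)]
  refine mul_le_mul_of_nonneg_left ?_ (abs_nonneg _)
  unfold TT
  exact Finset.single_le_sum (fun i _ => (hX i).le) (Finset.mem_univ k)

theorem lin_ins {n : ℕ} (c : Fin (n + 1) → ℝ) (i : Fin (n + 1)) (x : ℝ) (y : Fin n → ℝ) :
    lin c (ins i x y) = c i * x + ∑ j, c (i.succAbove j) * y j := by
  unfold lin
  rw [Fin.sum_univ_succAbove _ i, ins_same]
  congr 1
  exact Finset.sum_congr rfl fun j _ => by rw [ins_succAbove]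

theorem hasDerivAt_lin {n : ℕ} (c : Fin (n + 1) → ℝ) (i : Fin (n + 1)) (y : Fin n → ℝ) (x : ℝ) :
    HasDerivAt (fun x : ℝ => lin c (ins i x y)) (c i) x := by
  have e : (fun x : ℝ => lin c (ins i x y)) =
      fun x : ℝ => c i * x + ∑ j, c (i.succAbove j) * y j := by
    funext t; exact lin_ins c i t y
  rw [e]
  simpa using ((hasDerivAt_id x).const_mul (c i)).add_const (∑ j, c (i.succAbove j) * y j)

/-- `|L|^{-2}`. -/
noncomputable def g2 {n : ℕ} (A : Fin n → ℂ) (X : Fin n → ℝ) : ℝ := (‖LL A X‖ ^ 2)⁻¹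

section

variable {n : ℕ} {A : Fin (n + 2) → ℂ} {c a : ℝ}

theorem meas_g2 : Measurable (fun X : Fin (n + 2) → ℝ => g2 A X) := by
  unfold g2
  exact ((measurable_LL A).norm.pow_const 2).inv

theorem g2_nonneg (X : Fin (n + 2) → ℝ) : 0 ≤ g2 A X := by
  unfold g2; positivity

theorem g2_le (hc : 0 < c) (hA : ∀ i, c ≤ (A i).re) {X : Fin (n + 2) → ℝ}
    (hX : ∀ i, 0 < X i) : g2 A X ≤ (c ^ 2)⁻¹ * (TT X ^ 2)⁻¹ := by
  have hT : 0 < TT X := TT_pos hX
  have h1 := norm_LL_ge hA hX
  unfold g2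
  rw [← mul_inv, ← mul_pow]
  exact inv_anti₀ (by positivity) (pow_le_pow_left₀ (by positivity) h1 2)

theorem frac_le' (hc : 0 < c) (hA : ∀ i, c ≤ (A i).re) (ha : ∀ i, ‖A i‖ ≤ a)
    {X : Fin (n + 2) → ℝ} (hX : ∀ i, 0 < X i) (i : Fin (n + 2)) :
    |(A i / LL A X).re| ≤ a / c * (TT X)⁻¹ := by
  have hT : 0 < TT X := TT_pos hX
  have h1 := norm_LL_ge hA hX
  have ha0 : 0 ≤ a := (norm_nonneg _).trans (ha i)
  refine (Complex.abs_re_le_norm _).trans ?_
  rw [norm_div]
  calc ‖A i‖ / ‖LL A X‖ ≤ a / (c * TT X) := by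
        apply div_le_div₀ ha0 (ha i) (by positivity) h1
    _ = _ := by field_simp

/-- Stein's identity for `X_b h |L|^{-2}`, `h` a linear form, `j ≠ b`. -/
theorem stein_lin (hc : 0 < c) (hA : ∀ i, c ≤ (A i).re) (ha : ∀ i, ‖A i‖ ≤ a)
    {j b : Fin (n + 2)} (hjb : j ≠ b) (d : Fin (n + 2) → ℝ) :
    ∫ X, X j * (X b * (lin d X * g2 A X)) ∂mu (n + 2) =
      ∫ X, X b * (lin d X * g2 A X) ∂mu (n + 2) +
      ∫ X, X j * (X b * ((d j - 2 * lin d X * (A j / LL A X).re) * g2 A X)) ∂mu (n + 2) := by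
  set C := ∑ k, |d k| with hCd
  have hC : 0 ≤ C := Finset.sum_nonneg fun _ _ => abs_nonneg _
  have ha0 : 0 ≤ a := (norm_nonneg _).trans (ha 0)
  have hfm : Measurable (fun X : Fin (n + 2) → ℝ => (A j / LL A X).re) :=
    Complex.measurable_re.comp (measurable_const.div (measurable_LL A))
  have hm1 : Measurable (fun X : Fin (n + 2) → ℝ => X b * (lin d X * g2 A X)) :=
    (measurable_pi_apply b).mul ((meas_lin d).mul meas_g2)
  have hm2 : Measurable (fun X : Fin (n + 2) → ℝ =>
      X b * ((d j - 2 * lin d X * (A j / LL A X).re) * g2 A X)) :=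
    (measurable_pi_apply b).mul ((measurable_const.sub
      (((meas_lin d).const_mul 2).mul hfm)).mul meas_g2)
  have hst := steinB j (G := fun X => ((X b * (lin d X * g2 A X) : ℝ) : ℂ))
    (G' := fun X => ((X b * ((d j - 2 * lin d X * (A j / LL A X).re) * g2 A X) : ℝ) : ℂ))
    (C := C * (c ^ 2)⁻¹) (C' := (C + 2 * C * (a / c)) * (c ^ 2)⁻¹) (by positivity) (by positivity)
    (Complex.measurable_ofReal.comp hm1).aestronglyMeasurable
    (Complex.measurable_ofReal.comp hm2).aestronglyMeasurable (by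
      intro X hX
      have hT : 0 < TT X := TT_pos hX
      rw [Complex.norm_real, Real.norm_eq_abs, abs_mul, abs_mul, abs_of_pos (hX b),
        abs_of_nonneg (g2_nonneg X)]
      calc X b * (|lin d X| * g2 A X) ≤ TT X * ((C * TT X) * ((c ^ 2)⁻¹ * (TT X ^ 2)⁻¹)) := by
            apply mul_le_mul (coord_le_TT hX b) _ (mul_nonneg (abs_nonneg _) (g2_nonneg X)) hT.le
            exact mul_le_mul (abs_lin_le d hX) (g2_le hc hA hX) (g2_nonneg X) (by positivity)
        _ = _ := by field_simp) (by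
      intro X hX
      have hT : 0 < TT X := TT_pos hX
      rw [← Complex.ofReal_mul, Complex.norm_real, Real.norm_eq_abs, abs_mul, abs_mul, abs_mul,
        abs_of_pos (hX b), abs_of_pos (hX j), abs_of_nonneg (g2_nonneg X)]
      have h1 : |d j - 2 * lin d X * (A j / LL A X).re| ≤ C + 2 * C * (a / c) := by
        refine (abs_sub _ _).trans (add_le_add ?_ ?_)
        · exact Finset.single_le_sum (f := fun k => |d k|) (fun _ _ => abs_nonneg _)
            (Finset.mem_univ j)
        · rw [abs_mul, abs_mul, abs_two]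
          calc 2 * |lin d X| * |(A j / LL A X).re|
              ≤ 2 * (C * TT X) * (a / c * (TT X)⁻¹) := by
                apply mul_le_mul _ (frac_le' hc hA ha hX j) (abs_nonneg _) (by positivity)
                exact mul_le_mul_of_nonneg_left (abs_lin_le d hX) (by norm_num)
            _ = _ := by field_simp
      calc X j * (X b * (|d j - 2 * lin d X * (A j / LL A X).re| * g2 A X))
          ≤ TT X * (TT X * ((C + 2 * C * (a / c)) * ((c ^ 2)⁻¹ * (TT X ^ 2)⁻¹))) := by
            apply mul_le_mul (coord_le_TT hX j) _ _ hT.le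
            · apply mul_le_mul (coord_le_TT hX b) _ _ hT.le
              · exact mul_le_mul h1 (g2_le hc hA hX) (g2_nonneg X) (by positivity)
              · exact mul_nonneg (abs_nonneg _) (g2_nonneg X)
            · exact mul_nonneg (hX b).le (mul_nonneg (abs_nonneg _) (g2_nonneg X))
        _ = _ := by field_simp) (by
      intro y hy x hx
      have hp := ins_pos j hx hy
      have hL := LL_ne hc hA hp
      have h1 := hasDerivAt_norm_inv (hasDerivAt_LL A j y x) hL 2
      have h2 := (hasDerivAt_lin d j y x).mul h1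
      obtain ⟨l, hl⟩ := Fin.exists_succAbove_eq (Ne.symm hjb)
      have hb : ∀ t : ℝ, (ins j t y) b = y l := by
        intro t
        rw [← hl, ins_succAbove]
      have h3 := h2.const_mul (y l)
      have h4 : HasDerivAt (fun x : ℝ => (ins j x y) b * (lin d (ins j x y) * g2 A (ins j x y)))
          ((ins j x y) b * ((d j - 2 * lin d (ins j x y) * (A j / LL A (ins j x y)).re) *
            g2 A (ins j x y))) x := by
        have e : (fun x : ℝ => (ins j x y) b * (lin d (ins j x y) * g2 A (ins j x y))) =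
            fun x : ℝ => y l * ((fun x => lin d (ins j x y)) *
              fun x => (‖LL A (ins j x y)‖ ^ 2)⁻¹) x := by
          funext t
          simp only [Pi.mul_apply, hb, g2]
        rw [e]
        refine h3.congr_deriv ?_
        rw [hb, g2]
        push_cast
        ring
      exact h4.ofReal_comp)
  have e1 : ∫ X, (X j : ℂ) * ((X b * (lin d X * g2 A X) : ℝ) : ℂ) ∂mu (n + 2) =
      ((∫ X, X j * (X b * (lin d X * g2 A X)) ∂mu (n + 2) : ℝ) : ℂ) := by
    rw [← integral_complex_ofReal]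
    congr 1
    funext X
    push_cast
    ring
  have e2 : ∫ X, (X j : ℂ) * ((X b * ((d j - 2 * lin d X * (A j / LL A X).re) * g2 A X) : ℝ) : ℂ)
      ∂mu (n + 2) =
      ((∫ X, X j * (X b * ((d j - 2 * lin d X * (A j / LL A X).re) * g2 A X)) ∂mu (n + 2) : ℝ) :
        ℂ) := by
    rw [← integral_complex_ofReal]
    congr 1
    funext X
    push_cast
    ring
  rw [e1, e2, integral_complex_ofReal, ← Complex.ofReal_add] at hst
  exact Complex.ofReal_injective hst

/-- Integrability of `X_0 · X_i · (bounded) · |L|^{-2}`. -/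
theorem int_XXb (hc : 0 < c) (hA : ∀ i, c ≤ (A i).re) (j b : Fin (n + 2))
    {f : (Fin (n + 2) → ℝ) → ℝ} {B : ℝ} (hf : Measurable f)
    (hb : ∀ X, (∀ i, 0 < X i) → |f X| ≤ B) :
    Integrable (fun X : Fin (n + 2) → ℝ => X j * (X b * (f X * g2 A X))) (mu (n + 2)) := by
  refine Integrable.mono' (integrable_const (B * (c ^ 2)⁻¹))
    ((measurable_pi_apply j).mul ((measurable_pi_apply b).mul
      (hf.mul meas_g2))).aestronglyMeasurable ?_
  filter_upwards [mu_pos (n + 2)] with X hX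
  have hT : 0 < TT X := TT_pos hX
  have hB : 0 ≤ B := (abs_nonneg _).trans (hb X hX)
  rw [Real.norm_eq_abs, abs_mul, abs_mul, abs_mul, abs_of_pos (hX b), abs_of_pos (hX j),
    abs_of_nonneg (g2_nonneg X)]
  calc X j * (X b * (|f X| * g2 A X))
      ≤ TT X * (TT X * (B * ((c ^ 2)⁻¹ * (TT X ^ 2)⁻¹))) := by
        apply mul_le_mul (coord_le_TT hX j) _ _ hT.le
        · apply mul_le_mul (coord_le_TT hX b) _ _ hT.le
          · exact mul_le_mul (hb X hX) (g2_le hc hA hX) (g2_nonneg X) hB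
          · exact mul_nonneg (abs_nonneg _) (g2_nonneg X)
        · exact mul_nonneg (hX b).le (mul_nonneg (abs_nonneg _) (g2_nonneg X))
    _ = _ := by field_simp

/-- Integrability of `X_i · h · |L|^{-2}`, `h` a linear form. -/
theorem int_Xlin (hc : 0 < c) (hA : ∀ i, c ≤ (A i).re) (j : Fin (n + 2)) (d : Fin (n + 2) → ℝ) :
    Integrable (fun X : Fin (n + 2) → ℝ => X j * (lin d X * g2 A X)) (mu (n + 2)) := by
  have e : (fun X : Fin (n + 2) → ℝ => X j * (lin d X * g2 A X)) =
      fun X => ∑ k, X j * (X k * (d k * g2 A X)) := by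
    funext X
    unfold lin
    rw [Finset.sum_mul, Finset.mul_sum]
    exact Finset.sum_congr rfl fun k _ => by ring
  rw [e]
  exact integrable_finsetSum _ fun k _ =>
    int_XXb hc hA j k measurable_const (B := |d k|) fun _ _ => le_rfl

theorem bd_fac (hc : 0 < c) (hA : ∀ i, c ≤ (A i).re) (ha : ∀ i, ‖A i‖ ≤ a)
    (i : Fin (n + 2)) (d : Fin (n + 2) → ℝ) (e : ℝ) :
    ∀ X : Fin (n + 2) → ℝ, (∀ i, 0 < X i) →
      |e - 2 * lin d X * (A i / LL A X).re| ≤ |e| + 2 * (∑ k, |d k|) * (a / c) := by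
  intro X hX
  have hT : 0 < TT X := TT_pos hX
  have hC : 0 ≤ ∑ k, |d k| := Finset.sum_nonneg fun _ _ => abs_nonneg _
  have ha0 : 0 ≤ a := (norm_nonneg _).trans (ha 0)
  refine (abs_sub _ _).trans (add_le_add le_rfl ?_)
  rw [abs_mul, abs_mul, abs_two]
  calc 2 * |lin d X| * |(A i / LL A X).re|
      ≤ 2 * ((∑ k, |d k|) * TT X) * (a / c * (TT X)⁻¹) := by
        apply mul_le_mul _ (frac_le' hc hA ha hX i) (abs_nonneg _) (by positivity)
        exact mul_le_mul_of_nonneg_left (abs_lin_le d hX) (by norm_num)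
    _ = _ := by field_simp

theorem meas_fac (i : Fin (n + 2)) (d : Fin (n + 2) → ℝ) (e : ℝ) :
    Measurable (fun X : Fin (n + 2) → ℝ => e - 2 * lin d X * (A i / LL A X).re) :=
  measurable_const.sub (((meas_lin d).const_mul 2).mul
    (Complex.measurable_re.comp (measurable_const.div (measurable_LL A))))

/-- The difference identity. -/
theorem stein_diff (hc : 0 < c) (hA : ∀ i, c ≤ (A i).re) (ha : ∀ i, ‖A i‖ ≤ a)
    (i : Fin (n + 2)) (d : Fin (n + 2) → ℝ) :
    ∫ X, X i * (lin d X * g2 A X) ∂mu (n + 2) =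
      ∫ X, X 0 * (lin d X * g2 A X) ∂mu (n + 2) +
      ∫ X, X 0 * (X i * ((d i - d 0 - 2 * lin d X * ((A i - A 0) / LL A X).re) * g2 A X))
        ∂mu (n + 2) := by
  by_cases hi : i = 0
  · subst hi
    simp
  have h1 := stein_lin hc hA ha (j := 0) (b := i) (Ne.symm hi) d
  have h2 := stein_lin hc hA ha (j := i) (b := 0) hi d
  have e1 : ∫ X, X i * (X 0 * (lin d X * g2 A X)) ∂mu (n + 2) =
      ∫ X, X 0 * (X i * (lin d X * g2 A X)) ∂mu (n + 2) := by
    congr 1; funext X; ring
  have e2 : ∫ X, X i * (X 0 * ((d i - 2 * lin d X * (A i / LL A X).re) * g2 A X)) ∂mu (n + 2) =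
      ∫ X, X 0 * (X i * ((d i - 2 * lin d X * (A i / LL A X).re) * g2 A X)) ∂mu (n + 2) := by
    congr 1; funext X; ring
  rw [e1, h1, e2] at h2
  have j1 := int_XXb hc hA 0 i (meas_fac (A := A) i d (d i)) (bd_fac hc hA ha i d (d i))
  have j2 := int_XXb hc hA 0 i (meas_fac (A := A) 0 d (d 0)) (bd_fac hc hA ha 0 d (d 0))
  have e3 : ∫ X, X 0 * (X i * ((d i - d 0 - 2 * lin d X * ((A i - A 0) / LL A X).re) * g2 A X))
        ∂mu (n + 2) =
      ∫ X, X 0 * (X i * ((d i - 2 * lin d X * (A i / LL A X).re) * g2 A X)) ∂mu (n + 2) -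
      ∫ X, X 0 * (X i * ((d 0 - 2 * lin d X * (A 0 / LL A X).re) * g2 A X)) ∂mu (n + 2) := by
    rw [← integral_sub j1 j2]
    congr 1
    funext X
    rw [sub_div, Complex.sub_re]
    ring
  rw [e3]
  linarith

end

end Pool.Agent.HStar
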