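import Pool.Agent.HStar.Deg0

set_option autoImplicit false

namespace Pool.Agent.HStar

open MeasureTheory Set Filter Topology Pool.Agent.HHalf ComplexConjugate

namespace PF

variable {n : ℕ}

theorem sum_w {X : Fin (n + 2) → ℝ} (hX : ∀ i, 0 < X i) : ∑ i, X i / TT X = 1 := by
  rw [← Finset.sum_div]
  exact div_self (TT_pos hX).ne'

theorem w_le {X : Fin (n + 2) → ℝ} (hX : ∀ i, 0 < X i) (i : Fin (n + 2)) : X i / TT X ≤ 1 :=
  div_le_one_of_le₀ (coord_le_TT hX i) (TT_pos hX).le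

theorem w_nonneg {X : Fin (n + 2) → ℝ} (hX : ∀ i, 0 < X i) (i : Fin (n + 2)) : 0 ≤ X i / TT X :=
  div_nonneg (hX i).le (TT_pos hX).le

/-- `Re (b Z)` as a function of the weights. -/
theorem dd {y : Fin (n + 2) → ℂ} (hy : ∀ i, ‖y i‖ ≤ 1) (b : ℂ) :
    Deg0 (fun X => (b * DD y X).re) (fun i X => (b * (y i - DD y X)).re / TT X) where
  meas := Complex.measurable_re.comp (measurable_const.mul (measurable_DD y))
  meas' := fun i => (Complex.measurable_re.comp (measurable_const.mul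
    (measurable_const.sub (measurable_DD y)))).div (measurable_TT (n + 2))
  bdd := by
    refine ⟨‖b‖, fun X hX => (Complex.abs_re_le_norm _).trans ?_⟩
    rw [norm_mul]
    exact mul_le_of_le_one_right (norm_nonneg _) (norm_DD_le hy hX)
  bdd' := by
    refine ⟨‖b‖ * 2, fun i X hX => ?_⟩
    have hT : 0 < TT X := TT_pos hX
    have e : X i * ((b * (y i - DD y X)).re / TT X) = X i / TT X * (b * (y i - DD y X)).re := by
      ring
    rw [e, abs_mul, abs_of_nonneg (w_nonneg hX i)]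
    have h1 : |(b * (y i - DD y X)).re| ≤ ‖b‖ * 2 := by
      refine (Complex.abs_re_le_norm _).trans ?_
      rw [norm_mul]
      refine mul_le_mul_of_nonneg_left ?_ (norm_nonneg _)
      have := norm_sub_le (y i) (DD y X)
      have := norm_DD_le hy hX
      have := hy i
      linarith
    calc X i / TT X * |(b * (y i - DD y X)).re| ≤ 1 * (‖b‖ * 2) :=
          mul_le_mul (w_le hX i) h1 (abs_nonneg _) zero_le_one
      _ = _ := one_mul _
  deriv := by
    intro i t ht x hx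
    have h1 := (hasDerivAt_DD y i ht hx).const_mul b
    have h2 := Complex.reCLM.hasFDerivAt.comp_hasDerivAt x h1
    refine h2.congr_deriv ?_
    rw [Complex.reCLM_apply, ← mul_div_assoc, Complex.div_ofReal_re]
  euler := by
    intro X hX
    have h := sum_mul_sub y hX
    have h2 := congrArg (fun t => (b * t).re) h
    simp only [mul_zero, Complex.zero_re] at h2
    rw [Finset.mul_sum, Complex.re_sum] at h2
    rw [← h2]
    refine Finset.sum_congr rfl fun i _ => ?_
    have e : b * (((X i / TT X : ℝ) : ℂ) * (y i - DD y X)) =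
        ((X i / TT X : ℝ) : ℂ) * (b * (y i - DD y X)) := by ring
    rw [e, Complex.re_ofReal_mul]
    ring

/-- The indicator of the index `0`. -/
def e0 (i : Fin (n + 2)) : ℝ := if i = 0 then 1 else 0

theorem w0_eq (X : Fin (n + 2) → ℝ) : w0 X = (1 * DD (fun i => ((e0 i : ℝ) : ℂ)) X).re := by
  unfold w0 DD e0
  rw [one_mul, Complex.div_ofReal_re, Complex.re_sum]
  congr 1
  rw [Finset.sum_eq_single 0]
  · simp
  · intro i _ hi
    simp [hi]
  · simp

theorem dw0 : Deg0 (n := n) (fun X => w0 X) (fun i X => (e0 i - w0 X) / TT X) := by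
  have hy : ∀ i : Fin (n + 2), ‖((e0 i : ℝ) : ℂ)‖ ≤ 1 := by
    intro i
    unfold e0
    by_cases hi : i = 0 <;> simp [hi]
  refine (dd hy 1).congr (fun X => w0_eq X) (fun i X => ?_)
  rw [w0_eq, mul_sub, Complex.sub_re, one_mul, one_mul, Complex.ofReal_re]

section

variable {y : Fin (n + 2) → ℂ}

/-- `D = 1 - |Z|^2`. -/
noncomputable def Df (y : Fin (n + 2) → ℂ) (X : Fin (n + 2) → ℝ) : ℝ := 1 - ‖DD y X‖ ^ 2

/-- `δ_i = 1 - Re (conj y_i Z)`. -/
noncomputable def df (y : Fin (n + 2) → ℂ) (i : Fin (n + 2)) (X : Fin (n + 2) → ℝ) : ℝ :=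
  1 - (conj (y i) * DD y X).re

theorem dD (hy : ∀ i, ‖y i‖ ≤ 1) :
    Deg0 (Df y) (fun i X => 2 * (df y i X - Df y X) / TT X) := by
  have hR := dd hy 1
  have hI := dd hy (-Complex.I)
  refine ((Deg0.const 1).sub ((hR.mul hR).add (hI.mul hI))).congr (fun X => ?_) (fun i X => ?_)
  · unfold Df
    rw [← Complex.normSq_eq_norm_sq, Complex.normSq_apply]
    simp
  · unfold df Df
    rw [← Complex.normSq_eq_norm_sq, Complex.normSq_apply]
    simp
    ring

theorem dδ (hy : ∀ i, ‖y i‖ ≤ 1) (l : Fin (n + 2)) :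
    Deg0 (df y l) (fun i X => -((conj (y l) * (y i - DD y X)).re / TT X)) :=
  ((Deg0.const 1).sub (dd hy (conj (y l)))).congr (fun _ => rfl) (fun i X => by ring)

theorem δ_nonneg (hy : ∀ i, ‖y i‖ ≤ 1) (X : Fin (n + 2) → ℝ)
    (i : Fin (n + 2)) : 1 - ‖DD y X‖ ≤ df y i X ∧ df y i X ≤ 1 + ‖DD y X‖ := by
  have h1 : |(conj (y i) * DD y X).re| ≤ ‖DD y X‖ := by
    refine (Complex.abs_re_le_norm _).trans ?_
    rw [norm_mul, RCLike.norm_conj]
    exact mul_le_of_le_one_left (norm_nonneg _) (hy i)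
  have h2 := abs_le.1 h1
  unfold df
  constructor <;> linarith

/-- `∑ w_i δ_i = D`. -/
theorem sum_wδ {X : Fin (n + 2) → ℝ} (hX : ∀ i, 0 < X i) :
    ∑ i, X i / TT X * df y i X = Df y X := by
  unfold df Df
  have e : ∀ i, X i / TT X * (1 - (conj (y i) * DD y X).re) =
      X i / TT X - (((X i / TT X : ℝ) : ℂ) * (conj (y i) * DD y X)).re := by
    intro i
    rw [Complex.re_ofReal_mul]
    ring
  rw [Finset.sum_congr rfl fun i _ => e i, Finset.sum_sub_distrib, sum_w hX, ← Complex.re_sum]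
  have e2 : ∑ i, (((X i / TT X : ℝ) : ℂ) * (conj (y i) * DD y X)) = conj (DD y X) * DD y X := by
    have h3 : conj (DD y X) = ∑ i, ((X i / TT X : ℝ) : ℂ) * conj (y i) := by
      unfold DD
      rw [map_div₀, map_sum, Complex.conj_ofReal, Finset.sum_div]
      refine Finset.sum_congr rfl fun i _ => ?_
      rw [map_mul, Complex.conj_ofReal]
      push_cast
      ring
    rw [h3, Finset.sum_mul]
    exact Finset.sum_congr rfl fun i _ => by ring
  rw [e2]
  congr 1
  rw [← Complex.normSq_eq_norm_sq, mul_comm, Complex.mul_conj, Complex.ofReal_re]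

/-- `D ≥ w_0 (1 - |y_0|^2)`. -/
theorem D_ge (hy : ∀ i, ‖y i‖ ≤ 1) {X : Fin (n + 2) → ℝ} (hX : ∀ i, 0 < X i) :
    w0 X * (1 - ‖y 0‖ ^ 2) ≤ Df y X := by
  -- |Z|^2 ≤ ∑ w_i |y_i|^2
  have hT := TT_pos hX
  have h1 : ‖DD y X‖ ≤ ∑ i, X i / TT X * ‖y i‖ := by
    unfold DD
    rw [Finset.sum_div]
    refine (norm_sum_le _ _).trans (Finset.sum_le_sum fun i _ => le_of_eq ?_)
    rw [norm_div, norm_mul, Complex.norm_real, Complex.norm_real, Real.norm_of_nonneg (hX i).le,
      Real.norm_of_nonneg hT.le]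
    ring
  have h2 : (∑ i, X i / TT X * ‖y i‖) ^ 2 ≤ ∑ i, X i / TT X * ‖y i‖ ^ 2 := by
    have hcs := Finset.sum_mul_sq_le_sq_mul_sq Finset.univ (fun i => √(X i / TT X))
      (fun i => √(X i / TT X) * ‖y i‖)
    have e1 : ∀ i, √(X i / TT X) * (√(X i / TT X) * ‖y i‖) = X i / TT X * ‖y i‖ := by
      intro i
      rw [← mul_assoc, Real.mul_self_sqrt (w_nonneg hX i)]
    have e2 : ∀ i, √(X i / TT X) ^ 2 = X i / TT X := fun i => Real.sq_sqrt (w_nonneg hX i)
    have e3 : ∀ i, (√(X i / TT X) * ‖y i‖) ^ 2 = X i / TT X * ‖y i‖ ^ 2 := by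
      intro i
      rw [mul_pow, e2]
    simp only [e1, e2, e3] at hcs
    rw [sum_w hX, one_mul] at hcs
    exact hcs
  have h3 : ∑ i, X i / TT X * ‖y i‖ ^ 2 ≤ 1 - w0 X * (1 - ‖y 0‖ ^ 2) := by
    have h4 : ∑ i : Fin (n + 1), X i.succ / TT X * ‖y i.succ‖ ^ 2 ≤
        ∑ i : Fin (n + 1), X i.succ / TT X := by
      refine Finset.sum_le_sum fun i _ => ?_
      have h5 : ‖y i.succ‖ ^ 2 ≤ 1 := pow_le_one₀ (norm_nonneg _) (hy _)
      exact mul_le_of_le_one_right (w_nonneg hX _) h5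
    have h6 := sum_w hX
    rw [Fin.sum_univ_succ] at h6 ⊢
    have h7 : w0 X = X 0 / TT X := rfl
    rw [h7]
    linarith
  unfold Df
  have h8 : ‖DD y X‖ ^ 2 ≤ (∑ i, X i / TT X * ‖y i‖) ^ 2 :=
    pow_le_pow_left₀ (norm_nonneg _) h1 2
  linarith

theorem D_pos (hy : ∀ i, ‖y i‖ ≤ 1) (h0 : ‖y 0‖ < 1) {X : Fin (n + 2) → ℝ}
    (hX : ∀ i, 0 < X i) : 0 < Df y X := by
  have h1 := D_ge hy hX
  have h2 : 0 < w0 X := w0_pos hX
  have h3 : 0 < 1 - ‖y 0‖ ^ 2 := by
    have := pow_lt_one₀ (norm_nonneg (y 0)) h0 two_ne_zero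
    linarith
  exact lt_of_lt_of_le (mul_pos h2 h3) h1

/-- `ω = w_0 / D`. -/
noncomputable def om (y : Fin (n + 2) → ℂ) (X : Fin (n + 2) → ℝ) : ℝ := w0 X / Df y X

theorem om_nonneg (hy : ∀ i, ‖y i‖ ≤ 1) (h0 : ‖y 0‖ < 1) {X : Fin (n + 2) → ℝ}
    (hX : ∀ i, 0 < X i) : 0 ≤ om y X := div_nonneg (w0_pos hX).le (D_pos hy h0 hX).le

theorem om_le (hy : ∀ i, ‖y i‖ ≤ 1) (h0 : ‖y 0‖ < 1) {X : Fin (n + 2) → ℝ}
    (hX : ∀ i, 0 < X i) : om y X ≤ (1 - ‖y 0‖ ^ 2)⁻¹ := by
  have h1 := D_ge hy hX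
  have h3 : 0 < 1 - ‖y 0‖ ^ 2 := by
    have := pow_lt_one₀ (norm_nonneg (y 0)) h0 two_ne_zero
    linarith
  unfold om
  rw [div_le_iff₀ (D_pos hy h0 hX), inv_mul_eq_div, le_div_iff₀ h3]
  exact h1

theorem om_mul (hy : ∀ i, ‖y i‖ ≤ 1) (h0 : ‖y 0‖ < 1) {X : Fin (n + 2) → ℝ}
    (hX : ∀ i, 0 < X i) : om y X * Df y X = w0 X := div_mul_cancel₀ _ (D_pos hy h0 hX).ne'

theorem wδ_le (hy : ∀ i, ‖y i‖ ≤ 1) {X : Fin (n + 2) → ℝ} (hX : ∀ i, 0 < X i)
    (i : Fin (n + 2)) : 0 ≤ X i / TT X * df y i X ∧ X i / TT X * df y i X ≤ Df y X := by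
  have h0 : ∀ l, 0 ≤ X l / TT X * df y l X := fun l => by
    refine mul_nonneg (w_nonneg hX l) ?_
    have h1 := (δ_nonneg hy X l).1
    have h2 := norm_DD_le hy hX
    linarith
  refine ⟨h0 i, ?_⟩
  rw [← sum_wδ hX]
  exact Finset.single_le_sum (fun l _ => h0 l) (Finset.mem_univ i)

theorem dom (hy : ∀ i, ‖y i‖ ≤ 1) (h0 : ‖y 0‖ < 1) :
    Deg0 (om y) (fun i X => ((e0 i - w0 X) / TT X -
      om y X * (2 * (df y i X - Df y X) / TT X)) / Df y X) where
  meas := (measurable_w0 (n + 1)).div (dD hy).meas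
  meas' := fun i => by
    have hm : Measurable (om y) := (measurable_w0 (n + 1)).div (dD hy).meas
    exact ((dw0.meas' i).sub (hm.mul ((dD hy).meas' i))).div (dD hy).meas
  bdd := ⟨(1 - ‖y 0‖ ^ 2)⁻¹, fun X hX => by
    rw [abs_of_nonneg (om_nonneg hy h0 hX)]; exact om_le hy h0 hX⟩
  bdd' := by
    refine ⟨6 * (1 - ‖y 0‖ ^ 2)⁻¹, fun i X hX => ?_⟩
    have hD := D_pos hy h0 hX
    have hT : 0 < TT X := TT_pos hX
    have ho := om_nonneg hy h0 hX
    have hoC := om_le hy h0 hX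
    have hw := w_nonneg hX i
    have hw1 := w_le hX i
    obtain ⟨hd0, hd1⟩ := wδ_le hy hX i
    have e : X i * (((e0 i - w0 X) / TT X - om y X * (2 * (df y i X - Df y X) / TT X)) / Df y X) =
        X i / TT X * e0 i / Df y X - X i / TT X * om y X -
          2 * om y X * (X i / TT X * df y i X / Df y X) + 2 * om y X * (X i / TT X) := by
      have h1 : w0 X / Df y X = om y X := rfl
      have h2 : X i * (((e0 i - w0 X) / TT X - om y X * (2 * (df y i X - Df y X) / TT X)) / Df y X)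
        = X i / TT X * e0 i / Df y X - X i / TT X * (w0 X / Df y X) -
          2 * om y X * (X i / TT X * df y i X / Df y X) + 2 * om y X * (X i / TT X) := by
        field_simp
        ring
      rw [h2, h1]
    have h1 : |X i / TT X * e0 i / Df y X| ≤ om y X := by
      by_cases hi : i = 0
      · subst hi
        have : X 0 / TT X * e0 (0 : Fin (n + 2)) / Df y X = om y X := by
          unfold om w0 e0; simp
        rw [this, abs_of_nonneg ho]
      · have : X i / TT X * e0 i / Df y X = 0 := by unfold e0; simp [hi]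
        rw [this, abs_zero]; exact ho
    have h2 : |X i / TT X * om y X| ≤ om y X := by
      rw [abs_of_nonneg (mul_nonneg hw ho)]
      exact mul_le_of_le_one_left ho hw1
    have h3 : |2 * om y X * (X i / TT X * df y i X / Df y X)| ≤ 2 * om y X := by
      have h4 : X i / TT X * df y i X / Df y X ≤ 1 := (div_le_one hD).2 hd1
      have h5 : 0 ≤ X i / TT X * df y i X / Df y X := div_nonneg hd0 hD.le
      rw [abs_of_nonneg (mul_nonneg (by linarith) h5)]
      exact mul_le_of_le_one_right (by linarith) h4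
    have h4 : |2 * om y X * (X i / TT X)| ≤ 2 * om y X := by
      rw [abs_of_nonneg (mul_nonneg (by linarith) hw)]
      exact mul_le_of_le_one_right (by linarith) hw1
    rw [e]
    have h6 := abs_add_le (X i / TT X * e0 i / Df y X - X i / TT X * om y X -
          2 * om y X * (X i / TT X * df y i X / Df y X)) (2 * om y X * (X i / TT X))
    have h7 := abs_sub (X i / TT X * e0 i / Df y X - X i / TT X * om y X)
      (2 * om y X * (X i / TT X * df y i X / Df y X))
    have h8 := abs_sub (X i / TT X * e0 i / Df y X) (X i / TT X * om y X)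
    linarith
  deriv := by
    intro i t ht x hx
    have hp := ins_pos i hx ht
    have hD := D_pos hy h0 hp
    have h1 := (dw0.deriv i t ht x hx).fun_div ((dD hy).deriv i t ht x hx) hD.ne'
    refine h1.congr_deriv ?_
    have h2 : om y (ins i x t) = w0 (ins i x t) / Df y (ins i x t) := rfl
    rw [h2]
    field_simp
  euler := by
    intro X hX
    have hD := D_pos hy h0 hX
    have h1 := dw0.euler X hX
    have h2 := (dD hy).euler X hX
    have e : ∀ i, X i * (((e0 i - w0 X) / TT X - om y X * (2 * (df y i X - Df y X) / TT X)) /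
        Df y X) = (X i * ((e0 i - w0 X) / TT X)) / Df y X -
        om y X / Df y X * (X i * (2 * (df y i X - Df y X) / TT X)) := fun i => by ring
    rw [Finset.sum_congr rfl fun i _ => e i, Finset.sum_sub_distrib, ← Finset.sum_div,
      ← Finset.mul_sum, h1, h2]
    simp

/-- The Poisson type kernel `P_ξ(Z) = Re (2/(1 - ξ Z) - 1)`. -/
noncomputable def Pf (y : Fin (n + 2) → ℂ) (ξ : ℂ) (X : Fin (n + 2) → ℝ) : ℝ :=
  (2 / (1 - ξ * DD y X) - 1).re

theorem den_ge (hy : ∀ i, ‖y i‖ ≤ 1) (ξ : ℂ) {X : Fin (n + 2) → ℝ} (hX : ∀ i, 0 < X i) :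
    1 - ‖ξ‖ ≤ ‖1 - ξ * DD y X‖ := norm_one_sub_ge le_rfl (norm_DD_le hy hX)

theorem dP (hy : ∀ i, ‖y i‖ ≤ 1) {ξ : ℂ} (hξ : ‖ξ‖ < 1) :
    Deg0 (Pf y ξ) (fun i X => (2 * ξ / (1 - ξ * DD y X) ^ 2 * (y i - DD y X)).re / TT X) where
  meas := Complex.measurable_re.comp ((measurable_const.div (measurable_const.sub
    (measurable_const.mul (measurable_DD y)))).sub measurable_const)
  meas' := fun i => (Complex.measurable_re.comp ((measurable_const.div ((measurable_const.sub
    (measurable_const.mul (measurable_DD y))).pow_const 2)).mul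
    (measurable_const.sub (measurable_DD y)))).div (measurable_TT (n + 2))
  bdd := by
    have hc : 0 < 1 - ‖ξ‖ := by linarith
    refine ⟨2 / (1 - ‖ξ‖) + 1, fun X hX => (Complex.abs_re_le_norm _).trans ?_⟩
    refine (norm_sub_le _ _).trans ?_
    rw [norm_one, norm_div, Complex.norm_ofNat]
    have := div_le_div_of_nonneg_left (by norm_num : (0:ℝ) ≤ 2) hc (den_ge hy ξ hX)
    linarith
  bdd' := by
    have hc : 0 < 1 - ‖ξ‖ := by linarith
    refine ⟨2 * ‖ξ‖ / (1 - ‖ξ‖) ^ 2 * 2, fun i X hX => ?_⟩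
    have hT : 0 < TT X := TT_pos hX
    have e : X i * ((2 * ξ / (1 - ξ * DD y X) ^ 2 * (y i - DD y X)).re / TT X) =
        X i / TT X * (2 * ξ / (1 - ξ * DD y X) ^ 2 * (y i - DD y X)).re := by ring
    rw [e, abs_mul, abs_of_nonneg (w_nonneg hX i)]
    have h1 : |(2 * ξ / (1 - ξ * DD y X) ^ 2 * (y i - DD y X)).re| ≤
        2 * ‖ξ‖ / (1 - ‖ξ‖) ^ 2 * 2 := by
      refine (Complex.abs_re_le_norm _).trans ?_
      rw [norm_mul, norm_div, norm_mul, Complex.norm_ofNat, norm_pow]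
      have h2 := norm_sub_le (y i) (DD y X)
      have h3 := norm_DD_le hy hX
      have h4 := hy i
      have h5 : (1 - ‖ξ‖) ^ 2 ≤ ‖1 - ξ * DD y X‖ ^ 2 := pow_le_pow_left₀ hc.le (den_ge hy ξ hX) 2
      apply mul_le_mul _ (by linarith) (norm_nonneg _) (by positivity)
      exact div_le_div_of_nonneg_left (by positivity) (by positivity) h5
    calc _ ≤ 1 * (2 * ‖ξ‖ / (1 - ‖ξ‖) ^ 2 * 2) :=
          mul_le_mul (w_le hX i) h1 (abs_nonneg _) zero_le_one
      _ = _ := one_mul _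
  deriv := by
    intro i t ht x hx
    have hc : 0 < 1 - ‖ξ‖ := by linarith
    have hp := ins_pos i hx ht
    have hne : 1 - ξ * DD y (ins i x t) ≠ 0 := by
      have := den_ge hy ξ hp
      exact norm_pos_iff.1 (by linarith)
    have hT := TT_pos hp
    have h1 := (((hasDerivAt_DD y i ht hx).const_mul ξ).const_sub 1).fun_inv hne
    have h2 := (h1.const_mul 2).sub_const 1
    have h3 := Complex.reCLM.hasFDerivAt.comp_hasDerivAt x h2
    have e : (fun x => Pf y ξ (ins i x t)) =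
        Complex.reCLM ∘ fun x => 2 * (1 - ξ * DD y (ins i x t))⁻¹ - 1 := by
      funext s
      simp only [Pf, Function.comp, Complex.reCLM_apply, div_eq_mul_inv]
    rw [e]
    refine h3.congr_deriv ?_
    rw [Complex.reCLM_apply, ← Complex.div_ofReal_re]
    congr 1
    ring
  euler := by
    intro X hX
    have h := sum_mul_sub y hX
    have h2 := congrArg (fun t => (2 * ξ / (1 - ξ * DD y X) ^ 2 * t).re) h
    simp only [mul_zero, Complex.zero_re] at h2
    rw [Finset.mul_sum, Complex.re_sum] at h2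
    rw [← h2]
    refine Finset.sum_congr rfl fun i _ => ?_
    have e : 2 * ξ / (1 - ξ * DD y X) ^ 2 * (((X i / TT X : ℝ) : ℂ) * (y i - DD y X)) =
        ((X i / TT X : ℝ) : ℂ) * (2 * ξ / (1 - ξ * DD y X) ^ 2 * (y i - DD y X)) := by ring
    rw [e, Complex.re_ofReal_mul]
    ring

end

end PF

end Pool.Agent.HStar
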