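import Pool.Agent.HStar.Link

set_option autoImplicit false

namespace Pool.Agent.HStar

open MeasureTheory Set Filter Topology Pool.Agent.HHalf ComplexConjugate

/-- Stein's identity for bounded functions. -/
theorem stein0 {n : ℕ} (i : Fin (n + 2)) {G G' : (Fin (n + 2) → ℝ) → ℂ} {C C' : ℝ}
    (hm : AEStronglyMeasurable G (mu (n + 2))) (hm' : AEStronglyMeasurable G' (mu (n + 2)))
    (hb : ∀ X, (∀ i, 0 < X i) → ‖G X‖ ≤ C)
    (hb' : ∀ X, (∀ i, 0 < X i) → ‖(X i : ℂ) * G' X‖ ≤ C')
    (hd : ∀ y : Fin (n + 1) → ℝ, (∀ j, 0 < y j) → ∀ x, 0 < x →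
      HasDerivAt (fun x => G (ins i x y)) (G' (ins i x y)) x) :
    ∫ X, (X i : ℂ) * G X ∂mu (n + 2) = ∫ X, G X ∂mu (n + 2) +
      ∫ X, (X i : ℂ) * G' X ∂mu (n + 2) := by
  have hXm : AEStronglyMeasurable (fun X : Fin (n + 2) → ℝ => (X i : ℂ)) (mu (n + 2)) :=
    (Complex.measurable_ofReal.comp (measurable_pi_apply i)).aestronglyMeasurable
  have hC : 0 ≤ C := (norm_nonneg _).trans (hb (fun _ => 1) fun _ => one_pos)
  have i1 : Integrable G (mu (n + 2)) := by
    refine Integrable.mono' (integrable_const C) hm ?_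
    filter_upwards [mu_pos (n + 2)] with X hX using hb X hX
  have i2 : Integrable (fun X : Fin (n + 2) → ℝ => (X i : ℂ) * G' X) (mu (n + 2)) := by
    refine Integrable.mono' (integrable_const C') (hXm.mul hm') ?_
    filter_upwards [mu_pos (n + 2)] with X hX using hb' X hX
  have hbX : ∀ X : Fin (n + 2) → ℝ, (∀ i, 0 < X i) → ‖(X i : ℂ) * G X‖ ≤ C * (1 + TT X) := by
    intro X hX
    have hT : 0 < TT X := TT_pos hX
    rw [norm_mul, Complex.norm_real, Real.norm_of_nonneg (hX i).le]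
    have h1 := hb X hX
    have h2 := coord_le_TT hX i
    calc X i * ‖G X‖ ≤ TT X * C := mul_le_mul h2 h1 (norm_nonneg _) hT.le
      _ ≤ C * (1 + TT X) := by nlinarith
  have hmain := ibp' i (f := fun X => (X i : ℂ) * G X) (f' := fun X => G X + (X i : ℂ) * G' X)
    (f0 := fun _ => 0) hC (hXm.mul hm) (i1.add i2) hbX ?_ ?_
  · rw [hmain, integral_zero, zero_add, integral_add i1 i2]
  · intro y hy x hx
    have h1 : HasDerivAt (fun x : ℝ => ((x : ℝ) : ℂ)) 1 x := by
      simpa using (hasDerivAt_id x).ofReal_comp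
    have h2 := h1.mul (hd y hy x hx)
    have e : (fun x : ℝ => (((ins i x y) i : ℝ) : ℂ) * G (ins i x y)) =
        (fun x : ℝ => ((x : ℝ) : ℂ)) * fun x : ℝ => G (ins i x y) := by
      funext t
      simp only [Pi.mul_apply, ins_same]
    show HasDerivAt (fun x : ℝ => (((ins i x y) i : ℝ) : ℂ) * G (ins i x y)) _ x
    rw [e]
    refine h2.congr_deriv ?_
    simp only [ins_same]
    ring
  · intro y hy
    rw [tendsto_zero_iff_norm_tendsto_zero]
    have hlim : Tendsto (fun x : ℝ => x * C) (𝓝[>] 0) (𝓝 0) := by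
      have : Tendsto (fun x : ℝ => x * C) (𝓝 0) (𝓝 (0 * C)) :=
        (continuous_id.mul continuous_const).tendsto 0
      rw [zero_mul] at this
      exact this.mono_left nhdsWithin_le_nhds
    refine squeeze_zero' (Eventually.of_forall fun _ => norm_nonneg _) ?_ hlim
    filter_upwards [self_mem_nhdsWithin] with x hx
    have hx' : (0 : ℝ) < x := hx
    have hp := ins_pos i hx' hy
    rw [norm_mul, ins_same, Complex.norm_real, Real.norm_of_nonneg hx'.le]
    exact mul_le_mul_of_nonneg_left (hb _ hp) hx'.le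

/-- A bounded function of the weights (homogeneous of degree 0) with its partial derivatives. -/
structure Deg0 {n : ℕ} (g : (Fin (n + 2) → ℝ) → ℝ)
    (g' : Fin (n + 2) → (Fin (n + 2) → ℝ) → ℝ) : Prop where
  meas : Measurable g
  meas' : ∀ i, Measurable (g' i)
  bdd : ∃ C, ∀ X : Fin (n + 2) → ℝ, (∀ i, 0 < X i) → |g X| ≤ C
  bdd' : ∃ C, ∀ (i : Fin (n + 2)) (X : Fin (n + 2) → ℝ), (∀ i, 0 < X i) → |X i * g' i X| ≤ C
  deriv : ∀ (i : Fin (n + 2)) (y : Fin (n + 1) → ℝ), (∀ j, 0 < y j) → ∀ x, 0 < x →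
    HasDerivAt (fun x => g (ins i x y)) (g' i (ins i x y)) x
  euler : ∀ X : Fin (n + 2) → ℝ, (∀ i, 0 < X i) → ∑ i, X i * g' i X = 0

namespace Deg0

variable {n : ℕ} {g h : (Fin (n + 2) → ℝ) → ℝ} {g' h' : Fin (n + 2) → (Fin (n + 2) → ℝ) → ℝ}

theorem const (c : ℝ) : Deg0 (n := n) (fun _ => c) (fun _ _ => 0) where
  meas := measurable_const
  meas' := fun _ => measurable_const
  bdd := ⟨|c|, fun _ _ => le_rfl⟩
  bdd' := ⟨0, fun i X _ => by simp⟩
  deriv := fun _ _ _ x _ => hasDerivAt_const x c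
  euler := fun X _ => by simp

theorem add (hg : Deg0 g g') (hh : Deg0 h h') :
    Deg0 (fun X => g X + h X) (fun i X => g' i X + h' i X) where
  meas := hg.meas.add hh.meas
  meas' := fun i => (hg.meas' i).add (hh.meas' i)
  bdd := by
    obtain ⟨C, hC⟩ := hg.bdd
    obtain ⟨D, hD⟩ := hh.bdd
    exact ⟨C + D, fun X hX => (abs_add_le _ _).trans (add_le_add (hC X hX) (hD X hX))⟩
  bdd' := by
    obtain ⟨C, hC⟩ := hg.bdd'
    obtain ⟨D, hD⟩ := hh.bdd'
    refine ⟨C + D, fun i X hX => ?_⟩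
    rw [mul_add]
    exact (abs_add_le _ _).trans (add_le_add (hC i X hX) (hD i X hX))
  deriv := fun i y hy x hx => (hg.deriv i y hy x hx).fun_add (hh.deriv i y hy x hx)
  euler := fun X hX => by
    simp_rw [mul_add]
    rw [Finset.sum_add_distrib, hg.euler X hX, hh.euler X hX, add_zero]

theorem mul (hg : Deg0 g g') (hh : Deg0 h h') :
    Deg0 (fun X => g X * h X) (fun i X => g' i X * h X + g X * h' i X) where
  meas := hg.meas.mul hh.meas
  meas' := fun i => ((hg.meas' i).mul hh.meas).add (hg.meas.mul (hh.meas' i))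
  bdd := by
    obtain ⟨C, hC⟩ := hg.bdd
    obtain ⟨D, hD⟩ := hh.bdd
    refine ⟨C * D, fun X hX => ?_⟩
    rw [abs_mul]
    exact mul_le_mul (hC X hX) (hD X hX) (abs_nonneg _) ((abs_nonneg _).trans (hC X hX))
  bdd' := by
    obtain ⟨C, hC⟩ := hg.bdd
    obtain ⟨D, hD⟩ := hh.bdd
    obtain ⟨C', hC'⟩ := hg.bdd'
    obtain ⟨D', hD'⟩ := hh.bdd'
    refine ⟨C' * D + C * D', fun i X hX => ?_⟩
    have e : X i * (g' i X * h X + g X * h' i X) =
        (X i * g' i X) * h X + g X * (X i * h' i X) := by ring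
    rw [e]
    refine (abs_add_le _ _).trans (add_le_add ?_ ?_)
    · rw [abs_mul]
      exact mul_le_mul (hC' i X hX) (hD X hX) (abs_nonneg _)
        ((abs_nonneg _).trans (hC' i X hX))
    · rw [abs_mul]
      exact mul_le_mul (hC X hX) (hD' i X hX) (abs_nonneg _)
        ((abs_nonneg _).trans (hC X hX))
  deriv := fun i y hy x hx => (hg.deriv i y hy x hx).fun_mul (hh.deriv i y hy x hx)
  euler := fun X hX => by
    have e : ∀ i, X i * (g' i X * h X + g X * h' i X) =
        (X i * g' i X) * h X + g X * (X i * h' i X) := fun i => by ring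
    rw [Finset.sum_congr rfl fun i _ => e i, Finset.sum_add_distrib, ← Finset.sum_mul,
      ← Finset.mul_sum, hg.euler X hX, hh.euler X hX]
    ring

theorem congr (hg : Deg0 g g') {h : (Fin (n + 2) → ℝ) → ℝ}
    {h' : Fin (n + 2) → (Fin (n + 2) → ℝ) → ℝ} (e : ∀ X, h X = g X)
    (e' : ∀ i X, h' i X = g' i X) : Deg0 h h' := by
  have e1 : h = g := funext e
  have e2 : h' = g' := funext fun i => funext fun X => e' i X
  rw [e1, e2]; exact hg

theorem smul (hg : Deg0 g g') (c : ℝ) : Deg0 (fun X => c * g X) (fun i X => c * g' i X) :=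
  ((const c).mul hg).congr (fun _ => rfl) (fun i X => by ring)

theorem sub (hg : Deg0 g g') (hh : Deg0 h h') :
    Deg0 (fun X => g X - h X) (fun i X => g' i X - h' i X) :=
  (hg.add (hh.smul (-1))).congr (fun X => by ring) (fun i X => by ring)

theorem pow (hg : Deg0 g g') (j : ℕ) :
    Deg0 (fun X => g X ^ j) (fun i X => j * g X ^ (j - 1) * g' i X) := by
  induction j with
  | zero => exact (const 1).congr (fun X => by simp) (fun i X => by simp)
  | succ j ih =>
    refine (ih.mul hg).congr (fun X => by rw [pow_succ]) (fun i X => ?_)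
    rcases j with _ | j
    · simp
    · rw [Nat.add_sub_cancel, Nat.add_sub_cancel, pow_succ (g X) j]
      push_cast
      ring

theorem integrable (hg : Deg0 g g') : Integrable g (mu (n + 2)) := by
  obtain ⟨C, hC⟩ := hg.bdd
  refine Integrable.mono' (integrable_const C) hg.meas.aestronglyMeasurable ?_
  filter_upwards [mu_pos (n + 2)] with X hX
  exact hC X hX

theorem integrable' (hg : Deg0 g g') (i : Fin (n + 2)) :
    Integrable (fun X : Fin (n + 2) → ℝ => X i * g' i X) (mu (n + 2)) := by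
  obtain ⟨C, hC⟩ := hg.bdd'
  refine Integrable.mono' (integrable_const C)
    ((measurable_pi_apply i).mul (hg.meas' i)).aestronglyMeasurable ?_
  filter_upwards [mu_pos (n + 2)] with X hX
  exact hC i X hX

theorem integrableX (hg : Deg0 g g') (i : Fin (n + 2)) :
    Integrable (fun X : Fin (n + 2) → ℝ => X i * g X) (mu (n + 2)) := by
  obtain ⟨C, hC⟩ := hg.bdd
  refine ((integrable_coord (n + 2) i).const_mul C).mono'
    ((measurable_pi_apply i).mul hg.meas).aestronglyMeasurable ?_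
  filter_upwards [mu_pos (n + 2)] with X hX
  rw [norm_mul, Real.norm_of_nonneg (hX i).le, mul_comm]
  exact mul_le_mul_of_nonneg_right (hC X hX) (hX i).le

/-- Stein's identity. -/
theorem stein (hg : Deg0 g g') (i : Fin (n + 2)) :
    ∫ X, X i * g X ∂mu (n + 2) = ∫ X, g X ∂mu (n + 2) + ∫ X, X i * g' i X ∂mu (n + 2) := by
  obtain ⟨C, hC⟩ := hg.bdd
  obtain ⟨C', hC'⟩ := hg.bdd'
  have h := stein0 i (G := fun X => ((g X : ℝ) : ℂ)) (G' := fun X => ((g' i X : ℝ) : ℂ))
    (C := C) (C' := C') (Complex.measurable_ofReal.comp hg.meas).aestronglyMeasurable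
    (Complex.measurable_ofReal.comp (hg.meas' i)).aestronglyMeasurable
    (fun X hX => by rw [Complex.norm_real]; exact hC X hX)
    (fun X hX => by rw [← Complex.ofReal_mul, Complex.norm_real]; exact hC' i X hX)
    (fun y hy x hx => (hg.deriv i y hy x hx).ofReal_comp)
  simp_rw [← Complex.ofReal_mul] at h
  rw [integral_complex_ofReal, integral_complex_ofReal, integral_complex_ofReal] at h
  exact_mod_cast h

/-- `E[T g] = N E[g]`. -/
theorem intT (hg : Deg0 g g') :
    ∫ X, TT X * g X ∂mu (n + 2) = (n + 2) * ∫ X, g X ∂mu (n + 2) := by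
  have e : ∀ X : Fin (n + 2) → ℝ, TT X * g X = ∑ i, X i * g X := fun X => by
    unfold TT; rw [Finset.sum_mul]
  simp_rw [e]
  rw [integral_finsetSum _ fun i _ => hg.integrableX i,
    Finset.sum_congr rfl fun i _ => hg.stein i, Finset.sum_add_distrib,
    ← integral_finsetSum _ fun i _ => hg.integrable' i]
  have e2 : ∫ X, ∑ i, X i * g' i X ∂mu (n + 2) = 0 := by
    rw [← integral_zero (Fin (n + 2) → ℝ) ℝ (μ := mu (n + 2))]
    refine integral_congr_ae ?_
    filter_upwards [mu_pos (n + 2)] with X hX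
    exact hg.euler X hX
  rw [e2]
  simp

end Deg0

end Pool.Agent.HStar
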