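import Pool.Agent.HHalf.MHG

set_option autoImplicit false

namespace Pool.Agent.HStar

open MeasureTheory Set Filter Topology Pool.Agent.HHalf Pool.Agent.ConjInterp

/-- The weight of the first node. -/
noncomputable def w0 {n : ℕ} (X : Fin (n + 1) → ℝ) : ℝ := X 0 / TT X

/-- The barycentre of `x, z_1, ..., z_n`. -/
noncomputable def ZZ {n : ℕ} (z : Fin n → ℂ) (x : ℂ) (X : Fin (n + 1) → ℝ) : ℂ :=
  DD (Fin.cons x z : Fin (n + 1) → ℂ) X

theorem ZZ_eq {n : ℕ} (z : Fin n → ℂ) (x : ℂ) (X : Fin (n + 1) → ℝ) :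
    ZZ z x X = (w0 X : ℂ) * x + ZZ z 0 X := by
  unfold ZZ DD w0
  rw [Fin.sum_univ_succ, Fin.sum_univ_succ]
  simp only [Fin.cons_zero, Fin.cons_succ]
  push_cast
  ring

theorem w0_nonneg {n : ℕ} {X : Fin (n + 1) → ℝ} (hX : ∀ i, 0 < X i) : 0 ≤ w0 X :=
  div_nonneg (hX 0).le (TT_nonneg hX)

theorem w0_pos {n : ℕ} {X : Fin (n + 1) → ℝ} (hX : ∀ i, 0 < X i) : 0 < w0 X :=
  div_pos (hX 0) (TT_pos hX)

theorem w0_le_one {n : ℕ} {X : Fin (n + 1) → ℝ} (hX : ∀ i, 0 < X i) : w0 X ≤ 1 :=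
  div_le_one_of_le₀ (coord_le_TT hX 0) (TT_nonneg hX)

theorem norm_w0_le {n : ℕ} {X : Fin (n + 1) → ℝ} (hX : ∀ i, 0 < X i) : ‖(w0 X : ℂ)‖ ≤ 1 := by
  rw [Complex.norm_real, Real.norm_of_nonneg (w0_nonneg hX)]
  exact w0_le_one hX

theorem cons_le {n : ℕ} {z : Fin n → ℂ} (hz : ∀ i, ‖z i‖ ≤ 1) {x : ℂ} (hx : ‖x‖ ≤ 1) :
    ∀ i, ‖(Fin.cons x z : Fin (n + 1) → ℂ) i‖ ≤ 1 := by
  intro i
  refine Fin.cases ?_ (fun i => ?_) i
  · rw [Fin.cons_zero]; exact hx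
  · rw [Fin.cons_succ]; exact hz i

theorem norm_ZZ_le {n : ℕ} {z : Fin n → ℂ} (hz : ∀ i, ‖z i‖ ≤ 1) {x : ℂ} (hx : ‖x‖ ≤ 1)
    {X : Fin (n + 1) → ℝ} (hX : ∀ i, 0 < X i) : ‖ZZ z x X‖ ≤ 1 :=
  norm_DD_le (cons_le hz hx) hX

theorem norm_ZZ_le' {n : ℕ} {z : Fin n → ℂ} (hz : ∀ i, ‖z i‖ ≤ 1) (x : ℂ)
    {X : Fin (n + 1) → ℝ} (hX : ∀ i, 0 < X i) : ‖ZZ z x X‖ ≤ ‖x‖ + 1 := by
  rw [ZZ_eq]
  refine (norm_add_le _ _).trans ?_
  have h1 := norm_ZZ_le hz (x := 0) (by simp) hX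
  rw [norm_mul]
  have h2 := norm_w0_le hX
  have h3 : ‖(w0 X : ℂ)‖ * ‖x‖ ≤ 1 * ‖x‖ := mul_le_mul_of_nonneg_right h2 (norm_nonneg x)
  linarith

theorem measurable_w0 (n : ℕ) : Measurable (fun X : Fin (n + 1) → ℝ => w0 X) := by
  unfold w0
  exact (measurable_pi_apply 0).div (measurable_TT (n + 1))

theorem measurable_w0c (n : ℕ) : Measurable (fun X : Fin (n + 1) → ℝ => (w0 X : ℂ)) :=
  Complex.measurable_ofReal.comp (measurable_w0 n)

theorem measurable_ZZ {n : ℕ} (z : Fin n → ℂ) (x : ℂ) :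
    Measurable (fun X : Fin (n + 1) → ℝ => ZZ z x X) := measurable_DD _

theorem integrable_bdd {n : ℕ} {f : (Fin n → ℝ) → ℂ} {C : ℝ}
    (hm : AEStronglyMeasurable f (mu n)) (hb : ∀ X, (∀ i, 0 < X i) → ‖f X‖ ≤ C) :
    Integrable f (mu n) := by
  refine Integrable.mono' (integrable_const C) hm ?_
  filter_upwards [mu_pos n] with X hX
  exact hb X hX

/-- A continuous function is bounded on every disc. -/
theorem bd_ball {g : ℂ → ℂ} (hg : Continuous g) (R : ℝ) :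
    ∃ K : ℝ, 0 ≤ K ∧ ∀ w : ℂ, ‖w‖ ≤ R → ‖g w‖ ≤ K := by
  have hc : IsCompact (Metric.closedBall (0 : ℂ) R) := isCompact_closedBall 0 R
  obtain ⟨K, hK⟩ := hc.exists_bound_of_continuousOn hg.continuousOn
  refine ⟨max K 0, le_max_right _ _, fun w hw => ?_⟩
  refine (hK w ?_).trans (le_max_left _ _)
  simpa [Metric.mem_closedBall, dist_zero_right] using hw

theorem meas_wg {n : ℕ} (z : Fin n → ℂ) (x : ℂ) (j : ℕ) {g : ℂ → ℂ} (hg : Continuous g) :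
    Measurable (fun X : Fin (n + 1) → ℝ => (w0 X : ℂ) ^ j * g (ZZ z x X)) :=
  ((measurable_w0c n).pow_const j).mul (hg.measurable.comp (measurable_ZZ z x))

theorem bd_wg {n : ℕ} {z : Fin n → ℂ} (hz : ∀ i, ‖z i‖ ≤ 1) (x : ℂ) (j : ℕ) {g : ℂ → ℂ} {K : ℝ}
    (hK : ∀ w : ℂ, ‖w‖ ≤ ‖x‖ + 1 → ‖g w‖ ≤ K) {X : Fin (n + 1) → ℝ} (hX : ∀ i, 0 < X i) :
    ‖(w0 X : ℂ) ^ j * g (ZZ z x X)‖ ≤ K := by
  rw [norm_mul, norm_pow]
  have h1 : ‖(w0 X : ℂ)‖ ^ j ≤ 1 := pow_le_one₀ (norm_nonneg _) (norm_w0_le hX)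
  have h2 := hK _ (norm_ZZ_le' hz x hX)
  calc ‖(w0 X : ℂ)‖ ^ j * ‖g (ZZ z x X)‖ ≤ 1 * ‖g (ZZ z x X)‖ :=
        mul_le_mul_of_nonneg_right h1 (norm_nonneg _)
    _ ≤ K := by rw [one_mul]; exact h2

theorem int_wg {n : ℕ} {z : Fin n → ℂ} (hz : ∀ i, ‖z i‖ ≤ 1) (x : ℂ) (j : ℕ) {g : ℂ → ℂ}
    (hg : Continuous g) :
    Integrable (fun X : Fin (n + 1) → ℝ => (w0 X : ℂ) ^ j * g (ZZ z x X)) (mu (n + 1)) := by
  obtain ⟨K, _, hK⟩ := bd_ball hg (‖x‖ + 1)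
  exact integrable_bdd (meas_wg z x j hg).aestronglyMeasurable fun X hX => bd_wg hz x j hK hX

/-- Differentiation of the average in the node `x`. -/
theorem hasDerivAt_avg {n : ℕ} {z : Fin n → ℂ} (hz : ∀ i, ‖z i‖ ≤ 1) (j : ℕ) {g : ℂ → ℂ}
    (hg : Differentiable ℂ g) (x : ℂ) :
    HasDerivAt (fun x => ∫ X, (w0 X : ℂ) ^ j * g (ZZ z x X) ∂mu (n + 1))
      (∫ X, (w0 X : ℂ) ^ (j + 1) * deriv g (ZZ z x X) ∂mu (n + 1)) x := by
  have hd : Continuous (deriv g) := (hg.contDiff (n := 1)).continuous_deriv le_rfl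
  obtain ⟨K, hK0, hK⟩ := bd_ball hd (‖x‖ + 2)
  refine (hasDerivAt_integral_of_dominated_loc_of_deriv_le (μ := mu (n + 1))
    (F := fun x X => (w0 X : ℂ) ^ j * g (ZZ z x X))
    (F' := fun x X => (w0 X : ℂ) ^ (j + 1) * deriv g (ZZ z x X))
    (bound := fun _ => K) (s := Metric.ball x 1) (Metric.ball_mem_nhds x one_pos)
    (Eventually.of_forall fun y => (meas_wg z y j hg.continuous).aestronglyMeasurable)
    (int_wg hz x j hg.continuous) (meas_wg z x (j + 1) hd).aestronglyMeasurable ?_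
    (integrable_const K) ?_).2
  · filter_upwards [mu_pos (n + 1)] with X hX y hy
    refine bd_wg hz y (j + 1) (fun w hw => hK w (hw.trans ?_)) hX
    have : ‖y‖ ≤ ‖x‖ + 1 := by
      have h1 : ‖y - x‖ < 1 := by simpa [Metric.mem_ball, dist_eq_norm] using hy
      have h2 := norm_add_le (y - x) x
      rw [sub_add_cancel] at h2
      linarith
    linarith
  · filter_upwards [mu_pos (n + 1)] with X hX y hy
    have h1 : HasDerivAt (fun y => ZZ z y X) (w0 X : ℂ) y := by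
      have h2 : (fun y => ZZ z y X) = fun y => (w0 X : ℂ) * y + ZZ z 0 X := by
        funext y; exact ZZ_eq z y X
      rw [h2]
      simpa using ((hasDerivAt_id' y).const_mul (w0 X : ℂ)).add_const (ZZ z 0 X)
    have h3 : HasDerivAt (fun y => g (ZZ z y X)) (deriv g (ZZ z y X) * (w0 X : ℂ)) y :=
      (hg (ZZ z y X)).hasDerivAt.comp y h1
    refine (h3.const_mul ((w0 X : ℂ) ^ j)).congr_deriv ?_
    ring

/-- The derivatives of the average. -/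
theorem iter_avg {n : ℕ} {z : Fin n → ℂ} (hz : ∀ i, ‖z i‖ ≤ 1) (j : ℕ) {g : ℂ → ℂ}
    (hg : Differentiable ℂ g) :
    iteratedDeriv j (fun x => ∫ X, g (ZZ z x X) ∂mu (n + 1)) =
      fun x => ∫ X, (w0 X : ℂ) ^ j * iteratedDeriv j g (ZZ z x X) ∂mu (n + 1) := by
  induction j with
  | zero => simp
  | succ j ih =>
    rw [iteratedDeriv_succ, ih]
    funext x
    have h := hasDerivAt_avg hz j (entire_iteratedDeriv hg j) x
    rw [h.deriv, iteratedDeriv_succ]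

/-- `n! h(x) = E φ(Z)` for every complex `x`, `φ = (ω h)^{(n)}`. -/
theorem avg_eq {n : ℕ} {z : Fin n → ℂ} (hz : ∀ i, ‖z i‖ ≤ 1) {h : ℂ → ℂ}
    (hh : Differentiable ℂ h) :
    (fun x => ∫ X, iteratedDeriv n (fun w => (∏ i, (w - z i)) * h w) (ZZ z x X) ∂mu (n + 1)) =
      fun x => (n.factorial : ℂ) * h x := by
  have hF : Differentiable ℂ (fun w => (∏ i : Fin n, (w - z i)) * h w) := entire_prod_mul z hh
  have hφ := entire_iteratedDeriv hF n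
  have h1 : Differentiable ℂ (fun x => ∫ X, iteratedDeriv n
      (fun w => (∏ i, (w - z i)) * h w) (ZZ z x X) ∂mu (n + 1)) := by
    intro x
    have := hasDerivAt_avg hz 0 hφ x
    simp only [pow_zero, one_mul] at this
    exact this.differentiableAt
  have h2 : Differentiable ℂ (fun x => (n.factorial : ℂ) * h x) := hh.const_mul _
  have h3 : AnalyticOnNhd ℂ (fun x => ∫ X, iteratedDeriv n
      (fun w => (∏ i, (w - z i)) * h w) (ZZ z x X) ∂mu (n + 1)) univ :=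
    fun x _ => h1.analyticAt x
  have h4 : AnalyticOnNhd ℂ (fun x => (n.factorial : ℂ) * h x) univ := fun x _ => h2.analyticAt x
  apply h3.eq_of_eventuallyEq h4 (z₀ := 0)
  filter_upwards [Metric.ball_mem_nhds (0:ℂ) one_pos] with x hx
  have hx1 : ‖x‖ ≤ 1 := by
    have : ‖x‖ < 1 := by simpa using hx
    exact this.le
  have := hg n (Fin.cons x z : Fin (n + 1) → ℂ) (cons_le hz hx1) h hh
  simp only [Fin.cons_succ, Fin.cons_zero] at this
  exact this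

/-- `n! h^{(j)}(x) = E[w_0^j φ^{(j)}(Z)]`. -/
theorem iter_h {n : ℕ} {z : Fin n → ℂ} (hz : ∀ i, ‖z i‖ ≤ 1) {h : ℂ → ℂ}
    (hh : Differentiable ℂ h) (j : ℕ) (x : ℂ) :
    (n.factorial : ℂ) * iteratedDeriv j h x =
      ∫ X, (w0 X : ℂ) ^ j * iteratedDeriv j
        (iteratedDeriv n (fun w => (∏ i, (w - z i)) * h w)) (ZZ z x X) ∂mu (n + 1) := by
  have hF : Differentiable ℂ (fun w => (∏ i : Fin n, (w - z i)) * h w) := entire_prod_mul z hh
  have h1 := iter_avg hz j (entire_iteratedDeriv hF n)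
  rw [avg_eq hz hh] at h1
  have h2 := congrFun h1 x
  rw [← h2]
  have hc : ContDiffAt ℂ (j : ℕ∞) h x := (hh.contDiff (n := (j : ℕ∞))).contDiffAt
  exact (iteratedDeriv_const_mul (n.factorial : ℂ) (by exact_mod_cast hc)).symm

end Pool.Agent.HStar
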