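import Pool.Agent.HHalf.MIbp
import Pool.Agent.HHalf.MDD

set_option autoImplicit false

namespace Pool.Agent.HStar

open MeasureTheory Set Filter Topology Pool.Agent.HHalf

theorem integrable_nu_half : Integrable (fun x : ℝ => x ^ (-(1/2) : ℝ)) nu := by
  unfold nu
  rw [integrable_withDensity_iff_integrable_smul' nu_meas
    (Eventually.of_forall fun x => ENNReal.ofReal_lt_top)]
  have h := Real.GammaIntegral_convergent (s := 1/2) (by norm_num)
  refine h.congr ?_
  filter_upwards [ae_restrict_mem measurableSet_Ioi] with x hx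
  rw [ENNReal.toReal_ofReal (Real.exp_pos _).le, smul_eq_mul]
  norm_num

/-- `1/T` is integrable (at least two coordinates). -/
theorem integrable_inv_T (n : ℕ) : Integrable (fun X : Fin (n + 2) → ℝ => (TT X)⁻¹)
    (mu (n + 2)) := by
  let f : Fin (n + 2) → ℝ → ℝ := fun i => if i.val < 2 then (fun x : ℝ => x ^ (-(1/2) : ℝ))
    else fun _ => 1
  have hf : ∀ i, Integrable (f i) nu := by
    intro i
    by_cases h : i.val < 2
    · simp only [f, h, if_true]
      exact integrable_nu_half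
    · simp only [f, h, if_false]
      exact integrable_const 1
  have hp : Integrable (fun X : Fin (n + 2) → ℝ => ∏ i, f i (X i)) (mu (n + 2)) := by
    unfold mu
    exact Integrable.fintype_prod hf
  refine hp.mono' (measurable_TT (n + 2)).inv.aestronglyMeasurable ?_
  filter_upwards [mu_pos (n + 2)] with X hX
  have hT : 0 < TT X := TT_pos hX
  rw [Real.norm_of_nonneg (inv_nonneg.2 hT.le)]
  have e : ∏ i, f i (X i) = (X 0) ^ (-(1/2) : ℝ) * (X 1) ^ (-(1/2) : ℝ) := by
    rw [Fin.prod_univ_succ, Fin.prod_univ_succ]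
    have h0 : f 0 (X 0) = (X 0) ^ (-(1/2) : ℝ) := by simp [f]
    have h1 : f (Fin.succ 0) (X (Fin.succ 0)) = (X 1) ^ (-(1/2) : ℝ) := by simp [f]
    have h2 : ∏ i : Fin n, f i.succ.succ (X i.succ.succ) = 1 := by
      apply Finset.prod_eq_one
      intro i _
      simp [f]
    rw [h0, h1, h2, mul_one]
  rw [e, Real.rpow_neg (hX 0).le, Real.rpow_neg (hX 1).le, ← mul_inv]
  have h3 : (X 0) ^ (1/2 : ℝ) * (X 1) ^ (1/2 : ℝ) ≤ TT X := by
    rw [← Real.sqrt_eq_rpow, ← Real.sqrt_eq_rpow]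
    have h4 : X 0 + X 1 ≤ TT X := by
      unfold TT
      rw [Fin.sum_univ_succ, Fin.sum_univ_succ]
      have : 0 ≤ ∑ i : Fin n, X i.succ.succ := Finset.sum_nonneg fun i _ => (hX _).le
      have h5 : X (Fin.succ 0) = X 1 := rfl
      linarith
    nlinarith [Real.sq_sqrt (hX 0).le, Real.sq_sqrt (hX 1).le,
      sq_nonneg (Real.sqrt (X 0) - Real.sqrt (X 1)), Real.sqrt_nonneg (X 0),
      Real.sqrt_nonneg (X 1), mul_nonneg (Real.sqrt_nonneg (X 0)) (Real.sqrt_nonneg (X 1))]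
  apply inv_anti₀ _ h3
  exact mul_pos (Real.rpow_pos_of_pos (hX 0) _) (Real.rpow_pos_of_pos (hX 1) _)

/-- A function bounded by `C / T` is integrable. -/
theorem integrable_of_inv {n : ℕ} {f : (Fin (n + 2) → ℝ) → ℂ} {C : ℝ}
    (hm : AEStronglyMeasurable f (mu (n + 2)))
    (hb : ∀ X, (∀ i, 0 < X i) → ‖f X‖ ≤ C * (TT X)⁻¹) : Integrable f (mu (n + 2)) := by
  refine ((integrable_inv_T n).const_mul C).mono' hm ?_
  filter_upwards [mu_pos (n + 2)] with X hX
  exact hb X hX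

/-- Integration by parts in the coordinate `i`, `f'` only integrable. -/
theorem ibp' {n : ℕ} (i : Fin (n + 1)) {f f' : (Fin (n + 1) → ℝ) → ℂ} {f0 : (Fin n → ℝ) → ℂ}
    {A : ℝ} (hA : 0 ≤ A)
    (hfm : AEStronglyMeasurable f (mu (n + 1))) (hi' : Integrable f' (mu (n + 1)))
    (hb : ∀ X, (∀ i, 0 < X i) → ‖f X‖ ≤ A * (1 + TT X))
    (hd : ∀ y : Fin n → ℝ, (∀ j, 0 < y j) → ∀ x, 0 < x →
      HasDerivAt (fun x => f (ins i x y)) (f' (ins i x y)) x)
    (h0 : ∀ y : Fin n → ℝ, (∀ j, 0 < y j) → Tendsto (fun x => f (ins i x y)) (𝓝[>] 0) (𝓝 (f0 y))) :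
    ∫ X, f X ∂mu (n + 1) = ∫ y, f0 y ∂mu n + ∫ X, f' X ∂mu (n + 1) := by
  have hi : Integrable f (mu (n + 1)) := integrable_of_bd hfm hb
  have hkey : ∫ X, f X ∂mu (n + 1) - ∫ X, f' X ∂mu (n + 1) = ∫ y, f0 y ∂mu n := by
    rw [← integral_sub hi hi', mu_split i (f := fun X => f X - f' X) (hi.sub hi')]
    refine integral_congr_ae ?_
    filter_upwards [mu_split_ae i hi, mu_split_ae i hi', mu_pos n] with y h1 h2 hy
    have hT : 0 ≤ TT y := Finset.sum_nonneg (fun j _ => (hy j).le)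
    have hs := ibp1 (f := fun x => f (ins i x y)) (f' := fun x => f' (ins i x y)) (f0 := f0 y)
      (A := A * (1 + TT y)) (hd y hy) (h0 y hy) (by
        intro x hx
        have hpos : ∀ j, 0 < (ins i x y) j := ins_pos i hx hy
        have h3 := hb _ hpos
        rw [TT_ins] at h3
        refine h3.trans ?_
        rw [mul_assoc]
        refine mul_le_mul_of_nonneg_left ?_ hA
        nlinarith [mul_nonneg hT hx.le]) h2
    rw [integral_sub h1 h2, hs]
    ring
  rw [← hkey]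
  ring

/-- STEIN'S IDENTITY in one coordinate for functions of size `C/T`:
`E[X_i G] = E[G] + E[X_i ∂_i G]`. -/
theorem stein {n : ℕ} (i : Fin (n + 2)) {G G' : (Fin (n + 2) → ℝ) → ℂ} {C C' : ℝ} (hC : 0 ≤ C)
    (hm : AEStronglyMeasurable G (mu (n + 2))) (hm' : AEStronglyMeasurable G' (mu (n + 2)))
    (hb : ∀ X, (∀ i, 0 < X i) → ‖G X‖ ≤ C * (TT X)⁻¹)
    (hb' : ∀ X, (∀ i, 0 < X i) → ‖(X i : ℂ) * G' X‖ ≤ C' * (TT X)⁻¹)
    (hd : ∀ y : Fin (n + 1) → ℝ, (∀ j, 0 < y j) → ∀ x, 0 < x →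
      HasDerivAt (fun x => G (ins i x y)) (G' (ins i x y)) x) :
    ∫ X, (X i : ℂ) * G X ∂mu (n + 2) = ∫ X, G X ∂mu (n + 2) +
      ∫ X, (X i : ℂ) * G' X ∂mu (n + 2) := by
  have hXm : AEStronglyMeasurable (fun X : Fin (n + 2) → ℝ => (X i : ℂ)) (mu (n + 2)) :=
    (Complex.measurable_ofReal.comp (measurable_pi_apply i)).aestronglyMeasurable
  have i1 : Integrable G (mu (n + 2)) := integrable_of_inv hm hb
  have i2 : Integrable (fun X : Fin (n + 2) → ℝ => (X i : ℂ) * G' X) (mu (n + 2)) :=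
    integrable_of_inv (hXm.mul hm') hb'
  have hbX : ∀ X : Fin (n + 2) → ℝ, (∀ i, 0 < X i) → ‖(X i : ℂ) * G X‖ ≤ C * (1 + TT X) := by
    intro X hX
    have hT : 0 < TT X := TT_pos hX
    rw [norm_mul, Complex.norm_real, Real.norm_of_nonneg (hX i).le]
    have h1 := hb X hX
    have h2 := coord_le_TT hX i
    calc X i * ‖G X‖ ≤ TT X * (C * (TT X)⁻¹) := mul_le_mul h2 h1 (norm_nonneg _) hT.le
      _ = C := by field_simp
      _ ≤ C * (1 + TT X) := by nlinarith [mul_nonneg hC hT.le]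
  have hmain := ibp' i (f := fun X => (X i : ℂ) * G X) (f' := fun X => G X + (X i : ℂ) * G' X)
    (f0 := fun _ => 0) hC (hXm.mul hm) (i1.add i2) hbX ?_ ?_
  · rw [hmain, integral_zero, zero_add, integral_add i1 i2]
  · intro y hy x hx
    have h1 : HasDerivAt (fun x : ℝ => ((x : ℝ) : ℂ)) 1 x := by
      simpa using (hasDerivAt_id x).ofReal_comp
    have h2 := h1.mul (hd y hy x hx)
    have e : (fun x : ℝ => (((ins i x y) i : ℝ) : ℂ) * G (ins i x y)) =
        (fun x : ℝ => ((x : ℝ) : ℂ)) * fun x : ℝ => G (ins i x y) := by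
      funext t
      simp only [Pi.mul_apply, ins_same]
    show HasDerivAt (fun x : ℝ => (((ins i x y) i : ℝ) : ℂ) * G (ins i x y)) _ x
    rw [e]
    refine h2.congr_deriv ?_
    simp only [ins_same]
    ring
  · intro y hy
    have hTy : 0 < TT y := TT_pos hy
    rw [tendsto_zero_iff_norm_tendsto_zero]
    have hlim : Tendsto (fun x : ℝ => x * (C * (TT y)⁻¹)) (𝓝[>] 0) (𝓝 0) := by
      have : Tendsto (fun x : ℝ => x * (C * (TT y)⁻¹)) (𝓝 0) (𝓝 (0 * (C * (TT y)⁻¹))) :=
        (continuous_id.mul continuous_const).tendsto 0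
      rw [zero_mul] at this
      exact this.mono_left nhdsWithin_le_nhds
    refine squeeze_zero' (Eventually.of_forall fun _ => norm_nonneg _) ?_ hlim
    filter_upwards [self_mem_nhdsWithin] with x hx
    have hx' : (0 : ℝ) < x := hx
    have hp := ins_pos i hx' hy
    have h1 := hb _ hp
    have hT : TT y ≤ TT (ins i x y) := by rw [TT_ins]; linarith
    rw [norm_mul, ins_same, Complex.norm_real, Real.norm_of_nonneg hx'.le]
    apply mul_le_mul_of_nonneg_left _ hx'.le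
    refine h1.trans (mul_le_mul_of_nonneg_left ?_ hC)
    exact inv_anti₀ hTy hT

end Pool.Agent.HStar
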