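import Pool.Agent.HStar.Gam

set_option autoImplicit false

namespace Pool.Agent.HStar

open MeasureTheory Set Filter Topology Pool.Agent.HHalf ComplexConjugate

/-- `L = ∑ X_i A_i`. -/
noncomputable def LL {n : ℕ} (A : Fin n → ℂ) (X : Fin n → ℝ) : ℂ := ∑ i, (X i : ℂ) * A i

theorem measurable_LL {n : ℕ} (A : Fin n → ℂ) : Measurable (fun X : Fin n → ℝ => LL A X) := by
  unfold LL
  exact Finset.measurable_sum _ fun i _ =>
    (Complex.measurable_ofReal.comp (measurable_pi_apply i)).mul_const _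

theorem LL_re_ge {n : ℕ} {A : Fin n → ℂ} {c : ℝ} (hA : ∀ i, c ≤ (A i).re) {X : Fin n → ℝ}
    (hX : ∀ i, 0 < X i) : c * TT X ≤ (LL A X).re := by
  unfold LL TT
  rw [Complex.re_sum, Finset.mul_sum]
  refine Finset.sum_le_sum fun i _ => ?_
  rw [Complex.re_ofReal_mul, mul_comm]
  exact mul_le_mul_of_nonneg_left (hA i) (hX i).le

theorem norm_LL_ge {n : ℕ} {A : Fin n → ℂ} {c : ℝ} (hA : ∀ i, c ≤ (A i).re) {X : Fin n → ℝ}
    (hX : ∀ i, 0 < X i) : c * TT X ≤ ‖LL A X‖ :=
  (LL_re_ge hA hX).trans (Complex.re_le_norm _)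

theorem LL_ins {n : ℕ} (A : Fin (n + 1) → ℂ) (i : Fin (n + 1)) (x : ℝ) (y : Fin n → ℝ) :
    LL A (ins i x y) = (x : ℂ) * A i + ∑ j, (y j : ℂ) * A (i.succAbove j) := by
  unfold LL
  rw [Fin.sum_univ_succAbove _ i, ins_same]
  congr 1
  exact Finset.sum_congr rfl fun j _ => by rw [ins_succAbove]

theorem hasDerivAt_LL {n : ℕ} (A : Fin (n + 1) → ℂ) (i : Fin (n + 1)) (y : Fin n → ℝ) (x : ℝ) :
    HasDerivAt (fun x : ℝ => LL A (ins i x y)) (A i) x := by
  have e : (fun x : ℝ => LL A (ins i x y)) =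
      fun x : ℝ => (x : ℂ) * A i + ∑ j, (y j : ℂ) * A (i.succAbove j) := by
    funext t; exact LL_ins A i t y
  rw [e]
  have h1 : HasDerivAt (fun x : ℝ => ((x : ℝ) : ℂ)) 1 x := by
    simpa using (hasDerivAt_id x).ofReal_comp
  simpa using (h1.mul_const (A i)).add_const (∑ j, (y j : ℂ) * A (i.succAbove j))

/-- Derivative of `|f|^{-s}`. -/
theorem hasDerivAt_norm_inv {f : ℝ → ℂ} {f' : ℂ} {x : ℝ} (hf : HasDerivAt f f' x) (h0 : f x ≠ 0)
    (s : ℕ) : HasDerivAt (fun t => (‖f t‖ ^ s)⁻¹) (-(s:ℝ) * (‖f x‖ ^ s)⁻¹ * (f' / f x).re) x := by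
  have hn : ‖f x‖ ≠ 0 := norm_ne_zero_iff.2 h0
  have h1 : HasDerivAt (fun t => ‖f t‖ ^ 2) (2 * (f' * conj (f x)).re) x := by
    have := hf.norm_sq
    refine this.congr_deriv ?_
    rw [Complex.inner]
  have h2 : HasDerivAt (fun t => ‖f t‖) ((f' * conj (f x)).re / ‖f x‖) x := by
    have h3 := h1.sqrt (pow_ne_zero 2 hn)
    have e : (fun t => √(‖f t‖ ^ 2)) = fun t => ‖f t‖ := by
      funext t; exact Real.sqrt_sq (norm_nonneg _)
    rw [e] at h3
    refine h3.congr_deriv ?_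
    rw [Real.sqrt_sq (norm_nonneg _)]
    field_simp
  have h4 : (f' / f x).re = (f' * conj (f x)).re / ‖f x‖ ^ 2 := by
    have e : f' / f x = f' * conj (f x) / ((‖f x‖ ^ 2 : ℝ) : ℂ) := by
      rw [← Complex.normSq_eq_norm_sq, ← Complex.mul_conj]
      have hc : conj (f x) ≠ 0 := by rwa [Ne, map_eq_zero]
      field_simp
    rw [e, Complex.div_ofReal_re]
  rw [h4]
  rcases s with _ | s
  · simpa using hasDerivAt_const x (1:ℝ)
  · have h5 := (h2.fun_pow (s + 1)).fun_inv (pow_ne_zero _ hn)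
    refine h5.congr_deriv ?_
    have e : s + 1 - 1 = s := by omega
    rw [e]
    push_cast
    rw [pow_succ ‖f x‖ s]
    field_simp

/-- `G_j = X_0^j / |L|^{j+1}`. -/
noncomputable def GG {n : ℕ} (A : Fin (n + 2) → ℂ) (j : ℕ) (X : Fin (n + 2) → ℝ) : ℝ :=
  (X 0) ^ j * (‖LL A X‖ ^ (j + 1))⁻¹

section

variable {n : ℕ} {A : Fin (n + 2) → ℂ} {c a : ℝ}

theorem GG_nonneg (j : ℕ) {X : Fin (n + 2) → ℝ} (hX : ∀ i, 0 < X i) : 0 ≤ GG A j X := by
  unfold GG
  have := (hX 0).le
  positivity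

theorem GG_le (hc : 0 < c) (hA : ∀ i, c ≤ (A i).re) (j : ℕ) {X : Fin (n + 2) → ℝ}
    (hX : ∀ i, 0 < X i) : GG A j X ≤ (c ^ (j + 1))⁻¹ * (TT X)⁻¹ := by
  have hT : 0 < TT X := TT_pos hX
  have h1 := norm_LL_ge hA hX
  have h2 : (c * TT X) ^ (j + 1) ≤ ‖LL A X‖ ^ (j + 1) := pow_le_pow_left₀ (by positivity) h1 _
  unfold GG
  have h3 : (X 0) ^ j ≤ (TT X) ^ j := pow_le_pow_left₀ (hX 0).le (coord_le_TT hX 0) _
  calc (X 0) ^ j * (‖LL A X‖ ^ (j + 1))⁻¹
      ≤ (TT X) ^ j * ((c * TT X) ^ (j + 1))⁻¹ := by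
        apply mul_le_mul h3 (inv_anti₀ (by positivity) h2) (by positivity) (by positivity)
    _ = (c ^ (j + 1))⁻¹ * (TT X)⁻¹ := by
        rw [mul_pow, pow_succ (TT X) j]
        field_simp

theorem meas_GG (j : ℕ) : Measurable (fun X : Fin (n + 2) → ℝ => GG A j X) := by
  unfold GG
  exact ((measurable_pi_apply 0).pow_const j).mul
    (((measurable_LL A).norm.pow_const (j + 1)).inv)

theorem int_GG (hc : 0 < c) (hA : ∀ i, c ≤ (A i).re) (j : ℕ) :
    Integrable (fun X : Fin (n + 2) → ℝ => GG A j X) (mu (n + 2)) := by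
  refine ((integrable_inv_T n).const_mul (c ^ (j + 1))⁻¹).mono' (meas_GG j).aestronglyMeasurable ?_
  filter_upwards [mu_pos (n + 2)] with X hX
  rw [Real.norm_of_nonneg (GG_nonneg j hX)]
  exact GG_le hc hA j hX

/-- A bounded multiple of `G_j` is integrable. -/
theorem int_GG_mul (hc : 0 < c) (hA : ∀ i, c ≤ (A i).re) (j : ℕ) {b : (Fin (n + 2) → ℝ) → ℝ}
    {B : ℝ} (hbm : Measurable b) (hb : ∀ X, (∀ i, 0 < X i) → |b X| ≤ B) :
    Integrable (fun X : Fin (n + 2) → ℝ => b X * GG A j X) (mu (n + 2)) := by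
  refine ((int_GG hc hA j).const_mul B).mono' (hbm.mul (meas_GG j)).aestronglyMeasurable ?_
  filter_upwards [mu_pos (n + 2)] with X hX
  rw [norm_mul, Real.norm_eq_abs, Real.norm_of_nonneg (GG_nonneg j hX)]
  exact mul_le_mul_of_nonneg_right (hb X hX) (GG_nonneg j hX)

theorem LL_ne (hc : 0 < c) (hA : ∀ i, c ≤ (A i).re) {X : Fin (n + 2) → ℝ}
    (hX : ∀ i, 0 < X i) : LL A X ≠ 0 := by
  have hT : 0 < TT X := TT_pos hX
  have h1 := norm_LL_ge hA hX
  intro h
  rw [h, norm_zero] at h1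
  nlinarith

theorem frac_le (hc : 0 < c) (hA : ∀ i, c ≤ (A i).re) (ha : ∀ i, ‖A i‖ ≤ a)
    {X : Fin (n + 2) → ℝ} (hX : ∀ i, 0 < X i) (i : Fin (n + 2)) :
    ‖(X i : ℂ) * A i / LL A X‖ ≤ a / c := by
  have hT : 0 < TT X := TT_pos hX
  have h1 := norm_LL_ge hA hX
  have h2 := coord_le_TT hX i
  have ha0 : 0 ≤ a := (norm_nonneg _).trans (ha i)
  have hL : 0 < ‖LL A X‖ := norm_pos_iff.2 (LL_ne hc hA hX)
  rw [norm_div, norm_mul, Complex.norm_real, Real.norm_of_nonneg (hX i).le, div_le_div_iff₀ hL hc]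
  calc X i * ‖A i‖ * c ≤ TT X * a * c := by
        apply mul_le_mul_of_nonneg_right _ hc.le
        exact mul_le_mul h2 (ha i) (norm_nonneg _) hT.le
    _ = a * (c * TT X) := by ring
    _ ≤ a * ‖LL A X‖ := mul_le_mul_of_nonneg_left h1 ha0

theorem meas_frac (i : Fin (n + 2)) :
    Measurable (fun X : Fin (n + 2) → ℝ => ((X i : ℂ) * A i / LL A X).re) :=
  Complex.measurable_re.comp
    (((Complex.measurable_ofReal.comp (measurable_pi_apply i)).mul_const _).div (measurable_LL A))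

/-- Stein's identity for `G_j`. -/
theorem stein_GG (hc : 0 < c) (hA : ∀ i, c ≤ (A i).re) (ha : ∀ i, ‖A i‖ ≤ a) (i : Fin (n + 2))
    (j : ℕ) :
    ∫ X, X i * GG A j X ∂mu (n + 2) = (1 + if i = 0 then (j:ℝ) else 0) * ∫ X, GG A j X ∂mu (n + 2) -
      (j + 1) * ∫ X, ((X i : ℂ) * A i / LL A X).re * GG A j X ∂mu (n + 2) := by
  set G' : (Fin (n + 2) → ℝ) → ℝ := fun X =>
    (if i = 0 then (j:ℝ) * (X 0) ^ (j - 1) else 0) * (‖LL A X‖ ^ (j + 1))⁻¹ +
    (X 0) ^ j * (-((j + 1 : ℕ):ℝ) * (‖LL A X‖ ^ (j + 1))⁻¹ * (A i / LL A X).re) with hG'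
  have hG'm : Measurable G' := by
    simp only [hG']
    have h1 : Measurable (fun X : Fin (n + 2) → ℝ => (‖LL A X‖ ^ (j + 1))⁻¹) :=
      ((measurable_LL A).norm.pow_const (j + 1)).inv
    have h2 : Measurable (fun X : Fin (n + 2) → ℝ => (A i / LL A X).re) :=
      Complex.measurable_re.comp (measurable_const.div (measurable_LL A))
    refine Measurable.add (Measurable.mul ?_ h1) (((measurable_pi_apply 0).pow_const j).mul
      ((measurable_const.mul h1).mul h2))
    by_cases hi : i = 0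
    · simp only [hi, if_true]
      exact measurable_const.mul ((measurable_pi_apply 0).pow_const _)
    · simp only [hi, if_false]
      exact measurable_const
  have hval : ∀ X : Fin (n + 2) → ℝ, X i * G' X = (if i = 0 then (j:ℝ) else 0) * GG A j X -
      (j + 1) * (((X i : ℂ) * A i / LL A X).re * GG A j X) := by
    intro X
    have e1 : ((X i : ℂ) * A i / LL A X).re = X i * (A i / LL A X).re := by
      rw [mul_div_assoc, Complex.re_ofReal_mul]
    rw [e1]
    simp only [hG', GG]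
    by_cases hi : i = 0
    · subst hi
      simp only [if_true]
      rcases j with _ | j
      · simp
        ring
      · have : (X 0) ^ (j + 1) = X 0 * (X 0) ^ j := by ring
        rw [Nat.add_sub_cancel, this]
        push_cast
        ring
    · simp only [hi, if_false]
      push_cast
      ring
  have hst := stein i (G := fun X => ((GG A j X : ℝ) : ℂ)) (G' := fun X => ((G' X : ℝ) : ℂ))
    (C := (c ^ (j + 1))⁻¹) (C' := ((j:ℝ) + (j + 1) * (a / c)) * (c ^ (j + 1))⁻¹) (by positivity)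
    (Complex.measurable_ofReal.comp (meas_GG j)).aestronglyMeasurable
    (Complex.measurable_ofReal.comp hG'm).aestronglyMeasurable (by
      intro X hX
      rw [Complex.norm_real, Real.norm_of_nonneg (GG_nonneg j hX)]
      exact GG_le hc hA j hX) (by
      intro X hX
      rw [← Complex.ofReal_mul, Complex.norm_real, hval, Real.norm_eq_abs]
      have h1 := GG_le hc hA j hX
      have h0 := GG_nonneg (A := A) j hX
      have h2 : |((X i : ℂ) * A i / LL A X).re| ≤ a / c :=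
        (Complex.abs_re_le_norm _).trans (frac_le hc hA ha hX i)
      have h3 : |(if i = 0 then (j:ℝ) else 0) * GG A j X| ≤ j * GG A j X := by
        rw [abs_mul, abs_of_nonneg h0]
        apply mul_le_mul_of_nonneg_right _ h0
        by_cases hi : i = 0 <;> simp [hi]
      have h4 : |((j:ℝ) + 1) * (((X i : ℂ) * A i / LL A X).re * GG A j X)| ≤
          (j + 1) * (a / c * GG A j X) := by
        rw [abs_mul, abs_mul, abs_of_nonneg h0, abs_of_nonneg (by positivity : (0:ℝ) ≤ (j:ℝ) + 1)]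
        apply mul_le_mul_of_nonneg_left _ (by positivity)
        exact mul_le_mul_of_nonneg_right h2 h0
      have h5 := abs_sub ((if i = 0 then (j:ℝ) else 0) * GG A j X)
        (((j:ℝ) + 1) * (((X i : ℂ) * A i / LL A X).re * GG A j X))
      have ha0 : 0 ≤ a := (norm_nonneg _).trans (ha i)
      calc _ ≤ j * GG A j X + (j + 1) * (a / c * GG A j X) := h5.trans (add_le_add h3 h4)
        _ = ((j:ℝ) + (j + 1) * (a / c)) * GG A j X := by ring
        _ ≤ ((j:ℝ) + (j + 1) * (a / c)) * ((c ^ (j + 1))⁻¹ * (TT X)⁻¹) :=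
            mul_le_mul_of_nonneg_left h1 (by positivity)
        _ = _ := by ring) (by
      intro y hy x hx
      have hp := ins_pos i hx hy
      have hL := LL_ne hc hA hp
      have h1 := hasDerivAt_norm_inv (hasDerivAt_LL A i y x) hL (j + 1)
      have h2 : HasDerivAt (fun x : ℝ => ((ins i x y) 0) ^ j)
          (if i = 0 then (j:ℝ) * ((ins i x y) 0) ^ (j - 1) else 0) x := by
        by_cases hi : i = 0
        · subst hi
          simp only [ins_same, if_true]
          simpa using hasDerivAt_pow j x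
        · simp only [hi, if_false]
          obtain ⟨l, hl⟩ := Fin.exists_succAbove_eq (Ne.symm hi)
          have : (fun x : ℝ => ((ins i x y) 0) ^ j) = fun _ => (y l) ^ j := by
            funext t
            rw [← hl, ins_succAbove]
          rw [this]
          exact hasDerivAt_const x _
      have h3 := h2.mul h1
      have h4 : HasDerivAt (fun x : ℝ => GG A j (ins i x y)) (G' (ins i x y)) x := by
        refine h3.congr_deriv ?_
        simp only [hG']
      exact h4.ofReal_comp)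
  have e1 : ∫ X, (X i : ℂ) * ((GG A j X : ℝ) : ℂ) ∂mu (n + 2) =
      ((∫ X, X i * GG A j X ∂mu (n + 2) : ℝ) : ℂ) := by
    rw [← integral_complex_ofReal]
    congr 1
    funext X
    push_cast
    ring
  have i1 := int_GG (A := A) hc hA j
  have i2 : Integrable (fun X : Fin (n + 2) → ℝ => ((X i : ℂ) * A i / LL A X).re * GG A j X)
      (mu (n + 2)) := int_GG_mul hc hA j (meas_frac i) (B := a / c) fun X hX =>
      (Complex.abs_re_le_norm _).trans (frac_le hc hA ha hX i)
  have e2 : ∫ X, (X i : ℂ) * ((G' X : ℝ) : ℂ) ∂mu (n + 2) =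
      (((if i = 0 then (j:ℝ) else 0) * ∫ X, GG A j X ∂mu (n + 2) -
      (j + 1) * ∫ X, ((X i : ℂ) * A i / LL A X).re * GG A j X ∂mu (n + 2) : ℝ) : ℂ) := by
    rw [← integral_const_mul, ← integral_const_mul, ← integral_sub (i1.const_mul _)
      (i2.const_mul _), ← integral_complex_ofReal]
    congr 1
    funext X
    rw [← hval]
    push_cast
    ring
  rw [e1, e2, integral_complex_ofReal] at hst
  rw [← Complex.ofReal_add] at hst
  have h6 := Complex.ofReal_injective hst
  rw [h6]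
  ring

end

end Pool.Agent.HStar
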