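import Pool.Agent.HStar.BPCert

set_option autoImplicit false

namespace Pool.Agent.HStar

open MeasureTheory Set Filter Topology Pool.Agent.HHalf ComplexConjugate

section maj

theorem int_TG_sum {n : ℕ} {A : Fin (n + 2) → ℂ} {c : ℝ} (hc : 0 < c) (hA : ∀ i, c ≤ (A i).re)
    (j : ℕ) : Integrable (fun X : Fin (n + 2) → ℝ => TT X * GG A j X) (mu (n + 2)) := by
  have e : ∀ X : Fin (n + 2) → ℝ, TT X * GG A j X = ∑ i, X i * GG A j X := fun X => by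
    unfold TT; rw [Finset.sum_mul]
  simp_rw [e]
  exact integrable_finsetSum _ fun i _ => int_XGG hc hA i j

variable {n : ℕ} {z : Fin (n + 1) → ℂ} {x ξ : ℂ}

/-- The star from a majorant of the polynomial `∑ e_{k-j} η^j` in the modulus of `η`: if
`|∑_{j=1}^k e_{k-j} η^j| ≤ M ∑_{j=1}^J b_j |η|^j` for all complex `η` and `∑ b_j V_j ≤ E V_1`. -/
theorem star_of_maj (hz : ∀ i, ‖z i‖ ≤ 1) (hx : ‖x‖ ≤ 1) (hξ : ‖ξ‖ < 1) {k J : ℕ}
    {e : ℕ → ℝ} {M : ℝ} (hM : 0 ≤ M) {b : ℕ → ℝ} {E : ℝ} {m : ℂ}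
    (hm : (n + 1) * m = 2 * x + ∑ i, z i)
    (hE : 2 * E ≤ (n + 1) * (1 - ‖m‖ ^ 2) - (1 + ‖m‖ ^ 2) / 2 - ‖2 * x + m‖)
    (hmaj : ∀ η : ℂ, ‖∑ j ∈ Finset.range k, ((e (k - (j + 1)) : ℝ) : ℂ) * η ^ (j + 1)‖ ≤
      M * ∑ j ∈ Finset.range J, b (j + 1) * ‖η‖ ^ (j + 1))
    (hb0 : ∀ j, 0 ≤ b j)
    (hmom : ∑ j ∈ Finset.range J, b (j + 1) * VV (AA z x ξ) (j + 1) ≤ E * VV (AA z x ξ) 1) :
    |∑ j ∈ Finset.range k, e (k - (j + 1)) * (2 * (KK z x (j + 1) ξ).re)| ≤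
      M * (2 * (KK z x 0 ξ).re - 1) := by
  have hbp := bp_V1 hz hx hξ hm
  have hV1 := VV_nonneg (A := AA z x ξ) 1
  have hc : 0 < 1 - ‖ξ‖ := by linarith
  have hA := AA_re (ξ := ξ) hz hx
  have hA2 := AA_norm hz hx hξ.le
  -- one integral
  have hKint : ∀ j, Integrable (fun X : Fin (n + 2) → ℝ => (w0 X : ℂ) ^ j *
      (ξ ^ j / (1 - ξ * ZZ z x X) ^ (j + 1))) (mu (n + 2)) := by
    intro j
    refine Integrable.mono' (integrable_const (1 / (1 - ‖ξ‖) ^ (j + 1)))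
      (((measurable_w0c (n + 1)).pow_const j).mul (measurable_const.div ((measurable_const.sub
      (measurable_const.mul (measurable_ZZ z x))).pow_const (j + 1)))).aestronglyMeasurable ?_
    filter_upwards [mu_pos (n + 2)] with X hX
    rw [norm_mul, norm_pow]
    have h1 : ‖(w0 X : ℂ)‖ ^ j ≤ 1 := pow_le_one₀ (norm_nonneg _) (norm_w0_le hX)
    have h2 := norm_kern_le j hξ le_rfl (norm_ZZ_le hz hx hX)
    calc _ ≤ 1 * (1 / (1 - ‖ξ‖) ^ (j + 1)) := mul_le_mul h1 h2 (norm_nonneg _) zero_le_one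
      _ = _ := one_mul _
  have e1 : ∑ j ∈ Finset.range k, e (k - (j + 1)) * (2 * (KK z x (j + 1) ξ).re) =
      2 * (∫ X, ∑ j ∈ Finset.range k, ((e (k - (j + 1)) : ℝ) : ℂ) * ((w0 X : ℂ) ^ (j + 1) *
        (ξ ^ (j + 1) / (1 - ξ * ZZ z x X) ^ (j + 1 + 1))) ∂mu (n + 2)).re := by
    rw [integral_finsetSum _ fun j _ => (hKint (j + 1)).const_mul _, Complex.re_sum,
      Finset.mul_sum]
    refine Finset.sum_congr rfl fun j _ => ?_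
    rw [integral_const_mul, Complex.re_ofReal_mul]
    unfold KK
    ring
  rw [e1, abs_mul, abs_two]
  have hGint := fun j => int_TG_sum (A := AA z x ξ) hc hA j
  have h2 : ‖∫ X, ∑ j ∈ Finset.range k, ((e (k - (j + 1)) : ℝ) : ℂ) * ((w0 X : ℂ) ^ (j + 1) *
        (ξ ^ (j + 1) / (1 - ξ * ZZ z x X) ^ (j + 1 + 1))) ∂mu (n + 2)‖ ≤
      ∫ X, M * ∑ j ∈ Finset.range J, b (j + 1) * (TT X * GG (AA z x ξ) (j + 1) X)
        ∂mu (n + 2) := by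
    refine norm_integral_le_of_norm_le ((integrable_finsetSum _ fun j _ =>
      (hGint (j + 1)).const_mul _).const_mul M) ?_
    filter_upwards [mu_pos (n + 2)] with X hX
    have hT : 0 < TT X := TT_pos hX
    have hden : 1 - ξ * ZZ z x X ≠ 0 := by
      have := norm_one_sub_ge (ξ := ξ) (u := ZZ z x X) le_rfl (norm_ZZ_le hz hx hX)
      exact norm_pos_iff.1 (by linarith)
    have hdn : 0 < ‖1 - ξ * ZZ z x X‖ := norm_pos_iff.2 hden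
    set η : ℂ := (w0 X : ℂ) * ξ / (1 - ξ * ZZ z x X) with hη
    have e2 : ∑ j ∈ Finset.range k, ((e (k - (j + 1)) : ℝ) : ℂ) * ((w0 X : ℂ) ^ (j + 1) *
        (ξ ^ (j + 1) / (1 - ξ * ZZ z x X) ^ (j + 1 + 1))) =
        (1 - ξ * ZZ z x X)⁻¹ * ∑ j ∈ Finset.range k,
          ((e (k - (j + 1)) : ℝ) : ℂ) * η ^ (j + 1) := by
      rw [Finset.mul_sum]
      refine Finset.sum_congr rfl fun j _ => ?_
      rw [hη, div_pow, mul_pow, pow_succ (1 - ξ * ZZ z x X) (j + 1)]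
      field_simp
    rw [e2, norm_mul, norm_inv]
    have h3 := hmaj η
    have h4 : ∀ j, ‖1 - ξ * ZZ z x X‖⁻¹ * ‖η‖ ^ (j + 1) ≤ TT X * GG (AA z x ξ) (j + 1) X := by
      intro j
      have h5 := norm_kern (z := z) (x := x) (ξ := ξ) (j + 1) hX
      have h6 : ‖(w0 X : ℂ) ^ (j + 1) * (ξ ^ (j + 1) / (1 - ξ * ZZ z x X) ^ (j + 1 + 1))‖ =
          ‖1 - ξ * ZZ z x X‖⁻¹ * ‖η‖ ^ (j + 1) := by
        rw [hη, norm_mul, norm_div, norm_pow, norm_pow, norm_pow, norm_div, norm_mul, div_pow,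
          mul_pow, pow_succ ‖1 - ξ * ZZ z x X‖ (j + 1)]
        field_simp
      rw [← h6, h5]
      have h7 : ‖ξ‖ ^ (j + 1) ≤ 1 := pow_le_one₀ (norm_nonneg _) hξ.le
      exact mul_le_of_le_one_left (mul_nonneg hT.le (GG_nonneg _ hX)) h7
    calc ‖1 - ξ * ZZ z x X‖⁻¹ * ‖∑ j ∈ Finset.range k,
          ((e (k - (j + 1)) : ℝ) : ℂ) * η ^ (j + 1)‖
        ≤ ‖1 - ξ * ZZ z x X‖⁻¹ * (M * ∑ j ∈ Finset.range J, b (j + 1) * ‖η‖ ^ (j + 1)) :=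
          mul_le_mul_of_nonneg_left h3 (by positivity)
      _ = M * ∑ j ∈ Finset.range J, b (j + 1) * (‖1 - ξ * ZZ z x X‖⁻¹ * ‖η‖ ^ (j + 1)) := by
          rw [Finset.mul_sum, Finset.mul_sum, Finset.mul_sum]
          exact Finset.sum_congr rfl fun j _ => by ring
      _ ≤ _ := by
          apply mul_le_mul_of_nonneg_left _ hM
          exact Finset.sum_le_sum fun j _ => mul_le_mul_of_nonneg_left (h4 j) (hb0 _)
  have h3 : ∫ X, M * ∑ j ∈ Finset.range J, b (j + 1) * (TT X * GG (AA z x ξ) (j + 1) X)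
        ∂mu (n + 2) = M * ((n + 1) * ∑ j ∈ Finset.range J, b (j + 1) * VV (AA z x ξ) (j + 1)) := by
    rw [integral_const_mul, integral_finsetSum _ fun j _ => (hGint (j + 1)).const_mul _]
    congr 1
    rw [Finset.mul_sum]
    refine Finset.sum_congr rfl fun j _ => ?_
    rw [integral_const_mul, int_T_GG hc hA hA2]
    ring
  rw [h3] at h2
  have h4 := (Complex.abs_re_le_norm _).trans h2
  calc 2 * |_| ≤ 2 * (M * ((n + 1) * ∑ j ∈ Finset.range J, b (j + 1) * VV (AA z x ξ) (j + 1))) :=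
        mul_le_mul_of_nonneg_left h4 (by norm_num)
    _ = M * (2 * (n + 1) * ∑ j ∈ Finset.range J, b (j + 1) * VV (AA z x ξ) (j + 1)) := by ring
    _ ≤ M * (2 * (n + 1) * (E * VV (AA z x ξ) 1)) := by
        apply mul_le_mul_of_nonneg_left _ hM
        exact mul_le_mul_of_nonneg_left hmom (by positivity)
    _ = M * ((2 * E) * ((n + 1) * VV (AA z x ξ) 1)) := by ring
    _ ≤ M * (((n + 1) * (1 - ‖m‖ ^ 2) - (1 + ‖m‖ ^ 2) / 2 - ‖2 * x + m‖) *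
        ((n + 1) * VV (AA z x ξ) 1)) := by
        apply mul_le_mul_of_nonneg_left _ hM
        exact mul_le_mul_of_nonneg_right hE (by positivity)
    _ ≤ _ := mul_le_mul_of_nonneg_left hbp hM

/-- The recurrence `(R')` in the form used by the certificates. -/
theorem VV_rec (hz : ∀ i, ‖z i‖ ≤ 1) (hx : ‖x‖ ≤ 1) (hξ : ‖ξ‖ < 1) {j : ℕ} (hj : 1 ≤ j)
    {D : ℝ} (hD : D ≤ (1 - ξ * x).re + ∑ i, (1 - ξ * z i).re +
      j * (1 - ξ * x).re - ‖2 * (j:ℂ) + 2 - j * (1 - ξ * x)‖) :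
    D * VV (AA z x ξ) j + (j + 1) * ((1 - ξ * x).re * (2 - ‖1 - ξ * x‖)) * VV (AA z x ξ) (j + 1) ≤
      j * VV (AA z x ξ) (j - 1) := by
  have hc : 0 < 1 - ‖ξ‖ := by linarith
  have hA := AA_re (ξ := ξ) hz hx
  have hA2 := AA_norm hz hx hξ.le
  have hS : ∑ i, (AA z x ξ i).re = (1 - ξ * x).re + ∑ i, (1 - ξ * z i).re := by
    rw [Fin.sum_univ_succ, AA_zero]
    congr 1
  obtain ⟨i, rfl⟩ : ∃ i, j = i + 1 := ⟨j - 1, by omega⟩
  have h3 := rec_succ hc hA hA2 i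
  rw [hS, AA_zero] at h3
  have e1 : (i + 1 - 1 : ℕ) = i := by omega
  have e3 : VV (AA z x ξ) (i + 1 + 1) = VV (AA z x ξ) (i + 2) := rfl
  rw [e1, e3]
  push_cast at h3 hD ⊢
  have e4 : (2 * (i:ℂ) + 4 - (i + 1) * (1 - ξ * x)) =
      2 * ((i:ℂ) + 1) + 2 - (i + 1) * (1 - ξ * x) := by ring
  rw [e4] at h3
  have hV := VV_nonneg (A := AA z x ξ) (i + 1)
  have h5 := mul_le_mul_of_nonneg_right hD hV
  nlinarith [h3, h5]

/-- THE CERTIFICATE with a majorant: `|∑_{j=1}^k e_{k-j} η^j| ≤ M ∑_{j=1}^J b_j |η|^j` for all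
complex `η`. -/
theorem certMaj (hz : ∀ i, ‖z i‖ ≤ 1) (hx : ‖x‖ ≤ 1) (hξ : ‖ξ‖ < 1) {k J : ℕ} (hJ : 1 ≤ J)
    {e : ℕ → ℝ} {M : ℝ} (hM : 0 ≤ M) {b lam D : ℕ → ℝ} {E : ℝ} {m : ℂ}
    (hm : (n + 1) * m = 2 * x + ∑ i, z i)
    (hE : 2 * E ≤ (n + 1) * (1 - ‖m‖ ^ 2) - (1 + ‖m‖ ^ 2) / 2 - ‖2 * x + m‖)
    (hD : ∀ j, 2 ≤ j → j ≤ J → D j ≤ (1 - ξ * x).re + ∑ i, (1 - ξ * z i).re +
      j * (1 - ξ * x).re - ‖2 * (j:ℂ) + 2 - j * (1 - ξ * x)‖)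
    (hmaj : ∀ η : ℂ, ‖∑ j ∈ Finset.range k, ((e (k - (j + 1)) : ℝ) : ℂ) * η ^ (j + 1)‖ ≤
      M * ∑ j ∈ Finset.range J, b (j + 1) * ‖η‖ ^ (j + 1))
    (hb0 : ∀ j, 0 ≤ b j)
    (hlam : ∀ j, 0 ≤ lam j) (hlam1 : lam 1 = 0)
    (hb1 : b 1 + 2 * lam 2 ≤ E)
    (hb : ∀ j, 2 ≤ j → j ≤ J → b j + (j + 1) * lam (j + 1) ≤
      lam j * D j + j * ((1 - ξ * x).re * (2 - ‖1 - ξ * x‖)) * lam (j - 1)) :
    |∑ j ∈ Finset.range k, e (k - (j + 1)) * (2 * (KK z x (j + 1) ξ).re)| ≤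
      M * (2 * (KK z x 0 ξ).re - 1) := by
  have hc : 0 < 1 - ‖ξ‖ := by linarith
  have hA := AA_re (ξ := ξ) hz hx
  have hr0 : 0 ≤ (1 - ξ * x).re := by
    have := hA 0
    rw [AA_zero] at this
    linarith
  have hn2 : ‖1 - ξ * x‖ ≤ 2 := by
    have := AA_norm hz hx hξ.le 0
    rwa [AA_zero] at this
  have hδ : 0 ≤ (1 - ξ * x).re * (2 - ‖1 - ξ * x‖) := mul_nonneg hr0 (by linarith)
  exact star_of_maj hz hx hξ hM hm hE hmaj hb0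
    (lp_bound' hJ (V := fun j => VV (AA z x ξ) j) (fun j => VV_nonneg j) hδ hlam hlam1
      (fun j h2 hjJ => VV_rec hz hx hξ (by omega) (hD j h2 hjJ)) hb1 hb)

end maj

end Pool.Agent.HStar
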