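import Pool.Agent.HStar.LForm

set_option autoImplicit false

namespace Pool.Agent.HStar

open MeasureTheory Set Filter Topology Pool.Agent.HHalf ComplexConjugate

/-- `V_j = E[X_0^j / |L|^{j+1}]`. -/
noncomputable def VV {n : ℕ} (A : Fin (n + 2) → ℂ) (j : ℕ) : ℝ := ∫ X, GG A j X ∂mu (n + 2)

section

variable {n : ℕ} {A : Fin (n + 2) → ℂ} {c a : ℝ}

theorem VV_nonneg (j : ℕ) : 0 ≤ VV A j := by
  apply integral_nonneg_of_ae
  filter_upwards [mu_pos (n + 2)] with X hX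
  exact GG_nonneg j hX

theorem int_XGG (hc : 0 < c) (hA : ∀ i, c ≤ (A i).re) (i : Fin (n + 2)) (j : ℕ) :
    Integrable (fun X : Fin (n + 2) → ℝ => X i * GG A j X) (mu (n + 2)) := by
  refine Integrable.mono' (integrable_const ((c ^ (j + 1))⁻¹))
    ((measurable_pi_apply i).mul (meas_GG j)).aestronglyMeasurable ?_
  filter_upwards [mu_pos (n + 2)] with X hX
  have hT : 0 < TT X := TT_pos hX
  rw [norm_mul, Real.norm_of_nonneg (hX i).le, Real.norm_of_nonneg (GG_nonneg j hX)]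
  calc X i * GG A j X ≤ TT X * ((c ^ (j + 1))⁻¹ * (TT X)⁻¹) :=
        mul_le_mul (coord_le_TT hX i) (GG_le hc hA j hX) (GG_nonneg j hX) hT.le
    _ = (c ^ (j + 1))⁻¹ := by field_simp

theorem int_fGG (hc : 0 < c) (hA : ∀ i, c ≤ (A i).re) (ha : ∀ i, ‖A i‖ ≤ a) (i : Fin (n + 2))
    (j : ℕ) : Integrable (fun X : Fin (n + 2) → ℝ => ((X i : ℂ) * A i / LL A X).re * GG A j X)
      (mu (n + 2)) := int_GG_mul hc hA j (meas_frac i) (B := a / c) fun X hX =>
      (Complex.abs_re_le_norm _).trans (frac_le hc hA ha hX i)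

/-- Stein's identity, summed with weights. -/
theorem stein_sum (hc : 0 < c) (hA : ∀ i, c ≤ (A i).re) (ha : ∀ i, ‖A i‖ ≤ a)
    (b : Fin (n + 2) → ℝ) (j : ℕ) :
    ∫ X, (∑ i, b i * X i) * GG A j X ∂mu (n + 2) = (∑ i, b i + j * b 0) * VV A j -
      (j + 1) * ∫ X, (∑ i, b i * ((X i : ℂ) * A i / LL A X).re) * GG A j X ∂mu (n + 2) := by
  have e1 : ∫ X, (∑ i, b i * X i) * GG A j X ∂mu (n + 2) =
      ∑ i, b i * ∫ X, X i * GG A j X ∂mu (n + 2) := by
    simp_rw [Finset.sum_mul, mul_assoc]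
    rw [integral_finsetSum _ fun i _ => (int_XGG hc hA i j).const_mul _]
    exact Finset.sum_congr rfl fun i _ => integral_const_mul _ _
  have e2 : ∫ X, (∑ i, b i * ((X i : ℂ) * A i / LL A X).re) * GG A j X ∂mu (n + 2) =
      ∑ i, b i * ∫ X, ((X i : ℂ) * A i / LL A X).re * GG A j X ∂mu (n + 2) := by
    simp_rw [Finset.sum_mul, mul_assoc]
    rw [integral_finsetSum _ fun i _ => (int_fGG hc hA ha i j).const_mul _]
    exact Finset.sum_congr rfl fun i _ => integral_const_mul _ _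
  rw [e1, e2, Finset.mul_sum, add_mul, Finset.sum_mul]
  have e3 : ∀ i, b i * ∫ X, X i * GG A j X ∂mu (n + 2) =
      b i * VV A j + (if i = 0 then b i * j * VV A j else 0) -
      (j + 1) * (b i * ∫ X, ((X i : ℂ) * A i / LL A X).re * GG A j X ∂mu (n + 2)) := by
    intro i
    rw [stein_GG hc hA ha i j, VV]
    by_cases hi : i = 0
    · simp only [hi, if_true]; ring
    · simp only [hi, if_false]; ring
  rw [Finset.sum_congr rfl fun i _ => e3 i, Finset.sum_sub_distrib, Finset.sum_add_distrib]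
  simp only [Finset.sum_ite_eq', Finset.mem_univ, if_true]
  ring

theorem sum_frac {X : Fin (n + 2) → ℝ} (hL : LL A X ≠ 0) :
    ∑ i, ((X i : ℂ) * A i / LL A X).re = 1 := by
  rw [← Complex.re_sum, ← Finset.sum_div]
  have : ∑ i, (X i : ℂ) * A i = LL A X := rfl
  rw [this, div_self hL, Complex.one_re]

/-- `E[T G_j] = (n + 1) V_j`. -/
theorem int_T_GG (hc : 0 < c) (hA : ∀ i, c ≤ (A i).re) (ha : ∀ i, ‖A i‖ ≤ a) (j : ℕ) :
    ∫ X, TT X * GG A j X ∂mu (n + 2) = (n + 1) * VV A j := by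
  have h := stein_sum hc hA ha (fun _ => 1) j
  simp only [one_mul] at h
  have e1 : ∫ X, TT X * GG A j X ∂mu (n + 2) = ∫ X, (∑ i, X i) * GG A j X ∂mu (n + 2) := rfl
  have e2 : ∫ X, (∑ i, ((X i : ℂ) * A i / LL A X).re) * GG A j X ∂mu (n + 2) = VV A j := by
    refine integral_congr_ae ?_
    filter_upwards [mu_pos (n + 2)] with X hX
    rw [sum_frac (LL_ne hc hA hX), one_mul]
  rw [e1, h, e2]
  simp
  ring

/-- `E[X_0 G_j] = (j+1) V_j - (j+1) E[Re(X_0 A_0/L) G_j]` in the form for `G_{j+1}`: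
`E[|L| G_{j+1}] + (j+1) E[Re(A_0 conj u) G_{j+1}] = (j+1) V_j`, `u = L/|L|`. -/
theorem normL_GG (hc : 0 < c) (hA : ∀ i, c ≤ (A i).re) (ha : ∀ i, ‖A i‖ ≤ a) (j : ℕ) :
    ∫ X, ‖LL A X‖ * GG A (j + 1) X ∂mu (n + 2) = (j + 1) * VV A j -
      (j + 1) * ∫ X, (A 0 * conj (LL A X / ‖LL A X‖)).re * GG A (j + 1) X ∂mu (n + 2) := by
  have h := stein_GG hc hA ha 0 j
  simp only [if_true] at h
  have e1 : ∫ X, ‖LL A X‖ * GG A (j + 1) X ∂mu (n + 2) = ∫ X, X 0 * GG A j X ∂mu (n + 2) := by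
    refine integral_congr_ae ?_
    filter_upwards [mu_pos (n + 2)] with X hX
    have hL : ‖LL A X‖ ≠ 0 := norm_ne_zero_iff.2 (LL_ne hc hA hX)
    unfold GG
    rw [pow_succ ‖LL A X‖ (j + 1), pow_succ (X 0) j]
    field_simp
  have e2 : ∫ X, (A 0 * conj (LL A X / ‖LL A X‖)).re * GG A (j + 1) X ∂mu (n + 2) =
      ∫ X, ((X 0 : ℂ) * A 0 / LL A X).re * GG A j X ∂mu (n + 2) := by
    refine integral_congr_ae ?_
    filter_upwards [mu_pos (n + 2)] with X hX
    have hL0 := LL_ne hc hA hX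
    have hL : ‖LL A X‖ ≠ 0 := norm_ne_zero_iff.2 hL0
    have e3 : ((X 0 : ℂ) * A 0 / LL A X).re = X 0 * ((A 0 * conj (LL A X)).re / ‖LL A X‖ ^ 2) := by
      rw [mul_div_assoc, Complex.re_ofReal_mul]
      congr 1
      have e : A 0 / LL A X = A 0 * conj (LL A X) / ((‖LL A X‖ ^ 2 : ℝ) : ℂ) := by
        rw [← Complex.normSq_eq_norm_sq, ← Complex.mul_conj]
        have hcj : conj (LL A X) ≠ 0 := by rwa [Ne, map_eq_zero]
        field_simp
      rw [e, Complex.div_ofReal_re]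
    have e4 : (A 0 * conj (LL A X / ‖LL A X‖)).re = (A 0 * conj (LL A X)).re / ‖LL A X‖ := by
      rw [map_div₀, Complex.conj_ofReal, ← mul_div_assoc, Complex.div_ofReal_re]
    rw [e3, e4]
    unfold GG
    rw [pow_succ ‖LL A X‖ (j + 1), pow_succ (X 0) j]
    field_simp
  rw [e1, e2, h, VV]
  ring

/-- The pointwise inequality behind the recurrences. -/
theorem point_rec (hA0 : ∀ i, 0 ≤ (A i).re) (h2 : ∀ i, ‖A i‖ ≤ 2)
    {X : Fin (n + 2) → ℝ} (hX : ∀ i, 0 < X i) :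
    ∑ i, (A i).re * ((X i : ℂ) * A i / LL A X).re ≤
      (2 * (LL A X).re - (A 0).re * (2 - ‖A 0‖) * X 0) / ‖LL A X‖ := by
  have e1 : (LL A X).re = ∑ i, X i * (A i).re := by
    unfold LL
    rw [Complex.re_sum]
    exact Finset.sum_congr rfl fun i _ => Complex.re_ofReal_mul _ _
  have h3 : ∀ i, (A i).re * ((X i : ℂ) * A i / LL A X).re ≤
      X i * ((A i).re * ‖A i‖) / ‖LL A X‖ := by
    intro i
    have h4 : ((X i : ℂ) * A i / LL A X).re ≤ X i * ‖A i‖ / ‖LL A X‖ := by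
      refine (Complex.re_le_norm _).trans (le_of_eq ?_)
      rw [norm_div, norm_mul, Complex.norm_real, Real.norm_of_nonneg (hX i).le]
    calc (A i).re * ((X i : ℂ) * A i / LL A X).re ≤ (A i).re * (X i * ‖A i‖ / ‖LL A X‖) :=
          mul_le_mul_of_nonneg_left h4 (hA0 i)
      _ = _ := by ring
  refine (Finset.sum_le_sum fun i _ => h3 i).trans ?_
  rw [← Finset.sum_div]
  apply div_le_div_of_nonneg_right _ (norm_nonneg _)
  rw [e1, Finset.mul_sum, Fin.sum_univ_succ, Fin.sum_univ_succ (f := fun i => 2 * (X i * (A i).re))]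
  have h5 : ∑ i : Fin (n + 1), X i.succ * ((A i.succ).re * ‖A i.succ‖) ≤
      ∑ i : Fin (n + 1), 2 * (X i.succ * (A i.succ).re) := by
    refine Finset.sum_le_sum fun i _ => ?_
    have h6 := mul_nonneg (hX i.succ).le (hA0 i.succ)
    calc X i.succ * ((A i.succ).re * ‖A i.succ‖) = (X i.succ * (A i.succ).re) * ‖A i.succ‖ := by
          ring
      _ ≤ (X i.succ * (A i.succ).re) * 2 := mul_le_mul_of_nonneg_left (h2 _) h6
      _ = _ := by ring
  linarith

theorem meas_u : Measurable (fun X : Fin (n + 2) → ℝ => LL A X / (‖LL A X‖ : ℂ)) :=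
  (measurable_LL A).div (Complex.measurable_ofReal.comp (measurable_LL A).norm)

theorem norm_u (hc : 0 < c) (hA : ∀ i, c ≤ (A i).re) {X : Fin (n + 2) → ℝ}
    (hX : ∀ i, 0 < X i) : ‖LL A X / (‖LL A X‖ : ℂ)‖ = 1 := by
  have hL : ‖LL A X‖ ≠ 0 := norm_ne_zero_iff.2 (LL_ne hc hA hX)
  rw [norm_div, Complex.norm_real, norm_norm, div_self hL]

theorem int_sumf (hc : 0 < c) (hA : ∀ i, c ≤ (A i).re) (ha : ∀ i, ‖A i‖ ≤ a)
    (b : Fin (n + 2) → ℝ) (j : ℕ) :
    Integrable (fun X => (∑ i, b i * ((X i : ℂ) * A i / LL A X).re) * GG A j X) (mu (n + 2)) := by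
  simp_rw [Finset.sum_mul, mul_assoc]
  exact integrable_finsetSum _ fun i _ => (int_fGG hc hA ha i j).const_mul _

theorem int_reu (hc : 0 < c) (hA : ∀ i, c ≤ (A i).re) (j : ℕ) :
    Integrable (fun X => ((LL A X).re / ‖LL A X‖) * GG A j X) (mu (n + 2)) := by
  refine int_GG_mul hc hA j ((Complex.measurable_re.comp (measurable_LL A)).div
    (measurable_LL A).norm) (B := 1) fun X hX => ?_
  rw [abs_div, abs_norm]
  exact div_le_one_of_le₀ (Complex.abs_re_le_norm _) (norm_nonneg _)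

theorem X0_GG (hc : 0 < c) (hA : ∀ i, c ≤ (A i).re) (j : ℕ) {X : Fin (n + 2) → ℝ}
    (hX : ∀ i, 0 < X i) : X 0 / ‖LL A X‖ * GG A j X = GG A (j + 1) X := by
  have hL : ‖LL A X‖ ≠ 0 := norm_ne_zero_iff.2 (LL_ne hc hA hX)
  unfold GG
  rw [pow_succ ‖LL A X‖ (j + 1), pow_succ (X 0) j]
  field_simp

theorem int_reL (hc : 0 < c) (hA : ∀ i, c ≤ (A i).re) (j : ℕ) :
    Integrable (fun X => (LL A X).re * GG A j X) (mu (n + 2)) := by
  have e1 : (fun X : Fin (n + 2) → ℝ => (LL A X).re * GG A j X) =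
      fun X => ∑ i, (A i).re * (X i * GG A j X) := by
    funext X
    unfold LL
    rw [Complex.re_sum, Finset.sum_mul]
    exact Finset.sum_congr rfl fun i _ => by rw [Complex.re_ofReal_mul]; ring
  rw [e1]
  exact integrable_finsetSum _ fun i _ => (int_XGG hc hA i j).const_mul _

/-- First form: `(∑ Re A_i + j Re A_0) V_j + (j+1) δ' V_{j+1} ≤ E[Re L G_j] + 2(j+1) E[cos ψ G_j]`. -/
theorem rec_first (hc : 0 < c) (hA : ∀ i, c ≤ (A i).re) (h2 : ∀ i, ‖A i‖ ≤ 2) (j : ℕ) :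
    (∑ i, (A i).re + j * (A 0).re) * VV A j +
      (j + 1) * ((A 0).re * (2 - ‖A 0‖)) * VV A (j + 1) ≤
    ∫ X, (LL A X).re * GG A j X ∂mu (n + 2) +
      2 * (j + 1) * ∫ X, ((LL A X).re / ‖LL A X‖) * GG A j X ∂mu (n + 2) := by
  have hA0 : ∀ i, 0 ≤ (A i).re := fun i => hc.le.trans (hA i)
  have h := stein_sum hc hA h2 (fun i => (A i).re) j
  have e1 : ∫ X, (∑ i, (A i).re * X i) * GG A j X ∂mu (n + 2) =
      ∫ X, (LL A X).re * GG A j X ∂mu (n + 2) := by
    congr 1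
    funext X
    congr 1
    unfold LL
    rw [Complex.re_sum]
    exact Finset.sum_congr rfl fun i _ => by rw [Complex.re_ofReal_mul]; ring
  rw [e1] at h
  set δ := (A 0).re * (2 - ‖A 0‖) with hδ
  have i1 := int_reu (A := A) hc hA j
  have i2 := int_GG (A := A) hc hA (j + 1)
  have h3 : ∫ X, (∑ i, (A i).re * ((X i : ℂ) * A i / LL A X).re) * GG A j X ∂mu (n + 2) ≤
      ∫ X, (2 * (((LL A X).re / ‖LL A X‖) * GG A j X) - δ * GG A (j + 1) X) ∂mu (n + 2) := by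
    refine integral_mono_ae (int_sumf hc hA h2 _ j) ((i1.const_mul 2).sub (i2.const_mul δ)) ?_
    filter_upwards [mu_pos (n + 2)] with X hX
    have h4 := mul_le_mul_of_nonneg_right (point_rec hA0 h2 hX) (GG_nonneg (A := A) j hX)
    refine h4.trans (le_of_eq ?_)
    rw [← X0_GG hc hA j hX]
    ring
  rw [integral_sub (i1.const_mul 2) (i2.const_mul δ), integral_const_mul, integral_const_mul] at h3
  have h5 := mul_le_mul_of_nonneg_left h3 (by positivity : (0:ℝ) ≤ (j:ℝ) + 1)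
  have e4 : ∫ X, GG A (j + 1) X ∂mu (n + 2) = VV A (j + 1) := rfl
  rw [e4] at h5
  linarith

/-- RECURRENCE (R'): with `Σ = ∑_{all} Re A_i`, `r = Re A_0`, `δ' = r (2 - |A_0|)`,
`(Σ + (j+1) r - |2j + 4 - (j+1) A_0|) V_{j+1} + (j+2) δ' V_{j+2} ≤ (j+1) V_j`. -/
theorem rec_succ (hc : 0 < c) (hA : ∀ i, c ≤ (A i).re) (h2 : ∀ i, ‖A i‖ ≤ 2) (j : ℕ) :
    (∑ i, (A i).re + (j + 1) * (A 0).re - ‖2 * (j:ℂ) + 4 - (j + 1) * A 0‖) * VV A (j + 1) +
      (j + 2) * ((A 0).re * (2 - ‖A 0‖)) * VV A (j + 2) ≤ (j + 1) * VV A j := by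
  have h := rec_first hc hA h2 (j + 1)
  have hn := normL_GG hc hA h2 j
  have i1 := int_reu (A := A) hc hA (j + 1)
  have iL : Integrable (fun X => ‖LL A X‖ * GG A (j + 1) X) (mu (n + 2)) := by
    have := int_XGG hc hA (A := A) 0 j
    refine this.congr ?_
    filter_upwards [mu_pos (n + 2)] with X hX
    have hL : ‖LL A X‖ ≠ 0 := norm_ne_zero_iff.2 (LL_ne hc hA hX)
    rw [← X0_GG hc hA j hX]
    field_simp
  have iU : Integrable (fun X => (A 0 * conj (LL A X / ‖LL A X‖)).re * GG A (j + 1) X)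
      (mu (n + 2)) := by
    refine int_GG_mul hc hA (j + 1) (Complex.measurable_re.comp (measurable_const.mul
      (Complex.continuous_conj.measurable.comp meas_u))) (B := 2) fun X hX => ?_
    refine (Complex.abs_re_le_norm _).trans ?_
    rw [norm_mul, RCLike.norm_conj, norm_u hc hA hX, mul_one]
    exact h2 0
  have h3 : ∫ X, (LL A X).re * GG A (j + 1) X ∂mu (n + 2) ≤
      ∫ X, ‖LL A X‖ * GG A (j + 1) X ∂mu (n + 2) := by
    refine integral_mono_ae (int_reL hc hA (j + 1)) iL ?_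
    filter_upwards [mu_pos (n + 2)] with X hX
    exact mul_le_mul_of_nonneg_right (Complex.re_le_norm _) (GG_nonneg _ hX)
  -- the bracket
  have h4 : 2 * ((j:ℝ) + 2) * ∫ X, ((LL A X).re / ‖LL A X‖) * GG A (j + 1) X ∂mu (n + 2) -
      (j + 1) * ∫ X, (A 0 * conj (LL A X / ‖LL A X‖)).re * GG A (j + 1) X ∂mu (n + 2) ≤
      ‖2 * (j:ℂ) + 4 - (j + 1) * A 0‖ * VV A (j + 1) := by
    have e5 : 2 * ((j:ℝ) + 2) * ∫ X, ((LL A X).re / ‖LL A X‖) * GG A (j + 1) X ∂mu (n + 2) -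
      (j + 1) * ∫ X, (A 0 * conj (LL A X / ‖LL A X‖)).re * GG A (j + 1) X ∂mu (n + 2) =
      ∫ X, (2 * ((j:ℝ) + 2) * (((LL A X).re / ‖LL A X‖) * GG A (j + 1) X) -
        (j + 1) * ((A 0 * conj (LL A X / ‖LL A X‖)).re * GG A (j + 1) X)) ∂mu (n + 2) := by
      rw [integral_sub (i1.const_mul _) (iU.const_mul _), integral_const_mul, integral_const_mul]
    have e6 : ‖2 * (j:ℂ) + 4 - (j + 1) * A 0‖ * VV A (j + 1) =
        ∫ X, ‖2 * (j:ℂ) + 4 - (j + 1) * A 0‖ * GG A (j + 1) X ∂mu (n + 2) := by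
      rw [integral_const_mul]; rfl
    rw [e5, e6]
    refine integral_mono_ae ((i1.const_mul _).sub (iU.const_mul _))
      ((int_GG hc hA (j + 1)).const_mul _) ?_
    filter_upwards [mu_pos (n + 2)] with X hX
    have hg := GG_nonneg (A := A) (j + 1) hX
    set u : ℂ := LL A X / (‖LL A X‖ : ℂ) with hu
    have hu1 : ‖u‖ = 1 := norm_u hc hA hX
    have e7 : (LL A X).re / ‖LL A X‖ = u.re := by
      rw [hu, Complex.div_ofReal_re]
    rw [e7]
    have e8 : 2 * ((j:ℝ) + 2) * u.re - (j + 1) * (A 0 * conj u).re =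
        (u * conj (2 * (j:ℂ) + 4 - (j + 1) * A 0)).re := by
      simp only [map_sub, map_add, map_mul, Complex.conj_natCast, map_one]
      have h2c : conj (2:ℂ) = 2 := Complex.conj_ofNat 2
      have h4c : conj (4:ℂ) = 4 := Complex.conj_ofNat 4
      rw [h2c, h4c]
      simp only [Complex.mul_re, Complex.mul_im, Complex.sub_re, Complex.sub_im, Complex.add_re,
        Complex.add_im, Complex.conj_re, Complex.conj_im, Complex.natCast_re, Complex.natCast_im,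
        Complex.one_re, Complex.one_im, Complex.re_ofNat, Complex.im_ofNat]
      ring
    have h9 : 2 * ((j:ℝ) + 2) * u.re - (j + 1) * (A 0 * conj u).re ≤
        ‖2 * (j:ℂ) + 4 - (j + 1) * A 0‖ := by
      rw [e8]
      refine (Complex.re_le_norm _).trans (le_of_eq ?_)
      rw [norm_mul, hu1, one_mul, RCLike.norm_conj]
    calc 2 * ((j:ℝ) + 2) * (u.re * GG A (j + 1) X) - (j + 1) * ((A 0 * conj u).re * GG A (j + 1) X)
        = (2 * ((j:ℝ) + 2) * u.re - (j + 1) * (A 0 * conj u).re) * GG A (j + 1) X := by ring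
      _ ≤ _ := mul_le_mul_of_nonneg_right h9 hg
  push_cast at h
  have e10 : VV A (j + 1 + 1) = VV A (j + 2) := rfl
  rw [e10] at h
  have e11 : (2:ℝ) * ((j:ℝ) + 1 + 1) = 2 * ((j:ℝ) + 2) := by ring
  rw [e11] at h
  have e12 : ((j:ℝ) + 1 + 1) = (j:ℝ) + 2 := by ring
  rw [e12] at h
  nlinarith [h, h3, h4, hn]

end

end Pool.Agent.HStar
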