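import Pool.Agent.HStar.Base

set_option autoImplicit false

namespace Pool.Agent.HStar

open MeasureTheory Set Filter Topology Pool.Agent.HHalf ComplexConjugate

namespace PF

variable {n : ℕ} {y : Fin (n + 2) → ℂ} {ξ : ℂ}

/-- `F'(Z) = 2ξ/(1-ξZ)^2`. -/
noncomputable def Fp (y : Fin (n + 2) → ℂ) (ξ : ℂ) (X : Fin (n + 2) → ℝ) : ℂ :=
  2 * ξ / (1 - ξ * DD y X) ^ 2

theorem den_ne (hy : ∀ i, ‖y i‖ ≤ 1) (hξ : ‖ξ‖ < 1) {X : Fin (n + 2) → ℝ} (hX : ∀ i, 0 < X i) :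
    1 - ξ * DD y X ≠ 0 := by
  have := den_ge hy ξ hX
  exact norm_pos_iff.1 (by linarith)

theorem Pf_eq (hy : ∀ i, ‖y i‖ ≤ 1) (hξ : ‖ξ‖ < 1) {X : Fin (n + 2) → ℝ} (hX : ∀ i, 0 < X i) :
    Pf y ξ X = (1 - ‖ξ‖ ^ 2 * ‖DD y X‖ ^ 2) / ‖1 - ξ * DD y X‖ ^ 2 := by
  have hne := den_ne hy hξ hX
  have hne2 : ‖1 - ξ * DD y X‖ ^ 2 ≠ 0 := pow_ne_zero _ (norm_ne_zero_iff.2 hne)
  have h1 : ‖ξ‖ ^ 2 * ‖DD y X‖ ^ 2 = ‖ξ * DD y X‖ ^ 2 := by rw [norm_mul, mul_pow]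
  rw [h1]
  set u := ξ * DD y X with hu
  unfold Pf
  rw [← hu]
  have h2 : (2 / (1 - u) - 1).re = 2 * (1 - u.re) / ‖1 - u‖ ^ 2 - 1 := by
    have e : (2:ℂ) / (1 - u) = 2 * conj (1 - u) / ((‖1 - u‖ ^ 2 : ℝ) : ℂ) := by
      rw [← Complex.normSq_eq_norm_sq, ← Complex.mul_conj]
      have hc : conj (1 - u) ≠ 0 := by rwa [Ne, map_eq_zero]
      field_simp
    rw [Complex.sub_re, e, Complex.div_ofReal_re]
    simp
  rw [h2, sub_eq_iff_eq_add, div_eq_iff hne2, add_mul, div_mul_cancel₀ _ hne2, one_mul]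
  have h3 : ‖1 - u‖ ^ 2 = 1 - 2 * u.re + ‖u‖ ^ 2 := by
    rw [← Complex.normSq_eq_norm_sq, ← Complex.normSq_eq_norm_sq, Complex.normSq_apply,
      Complex.normSq_apply]
    simp
    ring
  rw [h3]
  ring

theorem Pf_nonneg (hy : ∀ i, ‖y i‖ ≤ 1) (hξ : ‖ξ‖ < 1) {X : Fin (n + 2) → ℝ}
    (hX : ∀ i, 0 < X i) : 0 ≤ Pf y ξ X := by
  rw [Pf_eq hy hξ hX]
  apply div_nonneg _ (by positivity)
  have h1 : ‖ξ‖ ^ 2 ≤ 1 := pow_le_one₀ (norm_nonneg _) hξ.le
  have h2 : ‖DD y X‖ ^ 2 ≤ 1 := pow_le_one₀ (norm_nonneg _) (norm_DD_le hy hX)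
  nlinarith [sq_nonneg ‖ξ‖, sq_nonneg ‖DD y X‖]

/-- Harnack. -/
theorem harnack (hy : ∀ i, ‖y i‖ ≤ 1) (hξ : ‖ξ‖ < 1) {X : Fin (n + 2) → ℝ}
    (hX : ∀ i, 0 < X i) : ‖Fp y ξ X‖ * Df y X ≤ 2 * Pf y ξ X := by
  have hne := den_ne hy hξ hX
  have hpos : 0 < ‖1 - ξ * DD y X‖ ^ 2 := by
    have := norm_pos_iff.2 hne
    positivity
  rw [Pf_eq hy hξ hX]
  unfold Fp Df
  rw [norm_div, norm_mul, norm_pow, Complex.norm_ofNat, div_mul_eq_mul_div, ← mul_div_assoc]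
  apply div_le_div_of_nonneg_right _ hpos.le
  have h0 := norm_nonneg ξ
  have h1 : 0 ≤ (1 - ‖ξ‖) * (1 + ‖ξ‖ * ‖DD y X‖ ^ 2) := by
    apply mul_nonneg (by linarith)
    positivity
  nlinarith

/-- `E_j = E[ω^j P]`. -/
noncomputable def EE (y : Fin (n + 2) → ℂ) (ξ : ℂ) (j : ℕ) : ℝ :=
  ∫ X, om y X ^ j * Pf y ξ X ∂mu (n + 2)

/-- The partial derivatives of `ω`. -/
noncomputable def omp (y : Fin (n + 2) → ℂ) (i : Fin (n + 2)) (X : Fin (n + 2) → ℝ) : ℝ :=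
  ((e0 i - w0 X) / TT X - om y X * (2 * (df y i X - Df y X) / TT X)) / Df y X

/-- The partial derivatives of `P`. -/
noncomputable def Pp (y : Fin (n + 2) → ℂ) (ξ : ℂ) (i : Fin (n + 2)) (X : Fin (n + 2) → ℝ) : ℝ :=
  (Fp y ξ X * (y i - DD y X)).re / TT X

/-- The partial derivatives of `ω^j P`. -/
noncomputable def Gp (y : Fin (n + 2) → ℂ) (ξ : ℂ) (j : ℕ) (i : Fin (n + 2))
    (X : Fin (n + 2) → ℝ) : ℝ :=
  j * om y X ^ (j - 1) * omp y i X * Pf y ξ X + om y X ^ j * Pp y ξ i X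

theorem dom' (hy : ∀ i, ‖y i‖ ≤ 1) (h0 : ‖y 0‖ < 1) : Deg0 (om y) (omp y) := dom hy h0

theorem dP' (hy : ∀ i, ‖y i‖ ≤ 1) (hξ : ‖ξ‖ < 1) : Deg0 (Pf y ξ) (Pp y ξ) := dP hy hξ

theorem dG (hy : ∀ i, ‖y i‖ ≤ 1) (h0 : ‖y 0‖ < 1) (hξ : ‖ξ‖ < 1) (j : ℕ) :
    Deg0 (fun X => om y X ^ j * Pf y ξ X) (Gp y ξ j) :=
  ((dom' hy h0).pow j).mul (dP' hy hξ)

theorem Xomp (hy : ∀ i, ‖y i‖ ≤ 1) (h0 : ‖y 0‖ < 1) (i : Fin (n + 2)) {X : Fin (n + 2) → ℝ}
    (hX : ∀ i, 0 < X i) : X i * omp y i X = X i / TT X * (e0 i - w0 X) / Df y X -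
      2 * om y X * (X i / TT X * (df y i X - Df y X)) / Df y X := by
  have hT : 0 < TT X := TT_pos hX
  have hD := D_pos hy h0 hX
  unfold omp
  field_simp

theorem Xomp0 (hy : ∀ i, ‖y i‖ ≤ 1) (h0 : ‖y 0‖ < 1) {X : Fin (n + 2) → ℝ}
    (hX : ∀ i, 0 < X i) : X 0 * omp y 0 X = om y X * (1 - w0 X) -
      2 * om y X ^ 2 * (df y 0 X - Df y X) := by
  have hD := D_pos hy h0 hX
  have he0 : e0 (0 : Fin (n + 2)) = 1 := by unfold e0; simp
  have h1 : X 0 / TT X = w0 X := rfl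
  have h2 : w0 X / Df y X = om y X := rfl
  rw [Xomp hy h0 0 hX, he0, h1]
  have h3 : w0 X * (1 - w0 X) / Df y X - 2 * om y X * (w0 X * (df y 0 X - Df y X)) / Df y X =
      (w0 X / Df y X) * (1 - w0 X) - 2 * om y X * (w0 X / Df y X) * (df y 0 X - Df y X) := by ring
  rw [h3, h2]
  ring

theorem bdd_int {f : (Fin (n + 2) → ℝ) → ℝ} (hf : Measurable f) {C : ℝ}
    (hb : ∀ X, (∀ i, 0 < X i) → |f X| ≤ C) : Integrable f (mu (n + 2)) := by
  refine Integrable.mono' (integrable_const C) hf.aestronglyMeasurable ?_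
  filter_upwards [mu_pos (n + 2)] with X hX
  exact hb X hX

/-- A bounded multiple of `ω^j P` is integrable. -/
theorem int_mul (hy : ∀ i, ‖y i‖ ≤ 1) (h0 : ‖y 0‖ < 1) (hξ : ‖ξ‖ < 1) (j : ℕ)
    {f : (Fin (n + 2) → ℝ) → ℝ} (hf : Measurable f) {C : ℝ}
    (hb : ∀ X, (∀ i, 0 < X i) → |f X| ≤ C) :
    Integrable (fun X => om y X ^ j * Pf y ξ X * f X) (mu (n + 2)) := by
  obtain ⟨K, hK⟩ := (dG hy h0 hξ j).bdd
  refine bdd_int ((dG hy h0 hξ j).meas.mul hf) (C := K * C) fun X hX => ?_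
  rw [abs_mul]
  exact mul_le_mul (hK X hX) (hb X hX) (abs_nonneg _) ((abs_nonneg _).trans (hK X hX))

/-- The first bracket. -/
noncomputable def H1 (y : Fin (n + 2) → ℂ) (j : ℕ) (X : Fin (n + 2) → ℝ) : ℝ :=
  (n + 2) * Df y X - j * (Df y X - 2 * df y 0 X) - 2 * ‖y 0 - DD y X‖

/-- The second bracket. -/
noncomputable def H2 (y : Fin (n + 2) → ℂ) (j : ℕ) (X : Fin (n + 2) → ℝ) : ℝ :=
  ∑ i, df y i X + df y 0 X - (n + 2) * Df y X - 2 - 2 * ‖DD y X‖ +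
    j * (df y 0 X + Df y X - 2)

theorem meas_Df : Measurable (Df y) :=
  measurable_const.sub ((measurable_DD y).norm.pow_const 2)

theorem meas_df (i : Fin (n + 2)) : Measurable (df y i) :=
  measurable_const.sub (Complex.measurable_re.comp (measurable_const.mul (measurable_DD y)))

theorem Df_bdd (hy : ∀ i, ‖y i‖ ≤ 1) {X : Fin (n + 2) → ℝ} (hX : ∀ i, 0 < X i) :
    0 ≤ Df y X ∧ Df y X ≤ 1 := by
  have h1 := norm_DD_le hy hX
  have h2 : ‖DD y X‖ ^ 2 ≤ 1 := pow_le_one₀ (norm_nonneg _) h1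
  unfold Df
  constructor
  · linarith
  · linarith [sq_nonneg ‖DD y X‖]

theorem df_bdd (hy : ∀ i, ‖y i‖ ≤ 1) {X : Fin (n + 2) → ℝ} (hX : ∀ i, 0 < X i)
    (i : Fin (n + 2)) : 0 ≤ df y i X ∧ df y i X ≤ 2 := by
  have h1 := norm_DD_le hy hX
  have h2 := δ_nonneg hy X i
  constructor <;> linarith

theorem meas_H1 (j : ℕ) : Measurable (H1 y j) :=
  ((measurable_const.mul meas_Df).sub (measurable_const.mul (meas_Df.sub
    (measurable_const.mul (meas_df 0))))).sub (measurable_const.mul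
    (measurable_const.sub (measurable_DD y)).norm)

theorem meas_H2 (j : ℕ) : Measurable (H2 y j) :=
  (((((Finset.measurable_sum _ fun i _ => meas_df i).add (meas_df 0)).sub
    (measurable_const.mul meas_Df)).sub measurable_const).sub
    (measurable_const.mul (measurable_DD y).norm)).add
    (measurable_const.mul (((meas_df 0).add meas_Df).sub measurable_const))

theorem H1_bdd (hy : ∀ i, ‖y i‖ ≤ 1) (j : ℕ) {X : Fin (n + 2) → ℝ} (hX : ∀ i, 0 < X i) :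
    |H1 y j X| ≤ (n + 2) + j * 4 + 4 := by
  have h1 := Df_bdd hy hX
  have h2 := df_bdd hy hX 0
  have h3 := norm_sub_le (y 0) (DD y X)
  have h4 := norm_DD_le hy hX
  have h5 := hy 0
  have h6 := norm_nonneg (y 0 - DD y X)
  have hj : (0:ℝ) ≤ j := Nat.cast_nonneg j
  have hn : (0:ℝ) ≤ n := Nat.cast_nonneg n
  unfold H1
  rw [abs_le]
  constructor
  · nlinarith [mul_nonneg hj h1.1, mul_nonneg hj h2.1, mul_nonneg hn h1.1,
      mul_le_mul_of_nonneg_left h1.2 hj]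
  · nlinarith [mul_nonneg hj h1.1, mul_le_mul_of_nonneg_left h2.2 hj,
      mul_le_mul_of_nonneg_left h1.2 hn, mul_nonneg hj h2.1]

theorem H2_bdd (hy : ∀ i, ‖y i‖ ≤ 1) (j : ℕ) {X : Fin (n + 2) → ℝ} (hX : ∀ i, 0 < X i) :
    |H2 y j X| ≤ 3 * (n + 2) + j * 4 + 10 := by
  have h1 := Df_bdd hy hX
  have h2 := df_bdd hy hX 0
  have h4 := norm_DD_le hy hX
  have h6 := norm_nonneg (DD y X)
  have hj : (0:ℝ) ≤ j := Nat.cast_nonneg j
  have hn : (0:ℝ) ≤ n := Nat.cast_nonneg n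
  have h7 : ∑ i, df y i X ≤ (n + 2) * 2 := by
    have : ∑ i, df y i X ≤ ∑ _i : Fin (n + 2), (2:ℝ) :=
      Finset.sum_le_sum fun i _ => (df_bdd hy hX i).2
    simpa using this
  have h8 : 0 ≤ ∑ i, df y i X := Finset.sum_nonneg fun i _ => (df_bdd hy hX i).1
  unfold H2
  rw [abs_le]
  constructor
  · nlinarith [mul_nonneg hj h1.1, mul_nonneg hj h2.1, mul_nonneg hn h1.1,
      mul_le_mul_of_nonneg_left h1.2 hn]
  · nlinarith [mul_nonneg hj h1.1, mul_le_mul_of_nonneg_left h2.2 hj,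
      mul_le_mul_of_nonneg_left h1.2 hj, mul_nonneg hn h1.1]

theorem w0_def (X : Fin (n + 2) → ℝ) : w0 X = X 0 / TT X := rfl

theorem jpow (j : ℕ) (t : ℝ) : (j:ℝ) * t ^ (j - 1) * t = j * t ^ j := by
  rcases j with _ | j
  · simp
  · rw [Nat.add_sub_cancel, pow_succ]; ring

theorem int3 {f g h : (Fin (n + 2) → ℝ) → ℝ} (hf : Integrable f (mu (n + 2)))
    (hg : Integrable g (mu (n + 2))) (hh : Integrable h (mu (n + 2))) (a c : ℝ) :
    ∫ X, (a * f X - g X + c * h X) ∂mu (n + 2) =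
      a * ∫ X, f X ∂mu (n + 2) - ∫ X, g X ∂mu (n + 2) + c * ∫ X, h X ∂mu (n + 2) := by
  have h1 : Integrable (fun X => a * f X - g X) (mu (n + 2)) := (hf.const_mul a).sub hg
  rw [integral_add h1 (hh.const_mul c), integral_sub (hf.const_mul a) hg, integral_const_mul,
    integral_const_mul]

/-- Inequality `(h_j)`. -/
theorem hstep (hy : ∀ i, ‖y i‖ ≤ 1) (h0 : ‖y 0‖ < 1) (hξ : ‖ξ‖ < 1) (j : ℕ) :
    ∫ X, om y X ^ (j + 1) * Pf y ξ X * H1 y j X ∂mu (n + 2) ≤ (j + 1) * EE y ξ j := by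
  have hG := dG hy h0 hξ j
  have hs := hG.stein 0
  have he := (dw0.mul hG).intT
  have e1 : ∫ X, TT X * (w0 X * (om y X ^ j * Pf y ξ X)) ∂mu (n + 2) =
      ∫ X, X 0 * (om y X ^ j * Pf y ξ X) ∂mu (n + 2) := by
    refine integral_congr_ae ?_
    filter_upwards [mu_pos (n + 2)] with X hX
    have hT : 0 < TT X := TT_pos hX
    rw [w0_def]
    field_simp
  rw [e1, hs] at he
  have iw := (dw0.mul hG).integrable
  have i1 := hG.integrable' 0
  have i0 := hG.integrable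
  -- pointwise
  have hpt : ∀ X : Fin (n + 2) → ℝ, (∀ i, 0 < X i) →
      om y X ^ (j + 1) * Pf y ξ X * H1 y j X ≤ (n + 2) * (w0 X * (om y X ^ j * Pf y ξ X)) -
        X 0 * Gp y ξ j 0 X + j * (om y X ^ j * Pf y ξ X) := by
    intro X hX
    have hT : 0 < TT X := TT_pos hX
    have hD := D_pos hy h0 hX
    have ho := om_nonneg hy h0 hX
    have hP := Pf_nonneg hy hξ hX
    have hw : w0 X = om y X * Df y X := (om_mul hy h0 hX).symm
    have hH := harnack hy hξ hX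
    have e2 : X 0 * Gp y ξ j 0 X =
        (j * om y X ^ (j - 1) * om y X) * Pf y ξ X * (1 - w0 X -
          2 * om y X * (df y 0 X - Df y X)) +
        om y X ^ j * (om y X * Df y X) * (Fp y ξ X * (y 0 - DD y X)).re := by
      have e3 : X 0 * Gp y ξ j 0 X = j * om y X ^ (j - 1) * (X 0 * omp y 0 X) * Pf y ξ X +
          om y X ^ j * (X 0 / TT X) * (Fp y ξ X * (y 0 - DD y X)).re := by
        unfold Gp Pp; ring
      have h1 : X 0 / TT X = w0 X := rfl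
      rw [e3, Xomp0 hy h0 hX, h1, hw]
      ring
    rw [e2, jpow]
    have h5 : (Fp y ξ X * (y 0 - DD y X)).re ≤ ‖Fp y ξ X‖ * ‖y 0 - DD y X‖ := by
      refine (Complex.re_le_norm _).trans ?_
      rw [norm_mul]
    have h6 : om y X ^ j * (om y X * Df y X) * (Fp y ξ X * (y 0 - DD y X)).re ≤
        om y X ^ (j + 1) * (2 * Pf y ξ X) * ‖y 0 - DD y X‖ := by
      calc om y X ^ j * (om y X * Df y X) * (Fp y ξ X * (y 0 - DD y X)).re
          ≤ om y X ^ j * (om y X * Df y X) * (‖Fp y ξ X‖ * ‖y 0 - DD y X‖) := by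
            apply mul_le_mul_of_nonneg_left h5
            have := hD.le
            positivity
        _ = om y X ^ (j + 1) * (‖Fp y ξ X‖ * Df y X) * ‖y 0 - DD y X‖ := by ring
        _ ≤ _ := by
            apply mul_le_mul_of_nonneg_right _ (norm_nonneg _)
            apply mul_le_mul_of_nonneg_left hH (by positivity)
    rw [hw]
    unfold H1
    have e7 : (n + 2 : ℝ) * (om y X * Df y X * (om y X ^ j * Pf y ξ X)) -
        ((j:ℝ) * om y X ^ j * Pf y ξ X * (1 - om y X * Df y X - 2 * om y X * (df y 0 X - Df y X)) +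
          om y X ^ (j + 1) * (2 * Pf y ξ X) * ‖y 0 - DD y X‖) +
          j * (om y X ^ j * Pf y ξ X) =
        om y X ^ (j + 1) * Pf y ξ X * ((n + 2) * Df y X - j * (Df y X - 2 * df y 0 X) -
          2 * ‖y 0 - DD y X‖) := by ring
    linarith
  have hint1 : Integrable (fun X => om y X ^ (j + 1) * Pf y ξ X * H1 y j X) (mu (n + 2)) :=
    int_mul hy h0 hξ (j + 1) (meas_H1 j) fun X hX => H1_bdd hy j hX
  have hmono := integral_mono_ae hint1 (((iw.const_mul ((n:ℝ) + 2)).sub i1).add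
    (i0.const_mul (j:ℝ))) (by
      filter_upwards [mu_pos (n + 2)] with X hX
      exact hpt X hX)
  refine hmono.trans (le_of_eq ?_)
  have e8 : ∫ X, (((n:ℝ) + 2) * (w0 X * (om y X ^ j * Pf y ξ X)) -
        X 0 * Gp y ξ j 0 X + (j:ℝ) * (om y X ^ j * Pf y ξ X)) ∂mu (n + 2) =
      (n + 2) * ∫ X, w0 X * (om y X ^ j * Pf y ξ X) ∂mu (n + 2) -
      ∫ X, X 0 * Gp y ξ j 0 X ∂mu (n + 2) + j * ∫ X, om y X ^ j * Pf y ξ X ∂mu (n + 2) := by
    exact int3 iw i1 i0 _ _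
  refine (Eq.trans ?_ e8).trans ?_
  · rfl
  · unfold EE
    linarith

/-- `V = ∑ w_i δ_i^2`. -/
noncomputable def Vf (y : Fin (n + 2) → ℂ) (X : Fin (n + 2) → ℝ) : ℝ :=
  ∑ i, X i / TT X * df y i X ^ 2

/-- `A = ∑ w_i δ_i (y_i - Z)`. -/
noncomputable def Af (y : Fin (n + 2) → ℂ) (X : Fin (n + 2) → ℝ) : ℂ :=
  ∑ i, ((X i / TT X * df y i X : ℝ) : ℂ) * (y i - DD y X)

theorem V_le (hy : ∀ i, ‖y i‖ ≤ 1) {X : Fin (n + 2) → ℝ} (hX : ∀ i, 0 < X i) :
    Vf y X ≤ Df y X := by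
  have h1 : ∀ i, X i / TT X * df y i X ^ 2 ≤
      2 * (X i / TT X * df y i X) - X i / TT X * Df y X := by
    intro i
    have h2 := δ_nonneg hy X i
    have h3 := w_nonneg hX i
    have h4 : df y i X ^ 2 ≤ 2 * df y i X - Df y X := by
      unfold Df
      nlinarith [mul_nonneg (sub_nonneg.2 h2.1) (sub_nonneg.2 h2.2)]
    calc X i / TT X * df y i X ^ 2 ≤ X i / TT X * (2 * df y i X - Df y X) :=
          mul_le_mul_of_nonneg_left h4 h3
      _ = _ := by ring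
  have h5 : Vf y X ≤ ∑ i, (2 * (X i / TT X * df y i X) - X i / TT X * Df y X) :=
    Finset.sum_le_sum fun i _ => h1 i
  rw [Finset.sum_sub_distrib, ← Finset.mul_sum, ← Finset.sum_mul, sum_wδ hX, sum_w hX] at h5
  linarith

theorem norm_A_le (hy : ∀ i, ‖y i‖ ≤ 1) {X : Fin (n + 2) → ℝ} (hX : ∀ i, 0 < X i) :
    ‖Af y X‖ ≤ ‖DD y X‖ * Df y X := by
  set ρ := ‖DD y X‖ with hρ
  have hρ1 : ρ ≤ 1 := norm_DD_le hy hX
  have hρ0 : 0 ≤ ρ := norm_nonneg _
  have e1 : Af y X = ∑ i, ((X i / TT X * (df y i X - (1 - ρ)) : ℝ) : ℂ) * (y i - DD y X) := by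
    have h := sum_mul_sub y hX
    have h2 : ∑ i, ((X i / TT X * (df y i X - (1 - ρ)) : ℝ) : ℂ) * (y i - DD y X) =
        Af y X - ((1 - ρ : ℝ) : ℂ) * ∑ i, ((X i / TT X : ℝ) : ℂ) * (y i - DD y X) := by
      unfold Af
      rw [Finset.mul_sum, ← Finset.sum_sub_distrib]
      refine Finset.sum_congr rfl fun i _ => ?_
      push_cast
      ring
    rw [h2, h, mul_zero, sub_zero]
  have h3 : ∀ i, ‖((X i / TT X * (df y i X - (1 - ρ)) : ℝ) : ℂ) * (y i - DD y X)‖ ≤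
      (X i / TT X * df y i X - X i / TT X * (1 - ρ)) * (1 + ρ) := by
    intro i
    have h2 := δ_nonneg hy X i
    rw [← hρ] at h2
    have h4 : 0 ≤ X i / TT X * (df y i X - (1 - ρ)) :=
      mul_nonneg (w_nonneg hX i) (by linarith [h2.1])
    rw [norm_mul, Complex.norm_real, Real.norm_of_nonneg h4]
    have h5 : ‖y i - DD y X‖ ≤ 1 + ρ := by
      have := norm_sub_le (y i) (DD y X)
      have := hy i
      linarith
    calc X i / TT X * (df y i X - (1 - ρ)) * ‖y i - DD y X‖ ≤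
          X i / TT X * (df y i X - (1 - ρ)) * (1 + ρ) := mul_le_mul_of_nonneg_left h5 h4
      _ = _ := by ring
  rw [e1]
  refine (norm_sum_le _ _).trans ((Finset.sum_le_sum fun i _ => h3 i).trans (le_of_eq ?_))
  rw [← Finset.sum_mul, Finset.sum_sub_distrib, ← Finset.sum_mul, sum_wδ hX, sum_w hX]
  unfold Df
  rw [← hρ]
  ring

theorem Q2_le (hy : ∀ i, ‖y i‖ ≤ 1) {X : Fin (n + 2) → ℝ} (hX : ∀ i, 0 < X i) :
    ∑ i, X i / TT X * (conj (y i) * (y i - DD y X)).re ≤ Df y X := by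
  have h1 : ∀ i, X i / TT X * (conj (y i) * (y i - DD y X)).re ≤ X i / TT X * df y i X := by
    intro i
    refine mul_le_mul_of_nonneg_left ?_ (w_nonneg hX i)
    unfold df
    rw [mul_sub, Complex.sub_re]
    have h2 : (conj (y i) * y i).re = ‖y i‖ ^ 2 := by
      rw [mul_comm, Complex.mul_conj, Complex.ofReal_re, Complex.normSq_eq_norm_sq]
    rw [h2]
    have h3 : ‖y i‖ ^ 2 ≤ 1 := pow_le_one₀ (norm_nonneg _) (hy i)
    linarith
  refine (Finset.sum_le_sum fun i _ => h1 i).trans (le_of_eq (sum_wδ hX))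

theorem sum_we {X : Fin (n + 2) → ℝ} (f : Fin (n + 2) → ℝ) :
    ∑ i, X i / TT X * e0 i * f i = w0 X * f 0 := by
  rw [Finset.sum_eq_single 0]
  · unfold e0; simp [w0_def]
  · intro i _ hi
    unfold e0; simp [hi]
  · simp

theorem sum_δomp (hy : ∀ i, ‖y i‖ ≤ 1) (h0 : ‖y 0‖ < 1) {X : Fin (n + 2) → ℝ}
    (hX : ∀ i, 0 < X i) : ∑ i, df y i X * (X i * omp y i X) =
      om y X * (df y 0 X + Df y X - 2 * (Vf y X / Df y X)) := by
  have hD := D_pos hy h0 hX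
  have e1 : ∀ i, df y i X * (X i * omp y i X) =
      (X i / TT X * e0 i * df y i X - w0 X * (X i / TT X * df y i X) -
        2 * om y X * (X i / TT X * df y i X ^ 2 - Df y X * (X i / TT X * df y i X))) /
        Df y X := by
    intro i
    rw [Xomp hy h0 i hX]
    field_simp
  rw [Finset.sum_congr rfl fun i _ => e1 i, ← Finset.sum_div, Finset.sum_sub_distrib,
    Finset.sum_sub_distrib, ← Finset.mul_sum, ← Finset.mul_sum, Finset.sum_sub_distrib,
    ← Finset.mul_sum, sum_wδ hX, sum_we]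
  have hw : w0 X = om y X * Df y X := (om_mul hy h0 hX).symm
  have hV : ∑ i, X i / TT X * df y i X ^ 2 = Vf y X := rfl
  rw [hV, hw]
  field_simp
  ring

/-- The components of the field `(s_j)`. -/
noncomputable def Sg (y : Fin (n + 2) → ℂ) (ξ : ℂ) (j : ℕ) (i : Fin (n + 2))
    (X : Fin (n + 2) → ℝ) : ℝ :=
  (om y X ^ j * Pf y ξ X) * (w0 X - df y i X * om y X)

/-- Their diagonal derivatives. -/
noncomputable def Sgp (y : Fin (n + 2) → ℂ) (ξ : ℂ) (j : ℕ) (i : Fin (n + 2))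
    (l : Fin (n + 2)) (X : Fin (n + 2) → ℝ) : ℝ :=
  Gp y ξ j l X * (w0 X - df y i X * om y X) + (om y X ^ j * Pf y ξ X) *
    ((e0 l - w0 X) / TT X - (-((conj (y i) * (y l - DD y X)).re / TT X) * om y X +
      df y i X * omp y l X))

theorem dS (hy : ∀ i, ‖y i‖ ≤ 1) (h0 : ‖y 0‖ < 1) (hξ : ‖ξ‖ < 1) (j : ℕ) (i : Fin (n + 2)) :
    Deg0 (Sg y ξ j i) (Sgp y ξ j i) :=
  (dG hy h0 hξ j).mul (dw0.sub ((dδ hy i).mul (dom' hy h0)))

/-- Pointwise form of `(s_j)`. -/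
theorem s_point (hy : ∀ i, ‖y i‖ ≤ 1) (h0 : ‖y 0‖ < 1) (hξ : ‖ξ‖ < 1) (j : ℕ)
    {X : Fin (n + 2) → ℝ} (hX : ∀ i, 0 < X i) :
    om y X ^ (j + 1) * Pf y ξ X * H2 y j X ≤ -∑ i, (Sg y ξ j i X + X i * Sgp y ξ j i i X) := by
  have hT : 0 < TT X := TT_pos hX
  have hD := D_pos hy h0 hX
  have ho := om_nonneg hy h0 hX
  have hP := Pf_nonneg hy hξ hX
  have hw : w0 X = om y X * Df y X := (om_mul hy h0 hX).symm
  have hH := harnack hy hξ hX
  set O := om y X * (df y 0 X + Df y X - 2 * (Vf y X / Df y X)) with hO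
  set G := om y X ^ j * Pf y ξ X with hG
  set Q2 := ∑ i, X i / TT X * (conj (y i) * (y i - DD y X)).re with hQ2
  -- sums
  have s1 : ∑ i, Sg y ξ j i X = G * ((n + 2) * w0 X - om y X * ∑ i, df y i X) := by
    unfold Sg
    rw [← hG, ← Finset.mul_sum, Finset.sum_sub_distrib, ← Finset.sum_mul]
    simp only [Finset.sum_const, Finset.card_univ, Fintype.card_fin, nsmul_eq_mul]
    push_cast
    ring
  have s2 : ∑ i, X i * Sgp y ξ j i i X =
      -(om y X) * ((j * om y X ^ (j - 1) * Pf y ξ X) * O + om y X ^ j * (Fp y ξ X * Af y X).re) +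
      G * (om y X * Q2 - O) := by
    have e1 : ∀ i, X i * Sgp y ξ j i i X =
        (j * om y X ^ (j - 1) * Pf y ξ X) * (w0 X * (X i * omp y i X)) +
        om y X ^ j * (w0 X * (X i * Pp y ξ i X)) -
        om y X * ((j * om y X ^ (j - 1) * Pf y ξ X) * (df y i X * (X i * omp y i X))) -
        om y X * (om y X ^ j * (df y i X * (X i * Pp y ξ i X))) +
        G * (X i * ((e0 i - w0 X) / TT X)) +
        G * (om y X * (X i / TT X * (conj (y i) * (y i - DD y X)).re)) -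
        G * (df y i X * (X i * omp y i X)) := by
      intro i
      unfold Sgp Gp
      rw [← hG]
      ring
    rw [Finset.sum_congr rfl fun i _ => e1 i]
    simp only [Finset.sum_sub_distrib, Finset.sum_add_distrib, ← Finset.mul_sum]
    rw [(dom' hy h0).euler X hX, (dP' hy hξ).euler X hX, dw0.euler X hX, sum_δomp hy h0 hX,
      ← hO, ← hQ2]
    have e2 : ∑ i, df y i X * (X i * Pp y ξ i X) = (Fp y ξ X * Af y X).re := by
      unfold Af
      rw [Finset.mul_sum, Complex.re_sum]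
      refine Finset.sum_congr rfl fun i _ => ?_
      have e3 : Fp y ξ X * (((X i / TT X * df y i X : ℝ) : ℂ) * (y i - DD y X)) =
          ((X i / TT X * df y i X : ℝ) : ℂ) * (Fp y ξ X * (y i - DD y X)) := by ring
      rw [e3, Complex.re_ofReal_mul]
      unfold Pp
      ring
    rw [e2]
    ring
  rw [Finset.sum_add_distrib, s1, s2]
  have e4 : -(om y X) * ((j * om y X ^ (j - 1) * Pf y ξ X) * O +
      om y X ^ j * (Fp y ξ X * Af y X).re) =
      -((j * om y X ^ (j - 1) * om y X) * Pf y ξ X * O) -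
        om y X ^ (j + 1) * (Fp y ξ X * Af y X).re := by ring
  rw [e4, jpow]
  -- bounds
  have b1 : Q2 ≤ Df y X := Q2_le hy hX
  have b2 : Vf y X / Df y X ≤ 1 := (div_le_one hD).2 (V_le hy hX)
  have b3 : -(Fp y ξ X * Af y X).re ≤ 2 * ‖DD y X‖ * Pf y ξ X := by
    have h1 : -(Fp y ξ X * Af y X).re ≤ ‖Fp y ξ X‖ * ‖Af y X‖ := by
      rw [← norm_mul]
      exact (neg_le_abs _).trans (Complex.abs_re_le_norm _)
    have h2 := norm_A_le hy hX
    calc -(Fp y ξ X * Af y X).re ≤ ‖Fp y ξ X‖ * (‖DD y X‖ * Df y X) :=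
          h1.trans (mul_le_mul_of_nonneg_left h2 (norm_nonneg _))
      _ = ‖DD y X‖ * (‖Fp y ξ X‖ * Df y X) := by ring
      _ ≤ ‖DD y X‖ * (2 * Pf y ξ X) := mul_le_mul_of_nonneg_left hH (norm_nonneg _)
      _ = _ := by ring
  have hOge : om y X * (df y 0 X + Df y X - 2) ≤ O := by
    rw [hO]
    apply mul_le_mul_of_nonneg_left _ ho
    linarith
  have hj : (0:ℝ) ≤ j := Nat.cast_nonneg j
  have hG0 : 0 ≤ G := by rw [hG]; positivity
  have c1 : G * (om y X * Q2) ≤ G * (om y X * Df y X) :=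
    mul_le_mul_of_nonneg_left (mul_le_mul_of_nonneg_left b1 ho) hG0
  have c2 : G * (om y X * (df y 0 X + Df y X - 2)) ≤ G * O := mul_le_mul_of_nonneg_left hOge hG0
  have c3 : (j:ℝ) * (G * (om y X * (df y 0 X + Df y X - 2))) ≤ j * (G * O) :=
    mul_le_mul_of_nonneg_left c2 hj
  have c4 : om y X ^ (j + 1) * (-(Fp y ξ X * Af y X).re) ≤
      om y X ^ (j + 1) * (2 * ‖DD y X‖ * Pf y ξ X) :=
    mul_le_mul_of_nonneg_left b3 (by positivity)
  have e5 : (j:ℝ) * om y X ^ j * Pf y ξ X * O = j * (G * O) := by rw [hG]; ring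
  rw [e5, hw]
  have e6 : om y X ^ (j + 1) * Pf y ξ X * H2 y j X =
      G * (om y X * (∑ i, df y i X)) + G * (om y X * df y 0 X) -
        G * (om y X * ((n + 2) * Df y X)) - 2 * (G * om y X) -
        om y X ^ (j + 1) * (2 * ‖DD y X‖ * Pf y ξ X) +
        j * (G * (om y X * (df y 0 X + Df y X - 2))) := by
    unfold H2
    rw [hG, pow_succ]
    ring
  rw [e6]
  have e7 : G * (om y X * (df y 0 X + Df y X - 2)) = G * (om y X * df y 0 X) +
      G * (om y X * Df y X) - 2 * (G * om y X) := by ring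
  rw [e7] at c2
  nlinarith [c1, c2, c3, c4]

/-- Inequality `(s_j)`. -/
theorem sstep (hy : ∀ i, ‖y i‖ ≤ 1) (h0 : ‖y 0‖ < 1) (hξ : ‖ξ‖ < 1) (j : ℕ) :
    ∫ X, om y X ^ (j + 1) * Pf y ξ X * H2 y j X ∂mu (n + 2) ≤ 0 := by
  have hS := fun i => dS (ξ := ξ) hy h0 hξ j i
  have hint2 : Integrable (fun X => om y X ^ (j + 1) * Pf y ξ X * H2 y j X) (mu (n + 2)) :=
    int_mul hy h0 hξ (j + 1) (meas_H2 j) fun X hX => H2_bdd hy j hX
  have iSi : ∀ i, Integrable (fun X => Sg y ξ j i X + X i * Sgp y ξ j i i X) (mu (n + 2)) :=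
    fun i => (hS i).integrable.add ((hS i).integrable' i)
  have iS : Integrable (fun X => -∑ i, (Sg y ξ j i X + X i * Sgp y ξ j i i X)) (mu (n + 2)) :=
    (integrable_finsetSum _ fun i _ => iSi i).neg
  have hmono := integral_mono_ae hint2 iS (by
    filter_upwards [mu_pos (n + 2)] with X hX
    exact s_point hy h0 hξ j hX)
  refine hmono.trans (le_of_eq ?_)
  rw [integral_neg, integral_finsetSum _ fun i _ => iSi i]
  have e1 : ∀ i, ∫ X, (Sg y ξ j i X + X i * Sgp y ξ j i i X) ∂mu (n + 2) =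
      ∫ X, X i * Sg y ξ j i X ∂mu (n + 2) := by
    intro i
    rw [integral_add (hS i).integrable ((hS i).integrable' i), (hS i).stein i]
  rw [Finset.sum_congr rfl fun i _ => e1 i, ← integral_finsetSum _ fun i _ => (hS i).integrableX i]
  have e2 : ∫ X, ∑ i, X i * Sg y ξ j i X ∂mu (n + 2) = 0 := by
    rw [← integral_zero (Fin (n + 2) → ℝ) ℝ (μ := mu (n + 2))]
    refine integral_congr_ae ?_
    filter_upwards [mu_pos (n + 2)] with X hX
    have hT : 0 < TT X := TT_pos hX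
    have hw : w0 X = om y X * Df y X := (om_mul hy h0 hX).symm
    have e3 : ∀ i, X i * Sg y ξ j i X = TT X * (om y X ^ j * Pf y ξ X) *
        (w0 X * (X i / TT X) - om y X * (X i / TT X * df y i X)) := by
      intro i
      unfold Sg
      field_simp
    rw [Finset.sum_congr rfl fun i _ => e3 i, ← Finset.mul_sum, Finset.sum_sub_distrib,
      ← Finset.mul_sum, ← Finset.mul_sum, sum_w hX, sum_wδ hX, hw]
    ring
  rw [e2, neg_zero]

/-- THE POLE-FREE STEP. -/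
theorem pf_step (hy : ∀ i, ‖y i‖ ≤ 1) (h0 : ‖y 0‖ < 1) (hξ : ‖ξ‖ < 1) (j : ℕ) {m lam : ℝ}
    (hlam : 0 ≤ lam) (hm : ∀ X : Fin (n + 2) → ℝ, (∀ i, 0 < X i) → m ≤ H1 y j X + lam * H2 y j X) :
    m * EE y ξ (j + 1) ≤ (j + 1) * EE y ξ j := by
  have h1 := hstep hy h0 hξ j
  have h2 := mul_le_mul_of_nonneg_left (sstep hy h0 hξ j) hlam
  rw [mul_zero] at h2
  have i1 : Integrable (fun X => om y X ^ (j + 1) * Pf y ξ X * H1 y j X) (mu (n + 2)) :=
    int_mul hy h0 hξ (j + 1) (meas_H1 j) fun X hX => H1_bdd hy j hX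
  have i2 : Integrable (fun X => om y X ^ (j + 1) * Pf y ξ X * H2 y j X) (mu (n + 2)) :=
    int_mul hy h0 hξ (j + 1) (meas_H2 j) fun X hX => H2_bdd hy j hX
  have i3 := (dG hy h0 hξ (j + 1)).integrable
  have h3 : m * EE y ξ (j + 1) ≤ ∫ X, (om y X ^ (j + 1) * Pf y ξ X * H1 y j X +
      lam * (om y X ^ (j + 1) * Pf y ξ X * H2 y j X)) ∂mu (n + 2) := by
    unfold EE
    rw [← integral_const_mul]
    refine integral_mono_ae (i3.const_mul m) (i1.add (i2.const_mul lam)) ?_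
    filter_upwards [mu_pos (n + 2)] with X hX
    have ho := om_nonneg hy h0 hX
    have hP := Pf_nonneg hy hξ hX
    have h4 := mul_le_mul_of_nonneg_left (hm X hX)
      (by positivity : 0 ≤ om y X ^ (j + 1) * Pf y ξ X)
    calc m * (om y X ^ (j + 1) * Pf y ξ X) = om y X ^ (j + 1) * Pf y ξ X * m := by ring
      _ ≤ om y X ^ (j + 1) * Pf y ξ X * (H1 y j X + lam * H2 y j X) := h4
      _ = _ := by ring
  rw [integral_add i1 (i2.const_mul lam), integral_const_mul] at h3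
  linarith

end PF

end Pool.Agent.HStar
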