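import Pool.Agent.HStar.PCert

set_option autoImplicit false

namespace Pool.Agent.HStar

open MeasureTheory Set Filter Topology Pool.Agent.HHalf ComplexConjugate

namespace PF

variable {n : ℕ} {y : Fin (n + 2) → ℂ} {ξ : ℂ}

/-- The bracket of the combined field. -/
noncomputable def H3 (y : Fin (n + 2) → ℂ) (j : ℕ) (X : Fin (n + 2) → ℝ) : ℝ :=
  2 * ∑ i, df y i X - (n + 2) * Df y X + 2 * df y 0 X - 4 +
    j * (4 * df y 0 X + Df y X - 4) - 2 * (‖DD y X‖ + ‖y 0‖)

/-- `A = -(t Z + s conj Z)/2` with `|s| ≤ t ≤ D`, hence `|D Z + 2 A| ≤ D |Z|`. -/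
theorem norm_DZA_le (hy : ∀ i, ‖y i‖ ≤ 1) {X : Fin (n + 2) → ℝ} (hX : ∀ i, 0 < X i) :
    ‖(Df y X : ℂ) * DD y X + 2 * Af y X‖ ≤ Df y X * ‖DD y X‖ := by
  set Z := DD y X with hZ
  set u : Fin (n + 2) → ℂ := fun i => y i - Z with hu
  set t : ℝ := ∑ i, X i / TT X * ‖u i‖ ^ 2 with ht
  set s : ℂ := ∑ i, ((X i / TT X : ℝ) : ℂ) * u i ^ 2 with hs
  have hsum : ∑ i, ((X i / TT X : ℝ) : ℂ) * u i = 0 := sum_mul_sub y hX
  have hw := fun i => w_nonneg hX i
  have hA : Af y X = -((t : ℂ) * Z + s * conj Z) / 2 := by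
    have e1 : ∀ i, ((X i / TT X * df y i X : ℝ) : ℂ) * (y i - DD y X) =
        ((1 - ‖Z‖ ^ 2 : ℝ) : ℂ) * (((X i / TT X : ℝ) : ℂ) * u i) -
        (((X i / TT X * ‖u i‖ ^ 2 : ℝ) : ℂ) * Z + ((X i / TT X : ℝ) : ℂ) * u i ^ 2 * conj Z) / 2 := by
      intro i
      have e2 : ((df y i X : ℝ) : ℂ) = ((1 - ‖Z‖ ^ 2 : ℝ) : ℂ) -
          (conj (u i) * Z + u i * conj Z) / 2 := by
        have e3 : (((conj (y i) * DD y X).re : ℝ) : ℂ) =
            (conj (y i) * Z + y i * conj Z) / 2 := by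
          rw [Complex.re_eq_add_conj, map_mul, Complex.conj_conj]
        have e4 : (((‖Z‖ ^ 2 : ℝ)) : ℂ) = conj Z * Z := by
          rw [← Complex.normSq_eq_norm_sq, mul_comm, Complex.mul_conj]
        unfold df
        rw [Complex.ofReal_sub, e3, Complex.ofReal_sub, e4]
        simp only [hu, map_sub]
        ring
      have e5 : ((‖u i‖ ^ 2 : ℝ) : ℂ) = u i * conj (u i) := by
        rw [← Complex.normSq_eq_norm_sq, Complex.mul_conj]
      rw [Complex.ofReal_mul, e2, Complex.ofReal_mul, e5]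
      change ((X i / TT X : ℝ) : ℂ) * (((1 - ‖Z‖ ^ 2 : ℝ) : ℂ) -
          (conj (u i) * Z + u i * conj Z) / 2) * u i = _
      ring
    unfold Af
    rw [Finset.sum_congr rfl fun i _ => e1 i, Finset.sum_sub_distrib, ← Finset.mul_sum, hsum,
      ← Finset.sum_div, Finset.sum_add_distrib, ← Finset.sum_mul, ← Finset.sum_mul, ht, hs]
    push_cast
    ring
  have hst : ‖s‖ ≤ t := by
    rw [hs, ht]
    refine (norm_sum_le _ _).trans (Finset.sum_le_sum fun i _ => le_of_eq ?_)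
    rw [norm_mul, norm_pow, Complex.norm_real, Real.norm_of_nonneg (hw i)]
  have htD : t ≤ Df y X := by
    -- t = Q2-type sum
    have h1 := Q2_le hy hX
    have h2 : t = ∑ i, X i / TT X * (conj (y i) * (y i - DD y X)).re := by
      have h3 : (conj Z * ∑ i, ((X i / TT X : ℝ) : ℂ) * u i).re = 0 := by rw [hsum]; simp
      rw [Finset.mul_sum, Complex.re_sum] at h3
      rw [ht, ← sub_eq_zero, ← Finset.sum_sub_distrib, ← neg_eq_zero, ← Finset.sum_neg_distrib,
        ← h3]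
      refine Finset.sum_congr rfl fun i _ => ?_
      have e1 : conj Z * (((X i / TT X : ℝ) : ℂ) * u i) =
          ((X i / TT X : ℝ) : ℂ) * (conj Z * u i) := by ring
      rw [e1, Complex.re_ofReal_mul]
      have e2 : ‖u i‖ ^ 2 = (conj (u i) * u i).re := by
        rw [mul_comm, Complex.mul_conj, Complex.ofReal_re, Complex.normSq_eq_norm_sq]
      rw [e2]
      have e3 : conj (y i) * (y i - DD y X) = conj (u i) * u i + conj Z * u i := by
        simp only [hu, map_sub]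
        ring
      rw [e3, Complex.add_re]
      ring
    rw [h2]; exact h1
  have ht0 : 0 ≤ t := (norm_nonneg _).trans hst
  have e : (Df y X : ℂ) * Z + 2 * Af y X = ((Df y X - t : ℝ) : ℂ) * Z - s * conj Z := by
    rw [hA]
    push_cast
    ring
  rw [e]
  refine (norm_sub_le _ _).trans ?_
  rw [norm_mul, norm_mul, Complex.norm_real, Real.norm_of_nonneg (sub_nonneg.2 htD),
    RCLike.norm_conj]
  nlinarith [norm_nonneg Z, mul_le_mul_of_nonneg_right hst (norm_nonneg Z)]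

theorem meas_H3 (j : ℕ) : Measurable (H3 y j) :=
  (((((measurable_const.mul (Finset.measurable_sum _ fun i _ => meas_df i)).sub
    (measurable_const.mul meas_Df)).add (measurable_const.mul (meas_df 0))).sub
    measurable_const).add (measurable_const.mul (((measurable_const.mul (meas_df 0)).add
    meas_Df).sub measurable_const))).sub (measurable_const.mul
    ((measurable_DD y).norm.add measurable_const))

theorem H3_bdd (hy : ∀ i, ‖y i‖ ≤ 1) (j : ℕ) {X : Fin (n + 2) → ℝ} (hX : ∀ i, 0 < X i) :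
    |H3 y j X| ≤ 5 * (n + 2) + j * 12 + 12 := by
  have h1 := Df_bdd hy hX
  have h2 := df_bdd hy hX 0
  have h4 := norm_DD_le hy hX
  have h6 := norm_nonneg (DD y X)
  have h9 := hy 0
  have h10 := norm_nonneg (y 0)
  have hj : (0:ℝ) ≤ j := Nat.cast_nonneg j
  have hn : (0:ℝ) ≤ n := Nat.cast_nonneg n
  have h7 : ∑ i, df y i X ≤ (n + 2) * 2 := by
    have : ∑ i, df y i X ≤ ∑ _i : Fin (n + 2), (2:ℝ) :=
      Finset.sum_le_sum fun i _ => (df_bdd hy hX i).2
    simpa using this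
  have h8 : 0 ≤ ∑ i, df y i X := Finset.sum_nonneg fun i _ => (df_bdd hy hX i).1
  unfold H3
  rw [abs_le]
  constructor
  · nlinarith [mul_nonneg hj h1.1, mul_nonneg hj h2.1, mul_nonneg hn h1.1,
      mul_le_mul_of_nonneg_left h1.2 hn]
  · nlinarith [mul_nonneg hj h1.1, mul_le_mul_of_nonneg_left h2.2 hj,
      mul_le_mul_of_nonneg_left h1.2 hj, mul_nonneg hn h1.1]

/-- Pointwise form of the combined field. -/
theorem c_point (hy : ∀ i, ‖y i‖ ≤ 1) (h0 : ‖y 0‖ < 1) (hξ : ‖ξ‖ < 1) (j : ℕ)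
    {X : Fin (n + 2) → ℝ} (hX : ∀ i, 0 < X i) :
    om y X ^ (j + 1) * Pf y ξ X * H3 y j X ≤
      ((n + 2) * (w0 X * (om y X ^ j * Pf y ξ X)) - X 0 * Gp y ξ j 0 X +
        j * (om y X ^ j * Pf y ξ X)) - 2 * ∑ i, (Sg y ξ j i X + X i * Sgp y ξ j i i X) := by
  have hT : 0 < TT X := TT_pos hX
  have hD := D_pos hy h0 hX
  have ho := om_nonneg hy h0 hX
  have hP := Pf_nonneg hy hξ hX
  have hw : w0 X = om y X * Df y X := (om_mul hy h0 hX).symm
  have hH := harnack hy hξ hX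
  set O := om y X * (df y 0 X + Df y X - 2 * (Vf y X / Df y X)) with hO
  set G := om y X ^ j * Pf y ξ X with hG
  set Q2 := ∑ i, X i / TT X * (conj (y i) * (y i - DD y X)).re with hQ2
  -- sums
  have s1 : ∑ i, Sg y ξ j i X = G * ((n + 2) * w0 X - om y X * ∑ i, df y i X) := by
    unfold Sg
    rw [← hG, ← Finset.mul_sum, Finset.sum_sub_distrib, ← Finset.sum_mul]
    simp only [Finset.sum_const, Finset.card_univ, Fintype.card_fin, nsmul_eq_mul]
    push_cast
    ring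
  have s2 : ∑ i, X i * Sgp y ξ j i i X =
      -(om y X) * ((j * om y X ^ (j - 1) * Pf y ξ X) * O + om y X ^ j * (Fp y ξ X * Af y X).re) +
      G * (om y X * Q2 - O) := by
    have e1 : ∀ i, X i * Sgp y ξ j i i X =
        (j * om y X ^ (j - 1) * Pf y ξ X) * (w0 X * (X i * omp y i X)) +
        om y X ^ j * (w0 X * (X i * Pp y ξ i X)) -
        om y X * ((j * om y X ^ (j - 1) * Pf y ξ X) * (df y i X * (X i * omp y i X))) -
        om y X * (om y X ^ j * (df y i X * (X i * Pp y ξ i X))) +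
        G * (X i * ((e0 i - w0 X) / TT X)) +
        G * (om y X * (X i / TT X * (conj (y i) * (y i - DD y X)).re)) -
        G * (df y i X * (X i * omp y i X)) := by
      intro i
      unfold Sgp Gp
      rw [← hG]
      ring
    rw [Finset.sum_congr rfl fun i _ => e1 i]
    simp only [Finset.sum_sub_distrib, Finset.sum_add_distrib, ← Finset.mul_sum]
    rw [(dom' hy h0).euler X hX, (dP' hy hξ).euler X hX, dw0.euler X hX, sum_δomp hy h0 hX,
      ← hO, ← hQ2]
    have e2 : ∑ i, df y i X * (X i * Pp y ξ i X) = (Fp y ξ X * Af y X).re := by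
      unfold Af
      rw [Finset.mul_sum, Complex.re_sum]
      refine Finset.sum_congr rfl fun i _ => ?_
      have e3 : Fp y ξ X * (((X i / TT X * df y i X : ℝ) : ℂ) * (y i - DD y X)) =
          ((X i / TT X * df y i X : ℝ) : ℂ) * (Fp y ξ X * (y i - DD y X)) := by ring
      rw [e3, Complex.re_ofReal_mul]
      unfold Pp
      ring
    rw [e2]
    ring
  have s3 : X 0 * Gp y ξ j 0 X =
        (j * om y X ^ (j - 1) * om y X) * Pf y ξ X * (1 - w0 X -
          2 * om y X * (df y 0 X - Df y X)) +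
        om y X ^ j * (om y X * Df y X) * (Fp y ξ X * (y 0 - DD y X)).re := by
    have e3 : X 0 * Gp y ξ j 0 X = j * om y X ^ (j - 1) * (X 0 * omp y 0 X) * Pf y ξ X +
        om y X ^ j * (X 0 / TT X) * (Fp y ξ X * (y 0 - DD y X)).re := by
      unfold Gp Pp; ring
    have h1 : X 0 / TT X = w0 X := rfl
    rw [e3, Xomp0 hy h0 hX, h1, hw]
    ring
  rw [Finset.sum_add_distrib, s1, s2, s3]
  have e4 : -(om y X) * ((j * om y X ^ (j - 1) * Pf y ξ X) * O +
      om y X ^ j * (Fp y ξ X * Af y X).re) =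
      -((j * om y X ^ (j - 1) * om y X) * Pf y ξ X * O) -
        om y X ^ (j + 1) * (Fp y ξ X * Af y X).re := by ring
  rw [e4, jpow]
  -- bounds
  have b1 : Q2 ≤ Df y X := Q2_le hy hX
  have b2 : Vf y X / Df y X ≤ 1 := (div_le_one hD).2 (V_le hy hX)
  have b3 : Df y X * (Fp y ξ X * (y 0 - DD y X)).re - 2 * (Fp y ξ X * Af y X).re ≤
      2 * (‖DD y X‖ + ‖y 0‖) * Pf y ξ X := by
    have e5 : Df y X * (Fp y ξ X * (y 0 - DD y X)).re - 2 * (Fp y ξ X * Af y X).re =
        (Fp y ξ X * ((Df y X : ℂ) * y 0 - ((Df y X : ℂ) * DD y X + 2 * Af y X))).re := by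
      have e6 : Fp y ξ X * ((Df y X : ℂ) * y 0 - ((Df y X : ℂ) * DD y X + 2 * Af y X)) =
          (Df y X : ℂ) * (Fp y ξ X * (y 0 - DD y X)) - ((2:ℝ) : ℂ) * (Fp y ξ X * Af y X) := by
        push_cast
        ring
      rw [e6, Complex.sub_re, Complex.re_ofReal_mul, Complex.re_ofReal_mul]
    have h1 : ‖(Df y X : ℂ) * y 0 - ((Df y X : ℂ) * DD y X + 2 * Af y X)‖ ≤
        Df y X * (‖DD y X‖ + ‖y 0‖) := by
      refine (norm_sub_le _ _).trans ?_
      rw [norm_mul, Complex.norm_real, Real.norm_of_nonneg hD.le]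
      have := norm_DZA_le hy hX
      linarith
    rw [e5]
    refine (Complex.re_le_norm _).trans ?_
    rw [norm_mul]
    calc ‖Fp y ξ X‖ * ‖(Df y X : ℂ) * y 0 - ((Df y X : ℂ) * DD y X + 2 * Af y X)‖
        ≤ ‖Fp y ξ X‖ * (Df y X * (‖DD y X‖ + ‖y 0‖)) :=
          mul_le_mul_of_nonneg_left h1 (norm_nonneg _)
      _ = (‖DD y X‖ + ‖y 0‖) * (‖Fp y ξ X‖ * Df y X) := by ring
      _ ≤ (‖DD y X‖ + ‖y 0‖) * (2 * Pf y ξ X) := mul_le_mul_of_nonneg_left hH (by positivity)
      _ = _ := by ring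
  have hOge : om y X * (df y 0 X + Df y X - 2) ≤ O := by
    rw [hO]
    apply mul_le_mul_of_nonneg_left _ ho
    linarith
  have hj : (0:ℝ) ≤ j := Nat.cast_nonneg j
  have hG0 : 0 ≤ G := by rw [hG]; positivity
  have c1 : G * (om y X * Q2) ≤ G * (om y X * Df y X) :=
    mul_le_mul_of_nonneg_left (mul_le_mul_of_nonneg_left b1 ho) hG0
  have c2 : G * (om y X * (df y 0 X + Df y X - 2)) ≤ G * O := mul_le_mul_of_nonneg_left hOge hG0
  have c3 : (j:ℝ) * (G * (om y X * (df y 0 X + Df y X - 2))) ≤ j * (G * O) :=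
    mul_le_mul_of_nonneg_left c2 hj
  have c4 : om y X ^ (j + 1) * (Df y X * (Fp y ξ X * (y 0 - DD y X)).re -
      2 * (Fp y ξ X * Af y X).re) ≤ om y X ^ (j + 1) * (2 * (‖DD y X‖ + ‖y 0‖) * Pf y ξ X) :=
    mul_le_mul_of_nonneg_left b3 (by positivity)
  have e5 : (j:ℝ) * om y X ^ j * Pf y ξ X * O = j * (G * O) := by rw [hG]; ring
  have e8 : (j:ℝ) * om y X ^ j * Pf y ξ X * (1 - w0 X - 2 * om y X * (df y 0 X - Df y X)) =
      j * G - j * (G * (om y X * Df y X)) - 2 * (j * (G * (om y X * df y 0 X))) +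
        2 * (j * (G * (om y X * Df y X))) := by rw [hG, hw]; ring
  have e9 : om y X ^ j * (om y X * Df y X) * (Fp y ξ X * (y 0 - DD y X)).re =
      om y X ^ (j + 1) * (Df y X * (Fp y ξ X * (y 0 - DD y X)).re) := by ring
  rw [e5, e8, e9, hw]
  have e6 : om y X ^ (j + 1) * Pf y ξ X * H3 y j X =
      2 * (G * (om y X * (∑ i, df y i X))) - G * (om y X * ((n + 2) * Df y X)) +
        2 * (G * (om y X * df y 0 X)) - 4 * (G * om y X) +
        j * (4 * (G * (om y X * df y 0 X)) + G * (om y X * Df y X) - 4 * (G * om y X)) -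
        om y X ^ (j + 1) * (2 * (‖DD y X‖ + ‖y 0‖) * Pf y ξ X) := by
    unfold H3
    rw [hG, pow_succ]
    ring
  rw [e6]
  have e7 : G * (om y X * (df y 0 X + Df y X - 2)) = G * (om y X * df y 0 X) +
      G * (om y X * Df y X) - 2 * (G * om y X) := by ring
  rw [e7] at c2 c3
  nlinarith [c1, c2, c3, c4]

/-- THE POLE-FREE STEP, strong form. -/
theorem pf_step3 (hy : ∀ i, ‖y i‖ ≤ 1) (h0 : ‖y 0‖ < 1) (hξ : ‖ξ‖ < 1) (j : ℕ) {m : ℝ}
    (hm : ∀ X : Fin (n + 2) → ℝ, (∀ i, 0 < X i) → m ≤ H3 y j X) :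
    m * EE y ξ (j + 1) ≤ (j + 1) * EE y ξ j := by
  have hG := dG (ξ := ξ) hy h0 hξ j
  have hs := hG.stein 0
  have he := (dw0.mul hG).intT
  have e1 : ∫ X, TT X * (w0 X * (om y X ^ j * Pf y ξ X)) ∂mu (n + 2) =
      ∫ X, X 0 * (om y X ^ j * Pf y ξ X) ∂mu (n + 2) := by
    refine integral_congr_ae ?_
    filter_upwards [mu_pos (n + 2)] with X hX
    have hT : 0 < TT X := TT_pos hX
    rw [w0_def]
    field_simp
  rw [e1, hs] at he
  have iw := (dw0.mul hG).integrable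
  have i1 := hG.integrable' 0
  have i0 := hG.integrable
  have hS := fun i => dS (ξ := ξ) hy h0 hξ j i
  have iSi : ∀ i, Integrable (fun X => Sg y ξ j i X + X i * Sgp y ξ j i i X) (mu (n + 2)) :=
    fun i => (hS i).integrable.add ((hS i).integrable' i)
  have iS : Integrable (fun X => ∑ i, (Sg y ξ j i X + X i * Sgp y ξ j i i X)) (mu (n + 2)) :=
    integrable_finsetSum _ fun i _ => iSi i
  have hS0 : ∫ X, ∑ i, (Sg y ξ j i X + X i * Sgp y ξ j i i X) ∂mu (n + 2) = 0 := by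
    rw [integral_finsetSum _ fun i _ => iSi i]
    have e1 : ∀ i, ∫ X, (Sg y ξ j i X + X i * Sgp y ξ j i i X) ∂mu (n + 2) =
        ∫ X, X i * Sg y ξ j i X ∂mu (n + 2) := by
      intro i
      rw [integral_add (hS i).integrable ((hS i).integrable' i), (hS i).stein i]
    rw [Finset.sum_congr rfl fun i _ => e1 i,
      ← integral_finsetSum _ fun i _ => (hS i).integrableX i,
      ← integral_zero (Fin (n + 2) → ℝ) ℝ (μ := mu (n + 2))]
    refine integral_congr_ae ?_
    filter_upwards [mu_pos (n + 2)] with X hX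
    have hT : 0 < TT X := TT_pos hX
    have hw : w0 X = om y X * Df y X := (om_mul hy h0 hX).symm
    have e3 : ∀ i, X i * Sg y ξ j i X = TT X * (om y X ^ j * Pf y ξ X) *
        (w0 X * (X i / TT X) - om y X * (X i / TT X * df y i X)) := by
      intro i
      unfold Sg
      field_simp
    rw [Finset.sum_congr rfl fun i _ => e3 i, ← Finset.mul_sum, Finset.sum_sub_distrib,
      ← Finset.mul_sum, ← Finset.mul_sum, sum_w hX, sum_wδ hX, hw]
    ring
  have i3 := (dG (ξ := ξ) hy h0 hξ (j + 1)).integrable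
  have hL : Integrable (fun X => ((n:ℝ) + 2) * (w0 X * (om y X ^ j * Pf y ξ X)) -
      X 0 * Gp y ξ j 0 X + (j:ℝ) * (om y X ^ j * Pf y ξ X)) (mu (n + 2)) :=
    ((iw.const_mul ((n:ℝ) + 2)).sub i1).add (i0.const_mul (j:ℝ))
  have hmono : m * EE y ξ (j + 1) ≤ ∫ X, ((((n:ℝ) + 2) * (w0 X * (om y X ^ j * Pf y ξ X)) -
      X 0 * Gp y ξ j 0 X + (j:ℝ) * (om y X ^ j * Pf y ξ X)) -
      2 * ∑ i, (Sg y ξ j i X + X i * Sgp y ξ j i i X)) ∂mu (n + 2) := by
    unfold EE
    rw [← integral_const_mul]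
    refine integral_mono_ae (i3.const_mul m) (hL.sub (iS.const_mul 2)) ?_
    filter_upwards [mu_pos (n + 2)] with X hX
    have ho := om_nonneg hy h0 hX
    have hP := Pf_nonneg hy hξ hX
    have h4 := mul_le_mul_of_nonneg_left (hm X hX)
      (by positivity : 0 ≤ om y X ^ (j + 1) * Pf y ξ X)
    calc m * (om y X ^ (j + 1) * Pf y ξ X) = om y X ^ (j + 1) * Pf y ξ X * m := by ring
      _ ≤ om y X ^ (j + 1) * Pf y ξ X * H3 y j X := h4
      _ ≤ _ := c_point hy h0 hξ j hX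
  rw [integral_sub hL (iS.const_mul 2), integral_const_mul, hS0, int3 iw i1 i0] at hmono
  unfold EE at hmono ⊢
  linarith

/-- The chain, strong form. -/
theorem EE_chain3 (hy : ∀ i, ‖y i‖ ≤ 1) (h0 : ‖y 0‖ < 1) (hξ : ‖ξ‖ < 1)
    {m : ℕ → ℝ} {k : ℕ} (hm0 : ∀ j < k, 0 < m j)
    (hm : ∀ j < k, ∀ X : Fin (n + 2) → ℝ, (∀ i, 0 < X i) → m j ≤ H3 y j X) :
    ∀ j ≤ k, EE y ξ j ≤ (j.factorial : ℝ) / (∏ i ∈ Finset.range j, m i) * EE y ξ 0 := by
  intro j
  induction j with
  | zero => intro _; simp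
  | succ j ih =>
    intro hj
    have ih' := ih (by omega)
    have h1 := pf_step3 hy h0 hξ j (hm j (by omega))
    have hmj := hm0 j (by omega)
    have hprod : 0 < ∏ i ∈ Finset.range j, m i :=
      Finset.prod_pos fun i hi => hm0 i (by have := Finset.mem_range.1 hi; omega)
    rw [Finset.prod_range_succ, Nat.factorial_succ]
    have h2 : EE y ξ (j + 1) ≤ (j + 1) * EE y ξ j / m j := by
      rw [le_div_iff₀ hmj, mul_comm]; exact h1
    refine h2.trans ?_
    rw [div_le_iff₀ hmj]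
    have h3 : ((j:ℝ) + 1) * EE y ξ j ≤
        (j + 1) * ((j.factorial : ℝ) / (∏ i ∈ Finset.range j, m i) * EE y ξ 0) :=
      mul_le_mul_of_nonneg_left ih' (by positivity)
    refine h3.trans (le_of_eq ?_)
    push_cast
    field_simp

end PF

end Pool.Agent.HStar
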