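import Pool.Agent.HStar.Frame
import Pool.Agent.HHalf.AFinal

set_option autoImplicit false

namespace Pool.Agent.HStar

open MeasureTheory Set Filter Topology Complex ComplexConjugate Real Pool.Agent.HHalf
  Pool.Agent.ConjInterp Function Polynomial

/-- `Q_j(g) = E[w_0^j g^{(j)}(Z) / j!]` for `g(ρ ·)`. -/
noncomputable def QQ {n : ℕ} (z : Fin n → ℂ) (x : ℂ) (j : ℕ) (g : ℂ → ℂ) (ρ : ℝ) : ℂ :=
  ∫ X, (w0 X : ℂ) ^ j * ((ρ:ℂ) ^ j * iteratedDeriv j g (ρ * ZZ z x X) /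
        (j.factorial : ℂ)) ∂mu (n + 1)

section ineq

variable {n : ℕ} {z : Fin n → ℂ} {x : ℂ}

/-- The star inequality for the dilated function. -/
theorem star_dil (hz : ∀ i, ‖z i‖ ≤ 1) (hx : ‖x‖ ≤ 1) {k : ℕ} {e : ℕ → ℝ} {M ρ : ℝ} (h0 : 0 ≤ ρ)
    (hρ : ρ < 1)
    (hstar : ∀ ξ : ℂ, ‖ξ‖ = ρ → |∑ j ∈ Finset.range k, e j * (2 * (KK z x (j + 1) ξ).re)| ≤
      M * (2 * (KK z x 0 ξ).re - 1)) {g : ℂ → ℂ} (hg : Differentiable ℂ g)
    (hre : ∀ w : ℂ, ‖w‖ = 1 → 0 ≤ (g w).re) :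
    |∑ j ∈ Finset.range k, e j * (QQ z x (j + 1) g ρ).re| ≤ M * (QQ z x 0 g ρ).re := by
  obtain ⟨K, hK0, hK⟩ := bd_disc hg.continuous
  have hpi : 0 < 2 * π := by positivity
  set c : ℝ → ℂ := fun θ => ((2 * (g (circleMap 0 1 θ)).re : ℝ) : ℂ) with hc
  have hcg : Continuous (fun θ : ℝ => g (circleMap 0 1 θ)) :=
      hg.continuous.comp (continuous_circleMap 0 1)
  have hcc : Continuous c :=
    Complex.continuous_ofReal.comp (continuous_const.mul (Complex.continuous_re.comp hcg))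
  have hcb : ∀ θ, ‖c θ‖ ≤ 2 * K := by
    intro θ
    simp only [hc]
    rw [Complex.norm_real, Real.norm_eq_abs, abs_mul, abs_two]
    have h1 := (Complex.abs_re_le_norm (g (circleMap 0 1 θ))).trans (hK _ (by simp))
    linarith
  have hii : ∀ j, IntervalIntegrable (fun θ : ℝ => c θ * KK z x j ((ρ:ℂ) * (circleMap 0 1 θ)⁻¹))
      volume 0 (2 * π) := fun j => ii_KK hz hx j h0 hρ hcc hcb
  -- real parts
  have hiir : ∀ j, IntervalIntegrable (fun θ : ℝ => (2 * (g (circleMap 0 1 θ)).re) *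
      (KK z x j ((ρ:ℂ) * (circleMap 0 1 θ)⁻¹)).re) volume 0 (2 * π) := by
    intro j
    have h1 := hii j
    rw [intervalIntegrable_iff] at h1 ⊢
    refine h1.re.congr (Eventually.of_forall fun θ => ?_)
    simp only [hc]
    rw [RCLike.re_eq_complex_re, Complex.re_ofReal_mul]
  have hre1 : ∀ j, ∫ θ in (0:ℝ)..2 * π, (2 * (g (circleMap 0 1 θ)).re) *
      (KK z x j ((ρ:ℂ) * (circleMap 0 1 θ)⁻¹)).re =
      2 * π * ((QQ z x j g ρ).re + if j = 0 then (g 0).re else 0) := by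
    intro j
    have h1 := swap hz hx j hg h0 hρ
    have h2 : (∫ θ in (0:ℝ)..2 * π, c θ * KK z x j ((ρ:ℂ) * (circleMap 0 1 θ)⁻¹)).re =
        ∫ θ in (0:ℝ)..2 * π, (2 * (g (circleMap 0 1 θ)).re) *
      (KK z x j ((ρ:ℂ) * (circleMap 0 1 θ)⁻¹)).re := by
      rw [intervalIntegral.integral_of_le hpi.le, intervalIntegral.integral_of_le hpi.le]
      have h3 := hii j
      rw [intervalIntegrable_iff, uIoc_of_le hpi.le] at h3
      have h4 := integral_re h3
      rw [RCLike.re_eq_complex_re] at h4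
      rw [← h4]
      refine integral_congr_ae (Eventually.of_forall fun θ => ?_)
      simp only [hc]
      rw [Complex.re_ofReal_mul]
    rw [← h2, h1]
    change (2 * (π:ℂ) * (QQ z x j g ρ + _)).re = _
    have h5 : (2 * (π:ℂ)) = ((2 * π : ℝ) : ℂ) := by push_cast; ring
    rw [h5, Complex.re_ofReal_mul, Complex.add_re]
    by_cases hj : j = 0 <;> simp [hj]
  -- mean value
  have hmean : ∫ θ in (0:ℝ)..2 * π, (g (circleMap 0 1 θ)).re = 2 * π * (g 0).re := by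
    have h1 : DiffContOnCl ℂ g (Metric.ball 0 |(1:ℝ)|) := hg.diffContOnCl
    have h2 := h1.circleAverage
    rw [circleAverage_def] at h2
    have h3 : (∫ θ in (0:ℝ)..2 * π, g (circleMap 0 1 θ)) = ((2 * π : ℝ) : ℂ) * g 0 := by
      rw [← h2, Complex.real_smul]
      have h3 : ((2 * π : ℝ) : ℂ) ≠ 0 := by exact_mod_cast hpi.ne'
      push_cast at h3 ⊢
      field_simp
    have h4 : (∫ θ in (0:ℝ)..2 * π, g (circleMap 0 1 θ)).re =
        ∫ θ in (0:ℝ)..2 * π, (g (circleMap 0 1 θ)).re := by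
      rw [intervalIntegral.integral_of_le hpi.le, intervalIntegral.integral_of_le hpi.le]
      have h3 := hcg.intervalIntegrable (μ := volume) 0 (2 * π)
      rw [intervalIntegrable_iff, uIoc_of_le hpi.le] at h3
      have h4 := integral_re h3
      rw [RCLike.re_eq_complex_re] at h4
      exact h4.symm
    rw [← h4, h3, Complex.re_ofReal_mul]
  -- the combination
  set S : ℝ → ℝ := fun θ => ∑ j ∈ Finset.range k,
    e j * (2 * (KK z x (j + 1) ((ρ:ℂ) * (circleMap 0 1 θ)⁻¹)).re) with hS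
  set T : ℝ → ℝ := fun θ => M * (2 * (KK z x 0 ((ρ:ℂ) * (circleMap 0 1 θ)⁻¹)).re - 1) with hT
  have hST : ∀ θ, |S θ| ≤ T θ := by
    intro θ
    apply hstar
    rw [norm_mul, norm_inv, Complex.norm_real, Real.norm_of_nonneg h0]
    simp
  have hg0 : ∀ θ : ℝ, 0 ≤ (g (circleMap 0 1 θ)).re := fun θ => hre _ (by simp)
  have eS : ∀ θ, (g (circleMap 0 1 θ)).re * S θ = ∑ j ∈ Finset.range k,
      e j * ((2 * (g (circleMap 0 1 θ)).re) *
      (KK z x (j + 1) ((ρ:ℂ) * (circleMap 0 1 θ)⁻¹)).re) := by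
    intro θ
    simp only [hS]
    rw [Finset.mul_sum]
    exact Finset.sum_congr rfl fun j _ => by ring
  have eT : ∀ θ, (g (circleMap 0 1 θ)).re * T θ = M * (((2 * (g (circleMap 0 1 θ)).re) *
      (KK z x 0 ((ρ:ℂ) * (circleMap 0 1 θ)⁻¹)).re) - (g (circleMap 0 1 θ)).re) := by
    intro θ
    simp only [hT]
    ring
  have iS : IntervalIntegrable (fun θ => (g (circleMap 0 1 θ)).re * S θ) volume 0 (2 * π) := by
    simp_rw [eS]
    have h1 := IntervalIntegrable.sum (μ := volume) (a := 0) (b := 2 * π) (Finset.range k)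
      (f := fun j θ => e j * (2 * (g (circleMap 0 1 θ)).re *
        (KK z x (j + 1) ((ρ:ℂ) * (circleMap 0 1 θ)⁻¹)).re))
      fun j _ => (hiir (j + 1)).const_mul _
    refine h1.congr ?_
    intro θ _
    simp
  have iT : IntervalIntegrable (fun θ => (g (circleMap 0 1 θ)).re * T θ) volume 0 (2 * π) := by
    simp_rw [eT]
    exact ((hiir 0).sub ((Complex.continuous_re.comp hcg).intervalIntegrable _ _)).const_mul _
  have vS : ∫ θ in (0:ℝ)..2 * π, (g (circleMap 0 1 θ)).re * S θ =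
      2 * π * ∑ j ∈ Finset.range k, e j * (QQ z x (j + 1) g ρ).re := by
    simp_rw [eS]
    rw [intervalIntegral.integral_finsetSum fun j _ => (hiir (j + 1)).const_mul _, Finset.mul_sum]
    refine Finset.sum_congr rfl fun j _ => ?_
    rw [intervalIntegral.integral_const_mul, hre1]
    simp
    ring
  have vT : ∫ θ in (0:ℝ)..2 * π, (g (circleMap 0 1 θ)).re * T θ =
      2 * π * (M * (QQ z x 0 g ρ).re) := by
    simp_rw [eT]
    have hig : IntervalIntegrable (fun θ : ℝ => (g (circleMap 0 1 θ)).re) volume 0 (2 * π) :=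
      (Complex.continuous_re.comp hcg).intervalIntegrable _ _
    rw [intervalIntegral.integral_const_mul, intervalIntegral.integral_sub (hiir 0) hig, hre1,
      hmean]
    simp
    ring
  have h1 : |∫ θ in (0:ℝ)..2 * π, (g (circleMap 0 1 θ)).re * S θ| ≤
      ∫ θ in (0:ℝ)..2 * π, (g (circleMap 0 1 θ)).re * T θ := by
    rw [abs_le]
    constructor
    · rw [← intervalIntegral.integral_neg]
      apply intervalIntegral.integral_mono_on hpi.le iT.neg iS
      intro θ _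
      have h2 := abs_le.1 (hST θ)
      have h3 := mul_le_mul_of_nonneg_left h2.1 (hg0 θ)
      change -((g (circleMap 0 1 θ)).re * T θ) ≤ (g (circleMap 0 1 θ)).re * S θ
      rw [mul_neg] at h3
      exact h3
    · apply intervalIntegral.integral_mono_on hpi.le iS iT
      intro θ _
      have h2 := abs_le.1 (hST θ)
      exact mul_le_mul_of_nonneg_left h2.2 (hg0 θ)
  rw [vS, vT, abs_mul, abs_of_pos hpi] at h1
  exact le_of_mul_le_mul_left h1 hpi

theorem tendsto_QQ (hz : ∀ i, ‖z i‖ ≤ 1) (hx : ‖x‖ ≤ 1) (j : ℕ) {g : ℂ → ℂ}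
    (hg : Differentiable ℂ g) :
    Tendsto (fun ρ : ℝ => QQ z x j g ρ) (𝓝[<] 1) (𝓝 (QQ z x j g 1)) := by
  have hgj := (entire_iteratedDeriv hg j).continuous
  obtain ⟨K, hK0, hK⟩ := bd_disc hgj
  unfold QQ
  refine tendsto_integral_filter_of_dominated_convergence (fun _ => K) ?_ ?_
    (integrable_const K) ?_
  · refine Eventually.of_forall fun ρ => ?_
    exact (meas_wg z x j (g := fun w => (ρ:ℂ) ^ j * iteratedDeriv j g (ρ * w) /
          (j.factorial : ℂ)) (by fun_prop)).aestronglyMeasurable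
  · have h1 : ∀ᶠ ρ : ℝ in 𝓝[<] 1, ρ ∈ Ioo (0:ℝ) 1 := Ioo_mem_nhdsLT zero_lt_one
    filter_upwards [h1] with ρ hρ
    filter_upwards [mu_pos (n + 1)] with X hX
    have hu : ‖(ρ:ℂ) * ZZ z x X‖ ≤ 1 := by
      rw [norm_mul, Complex.norm_real, Real.norm_of_nonneg hρ.1.le]
      have := norm_ZZ_le hz hx hX
      nlinarith [norm_nonneg (ZZ z x X), hρ.1, hρ.2]
    rw [norm_mul, norm_div, norm_mul, norm_pow, norm_pow]
    have h2 : ‖(w0 X : ℂ)‖ ^ j ≤ 1 := pow_le_one₀ (norm_nonneg _) (norm_w0_le hX)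
    have h3 : ‖(ρ:ℂ)‖ ^ j ≤ 1 := by
      apply pow_le_one₀ (norm_nonneg _)
      rw [Complex.norm_real, Real.norm_of_nonneg hρ.1.le]
      exact hρ.2.le
    have h4 : (1:ℝ) ≤ ‖(j.factorial : ℂ)‖ := by
      rw [Complex.norm_natCast]
      exact_mod_cast Nat.one_le_iff_ne_zero.2 j.factorial_ne_zero
    have h5 := hK _ hu
    calc ‖(w0 X : ℂ)‖ ^ j * (‖(ρ:ℂ)‖ ^ j * ‖iteratedDeriv j g (ρ * ZZ z x X)‖ /
          ‖(j.factorial : ℂ)‖)
        ≤ 1 * (1 * K / 1) := by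
          apply mul_le_mul h2 _ (by positivity) zero_le_one
          apply div_le_div₀ (by linarith) _ zero_lt_one h4
          exact mul_le_mul h3 h5 (norm_nonneg _) zero_le_one
      _ = K := by ring
  · refine Eventually.of_forall fun X => ?_
    apply Tendsto.mono_left _ nhdsWithin_le_nhds
    have : Continuous (fun ρ : ℝ => (w0 X : ℂ) ^ j * ((ρ:ℂ) ^ j *
        iteratedDeriv j g (ρ * ZZ z x X) / (j.factorial : ℂ))) := by
      have h1 : Continuous (fun ρ : ℝ => (ρ:ℂ)) := Complex.continuous_ofReal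
      exact continuous_const.mul (((h1.pow j).mul (hgj.comp (h1.mul continuous_const))).div_const _)
    exact this.tendsto 1

/-- The star inequality for functions with nonnegative real part. -/
theorem star_re (hz : ∀ i, ‖z i‖ ≤ 1) (hx : ‖x‖ ≤ 1) {k : ℕ} {e : ℕ → ℝ} {M ρ0 : ℝ}
    (hρ0 : ρ0 < 1)
    (hstar : ∀ ξ : ℂ, ρ0 < ‖ξ‖ → ‖ξ‖ < 1 →
      |∑ j ∈ Finset.range k, e j * (2 * (KK z x (j + 1) ξ).re)| ≤
      M * (2 * (KK z x 0 ξ).re - 1)) {g : ℂ → ℂ} (hg : Differentiable ℂ g)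
    (hre : ∀ w : ℂ, ‖w‖ = 1 → 0 ≤ (g w).re) :
    |∑ j ∈ Finset.range k, e j * (QQ z x (j + 1) g 1).re| ≤ M * (QQ z x 0 g 1).re := by
  have h1 : Tendsto (fun ρ : ℝ => |∑ j ∈ Finset.range k, e j * (QQ z x (j + 1) g ρ).re|)
      (𝓝[<] 1) (𝓝 |∑ j ∈ Finset.range k, e j * (QQ z x (j + 1) g 1).re|) := by
    apply Tendsto.abs
    apply tendsto_finsetSum
    intro j _
    exact ((Complex.continuous_re.tendsto _).comp (tendsto_QQ hz hx (j + 1) hg)).const_mul _
  have h2 : Tendsto (fun ρ : ℝ => M * (QQ z x 0 g ρ).re) (𝓝[<] 1) (𝓝 (M * (QQ z x 0 g 1).re)) :=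
    ((Complex.continuous_re.tendsto _).comp (tendsto_QQ hz hx 0 hg)).const_mul _
  refine le_of_tendsto_of_tendsto h1 h2 ?_
  have h3 : ∀ᶠ ρ : ℝ in 𝓝[<] 1, ρ ∈ Ioo (max ρ0 0) 1 :=
    Ioo_mem_nhdsLT (max_lt hρ0 zero_lt_one)
  filter_upwards [h3] with ρ hρ
  have h0 : 0 ≤ ρ := (le_max_right _ _).trans hρ.1.le
  exact star_dil hz hx h0 hρ.2 (fun ξ hξ => hstar ξ (by
    rw [hξ]; exact lt_of_le_of_lt (le_max_left _ _) hρ.1) (by rw [hξ]; exact hρ.2)) hg hre

end ineq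

end Pool.Agent.HStar
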